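import Pool.Agent.Helper43.Kep.KzA

/-!
KEP FFIN: collision free constellations.  All statements by compactness and continuity
(`kz_continuousOn`), times reduced to `[0, 2π]` by periodicity.
* `free_gap`: the function `(e, t) ↦ ‖kz e t - pl S (kz e) j t‖` is continuous and positive on the compact set
  `[a,b] × [0, 2π]`, so it has a positive lower bound; minimum over the finitely many `j ≠ 0`.
* `free_open`: if not, `e_n → e`, `t_n ∈ [0,2π]` with a collision; subsequence (or the tube lemma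
  `IsCompact.eventually_forall_mem`/`generalized_tube_lemma`).
* `Fint_ne_top`: the integrand is bounded by `η⁻¹` (`free_gap` with `a = b = e`).
-/

set_option autoImplicit false

namespace Pool.Agent.Helper43.Kep

open Real MeasureTheory Set Filter Topology

variable {J : Type} [AddCommGroup J] [Fintype J] [DecidableEq J] (S : Sym J)


private theorem ffin_cont (j : J) :
    ContinuousOn (fun p : ℝ × ℝ => ‖kz p.1 p.2 - pl S (kz p.1) j p.2‖) (Icc (-1 : ℝ) 1 ×ˢ univ) := by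
  have h1 : ContinuousOn (fun p : ℝ × ℝ => kz p.1 (p.2 + S.σ j)) (Icc (-1 : ℝ) 1 ×ˢ univ) := by
    have h2 : ContinuousOn (fun p : ℝ × ℝ => ((p.1, p.2 + S.σ j) : ℝ × ℝ))
        (Icc (-1 : ℝ) 1 ×ˢ univ) := by fun_prop
    exact ContinuousOn.comp (g := fun p : ℝ × ℝ => kz p.1 p.2)
      (f := fun p : ℝ × ℝ => ((p.1, p.2 + S.σ j) : ℝ × ℝ)) kz_continuousOn h2
      (fun p hp => ⟨hp.1, mem_univ _⟩)
  have h3 : ContinuousOn (fun p : ℝ × ℝ => S.R j * kz p.1 (p.2 + S.σ j))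
      (Icc (-1 : ℝ) 1 ×ˢ univ) := continuousOn_const.mul h1
  exact (kz_continuousOn.sub h3).norm

private theorem ffin_per {e : ℝ} (he : |e| ≤ 1) (j : J) :
    Function.Periodic (fun t => ‖kz e t - pl S (kz e) j t‖) (2 * π) := by
  intro t
  simp only [pl]
  rw [kz_add_two_pi he, add_right_comm, kz_add_two_pi he]

private theorem ffin_red {e : ℝ} (he : |e| ≤ 1) (j : J) (t : ℝ) :
    ∃ t' ∈ Icc (0 : ℝ) (2 * π),
      ‖kz e t - pl S (kz e) j t‖ = ‖kz e t' - pl S (kz e) j t'‖ := by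
  obtain ⟨t', ht', h⟩ := (ffin_per S he j).exists_mem_Ico₀ (by positivity) t
  exact ⟨t', Ico_subset_Icc_self ht', h⟩

theorem free_gap {a b : ℝ} (ha : -1 < a) (hb : b < 1) (h : ∀ e ∈ Icc a b, Free S e) :
    ∃ η > 0, ∀ e ∈ Icc a b, ∀ j : J, j ≠ 0 → ∀ t : ℝ, η ≤ ‖kz e t - pl S (kz e) j t‖ := by
  have hK : IsCompact (Icc a b ×ˢ Icc (0 : ℝ) (2 * π)) := isCompact_Icc.prod isCompact_Icc
  have hsub : Icc a b ×ˢ Icc (0 : ℝ) (2 * π) ⊆ Icc (-1 : ℝ) 1 ×ˢ univ := by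
    rintro p ⟨hp, -⟩
    exact ⟨⟨ha.le.trans hp.1, hp.2.trans hb.le⟩, mem_univ _⟩
  have h1 : ∀ j : J, ∃ η : ℝ, 0 < η ∧ (j ≠ 0 → ∀ p ∈ Icc a b ×ˢ Icc (0 : ℝ) (2 * π),
      η ≤ ‖kz p.1 p.2 - pl S (kz p.1) j p.2‖) := by
    intro j
    by_cases hj : j = 0
    · exact ⟨1, one_pos, fun h => absurd hj h⟩
    · obtain ⟨η, hη, h2⟩ := hK.exists_forall_le' ((ffin_cont S j).mono hsub) (a := 0)
        (fun p hp => norm_pos_iff.2 (sub_ne_zero.2 (h p.1 hp.1 j hj p.2)))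
      exact ⟨η, hη, fun _ => h2⟩
  choose η hη h2 using h1
  obtain ⟨j₀, hj₀⟩ := Finite.exists_min η
  refine ⟨η j₀, hη j₀, fun e he j hj t => ?_⟩
  have he1 : |e| ≤ 1 := abs_le.2 ⟨ha.le.trans he.1, he.2.trans hb.le⟩
  obtain ⟨t', ht', ht⟩ := ffin_red S he1 j t
  rw [ht]
  exact (hj₀ j).trans (h2 j hj (e, t') ⟨he, ht'⟩)

theorem free_open {e : ℝ} (he : |e| < 1) (h : Free S e) :
    ∃ η > 0, ∀ e', |e' - e| < η → |e'| < 1 ∧ Free S e' := by
  have hK : IsCompact (Icc (-1 : ℝ) 1 ×ˢ Icc (0 : ℝ) (2 * π)) := isCompact_Icc.prod isCompact_Icc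
  have hsub : Icc (-1 : ℝ) 1 ×ˢ Icc (0 : ℝ) (2 * π) ⊆ Icc (-1 : ℝ) 1 ×ˢ univ :=
    Set.prod_mono_right (subset_univ _)
  have h1 : ∀ j : J, ∃ η : ℝ, 0 < η ∧ (j ≠ 0 → ∀ e', |e' - e| < η → |e'| ≤ 1 →
      ∀ t ∈ Icc (0 : ℝ) (2 * π), ‖kz e' t - pl S (kz e') j t‖ ≠ 0) := by
    intro j
    by_cases hj : j = 0
    · exact ⟨1, one_pos, fun h => absurd hj h⟩
    · set Z : Set (ℝ × ℝ) := (Icc (-1 : ℝ) 1 ×ˢ Icc (0 : ℝ) (2 * π)) ∩
        (fun p : ℝ × ℝ => ‖kz p.1 p.2 - pl S (kz p.1) j p.2‖) ⁻¹' {0} with hZ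
      have hZc : IsClosed Z := ((ffin_cont S j).mono hsub).preimage_isClosed_of_isClosed
        hK.isClosed isClosed_singleton
      have hZk : IsCompact Z := hK.of_isClosed_subset hZc inter_subset_left
      have hP : IsClosed (Prod.fst '' Z) := (hZk.image continuous_fst).isClosed
      have heP : e ∈ (Prod.fst '' Z)ᶜ := by
        rintro ⟨p, hp, rfl⟩
        have : ‖kz p.1 p.2 - pl S (kz p.1) j p.2‖ = 0 := hp.2
        exact h j hj p.2 (sub_eq_zero.1 (norm_eq_zero.1 this))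
      obtain ⟨η, hη, h2⟩ := Metric.isOpen_iff.1 hP.isOpen_compl e heP
      refine ⟨η, hη, fun _ e' he' he1 t ht h0 => ?_⟩
      have h3 : e' ∈ (Prod.fst '' Z)ᶜ := h2 (by rw [Metric.mem_ball, Real.dist_eq]; exact he')
      exact h3 ⟨(e', t), ⟨⟨abs_le.1 he1, ht⟩, h0⟩, rfl⟩
  choose η hη h2 using h1
  obtain ⟨j₀, hj₀⟩ := Finite.exists_min η
  refine ⟨min (η j₀) (1 - |e|), lt_min (hη j₀) (by linarith), fun e' he' => ?_⟩
  have he1 : |e'| < 1 := by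
    have h3 := he'.trans_le (min_le_right _ _)
    have h4 : |e'| ≤ |e' - e| + |e| := by
      have := abs_add_le (e' - e) e
      rwa [sub_add_cancel] at this
    linarith
  refine ⟨he1, fun j hj t h0 => ?_⟩
  obtain ⟨t', ht', ht⟩ := ffin_red S he1.le j t
  have h3 : ‖kz e' t - pl S (kz e') j t‖ = 0 := by rw [h0, sub_self, norm_zero]
  exact h2 j hj e' ((he'.trans_le (min_le_left _ _)).trans_le (hj₀ j)) he1.le t' ht'
    (by rw [← ht, h3])

theorem Fint_ne_top {e : ℝ} (he : |e| < 1) (h : Free S e) : Fint S (kz e) ≠ ⊤ := by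
  obtain ⟨η, hη, hgap⟩ := free_gap S (a := e) (b := e) (abs_lt.1 he).1 (abs_lt.1 he).2
    (fun e' he' => by rwa [le_antisymm he'.2 he'.1])
  rw [Fint]
  refine ENNReal.sum_ne_top.2 (fun j hj => ?_)
  have hj0 : j ≠ 0 := (Finset.mem_erase.1 hj).1
  have h1 : ∫⁻ t in Ioc (0 : ℝ) (2 * π), (‖kz e t - pl S (kz e) j t‖ₑ)⁻¹ ≤
      ∫⁻ _ in Ioc (0 : ℝ) (2 * π), (ENNReal.ofReal η)⁻¹ := by
    refine lintegral_mono (fun t => ENNReal.inv_le_inv.2 ?_)
    rw [← ofReal_norm]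
    exact ENNReal.ofReal_le_ofReal (hgap e ⟨le_rfl, le_rfl⟩ j hj0 t)
  refine ne_top_of_le_ne_top ?_ h1
  rw [lintegral_const]
  refine ENNReal.mul_ne_top ?_ ?_
  · exact ENNReal.inv_ne_top.2 (ENNReal.ofReal_pos.2 hη).ne'
  · rw [Measure.restrict_apply_univ, Real.volume_Ioc]
    exact ENNReal.ofReal_ne_top

end Pool.Agent.Helper43.Kep
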