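import Pool.Agent.Helper43.Kep.KzB

/-!
KEP FTOP: a collision makes the interaction infinite.  If `f(s) = kz e s - pl S (kz e) j s` vanishes at `t` and is
differentiable at `t` then `‖f s‖ ≤ L |s - t|` near `t`, and `∫⁻ (‖f‖ₑ)⁻¹ ≥ ∫⁻ 1/(L |s - t|) = ∞` over a one sided
neighbourhood of a translate `t + 2πn` in `(0, 2π]` (`f` is `2π`-periodic; e.g.
`not_intervalIntegrable..inv`, or a direct lower bound with dyadic intervals, or
`intervalIntegral.intervalIntegrable_sub_inv_iff`).  So one summand of `Fint` is `⊤`.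
* `Fint_top`: `kz e` is differentiable (`kz_hasDerivAt`).
* `Fint_top_one`: `e = ±1`, `R_j = 1`, `t = -σ_j/2`: `kz e` is real and even, so `kz e (-σ/2) = kz e (σ/2)`;
  `sin (σ/2) ≠ 0` means that `±σ/2` is not a multiple of `π`, so `1 - e cos (ecc e t) ≠ 0` there
  (`cos (ecc e t) = ±1` would give `ecc e t = πn`, `t = πn`), so `ecc e` and `kz e` are differentiable there.
-/

set_option autoImplicit false

namespace Pool.Agent.Helper43.Kep

open Real MeasureTheory Set Filter Topology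

variable {J : Type} [AddCommGroup J] [Fintype J] [DecidableEq J] (S : Sym J)


/-- a differentiable periodic function with a zero has a nonintegrable inverse -/
private theorem ftop_core {f : ℝ → ℂ} (hper : ∀ t, f (t + 2 * π) = f t) {t₀ : ℝ} (h0 : f t₀ = 0)
    (hd : DifferentiableAt ℝ f t₀) : ∫⁻ t in Ioc (0 : ℝ) (2 * π), (‖f t‖ₑ)⁻¹ = ⊤ := by
  have hp : Function.Periodic f (2 * π) := hper
  have h2π : (0 : ℝ) < 2 * π := by positivity
  -- move the zero to the fundamental interval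
  obtain ⟨n, hn, -⟩ := existsUnique_add_zsmul_mem_Ioc h2π t₀ 0
  set t₁ : ℝ := t₀ + n • (2 * π) with ht₁
  rw [zero_add] at hn
  have hf1 : f t₁ = 0 := by
    rw [ht₁, hp.zsmul n]
    exact h0
  have hd1 : DifferentiableAt ℝ f t₁ := by
    have e1 : f = fun s => f (s - n • (2 * π)) := by
      funext s
      have := hp.zsmul n (s - n • (2 * π))
      rw [sub_add_cancel] at this
      exact this
    rw [e1]
    have h1 : DifferentiableAt ℝ f (t₁ - n • (2 * π)) := by
      rw [ht₁, add_sub_cancel_right]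
      exact hd
    exact h1.comp t₁ (by fun_prop)
  obtain ⟨L, hL⟩ := hd1.hasDerivAt.isBigO_sub.bound
  obtain ⟨δ, hδ, hball⟩ := Metric.eventually_nhds_iff.1 hL
  set L' : ℝ := |L| + 1 with hL'
  have hL0 : 0 < L' := by positivity
  set δ' : ℝ := min (δ / 2) t₁ with hδ'
  have hδ0 : 0 < δ' := lt_min (by positivity) hn.1
  have hsub : Ioc (t₁ - δ') t₁ ⊆ Ioc (0 : ℝ) (2 * π) := by
    intro s hs
    have h1 : δ' ≤ t₁ := min_le_right _ _
    exact ⟨by linarith [hs.1], hs.2.trans hn.2⟩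
  have hbd : ∀ s ∈ Ioc (t₁ - δ') t₁, ‖f s‖ ≤ L' * |s - t₁| := by
    intro s hs
    have h1 : δ' ≤ δ / 2 := min_le_left _ _
    have h2 : dist s t₁ < δ := by
      rw [Real.dist_eq, abs_of_nonpos (by linarith [hs.2])]
      linarith [hs.1]
    have h3 := hball h2
    rw [hf1, sub_zero, Real.norm_eq_abs] at h3
    refine h3.trans ?_
    exact mul_le_mul_of_nonneg_right (by linarith [le_abs_self L]) (abs_nonneg _)
  have htop : ∫⁻ s in Ioc (t₁ - δ') t₁, ‖(s - t₁)⁻¹‖ₑ = ⊤ := by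
    by_contra hne
    have h1 : IntegrableOn (fun s : ℝ => (s - t₁)⁻¹) (Ioc (t₁ - δ') t₁) volume :=
      ⟨(by fun_prop : Measurable fun s : ℝ => (s - t₁)⁻¹).aestronglyMeasurable,
        lt_top_iff_ne_top.2 hne⟩
    have h2 : IntervalIntegrable (fun s : ℝ => (s - t₁)⁻¹) volume (t₁ - δ') t₁ :=
      (intervalIntegrable_iff_integrableOn_Ioc_of_le (by linarith)).2 h1
    rcases intervalIntegrable_sub_inv_iff.1 h2 with h3 | h3
    · linarith
    · exact h3 right_mem_uIcc
  have hLi : (ENNReal.ofReal L')⁻¹ ≠ 0 := ENNReal.inv_ne_zero.2 ENNReal.ofReal_ne_top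
  rw [eq_top_iff]
  calc (⊤ : ENNReal) = (ENNReal.ofReal L')⁻¹ * ∫⁻ s in Ioc (t₁ - δ') t₁, ‖(s - t₁)⁻¹‖ₑ := by
        rw [htop, ENNReal.mul_top hLi]
    _ = ∫⁻ s in Ioc (t₁ - δ') t₁, (ENNReal.ofReal L')⁻¹ * ‖(s - t₁)⁻¹‖ₑ := by
        rw [lintegral_const_mul]
        fun_prop
    _ ≤ ∫⁻ s in Ioc (t₁ - δ') t₁, (‖f s‖ₑ)⁻¹ := by
        refine setLIntegral_mono' measurableSet_Ioc fun s hs => ?_
        rcases eq_or_ne s t₁ with h | h
        · rw [h, sub_self, inv_zero, enorm_zero, mul_zero]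
          exact zero_le
        · have h1 : s - t₁ ≠ 0 := sub_ne_zero.2 h
          rw [enorm_inv h1, ← ENNReal.mul_inv (Or.inr enorm_ne_top)
            (Or.inl ENNReal.ofReal_ne_top), ENNReal.inv_le_inv, ← ofReal_norm, ← ofReal_norm,
            ← ENNReal.ofReal_mul hL0.le]
          exact ENNReal.ofReal_le_ofReal (hbd s hs)
    _ ≤ _ := lintegral_mono_set hsub

private theorem ftop_kz (e t : ℝ) : kz e t = ((Real.cos (ecc e t) - e : ℝ) : ℂ) +
    ((Real.sqrt (1 - e ^ 2) * Real.sin (ecc e t) : ℝ) : ℂ) * Complex.I := by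
  apply Complex.ext
  · simp only [kz, Complex.add_re, Complex.ofReal_re, Complex.re_ofReal_mul, Complex.I_re,
      mul_zero, add_zero]
  · simp only [kz, Complex.add_im, Complex.ofReal_im, Complex.im_ofReal_mul, Complex.I_im,
      mul_one, zero_add]

private theorem ftop_per {e : ℝ} (he : |e| ≤ 1) (t : ℝ) : kz e (t + 2 * π) = kz e t := by
  rw [ftop_kz, ftop_kz, ecc_add_two_pi he, Real.cos_add_two_pi, Real.sin_add_two_pi]

private theorem ftop_diff {e t : ℝ} (he : |e| ≤ 1) (h : 1 - e * Real.cos (ecc e t) ≠ 0) :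
    DifferentiableAt ℝ (kz e) t := by
  have h1 : DifferentiableAt ℝ (ecc e) t := (ecc_hasDerivAt he h).differentiableAt
  have e1 : kz e = fun t => ((Real.cos (ecc e t) - e : ℝ) : ℂ) +
    ((Real.sqrt (1 - e ^ 2) * Real.sin (ecc e t) : ℝ) : ℂ) * Complex.I :=
    funext fun t => ftop_kz e t
  rw [e1]
  have h2 : DifferentiableAt ℝ (fun t => Real.cos (ecc e t) - e) t :=
    (h1.cos).sub_const e
  have h3 : DifferentiableAt ℝ (fun t => Real.sqrt (1 - e ^ 2) * Real.sin (ecc e t)) t :=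
    (h1.sin).const_mul _
  have h4 : DifferentiableAt ℝ (fun t => ((Real.cos (ecc e t) - e : ℝ) : ℂ)) t :=
    h2.hasDerivAt.ofReal_comp.differentiableAt
  have h5 : DifferentiableAt ℝ
      (fun t => ((Real.sqrt (1 - e ^ 2) * Real.sin (ecc e t) : ℝ) : ℂ)) t :=
    h3.hasDerivAt.ofReal_comp.differentiableAt
  exact h4.add (h5.mul_const _)

private theorem ftop_sum {e : ℝ} (he : |e| ≤ 1) {j : J} (hj : j ≠ 0) {t : ℝ}
    (h : kz e t = pl S (kz e) j t) (h1 : DifferentiableAt ℝ (kz e) t)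
    (h2 : DifferentiableAt ℝ (kz e) (t + S.σ j)) : Fint S (kz e) = ⊤ := by
  unfold Fint
  rw [ENNReal.sum_eq_top]
  refine ⟨j, Finset.mem_erase.2 ⟨hj, Finset.mem_univ j⟩, ?_⟩
  refine ftop_core (f := fun s => kz e s - pl S (kz e) j s) (t₀ := t) ?_ ?_ ?_
  · intro s
    simp only [pl]
    rw [ftop_per he, show s + 2 * π + S.σ j = s + S.σ j + 2 * π by ring, ftop_per he]
  · show kz e t - pl S (kz e) j t = 0
    rw [← h, sub_self]
  · have h3 : DifferentiableAt ℝ (fun s => kz e (s + S.σ j)) t :=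
      DifferentiableAt.comp (g := kz e) (f := fun s => s + S.σ j) t h2 (by fun_prop)
    exact h1.sub (h3.const_mul _)

theorem Fint_top {e : ℝ} (he : |e| < 1) {j : J} (hj : j ≠ 0) {t : ℝ}
    (h : kz e t = pl S (kz e) j t) : Fint S (kz e) = ⊤ :=
  ftop_sum S he.le hj h (kz_hasDerivAt he _).differentiableAt (kz_hasDerivAt he _).differentiableAt

theorem Fint_top_one {e : ℝ} (he : e = 1 ∨ e = -1) {j : J} (hj : j ≠ 0) (hR : S.R j = 1)
    (hσ : Real.sin (S.σ j / 2) ≠ 0) : Fint S (kz e) = ⊤ := by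
  have he1 : |e| ≤ 1 := by
    rcases he with h | h <;> rw [h] <;> norm_num
  have he2 : e ^ 2 = 1 := by
    rcases he with h | h <;> rw [h] <;> norm_num
  have hne : ∀ t : ℝ, Real.sin t ≠ 0 → 1 - e * Real.cos (ecc e t) ≠ 0 := by
    intro t ht hz
    have h1 : e * Real.cos (ecc e t) = 1 := by linarith
    have h2 : Real.cos (ecc e t) ^ 2 = 1 := by
      have : (e * Real.cos (ecc e t)) ^ 2 = 1 := by rw [h1]; norm_num
      rwa [mul_pow, he2, one_mul] at this
    have h3 : Real.sin (ecc e t) = 0 := by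
      have := Real.sin_sq_add_cos_sq (ecc e t)
      have h4 : Real.sin (ecc e t) ^ 2 = 0 := by linarith
      exact pow_eq_zero_iff (two_ne_zero) |>.1 h4
    have h4 := ecc_spec he1 t
    rw [h3, mul_zero, sub_zero] at h4
    rw [h4] at h3
    exact ht h3
  have hs1 : Real.sin (-(S.σ j / 2)) ≠ 0 := by
    rw [Real.sin_neg]
    exact neg_ne_zero.2 hσ
  refine ftop_sum S he1 hj (t := -(S.σ j / 2)) ?_ (ftop_diff he1 (hne _ hs1)) ?_
  · unfold pl
    rw [hR, one_mul, show -(S.σ j / 2) + S.σ j = S.σ j / 2 by ring, ftop_kz, ftop_kz,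
      ecc_neg he1, Real.cos_neg, he2, sub_self, Real.sqrt_zero, zero_mul, zero_mul]
  · rw [show -(S.σ j / 2) + S.σ j = S.σ j / 2 by ring]
    exact ftop_diff he1 (hne _ hσ)

end Pool.Agent.Helper43.Kep
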