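import Pool.Agent.Helper43.Kep.FLsc
import Pool.Agent.Helper43.Kep.FTop
import Pool.Agent.Helper43.Kep.FFin

/-!
KEP CHOOSE: choice of the interval.  Right side (the left side is the same with `-e`, or repeat): the set
`X = {x ∈ [e0, ep] : Fint S (kz x) = ⊤}` contains `ep`, not `e0`; let `r = sInf X`.  `Fint S (kz r) = ⊤`: if
`r = ep` clear; otherwise `|r| < 1`, and if `Fint (kz r) ≠ ⊤` then `r` is `Free` (`Fint_top`), so all `e'` near
`r` are `Free` with `Fint ≠ ⊤` (`free_open`, `Fint_ne_top`), a contradiction to `r = sInf X`.  So `r > e0`, all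
`x ∈ [e0, r)` are `Free`, and by `Fint_lsc_kz` (`B < ⊤`) there is `b ∈ [e0, r)` with `Fint > B` on `[b, r]`
(take `b > r - η`, `b ≥ e0`, `b > ` midpoint).  Similarly `l < a ≤ e0`.
-/

set_option autoImplicit false

namespace Pool.Agent.Helper43.Kep

open Real MeasureTheory Set Filter Topology

variable {J : Type} [AddCommGroup J] [Fintype J] [DecidableEq J] (S : Sym J)


private theorem choose_right (P : ℝ → Prop) (G : ℝ → ENNReal) {B : ENNReal} (hB : B ≠ ⊤)
    (h1 : ∀ e, |e| < 1 → P e → ∃ η > 0, ∀ e', |e' - e| < η → |e'| < 1 ∧ P e')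
    (h2 : ∀ e, |e| < 1 → P e → G e ≠ ⊤) (h3 : ∀ e, |e| < 1 → ¬ P e → G e = ⊤)
    (h4 : ∀ e, |e| ≤ 1 → B < G e → ∃ η > 0, ∀ e', |e'| ≤ 1 → |e' - e| < η → B < G e')
    {e0 ep : ℝ} (h5 : -1 < e0) (h6 : e0 < ep) (h7 : ep ≤ 1) (hf : P e0) (hp : G ep = ⊤) :
    ∃ b r : ℝ, e0 ≤ b ∧ b < r ∧ r ≤ 1 ∧ (∀ e ∈ Icc e0 b, P e) ∧ ∀ e ∈ Icc b r, B < G e := by
  set X : Set ℝ := {x | e0 ≤ x ∧ x ≤ ep ∧ G x = ⊤} with hX
  have hXn : X.Nonempty := ⟨ep, h6.le, le_rfl, hp⟩
  have hXb : BddBelow X := ⟨e0, fun x hx => hx.1⟩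
  set r := sInf X with hr
  have hr0 : e0 ≤ r := le_csInf hXn (fun x hx => hx.1)
  have hrp : r ≤ ep := csInf_le hXb ⟨h6.le, le_rfl, hp⟩
  have hGr : G r = ⊤ := by
    by_contra hne
    have hrne : r ≠ ep := fun h => hne (by rw [h, hp])
    have hrlt : r < ep := lt_of_le_of_ne hrp hrne
    have hrabs : |r| < 1 := abs_lt.2 ⟨by linarith, by linarith⟩
    have hPr : P r := by
      by_contra hP
      exact hne (h3 r hrabs hP)
    obtain ⟨η, hη, h8⟩ := h1 r hrabs hPr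
    obtain ⟨x, hx, hxr⟩ := exists_lt_of_csInf_lt hXn (show sInf X < r + η by rw [← hr]; linarith)
    have hrx : r ≤ x := csInf_le hXb hx
    obtain ⟨h9, h10⟩ := h8 x (by rw [abs_of_nonneg (by linarith)]; linarith)
    exact h2 x h9 h10 hx.2.2
  have hr1 : r ≤ 1 := hrp.trans h7
  have he0 : |e0| < 1 := abs_lt.2 ⟨h5, by linarith⟩
  have hrne : e0 ≠ r := fun h => h2 e0 he0 hf (by rw [h, hGr])
  have hlt : e0 < r := lt_of_le_of_ne hr0 hrne
  obtain ⟨η, hη, h8⟩ := h4 r (abs_le.2 ⟨by linarith, hr1⟩) (by rw [hGr]; exact lt_top_iff_ne_top.2 hB)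
  have hbr : max e0 (r - η / 2) < r := max_lt hlt (by linarith)
  refine ⟨max e0 (r - η / 2), r, le_max_left _ _, hbr, hr1, fun e he => ?_, fun e he => ?_⟩
  · have her : e < r := he.2.trans_lt hbr
    by_contra hP
    have hG := h3 e (abs_lt.2 ⟨h5.trans_le he.1, by linarith⟩) hP
    exact absurd (csInf_le hXb ⟨he.1, her.le.trans hrp, hG⟩) (not_le.2 her)
  · have h9 := (le_max_right e0 (r - η / 2)).trans he.1
    have h10 := (le_max_left e0 (r - η / 2)).trans he.1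
    refine h8 e (abs_le.2 ⟨by linarith, he.2.trans hr1⟩) ?_
    rw [abs_sub_comm, abs_of_nonneg (by linarith [he.2])]
    linarith

theorem choose {em e0 ep : ℝ} (h1 : -1 ≤ em) (h2 : em < e0) (h3 : e0 < ep) (h4 : ep ≤ 1)
    (hf : Free S e0) (hm : Fint S (kz em) = ⊤) (hp : Fint S (kz ep) = ⊤) {B : ENNReal}
    (hB : B ≠ ⊤) :
    ∃ l a b r : ℝ, -1 ≤ l ∧ l < a ∧ a ≤ e0 ∧ e0 ≤ b ∧ b < r ∧ r ≤ 1 ∧
      (∀ e ∈ Icc a b, Free S e) ∧ ∀ e ∈ Icc l r, Fint S (kz e) ≤ B → a ≤ e ∧ e ≤ b := by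
  have hk3 : ∀ e, |e| < 1 → ¬ Free S e → Fint S (kz e) = ⊤ := by
    intro e he hne
    rw [Free] at hne
    push Not at hne
    obtain ⟨j, hj, t, ht⟩ := hne
    exact Fint_top S he hj ht
  obtain ⟨b, r, hb1, hb2, hb3, hb4, hb5⟩ := choose_right (Free S) (fun e => Fint S (kz e)) hB
    (fun e he h => free_open S he h) (fun e he h => Fint_ne_top S he h) hk3
    (fun e he h => Fint_lsc_kz S he h) (by linarith) h3 h4 hf hp
  obtain ⟨b', r', hb1', hb2', hb3', hb4', hb5'⟩ := choose_right (fun e => Free S (-e))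
    (fun e => Fint S (kz (-e))) hB
    (fun e he h => by
      obtain ⟨η, hη, h5⟩ := free_open S (e := -e) (by rwa [abs_neg]) h
      refine ⟨η, hη, fun e' he' => ?_⟩
      obtain ⟨h6, h7⟩ := h5 (-e') (by
        rw [← abs_neg]
        convert he' using 2
        ring)
      exact ⟨by rwa [abs_neg] at h6, h7⟩)
    (fun e he h => Fint_ne_top S (by rwa [abs_neg]) h)
    (fun e he h => hk3 (-e) (by rwa [abs_neg]) h)
    (fun e he h => by
      obtain ⟨η, hη, h5⟩ := Fint_lsc_kz S (e := -e) (by rwa [abs_neg]) h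
      refine ⟨η, hη, fun e' he1 he' => h5 (-e') (by rwa [abs_neg]) ?_⟩
      rw [← abs_neg]
      convert he' using 2
      ring)
    (e0 := -e0) (ep := -em) (by linarith) (by linarith) (by linarith) (by rwa [neg_neg])
    (by simp only [neg_neg]; exact hm)
  refine ⟨-r', -b', b, r, by linarith, by linarith, by linarith, hb1, hb2, hb3, ?_, ?_⟩
  · intro e he
    rcases le_total e0 e with h | h
    · exact hb4 e ⟨h, he.2⟩
    · have := hb4' (-e) ⟨by linarith, by linarith [he.1]⟩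
      rwa [neg_neg] at this
  · intro e he hle
    constructor
    · by_contra hlt
      push Not at hlt
      have := hb5' (-e) ⟨by linarith, by linarith [he.1]⟩
      simp only [neg_neg] at this
      exact absurd hle (not_le.2 this)
    · by_contra hlt
      push Not at hlt
      exact absurd hle (not_le.2 (hb5 e ⟨hlt.le, he.2⟩))

end Pool.Agent.Helper43.Kep
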