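import Pool.Agent.Helper43.Kep.ELb

/-!
KEP CHR: adding the indirect term.  `χ(j) = R_j e^{ikσ_j}` satisfies `χ(i+j) = χ(i) χ(j)` (`σ_add`), so
`∑_j χ(j) = m` if `χ = 1` (`k ∈ KH S`) and `0` otherwise (choose `i` with `χ(i) ≠ 1`:
`χ(i) ∑ χ(j) = ∑ χ(i+j) = ∑ χ(j)`).  `acc = force + ε ∑_j pl S force j`, and
`∫_0^{2π} R_j f(t+σ_j) e^{-ikt} dt = R_j e^{ikσ_j} ∫ f e^{-ikt}` (periodicity).  With
`(1 - mκ)(1 + mε) = 1` (`kap_bounds`).
-/

set_option autoImplicit false

namespace Pool.Agent.Helper43.Kep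

open Real MeasureTheory Set Filter Topology

variable {J : Type} [AddCommGroup J] [Fintype J] [DecidableEq J] (S : Sym J)


omit [Fintype J] [DecidableEq J] in
private theorem chr_add (k : ℤ) (i j : J) :
    S.R (i + j) * Complex.exp (((k : ℝ) * S.σ (i + j) : ℝ) * Complex.I) =
      (S.R i * Complex.exp (((k : ℝ) * S.σ i : ℝ) * Complex.I)) *
        (S.R j * Complex.exp (((k : ℝ) * S.σ j : ℝ) * Complex.I)) := by
  obtain ⟨n, hn⟩ := S.σ_add i j
  rw [S.R_add, hn]
  have h : (((k : ℝ) * (S.σ i + S.σ j + 2 * π * n) : ℝ) : ℂ) * Complex.I =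
      (((k : ℝ) * S.σ i : ℝ) : ℂ) * Complex.I + (((k : ℝ) * S.σ j : ℝ) : ℂ) * Complex.I +
        ((k * n : ℤ) : ℂ) * (2 * π * Complex.I) := by
    push_cast
    ring
  rw [h, Complex.exp_add, Complex.exp_add, Complex.exp_int_mul_two_pi_mul_I, mul_one]
  ring

open Classical in
theorem charSum (k : ℤ) :
    ∑ j : J, S.R j * Complex.exp (((k : ℝ) * S.σ j : ℝ) * Complex.I) =
      if k ∈ KH S then (mm J : ℂ) else 0 := by
  split_ifs with hk
  · have h1 : ∀ j : J, S.R j * Complex.exp (((k : ℝ) * S.σ j : ℝ) * Complex.I) = 1 := hk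
    rw [Finset.sum_congr rfl fun j _ => h1 j, Finset.sum_const, Finset.card_univ, nsmul_eq_mul,
      mul_one]
    unfold mm
    push_cast
    rfl
  · have h1 : ¬ ∀ j : J, S.R j * Complex.exp (((k : ℝ) * S.σ j : ℝ) * Complex.I) = 1 := hk
    push Not at h1
    obtain ⟨i, hi⟩ := h1
    have h2 := Equiv.sum_comp (Equiv.addLeft i)
      (fun j : J => S.R j * Complex.exp (((k : ℝ) * S.σ j : ℝ) * Complex.I))
    simp only [Equiv.coe_addLeft, chr_add S k i] at h2
    rw [← Finset.mul_sum] at h2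
    have h3 : (S.R i * Complex.exp (((k : ℝ) * S.σ i : ℝ) * Complex.I) - 1) *
        ∑ j : J, S.R j * Complex.exp (((k : ℝ) * S.σ j : ℝ) * Complex.I) = 0 := by
      rw [sub_mul, one_mul, h2, sub_self]
    exact (mul_eq_zero.1 h3).resolve_left (sub_ne_zero.2 hi)

/-- the heliocentric acceleration of planet `0` -/
noncomputable def acc (ε : ℝ) (z : ℝ → ℂ) (t : ℝ) : ℂ :=
  force S ε z t + (ε : ℂ) * ∑ j : J, pl S (force S ε z) j t

open Classical in
theorem fourier_acc {ε : ℝ} (hε : 0 < ε) {c : ℤ → ℝ} (hc : FE c)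
    (h0 : ∀ t : ℝ, zc c t ≠ 0) (hj : ∀ j : J, j ≠ 0 → ∀ t : ℝ, zc c t ≠ pl S (zc c) j t)
    (h : ∀ k : ℤ, ∫ t in (0 : ℝ)..(2 * π), force S ε (zc c) t * ek (-k) t =
      ((-(2 * π * (k : ℝ) ^ 2 * (1 - if k ∈ KH S then mm J * kap J ε else 0) * c k) : ℝ) : ℂ))
    (k : ℤ) :
    ∫ t in (0 : ℝ)..(2 * π), acc S ε (zc c) t * ek (-k) t =
      ((-(2 * π * (k : ℝ) ^ 2 * c k) : ℝ) : ℂ) := by
  have hzc : Continuous (zc c) := zc_continuous hc
  have hzp : ∀ t, zc c (t + 2 * π) = zc c t := fun t => zc_periodic c t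
  have hfc : Continuous (force S ε (zc c)) := force_continuous S hzc h0 hj
  have hfp : ∀ t, force S ε (zc c) (t + 2 * π) = force S ε (zc c) t := force_periodic S hzp
  have hec : Continuous (ek (-k)) := by
    unfold ek
    fun_prop
  have hep : ∀ t, ek (-k) (t + 2 * π) = ek (-k) t := by
    intro t
    unfold ek
    have h : ((((-k : ℤ) : ℝ) * (t + 2 * π) : ℝ) : ℂ) * Complex.I =
        ((((-k : ℤ) : ℝ) * t : ℝ) : ℂ) * Complex.I + ((-k : ℤ) : ℂ) * (2 * π * Complex.I) := by
      push_cast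
      ring
    rw [h, Complex.exp_add, Complex.exp_int_mul_two_pi_mul_I, mul_one]
  set F : ℝ → ℂ := force S ε (zc c) with hF
  have hes : ∀ (j : J) (s : ℝ), ek (-k) (s - S.σ j) =
      Complex.exp (((k : ℝ) * S.σ j : ℝ) * Complex.I) * ek (-k) s := by
    intro j s
    unfold ek
    rw [← Complex.exp_add]
    congr 1
    push_cast
    ring
  have hint : ∀ j : J, ∫ t in (0 : ℝ)..(2 * π), pl S F j t * ek (-k) t =
      (S.R j * Complex.exp (((k : ℝ) * S.σ j : ℝ) * Complex.I)) *
        ∫ t in (0 : ℝ)..(2 * π), F t * ek (-k) t := by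
    intro j
    have h1 : (fun t => pl S F j t * ek (-k) t) =
        fun t => (fun s => S.R j * (F s * ek (-k) (s - S.σ j))) (t + S.σ j) := by
      funext t
      unfold pl
      simp only [add_sub_cancel_right]
      ring
    rw [h1, intervalIntegral.integral_comp_add_right
      (fun s => S.R j * (F s * ek (-k) (s - S.σ j))) (S.σ j)]
    have hper : Function.Periodic (fun s => S.R j * (F s * ek (-k) (s - S.σ j))) (2 * π) := by
      intro s
      show S.R j * (F (s + 2 * π) * ek (-k) (s + 2 * π - S.σ j)) = _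
      rw [hfp, show s + 2 * π - S.σ j = s - S.σ j + 2 * π by ring, hep]
    have h2 := hper.intervalIntegral_add_eq (0 + S.σ j) 0
    rw [zero_add] at h2 ⊢
    rw [add_comm (2 * π) (S.σ j), h2, zero_add]
    simp only [hes]
    rw [← intervalIntegral.integral_const_mul]
    refine intervalIntegral.integral_congr fun t _ => ?_
    show S.R j * (F t * (Complex.exp (((k : ℝ) * S.σ j : ℝ) * Complex.I) * ek (-k) t)) = _
    ring
  have hii : ∀ j : J, IntervalIntegrable (fun t => pl S F j t * ek (-k) t) volume 0 (2 * π) := by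
    intro j
    have : Continuous (pl S F j) := by
      unfold pl
      fun_prop
    exact (this.mul hec).intervalIntegrable _ _
  have h2 : ∫ t in (0 : ℝ)..(2 * π), acc S ε (zc c) t * ek (-k) t =
      (1 + (ε : ℂ) * ∑ j : J, S.R j * Complex.exp (((k : ℝ) * S.σ j : ℝ) * Complex.I)) *
        ∫ t in (0 : ℝ)..(2 * π), F t * ek (-k) t := by
    have h3 : (fun t => acc S ε (zc c) t * ek (-k) t) =
        fun t => F t * ek (-k) t + (ε : ℂ) * ∑ j : J, pl S F j t * ek (-k) t := by
      funext t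
      unfold acc
      rw [← hF, ← Finset.sum_mul]
      ring
    have h4 : IntervalIntegrable (fun t => F t * ek (-k) t) volume 0 (2 * π) :=
      (hfc.mul hec).intervalIntegrable _ _
    rw [h3, intervalIntegral.integral_add h4,
      intervalIntegral.integral_const_mul, intervalIntegral.integral_finsetSum fun j _ => hii j,
      Finset.sum_congr rfl fun j _ => hint j, ← Finset.sum_mul]
    · ring
    · have : Continuous fun t => (ε : ℂ) * ∑ j : J, pl S F j t * ek (-k) t := by
        refine continuous_const.mul (continuous_finsetSum _ fun j _ => ?_)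
        have : Continuous (pl S F j) := by
          unfold pl
          fun_prop
        exact this.mul hec
      exact this.intervalIntegrable _ _
  rw [h2, h k, charSum S k]
  have hkb := kap_bounds (J := J) hε
  by_cases hk : k ∈ KH S
  · rw [if_pos hk, if_pos hk]
    have h3 : (1 - mm J * kap J ε) * (1 + mm J * ε) = 1 := hkb.2.2.2
    have h4 : ((1 : ℂ) + (ε : ℂ) * (mm J : ℂ)) = ((1 + mm J * ε : ℝ) : ℂ) := by
      push_cast
      ring
    rw [h4, ← Complex.ofReal_mul]
    congr 1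
    linear_combination (-(2 * π * (k : ℝ) ^ 2 * c k)) * h3
  · rw [if_neg hk, if_neg hk]
    simp

end Pool.Agent.Helper43.Kep
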