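import Pool.Agent.Helper43.Kep.Ser

/-!
KEP COMP: compactness.  `|c_k| ≤ √C` for `k ≠ 0` (`k² c_k² ≤ en c ≤ C`), `|c_0| ≤ B`: the sequence lies in a
product of compact intervals, which is compact (`isCompact_univ_pi`) and the product of countably many copies
of `ℝ` is first countable, so `IsCompact.tendsto_subseq` applies.
`c0_bound`: `2π c_0 = ∫_0^{2π} zc c` (`intervalIntegral.integral_tsum` / `hasSum_integral_of_summable_norm`,
only the term `k = 0` has nonzero integral).
-/

set_option autoImplicit false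

namespace Pool.Agent.Helper43.Kep

open Real MeasureTheory Set Filter Topology

private theorem comp_exp_int (k : ℤ) :
    ∫ t in (0 : ℝ)..(2 * π), Complex.exp (((k : ℝ) * t : ℝ) * Complex.I) =
      if k = 0 then (2 * π : ℂ) else 0 := by
  split_ifs with hk
  · subst hk
    simp
  · have hc : (k : ℂ) * Complex.I ≠ 0 :=
      mul_ne_zero (by exact_mod_cast hk) Complex.I_ne_zero
    have h1 : ∀ t : ℝ, Complex.exp (((k : ℝ) * t : ℝ) * Complex.I) =
        Complex.exp (((k : ℂ) * Complex.I) * t) := by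
      intro t
      congr 1
      push_cast
      ring
    simp_rw [h1]
    rw [integral_exp_mul_complex hc]
    have h2 : Complex.exp ((k : ℂ) * Complex.I * ((2 * π : ℝ) : ℂ)) = 1 := by
      have := Complex.exp_int_mul_two_pi_mul_I k
      rw [← this]
      congr 1
      push_cast
      ring
    rw [h2]
    simp

theorem compact {c : ℕ → ℤ → ℝ} {C B : ℝ} (h : ∀ n, FE (c n)) (hC : ∀ n, en (c n) ≤ C)
    (hB : ∀ n, |c n 0| ≤ B) :
    ∃ φ : ℕ → ℕ, StrictMono φ ∧ ∃ d : ℤ → ℝ, ∀ k, Tendsto (fun n => c (φ n) k) atTop (𝓝 (d k)) := by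
  have hb : ∀ n k, |c n k| ≤ max (√C) B := by
    intro n k
    by_cases hk : k = 0
    · rw [hk]
      exact (hB n).trans (le_max_right _ _)
    · refine le_trans ?_ (le_max_left _ _)
      apply Real.abs_le_sqrt
      have h1 : (k : ℝ) ^ 2 * c n k ^ 2 ≤ C :=
        ((h n).le_tsum k (fun j _ => by positivity)).trans (hC n)
      have h2 : (1 : ℝ) ≤ (k : ℝ) ^ 2 := by
        have : (1 : ℤ) ≤ k ^ 2 := by
          have := sq_nonneg k
          have h3 : k ^ 2 ≠ 0 := pow_ne_zero 2 hk
          omega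
        exact_mod_cast this
      nlinarith [sq_nonneg (c n k)]
  have hK : IsCompact (Set.pi univ (fun _ : ℤ => Icc (-(max (√C) B)) (max (√C) B))) :=
    isCompact_univ_pi (fun _ => isCompact_Icc)
  obtain ⟨d, -, φ, hφ, hlim⟩ := hK.tendsto_subseq (x := c)
    (fun n => fun k _ => abs_le.1 (hb n k))
  exact ⟨φ, hφ, d, fun k => (tendsto_pi_nhds.1 hlim) k⟩

theorem c0_bound {c : ℤ → ℝ} (h : FE c) {M : ℝ} (hM : ∀ t : ℝ, ‖zc c t‖ ≤ M) : |c 0| ≤ M := by
  have hs := summable_abs h
  have hnorm : ∀ (k : ℤ) (t : ℝ),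
      ‖(c k : ℂ) * Complex.exp (((k : ℝ) * t : ℝ) * Complex.I)‖ = |c k| := by
    intro k t
    rw [norm_mul, Complex.norm_exp_ofReal_mul_I, mul_one, Complex.norm_real, Real.norm_eq_abs]
  have hsum : HasSum (fun k : ℤ => ∫ t in (0 : ℝ)..(2 * π),
      (c k : ℂ) * Complex.exp (((k : ℝ) * t : ℝ) * Complex.I)) (∫ t in (0 : ℝ)..(2 * π), zc c t) := by
    refine intervalIntegral.hasSum_integral_of_dominated_convergence (fun k _ => |c k|)
      (fun k => ?_) (fun k => ?_) ?_ ?_ ?_
    · refine Continuous.aestronglyMeasurable ?_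
      fun_prop
    · exact Eventually.of_forall (fun t _ => (hnorm k t).le)
    · exact Eventually.of_forall (fun t _ => hs)
    · exact intervalIntegrable_const
    · refine Eventually.of_forall (fun t _ => ?_)
      refine (Summable.of_norm ?_).hasSum
      simp_rw [hnorm]
      exact hs
  have h1 : ∀ k : ℤ, ∫ t in (0 : ℝ)..(2 * π),
      (c k : ℂ) * Complex.exp (((k : ℝ) * t : ℝ) * Complex.I) =
      if k = 0 then (c 0 : ℂ) * (2 * π) else 0 := by
    intro k
    rw [intervalIntegral.integral_const_mul, comp_exp_int]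
    split_ifs with hk
    · rw [hk]
    · rw [mul_zero]
  simp_rw [h1] at hsum
  have h2 := hsum.unique (hasSum_ite_eq (0 : ℤ) ((c 0 : ℂ) * (2 * π)))
  have h3 := intervalIntegral.norm_integral_le_of_norm_le_const (a := 0) (b := 2 * π)
    (f := zc c) (C := M) (fun t _ => hM t)
  rw [h2] at h3
  have hpi := Real.pi_pos
  rw [norm_mul, Complex.norm_real, Real.norm_eq_abs, sub_zero,
    abs_of_pos (show (0 : ℝ) < 2 * π by positivity)] at h3
  have h4 : ‖(2 * π : ℂ)‖ = 2 * π := by
    have : (2 * π : ℂ) = ((2 * π : ℝ) : ℂ) := by push_cast; ring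
    rw [this, Complex.norm_real, Real.norm_of_nonneg (by positivity)]
  rw [h4] at h3
  exact le_of_mul_le_mul_right h3 (by positivity)

end Pool.Agent.Helper43.Kep
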