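import Pool.Agent.Helper43.Kep.Ser

/-!
KEP CONV: convergence of coefficients with bounded energy.
* `FE d`, lower semicontinuity: finite partial sums converge, each is `≤ C` (`summable_of_sum_le`,
  `tsum_le_of_sum_le`).
* uniform convergence: `e = c n - d` has `∑ k² e_k² ≤ 4C`.  For `η > 0`: `|e_k| ≤ (ξ k² e_k² + 1/(ξ k²))/2` for
  `k ≠ 0`; choose `ξ` with `2 ξ C ≤ η/3`, then a finite set `s ∋ 0` of indices with
  `∑_{k ∉ s} 1/(2 ξ k²) ≤ η/3`; the finitely many terms with `k ∈ s` tend to `0`.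
* `wen_lsc`: finite partial sums again.
-/

set_option autoImplicit false

namespace Pool.Agent.Helper43.Kep

open Real MeasureTheory Set Filter Topology

private theorem conv_sub {c d : ℤ → ℝ} (hc : FE c) (hd : FE d) (t : ℝ) :
    ‖zc c t - zc d t‖ ≤ ∑' k : ℤ, |c k - d k| := by
  have hn : ∀ (a : ℝ) (k : ℤ), ‖(a : ℂ) * Complex.exp (((k : ℝ) * t : ℝ) * Complex.I)‖ = |a| := by
    intro a k
    rw [norm_mul, Complex.norm_exp_ofReal_mul_I, mul_one, Complex.norm_real, Real.norm_eq_abs]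
  have h1 : ∀ {b : ℤ → ℝ}, FE b → Summable fun k : ℤ =>
      (b k : ℂ) * Complex.exp (((k : ℝ) * t : ℝ) * Complex.I) := by
    intro b hb
    refine Summable.of_norm ?_
    simp only [hn]
    exact summable_abs hb
  have hs : Summable fun k : ℤ => |c k - d k| :=
    Summable.of_nonneg_of_le (fun _ => abs_nonneg _) (fun k => abs_sub _ _)
      ((summable_abs hc).add (summable_abs hd))
  unfold zc
  rw [← (h1 hc).tsum_sub (h1 hd)]
  have e1 : ∀ k : ℤ, (c k : ℂ) * Complex.exp (((k : ℝ) * t : ℝ) * Complex.I) -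
      (d k : ℂ) * Complex.exp (((k : ℝ) * t : ℝ) * Complex.I) =
      ((c k - d k : ℝ) : ℂ) * Complex.exp (((k : ℝ) * t : ℝ) * Complex.I) := by
    intro k
    push_cast
    ring
  simp only [e1]
  have h2 : Summable fun k : ℤ =>
      ‖((c k - d k : ℝ) : ℂ) * Complex.exp (((k : ℝ) * t : ℝ) * Complex.I)‖ := by
    simp only [hn]
    exact hs
  refine (norm_tsum_le_tsum_norm h2).trans ?_
  simp only [hn]
  exact le_rfl

theorem conv {c : ℕ → ℤ → ℝ} {d : ℤ → ℝ} {C : ℝ} (h : ∀ n, FE (c n)) (hC : ∀ n, en (c n) ≤ C)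
    (hp : ∀ k, Tendsto (fun n => c n k) atTop (𝓝 (d k))) :
    FE d ∧ en d ≤ C ∧ ∀ η > 0, ∀ᶠ n in atTop, ∀ t : ℝ, ‖zc (c n) t - zc d t‖ ≤ η := by
  classical
  have hfin : ∀ s : Finset ℤ, ∑ k ∈ s, (k : ℝ) ^ 2 * d k ^ 2 ≤ C := by
    intro s
    have h1 : Tendsto (fun n => ∑ k ∈ s, (k : ℝ) ^ 2 * c n k ^ 2) atTop
        (𝓝 (∑ k ∈ s, (k : ℝ) ^ 2 * d k ^ 2)) :=
      tendsto_finset_sum _ fun k _ => ((hp k).pow 2).const_mul _
    refine le_of_tendsto h1 (Eventually.of_forall fun n => ?_)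
    exact ((h n).sum_le_tsum s fun k _ => by positivity).trans (hC n)
  have hd : FE d := summable_of_sum_le (fun k => by positivity) hfin
  have hen : en d ≤ C := hd.tsum_le_of_sum_le hfin
  refine ⟨hd, hen, fun η hη => ?_⟩
  -- the parameters
  set ξ : ℝ := η / (6 * (|C| + 1)) with hξ
  have hC1 : 0 < |C| + 1 := by positivity
  have hξ0 : 0 < ξ := by positivity
  have hξC : 2 * ξ * C ≤ η / 3 := by
    have h1 : C ≤ |C| + 1 := by linarith [le_abs_self C]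
    calc 2 * ξ * C ≤ 2 * ξ * (|C| + 1) := by gcongr
      _ = η / 3 := by rw [hξ]; field_simp; ring
  have hf : Summable fun k : ℤ => 1 / (k : ℝ) ^ 2 :=
    Real.summable_one_div_int_pow.2 one_lt_two
  have hev : ∀ᶠ s : Finset ℤ in atTop,
      dist (∑ k ∈ s, 1 / (k : ℝ) ^ 2) (∑' k : ℤ, 1 / (k : ℝ) ^ 2) < 2 * ξ * (η / 3) :=
    hf.hasSum.eventually (Metric.ball_mem_nhds _ (by positivity))
  obtain ⟨s, hs1, hs0⟩ := (hev.and (eventually_ge_atTop ({0} : Finset ℤ))).exists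
  have h0s : (0 : ℤ) ∈ s := hs0 (Finset.mem_singleton_self 0)
  have hR : (∑' k : ℤ, 1 / (k : ℝ) ^ 2) - ∑ k ∈ s, 1 / (k : ℝ) ^ 2 ≤ 2 * ξ * (η / 3) := by
    rw [Real.dist_eq] at hs1
    have := neg_abs_le ((∑ k ∈ s, 1 / (k : ℝ) ^ 2) - ∑' k : ℤ, 1 / (k : ℝ) ^ 2)
    linarith
  have hft : Tendsto (fun n => ∑ k ∈ s, |c n k - d k|) atTop (𝓝 0) := by
    have h1 : Tendsto (fun n => ∑ k ∈ s, |c n k - d k|) atTop (𝓝 (∑ k ∈ s, |d k - d k|)) :=
      tendsto_finset_sum _ fun k _ => ((hp k).sub_const _).abs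
    simpa using h1
  filter_upwards [hft.eventually (ge_mem_nhds (show (0 : ℝ) < η / 3 by positivity))] with n hn t
  have hn : ∑ k ∈ s, |c n k - d k| ≤ η / 3 := hn
  refine (conv_sub (h n) hd t).trans ?_
  -- the pieces
  have hsum : Summable fun k : ℤ => |c n k - d k| :=
    Summable.of_nonneg_of_le (fun _ => abs_nonneg _) (fun k => abs_sub _ _)
      ((summable_abs (h n)).add (summable_abs hd))
  have hq : Summable fun k : ℤ => (k : ℝ) ^ 2 * (c n k - d k) ^ 2 := by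
    refine Summable.of_nonneg_of_le (fun k => by positivity) (fun k => ?_)
      (((h n).mul_left 2).add (hd.mul_left 2))
    have : (c n k - d k) ^ 2 ≤ 2 * c n k ^ 2 + 2 * d k ^ 2 := by nlinarith [sq_nonneg (c n k + d k)]
    calc (k : ℝ) ^ 2 * (c n k - d k) ^ 2 ≤ (k : ℝ) ^ 2 * (2 * c n k ^ 2 + 2 * d k ^ 2) := by
          gcongr
      _ = _ := by ring
  have hq4 : ∑' k : ℤ, (k : ℝ) ^ 2 * (c n k - d k) ^ 2 ≤ 4 * C := by
    have h1 : ∑' k : ℤ, (k : ℝ) ^ 2 * (c n k - d k) ^ 2 ≤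
        ∑' k : ℤ, (2 * ((k : ℝ) ^ 2 * c n k ^ 2) + 2 * ((k : ℝ) ^ 2 * d k ^ 2)) := by
      refine hq.tsum_le_tsum (fun k => ?_) (((h n).mul_left 2).add (hd.mul_left 2))
      have : (c n k - d k) ^ 2 ≤ 2 * c n k ^ 2 + 2 * d k ^ 2 := by
        nlinarith [sq_nonneg (c n k + d k)]
      calc (k : ℝ) ^ 2 * (c n k - d k) ^ 2 ≤ (k : ℝ) ^ 2 * (2 * c n k ^ 2 + 2 * d k ^ 2) := by
            gcongr
        _ = _ := by ring
    rw [((h n).mul_left 2).tsum_add (hd.mul_left 2), tsum_mul_left, tsum_mul_left] at h1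
    have h2 : ∑' k : ℤ, (k : ℝ) ^ 2 * c n k ^ 2 ≤ C := hC n
    have h3 : ∑' k : ℤ, (k : ℝ) ^ 2 * d k ^ 2 ≤ C := hen
    linarith
  set A : ℤ → ℝ := fun k => if k ∈ s then |c n k - d k| else 0 with hA
  set Bf : ℤ → ℝ := fun k => if k ∈ s then 1 / (k : ℝ) ^ 2 else 0 with hB
  have hAs : Summable A := summable_of_ne_finset_zero (s := s) fun k hk => by simp [hA, hk]
  have hBs : Summable Bf := summable_of_ne_finset_zero (s := s) fun k hk => by simp [hB, hk]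
  have hAt : ∑' k, A k = ∑ k ∈ s, |c n k - d k| := by
    rw [tsum_eq_sum (s := s) fun k hk => by simp [hA, hk]]
    exact Finset.sum_congr rfl fun k hk => by simp [hA, hk]
  have hBt : ∑' k, Bf k = ∑ k ∈ s, 1 / (k : ℝ) ^ 2 := by
    rw [tsum_eq_sum (s := s) fun k hk => by simp [hB, hk]]
    exact Finset.sum_congr rfl fun k hk => by simp [hB, hk]
  have hpt : ∀ k : ℤ, |c n k - d k| ≤ A k + ((ξ / 2) * ((k : ℝ) ^ 2 * (c n k - d k) ^ 2) +
      (2 * ξ)⁻¹ * (1 / (k : ℝ) ^ 2 - Bf k)) := by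
    intro k
    by_cases hk : k ∈ s
    · have e1 : A k = |c n k - d k| := by simp [hA, hk]
      have e2 : Bf k = 1 / (k : ℝ) ^ 2 := by simp [hB, hk]
      rw [e1, e2, sub_self, mul_zero, add_zero]
      have : 0 ≤ (ξ / 2) * ((k : ℝ) ^ 2 * (c n k - d k) ^ 2) := by positivity
      linarith
    · have e1 : A k = 0 := by simp [hA, hk]
      have e2 : Bf k = 0 := by simp [hB, hk]
      rw [e1, e2, sub_zero, zero_add]
      have hk0 : (k : ℝ) ≠ 0 := by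
        intro h0
        apply hk
        have : k = 0 := by exact_mod_cast h0
        rw [this]
        exact h0s
      have hk2 : 0 < (k : ℝ) ^ 2 := by positivity
      set u := |c n k - d k| with hu
      have hu2 : (c n k - d k) ^ 2 = u ^ 2 := (sq_abs _).symm
      rw [hu2]
      have key : 0 ≤ (2 * ξ * (k : ℝ) ^ 2)⁻¹ * (ξ * (k : ℝ) ^ 2 * u - 1) ^ 2 := by positivity
      have e3 : (2 * ξ * (k : ℝ) ^ 2)⁻¹ * (ξ * (k : ℝ) ^ 2 * u - 1) ^ 2 =
          (ξ / 2) * ((k : ℝ) ^ 2 * u ^ 2) + (2 * ξ)⁻¹ * (1 / (k : ℝ) ^ 2) - u := by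
        field_simp
        ring
      linarith
  have hbig := hsum.tsum_le_tsum hpt
    (hAs.add ((hq.mul_left (ξ / 2)).add ((hf.sub hBs).mul_left (2 * ξ)⁻¹)))
  rw [hAs.tsum_add ((hq.mul_left (ξ / 2)).add ((hf.sub hBs).mul_left (2 * ξ)⁻¹)),
    (hq.mul_left (ξ / 2)).tsum_add ((hf.sub hBs).mul_left (2 * ξ)⁻¹), tsum_mul_left,
    tsum_mul_left, hf.tsum_sub hBs, hAt, hBt] at hbig
  have h5 : (ξ / 2) * ∑' k : ℤ, (k : ℝ) ^ 2 * (c n k - d k) ^ 2 ≤ η / 3 := by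
    calc _ ≤ (ξ / 2) * (4 * C) := by gcongr
      _ = 2 * ξ * C := by ring
      _ ≤ _ := hξC
  have h6 : (2 * ξ)⁻¹ * ((∑' k : ℤ, 1 / (k : ℝ) ^ 2) - ∑ k ∈ s, 1 / (k : ℝ) ^ 2) ≤ η / 3 := by
    rw [inv_mul_le_iff₀ (by positivity)]
    exact hR
  linarith

theorem wen_lsc {c : ℕ → ℤ → ℝ} {d w : ℤ → ℝ} {E : ℝ} (h : ∀ n, FE (c n)) (hd : FE d)
    (hw : ∀ k, 0 ≤ w k ∧ w k ≤ 1) (hp : ∀ k, Tendsto (fun n => c n k) atTop (𝓝 (d k)))
    (hE : Tendsto (fun n => ∑' k : ℤ, w k * ((k : ℝ) ^ 2 * c n k ^ 2)) atTop (𝓝 E)) :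
    ∑' k : ℤ, w k * ((k : ℝ) ^ 2 * d k ^ 2) ≤ E := by
  have hs : ∀ {b : ℤ → ℝ}, FE b → Summable fun k : ℤ => w k * ((k : ℝ) ^ 2 * b k ^ 2) := by
    intro b hb
    refine Summable.of_nonneg_of_le (fun k => mul_nonneg (hw k).1 (by positivity)) (fun k => ?_) hb
    exact mul_le_of_le_one_left (by positivity) (hw k).2
  refine (hs hd).tsum_le_of_sum_le fun s => ?_
  have h1 : Tendsto (fun n => ∑ k ∈ s, w k * ((k : ℝ) ^ 2 * c n k ^ 2)) atTop
      (𝓝 (∑ k ∈ s, w k * ((k : ℝ) ^ 2 * d k ^ 2))) :=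
    tendsto_finset_sum _ fun k _ => (((hp k).pow 2).const_mul _).const_mul _
  refine le_of_tendsto_of_tendsto h1 hE (Eventually.of_forall fun n => ?_)
  exact (hs (h n)).sum_le_tsum s fun k _ => mul_nonneg (hw k).1 (by positivity)

end Pool.Agent.Helper43.Kep
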