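import Mathlib

/-!
KEP = MP_d98925_mp (braid types realised by periodic solutions of the planar N-body problem).
Definitions: Kepler ellipses, Kepler constellations, the action, free homotopy (braid type).

THEOREM (KEP).  Let `J` be a finite group of pairs (rotation `R_j`, time shift `σ_j`), `m = |J|`, `N = m + 1`.
Constellation of eccentricity `e`: sun at `0`, planets `R_j z_e(t + σ_j)` with `z_e` the Kepler ellipse of
eccentricity `e` and period `2π`.  Let `-1 ≤ e₋ < e₀ < e₊ ≤ 1`, the constellation `e₀` without collision, the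
constellations `e₋, e₊` with a collision of planets.  Then for all small `ε > 0` the braid type of the
constellation `e₀` is realised by a `2π`-periodic solution of the `N`-body problem with masses
`1, ε, ..., ε`.

IDEA.  Symmetric loops `z(t) = ∑ c_k e^{ikt}`, `c_k` real (heliocentric coordinates).  Functional
`Φ_ε(z) = ∫ |z'|^2/2 + 1/|z| + (ε/2) ∑_{j ≠ 0} ∫ 1/|z(t) - R_j z(t + σ_j)|` minus a small kinetic correction
`π m κ ∑_{k ∈ KH} k^2 c_k^2` for the motion of the sun, `κ = ε/(1+mε)`.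
* Gordon: `∫ |z'|^2/2 + 1/|z| ≥ 3π` near the Kepler ellipses with equality exactly for the ellipses
  (Levi-Civita `z = w^2` and a weighted Wirtinger inequality).
* `F` = the interaction is lower semicontinuous (Fatou), and is `+∞` on a collision ellipse.
* Minimise `Φ_ε` in a small neighbourhood of the ellipses `z_{e'}`, `e' ∈ [a,b]`; for `ε → 0` minimisers
  converge to an ellipse with bounded `F`, so in the interior: Euler-Lagrange holds.
-/

set_option autoImplicit false

namespace Pool.Agent.Helper43.Kep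

open Real MeasureTheory Set Filter Topology

/-! ### Kepler ellipses -/

/-- Kepler's equation: for `|e| ≤ 1`, `ecc e t` is the unique `x` with `x - e sin x = t`. -/
noncomputable def ecc (e t : ℝ) : ℝ := Function.invFun (fun x : ℝ => x - e * Real.sin x) t

/-- The Kepler ellipse of eccentricity `|e|` and period `2π` (sun at the origin, pericentre on the positive
real axis at time `0` if `e > 0`, apocentre if `e < 0`); for `e = ±1` the degenerate ellipse. -/
noncomputable def kz (e t : ℝ) : ℂ :=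
  ⟨Real.cos (ecc e t) - e, Real.sqrt (1 - e ^ 2) * Real.sin (ecc e t)⟩

/-- its velocity (for `|e| < 1`) -/
noncomputable def kz' (e t : ℝ) : ℂ :=
  ⟨-Real.sin (ecc e t) / (1 - e * Real.cos (ecc e t)),
    Real.sqrt (1 - e ^ 2) * Real.cos (ecc e t) / (1 - e * Real.cos (ecc e t))⟩

/-! ### Trigonometric series with real coefficients -/

/-- `z_c(t) = ∑ c_k e^{ikt}` -/
noncomputable def zc (c : ℤ → ℝ) (t : ℝ) : ℂ :=
  ∑' k : ℤ, (c k : ℂ) * Complex.exp (((k : ℝ) * t : ℝ) * Complex.I)

/-- finite energy -/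
def FE (c : ℤ → ℝ) : Prop := Summable fun k : ℤ => (k : ℝ) ^ 2 * c k ^ 2

/-- `∑ k² c_k²`, i.e. `(1/2π) ∫ |z'|²` -/
noncomputable def en (c : ℤ → ℝ) : ℝ := ∑' k : ℤ, (k : ℝ) ^ 2 * c k ^ 2

/-- `∫_0^{2π} 1/|z|` -/
noncomputable def pot (z : ℝ → ℂ) : ℝ := ∫ t in (0 : ℝ)..(2 * π), ‖z t‖⁻¹

/-- The Kepler action over one period `2π` -/
noncomputable def A0 (c : ℤ → ℝ) : ℝ := π * en c + pot (zc c)

/-- `z_c` is within `δ` of some Kepler ellipse `z_e`, `e ∈ [a,b]` -/
def Near (a b δ : ℝ) (c : ℤ → ℝ) : Prop := ∃ e ∈ Icc a b, ∀ t : ℝ, ‖zc c t - kz e t‖ ≤ δ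

/-! ### The constellation -/

/-- A finite symmetry group: rotations `R j` and time shifts `σ j`. -/
structure Sym (J : Type) [AddCommGroup J] where
  R : J → ℂ
  σ : J → ℝ
  norm_R : ∀ j, ‖R j‖ = 1
  R_add : ∀ i j, R (i + j) = R i * R j
  σ_add : ∀ i j, ∃ n : ℤ, σ (i + j) = σ i + σ j + 2 * π * n

variable {J : Type} [AddCommGroup J] [Fintype J] [DecidableEq J] (S : Sym J)

/-- planet number `j` of the constellation generated by the loop `z` (heliocentric) -/
noncomputable def pl (z : ℝ → ℂ) (j : J) (t : ℝ) : ℂ := S.R j * z (t + S.σ j)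

/-- the interaction of the planets (an extended nonnegative number) -/
noncomputable def Fint (z : ℝ → ℂ) : ENNReal :=
  ∑ j ∈ (Finset.univ : Finset J).erase 0, ∫⁻ t in Ioc (0 : ℝ) (2 * π), (‖z t - pl S z j t‖ₑ)⁻¹

/-- the parameter `e` is collision free -/
def Free (e : ℝ) : Prop := ∀ j : J, j ≠ 0 → ∀ t : ℝ, kz e t ≠ pl S (kz e) j t

/-- the frequencies moving the centre of mass: `R_j e^{ikσ_j} = 1` for all `j` -/
def KH : Set ℤ := {k | ∀ j : J, S.R j * Complex.exp (((k : ℝ) * S.σ j : ℝ) * Complex.I) = 1}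

open Classical in
/-- the part of the energy in the frequencies `KH` -/
noncomputable def ind (c : ℤ → ℝ) : ℝ := ∑' k : ℤ, if k ∈ KH S then (k : ℝ) ^ 2 * c k ^ 2 else 0

/-- `m = |J|` as a real number -/
noncomputable def mm (J : Type) [Fintype J] : ℝ := (Fintype.card J : ℝ)

/-- `κ = ε/(1 + mε)` -/
noncomputable def kap (J : Type) [Fintype J] (ε : ℝ) : ℝ := ε / (1 + mm J * ε)

/-- the functional -/
noncomputable def Phi (ε : ℝ) (c : ℤ → ℝ) : ENNReal :=
  ENNReal.ofReal (A0 c - π * mm J * kap J ε * ind S c) + ENNReal.ofReal (ε / 2) * Fint S (zc c)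

/-- position of the sun -/
noncomputable def sun (ε : ℝ) (z : ℝ → ℂ) (t : ℝ) : ℂ := -(kap J ε : ℂ) * ∑ j : J, pl S z j t

/-- the bodies: `none` is the sun, barycentre at the origin -/
noncomputable def bodies (ε : ℝ) (z : ℝ → ℂ) (t : ℝ) : Option J → ℂ
  | none => sun S ε z t
  | some j => pl S z j t + sun S ε z t

/-- the Kepler constellation: sun at the origin, planets on Kepler ellipses -/
noncomputable def constel (e : ℝ) (t : ℝ) : Option J → ℂ
  | none => 0
  | some j => pl S (kz e) j t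

/-- masses: sun `1`, planets `ε` -/
noncomputable def mass (J : Type) (ε : ℝ) : Option J → ℝ
  | none => 1
  | some _ => ε

/-! ### The planar N-body problem and braid types (bodies indexed by a finite type) -/

/-- `x` is a collision free solution for all times of the planar Newtonian problem with masses `μ` -/
def IsSol {B : Type} [Fintype B] [DecidableEq B] (μ : B → ℝ) (x : ℝ → B → ℂ) : Prop :=
  (∀ t a b, a ≠ b → x t a ≠ x t b) ∧
  ∃ v : ℝ → B → ℂ, ∀ t a, HasDerivAt (fun s => x s a) (v t a) t ∧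
    ∃ acc : ℂ, HasDerivAt (fun s => v s a) acc t ∧
      (μ a : ℂ) * acc = ∑ b ∈ Finset.univ.erase a,
        ((μ a * μ b : ℝ) : ℂ) * (x t b - x t a) / (‖x t b - x t a‖ ^ 3 : ℝ)

/-- the two closed loops of period `T` are freely homotopic in the configuration space -/
def SameBraid {B : Type} (T : ℝ) (x y : ℝ → B → ℂ) : Prop :=
  ∃ H : ℝ → ℝ → B → ℂ, (∀ a, ContinuousOn (fun p : ℝ × ℝ => H p.1 p.2 a) (Icc 0 1 ×ˢ univ)) ∧
    (∀ s ∈ Icc (0 : ℝ) 1, ∀ t a b, a ≠ b → H s t a ≠ H s t b) ∧
    (∀ s ∈ Icc (0 : ℝ) 1, ∀ t, H s (t + T) = H s t) ∧ (∀ t, H 0 t = x t) ∧ (∀ t, H 1 t = y t)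

end Pool.Agent.Helper43.Kep
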