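import Pool.Agent.Helper43.Kep.KDef

/-!
KEP ELA: the Euler-Lagrange equation for the coefficient `c k`.  For small `|s|` the sequence
`c + Pi.single k s` is in `KK a b δ` (`en_add_single`, `zc_add_single`, `‖e^{ikt}‖ = 1`) and the distances stay
`≥ g/2`, so `Fint` is finite and `Phi` is `ofReal` of the real number
`φ(s) = A0m (c + single k s) + (ε/2) ∑_{j ≠ 0} ∫_0^{2π} ‖..‖⁻¹`, `A0m` is a quadratic polynomial in `s` plus
`pot`.  `φ` has a local minimum at `s = 0`, so its derivative vanishes.  Derivative of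
`‖z + s y‖⁻¹` at `s = 0`: `-re (conj z * y)/‖z‖³`; differentiate under the integral
(`intervalIntegral.hasDerivAt_integral_of_dominated_loc_of_deriv_le`, bound `4‖y‖/g²`).
Here `ek k t = e^{ikt}`.
-/

set_option autoImplicit false

namespace Pool.Agent.Helper43.Kep

open Real MeasureTheory Set Filter Topology

variable {J : Type} [AddCommGroup J] [Fintype J] [DecidableEq J] (S : Sym J)


/-- `e^{ikt}` -/
noncomputable def ek (k : ℤ) (t : ℝ) : ℂ := Complex.exp (((k : ℝ) * t : ℝ) * Complex.I)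

lemma ek_norm (k : ℤ) (t : ℝ) : ‖ek k t‖ = 1 := by
  unfold ek
  exact Complex.norm_exp_ofReal_mul_I _

lemma ek_continuous (k : ℤ) : Continuous (ek k) := by
  unfold ek
  fun_prop

/-- derivative of `‖w + s y‖⁻¹` -/
private lemma ela_pt {w y : ℂ} {s : ℝ} (h : w + s * y ≠ 0) :
    HasDerivAt (fun s : ℝ => ‖w + s * y‖⁻¹)
      (-(((starRingEnd ℂ) (w + s * y) * y).re / ‖w + s * y‖ ^ 3)) s := by
  have hlin : HasDerivAt (fun s : ℝ => w + (s : ℂ) * y) y s := by
    have h1 : HasDerivAt (fun s : ℝ => (s : ℂ)) 1 s := Complex.ofRealCLM.hasDerivAt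
    simpa using (h1.mul_const y).const_add w
  have hre : HasDerivAt (fun s : ℝ => (w + (s : ℂ) * y).re) y.re s :=
    Complex.reCLM.hasFDerivAt.comp_hasDerivAt s hlin
  have him : HasDerivAt (fun s : ℝ => (w + (s : ℂ) * y).im) y.im s :=
    Complex.imCLM.hasFDerivAt.comp_hasDerivAt s hlin
  have hsq : HasDerivAt (fun s : ℝ => (w + (s : ℂ) * y).re ^ 2 + (w + (s : ℂ) * y).im ^ 2)
      (2 * ((starRingEnd ℂ) (w + s * y) * y).re) s := by
    refine ((hre.pow 2).add (him.pow 2)).congr_deriv ?_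
    simp only [Complex.mul_re, Complex.conj_re, Complex.conj_im]
    push_cast
    ring
  have hnorm : ∀ z : ℂ, ‖z‖ = Real.sqrt (z.re ^ 2 + z.im ^ 2) := by
    intro z
    rw [Complex.norm_def, Complex.normSq_apply]
    congr 1
    ring
  have hpos : 0 < ‖w + s * y‖ := norm_pos_iff.mpr h
  have hne : (w + (s : ℂ) * y).re ^ 2 + (w + (s : ℂ) * y).im ^ 2 ≠ 0 := by
    intro h0
    rw [hnorm, h0, Real.sqrt_zero] at hpos
    exact lt_irrefl _ hpos
  have h3 := (hsq.sqrt hne).inv (by
    rw [← hnorm]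
    exact hpos.ne')
  have h4 : (fun s : ℝ => ‖w + (s : ℂ) * y‖⁻¹) =
      (fun s : ℝ => Real.sqrt ((w + (s : ℂ) * y).re ^ 2 + (w + (s : ℂ) * y).im ^ 2))⁻¹ := by
    funext s
    simp only [Pi.inv_apply]
    rw [hnorm]
  rw [h4]
  refine h3.congr_deriv ?_
  rw [← hnorm]
  have := hpos.ne'
  field_simp

/-- differentiation under the integral -/
private lemma ela_int {f y : ℝ → ℂ} (hf : Continuous f) (hy : Continuous y) {g : ℝ} (hg : 0 < g)
    (h : ∀ t, g ≤ ‖f t‖) (hy2 : ∀ t, ‖y t‖ ≤ 2) :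
    HasDerivAt (fun s : ℝ => ∫ t in (0 : ℝ)..(2 * π), ‖f t + s * y t‖⁻¹)
      (-∫ t in (0 : ℝ)..(2 * π), ((starRingEnd ℂ) (f t) * y t).re / ‖f t‖ ^ 3) 0 := by
  have hlow : ∀ s : ℝ, |s| < g / 4 → ∀ t, g / 2 ≤ ‖f t + s * y t‖ := by
    intro s hs t
    have h1 : ‖f t‖ ≤ ‖f t + s * y t‖ + ‖(s : ℂ) * y t‖ := by
      have := norm_sub_le (f t + s * y t) (s * y t)
      rwa [add_sub_cancel_right] at this
    have h2 : ‖(s : ℂ) * y t‖ ≤ g / 2 := by
      rw [norm_mul, Complex.norm_real, Real.norm_eq_abs]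
      have := mul_le_mul hs.le (hy2 t) (norm_nonneg _) (by positivity)
      linarith
    linarith [h t]
  have hne : ∀ s : ℝ, |s| < g / 4 → ∀ t, f t + s * y t ≠ 0 := by
    intro s hs t h0
    have := hlow s hs t
    rw [h0, norm_zero] at this
    linarith
  have hmain := (intervalIntegral.hasDerivAt_integral_of_dominated_loc_of_deriv_le
    (μ := volume) (a := 0) (b := 2 * π)
    (F := fun (s : ℝ) t => ‖f t + s * y t‖⁻¹)
    (F' := fun (s : ℝ) t => -(((starRingEnd ℂ) (f t + s * y t) * y t).re / ‖f t + s * y t‖ ^ 3))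
    (x₀ := (0 : ℝ)) (s := Metric.ball 0 (g / 4)) (bound := fun _ => 8 / g ^ 2)
    (Metric.ball_mem_nhds _ (by positivity)) ?_ ?_ ?_ ?_ ?_ ?_).2
  · have e : (∫ t in (0 : ℝ)..(2 * π), -(((starRingEnd ℂ) (f t + (0 : ℝ) * y t) * y t).re /
        ‖f t + (0 : ℝ) * y t‖ ^ 3)) =
        -∫ t in (0 : ℝ)..(2 * π), ((starRingEnd ℂ) (f t) * y t).re / ‖f t‖ ^ 3 := by
      rw [← intervalIntegral.integral_neg]
      refine intervalIntegral.integral_congr fun t _ => ?_
      simp
    rw [← e]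
    exact hmain
  · filter_upwards [Metric.ball_mem_nhds (0 : ℝ) (by positivity : 0 < g / 4)] with s hs
    have hs' : |s| < g / 4 := by simpa using hs
    refine Continuous.aestronglyMeasurable ?_
    exact (hf.add (continuous_const.mul hy)).norm.inv₀ fun t => norm_ne_zero_iff.mpr (hne s hs' t)
  · refine Continuous.intervalIntegrable ?_ _ _
    refine (hf.add (continuous_const.mul hy)).norm.inv₀ fun t => norm_ne_zero_iff.mpr
      (hne 0 (by simpa using (by positivity : 0 < g / 4)) t)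
  · refine Continuous.aestronglyMeasurable ?_
    have h0 : ∀ t, ‖f t + ((0 : ℝ) : ℂ) * y t‖ ^ 3 ≠ 0 := fun t =>
      pow_ne_zero 3 (norm_ne_zero_iff.mpr (hne 0 (by simpa using (by positivity : 0 < g / 4)) t))
    have hc1 : Continuous fun t => f t + ((0 : ℝ) : ℂ) * y t := hf.add (continuous_const.mul hy)
    refine Continuous.neg (Continuous.div ?_ (hc1.norm.pow 3) h0)
    exact Complex.continuous_re.comp ((Complex.continuous_conj.comp hc1).mul hy)
  · refine Filter.Eventually.of_forall fun t _ s hs => ?_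
    have hs' : |s| < g / 4 := by simpa using hs
    have h1 := hlow s hs' t
    have hpos : 0 < ‖f t + s * y t‖ := by linarith
    rw [norm_neg, norm_div, norm_pow, norm_norm]
    have h2 : ‖((starRingEnd ℂ) (f t + s * y t) * y t).re‖ ≤ ‖f t + s * y t‖ * 2 := by
      refine (Complex.abs_re_le_norm _).trans ?_
      rw [norm_mul, Complex.norm_conj]
      exact mul_le_mul_of_nonneg_left (hy2 t) (norm_nonneg _)
    calc ‖((starRingEnd ℂ) (f t + s * y t) * y t).re‖ / ‖f t + s * y t‖ ^ 3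
        ≤ (‖f t + s * y t‖ * 2) / ‖f t + s * y t‖ ^ 3 := by gcongr
      _ = 2 / ‖f t + s * y t‖ ^ 2 := by
          field_simp
      _ ≤ 2 / (g / 2) ^ 2 := by gcongr
      _ = 8 / g ^ 2 := by
          field_simp
          ring
  · exact intervalIntegrable_const
  · refine Filter.Eventually.of_forall fun t _ s hs => ?_
    have hs' : |s| < g / 4 := by simpa using hs
    exact ela_pt (hne s hs' t)

omit [Fintype J] [DecidableEq J] in
private lemma ela_pl_cont {z : ℝ → ℂ} (hz : Continuous z) (j : J) : Continuous (pl S z j) := by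
  unfold pl
  fun_prop

/-- the interaction as a real integral -/
private lemma ela_F {w : ℝ → ℂ} (hw : Continuous w) {g : ℝ} (hg : 0 < g)
    (h : ∀ j : J, j ≠ 0 → ∀ t : ℝ, g ≤ ‖w t - pl S w j t‖) :
    Fint S w = ENNReal.ofReal (∑ j ∈ (Finset.univ : Finset J).erase 0,
      ∫ t in (0 : ℝ)..(2 * π), ‖w t - pl S w j t‖⁻¹) := by
  have h2π : (0 : ℝ) ≤ 2 * π := by positivity
  rw [ENNReal.ofReal_sum_of_nonneg]
  · unfold Fint
    refine Finset.sum_congr rfl fun j hj => ?_
    have hj0 : j ≠ 0 := Finset.ne_of_mem_erase hj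
    have hpos : ∀ t, 0 < ‖w t - pl S w j t‖ := fun t => hg.trans_le (h j hj0 t)
    have hcont : Continuous fun t => ‖w t - pl S w j t‖⁻¹ :=
      (hw.sub (ela_pl_cont S hw j)).norm.inv₀ fun t => (hpos t).ne'
    rw [intervalIntegral.integral_of_le h2π, ofReal_integral_eq_lintegral_ofReal]
    · refine lintegral_congr fun t => ?_
      rw [ENNReal.ofReal_inv_of_pos (hpos t), ofReal_norm]
    · exact (hcont.intervalIntegrable 0 (2 * π)).1
    · exact Filter.Eventually.of_forall fun t => inv_nonneg.mpr (norm_nonneg _)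
  · intro j _
    exact intervalIntegral.integral_nonneg h2π fun t _ => inv_nonneg.mpr (norm_nonneg _)

omit [Fintype J] [DecidableEq J] in
private lemma ela_diff (z : ℝ → ℂ) (k : ℤ) (s : ℝ) (j : J) (t : ℝ) :
    (z t + s * ek k t) - pl S (fun t => z t + s * ek k t) j t =
      (z t - pl S z j t) + s * (ek k t - pl S (ek k) j t) := by
  unfold pl
  ring

omit [Fintype J] [DecidableEq J] in
private lemma ela_ek2 (k : ℤ) (j : J) (t : ℝ) : ‖ek k t - pl S (ek k) j t‖ ≤ 2 := by
  refine (norm_sub_le _ _).trans ?_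
  unfold pl
  rw [norm_mul, S.norm_R, ek_norm, ek_norm]
  norm_num

open Classical in
theorem euler {a b δ ε η g : ℝ} {c : ℤ → ℝ} (hε : 0 < ε) (hc : c ∈ KK a b δ)
    (hmin : ∀ d ∈ KK a b δ, Phi S ε c ≤ Phi S ε d) (h5 : en c < 5)
    (hnear : ∃ e ∈ Icc a b, ∀ t : ℝ, ‖zc c t - kz e t‖ ≤ η) (hη : η < δ) (hg : 0 < g)
    (hs : ∀ t : ℝ, g ≤ ‖zc c t‖) (hp : ∀ j : J, j ≠ 0 → ∀ t : ℝ, g ≤ ‖zc c t - pl S (zc c) j t‖)
    (k : ℤ) :
    2 * π * (k : ℝ) ^ 2 * (1 - if k ∈ KH S then mm J * kap J ε else 0) * c k =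
      (∫ t in (0 : ℝ)..(2 * π), ((starRingEnd ℂ) (zc c t) * ek k t).re / ‖zc c t‖ ^ 3) +
      ε / 2 * ∑ j ∈ (Finset.univ : Finset J).erase 0, ∫ t in (0 : ℝ)..(2 * π),
        ((starRingEnd ℂ) (zc c t - pl S (zc c) j t) * (ek k t - pl S (ek k) j t)).re /
          ‖zc c t - pl S (zc c) j t‖ ^ 3 := by
  have hFE := hc.1
  have hzc := zc_continuous hFE
  have h2π : (0 : ℝ) ≤ 2 * π := by positivity
  -- the real function
  set φ : ℝ → ℝ := fun s => A0m S ε (c + Pi.single k s) +
    ε / 2 * ∑ j ∈ (Finset.univ : Finset J).erase 0, ∫ t in (0 : ℝ)..(2 * π),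
      ‖(zc c t - pl S (zc c) j t) + s * (ek k t - pl S (ek k) j t)‖⁻¹ with hφ
  have hzs : ∀ s : ℝ, zc (c + Pi.single k s) = fun t => zc c t + s * ek k t := by
    intro s
    funext t
    exact zc_add_single hFE k s t
  have hA0m_nonneg : ∀ d : ℤ → ℝ, FE d → 0 ≤ A0m S ε d := by
    intro d hd
    have h1 := (A0m_lower S hε hd).1
    have h2 := (kap_bounds (J := J) hε).2.2.1
    have h3 := en_nonneg d
    have h4 : 0 ≤ pot (zc d) :=
      intervalIntegral.integral_nonneg h2π fun t _ => inv_nonneg.mpr (norm_nonneg _)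
    have h5 : 0 ≤ π * (1 - mm J * kap J ε) * en d := by
      have := pi_pos
      have h6 : 0 < 1 - mm J * kap J ε := by linarith
      positivity
    linarith
  -- lower bound for the distances
  have hlow : ∀ s : ℝ, |s| < g / 4 → ∀ j : J, j ≠ 0 → ∀ t,
      g / 2 ≤ ‖(zc c t - pl S (zc c) j t) + s * (ek k t - pl S (ek k) j t)‖ := by
    intro s hs' j hj t
    set f := zc c t - pl S (zc c) j t
    set y := ek k t - pl S (ek k) j t
    have h1 : ‖f‖ ≤ ‖f + s * y‖ + ‖(s : ℂ) * y‖ := by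
      have := norm_sub_le (f + s * y) (s * y)
      rwa [add_sub_cancel_right] at this
    have h2 : ‖(s : ℂ) * y‖ ≤ g / 2 := by
      rw [norm_mul, Complex.norm_real, Real.norm_eq_abs]
      have := mul_le_mul hs'.le (ela_ek2 S k j t) (norm_nonneg _) (by positivity)
      linarith
    linarith [hp j hj t]
  -- Phi as a real number
  have hPhi : ∀ s : ℝ, |s| < g / 4 → Phi S ε (c + Pi.single k s) = ENNReal.ofReal (φ s) := by
    intro s hs'
    have hFEs := FE_add_single hFE k s
    have hw : Continuous (zc (c + Pi.single k s)) := zc_continuous hFEs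
    have hFs := ela_F S hw (g := g / 2) (by positivity) (fun j hj t => by
      rw [hzs s]
      rw [ela_diff]
      exact hlow s hs' j hj t)
    have e1 : ∀ j : J, ∫ t in (0 : ℝ)..(2 * π), ‖zc (c + Pi.single k s) t -
        pl S (zc (c + Pi.single k s)) j t‖⁻¹ = ∫ t in (0 : ℝ)..(2 * π),
      ‖(zc c t - pl S (zc c) j t) + s * (ek k t - pl S (ek k) j t)‖⁻¹ := by
      intro j
      refine intervalIntegral.integral_congr fun t _ => ?_
      rw [hzs s, ela_diff]
    simp only [e1] at hFs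
    unfold Phi
    rw [hFs, ← ENNReal.ofReal_mul (by positivity), hφ]
    rw [ENNReal.ofReal_add (hA0m_nonneg _ hFEs)]
    · rfl
    · refine mul_nonneg (by positivity) (Finset.sum_nonneg fun j _ => ?_)
      exact intervalIntegral.integral_nonneg h2π fun t _ => inv_nonneg.mpr (norm_nonneg _)
  have hφ0 : ∀ s : ℝ, |s| < g / 4 → 0 ≤ φ s := by
    intro s _
    refine add_nonneg (hA0m_nonneg _ (FE_add_single hFE k s)) (mul_nonneg (by positivity)
      (Finset.sum_nonneg fun j _ => ?_))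
    exact intervalIntegral.integral_nonneg h2π fun t _ => inv_nonneg.mpr (norm_nonneg _)
  have hc0 : c + Pi.single k (0 : ℝ) = c := by simp
  -- local minimum
  have hloc : IsLocalMin φ 0 := by
    have hcontq : Continuous fun s : ℝ => en c + (k : ℝ) ^ 2 * (2 * c k * s + s ^ 2) := by fun_prop
    have hq : ∀ᶠ s in 𝓝 (0 : ℝ), en c + (k : ℝ) ^ 2 * (2 * c k * s + s ^ 2) < 5 := by
      refine (hcontq.tendsto 0).eventually (gt_mem_nhds ?_)
      simpa using h5
    filter_upwards [hq, Metric.ball_mem_nhds (0 : ℝ) (by positivity : 0 < g / 4),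
      Metric.ball_mem_nhds (0 : ℝ) (by linarith : 0 < δ - η)] with s hs1 hs2 hs3
    have hs2' : |s| < g / 4 := by simpa using hs2
    have hs3' : |s| < δ - η := by simpa using hs3
    have hK : c + Pi.single k s ∈ KK a b δ := by
      refine ⟨FE_add_single hFE k s, ?_, ?_⟩
      · rw [en_add_single hFE]
        exact hs1.le
      · obtain ⟨e, he, hen⟩ := hnear
        refine ⟨e, he, fun t => ?_⟩
        rw [hzs s]
        have h1 : zc c t + s * ek k t - kz e t = (zc c t - kz e t) + s * ek k t := by ring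
        simp only
        rw [h1]
        refine (norm_add_le _ _).trans ?_
        rw [norm_mul, ek_norm, mul_one, Complex.norm_real, Real.norm_eq_abs]
        linarith [hen t]
    have h1 := hmin _ hK
    rw [hPhi s hs2'] at h1
    have h2 := hPhi 0 (by simpa using (by positivity : 0 < g / 4))
    rw [hc0] at h2
    rw [h2] at h1
    exact (ENNReal.ofReal_le_ofReal_iff (hφ0 s hs2')).mp h1
  -- the derivative
  have hd1 : HasDerivAt (fun s : ℝ => en (c + Pi.single k s)) ((k : ℝ) ^ 2 * (2 * c k)) 0 := by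
    have h1 : (fun s : ℝ => en (c + Pi.single k s)) =
        fun s => en c + (k : ℝ) ^ 2 * (2 * c k * s + s ^ 2) :=
      funext fun s => en_add_single hFE k s
    rw [h1]
    have h2 : HasDerivAt (fun s : ℝ => 2 * c k * s + s ^ 2) (2 * c k) 0 := by
      have h3 : HasDerivAt (fun s : ℝ => 2 * c k * s) (2 * c k) 0 := by
        simpa using (hasDerivAt_id (0 : ℝ)).const_mul (2 * c k)
      have h4 : HasDerivAt (fun s : ℝ => s ^ 2) 0 0 := by
        simpa using hasDerivAt_pow 2 (0 : ℝ)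
      simpa using h3.fun_add h4
    exact (h2.const_mul _).const_add _
  have hd2 : HasDerivAt (fun s : ℝ => ind S (c + Pi.single k s))
      (if k ∈ KH S then (k : ℝ) ^ 2 * (2 * c k) else 0) 0 := by
    have h1 : (fun s : ℝ => ind S (c + Pi.single k s)) =
        fun s => ind S c + (if k ∈ KH S then (k : ℝ) ^ 2 * (2 * c k * s + s ^ 2) else 0) :=
      funext fun s => ind_add_single S hFE k s
    rw [h1]
    have h2 : HasDerivAt (fun s : ℝ => 2 * c k * s + s ^ 2) (2 * c k) 0 := by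
      have h3 : HasDerivAt (fun s : ℝ => 2 * c k * s) (2 * c k) 0 := by
        simpa using (hasDerivAt_id (0 : ℝ)).const_mul (2 * c k)
      have h4 : HasDerivAt (fun s : ℝ => s ^ 2) 0 0 := by
        simpa using hasDerivAt_pow 2 (0 : ℝ)
      simpa using h3.fun_add h4
    by_cases hk : k ∈ KH S
    · simp only [hk, if_true]
      exact (h2.const_mul _).const_add _
    · simp only [hk, if_false]
      exact hasDerivAt_const _ _
  have hd3 : HasDerivAt (fun s : ℝ => pot (zc (c + Pi.single k s)))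
      (-∫ t in (0 : ℝ)..(2 * π), ((starRingEnd ℂ) (zc c t) * ek k t).re / ‖zc c t‖ ^ 3) 0 := by
    have h1 : (fun s : ℝ => pot (zc (c + Pi.single k s))) =
        fun s : ℝ => ∫ t in (0 : ℝ)..(2 * π), ‖zc c t + s * ek k t‖⁻¹ := by
      funext s
      rw [hzs s]
      rfl
    rw [h1]
    exact ela_int hzc (ek_continuous k) hg hs fun t => by rw [ek_norm]; norm_num
  have hd4 : ∀ j ∈ (Finset.univ : Finset J).erase 0, HasDerivAt (fun s : ℝ =>
      ∫ t in (0 : ℝ)..(2 * π), ‖(zc c t - pl S (zc c) j t) + s * (ek k t - pl S (ek k) j t)‖⁻¹)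
      (-∫ t in (0 : ℝ)..(2 * π),
        ((starRingEnd ℂ) (zc c t - pl S (zc c) j t) * (ek k t - pl S (ek k) j t)).re /
          ‖zc c t - pl S (zc c) j t‖ ^ 3) 0 := by
    intro j hj
    exact ela_int (hzc.sub (ela_pl_cont S hzc j))
      ((ek_continuous k).sub (ela_pl_cont S (ek_continuous k) j)) hg
      (hp j (Finset.ne_of_mem_erase hj)) (ela_ek2 S k j)
  have hd5 := HasDerivAt.fun_sum hd4
  have hd6 : HasDerivAt φ (π * ((k : ℝ) ^ 2 * (2 * c k)) +
      (-∫ t in (0 : ℝ)..(2 * π), ((starRingEnd ℂ) (zc c t) * ek k t).re / ‖zc c t‖ ^ 3) -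
      π * mm J * kap J ε * (if k ∈ KH S then (k : ℝ) ^ 2 * (2 * c k) else 0) +
      ε / 2 * ∑ j ∈ (Finset.univ : Finset J).erase 0, (-∫ t in (0 : ℝ)..(2 * π),
        ((starRingEnd ℂ) (zc c t - pl S (zc c) j t) * (ek k t - pl S (ek k) j t)).re /
          ‖zc c t - pl S (zc c) j t‖ ^ 3)) 0 := by
    exact (((hd1.const_mul π).add hd3).sub (hd2.const_mul (π * mm J * kap J ε))).add
      (hd5.const_mul (ε / 2))
  have hzero := hloc.hasDerivAt_eq_zero hd6
  rw [Finset.sum_neg_distrib] at hzero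
  by_cases hk : k ∈ KH S
  · simp only [hk, if_true] at hzero ⊢
    linear_combination hzero
  · simp only [hk, if_false] at hzero ⊢
    linear_combination hzero

end Pool.Agent.Helper43.Kep
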