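import Pool.Agent.Helper43.Kep.Defs

/-!
KEP SER: the series `zc c`.
* `summable_abs`: `|c_k| ≤ (k² c_k² + 1/k²)/2` for `k ≠ 0`.
* `zc_continuous`: `continuous_tsum`.  `zc_neg`: `Complex.conj_tsum` (or `tsum` of `starRingEnd`).
* `..._single`: `tsum_add`, `tsum` of a function supported at one index.
-/

set_option autoImplicit false
set_option linter.unusedSectionVars false

namespace Pool.Agent.Helper43.Kep

open Real MeasureTheory Set Filter Topology

variable {J : Type} [AddCommGroup J] [Fintype J] [DecidableEq J] (S : Sym J)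


private theorem ser_norm (c : ℤ → ℝ) (t : ℝ) (k : ℤ) :
    ‖(c k : ℂ) * Complex.exp (((k : ℝ) * t : ℝ) * Complex.I)‖ = |c k| := by
  rw [norm_mul, Complex.norm_exp_ofReal_mul_I, mul_one, Complex.norm_real, Real.norm_eq_abs]

theorem summable_abs {c : ℤ → ℝ} (h : FE c) : Summable fun k : ℤ => |c k| := by
  have h1 : Summable fun k : ℤ => 1 / (k : ℝ) ^ 2 :=
    Real.summable_one_div_int_pow.2 (by norm_num)
  have h2 : Summable fun k : ℤ => (Pi.single (0 : ℤ) |c 0| : ℤ → ℝ) k :=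
    (hasSum_pi_single (0 : ℤ) |c 0|).summable
  refine Summable.of_nonneg_of_le (fun k => abs_nonneg _) (fun k => ?_)
    (((h.add h1).div_const 2).add h2)
  by_cases hk : k = 0
  · subst hk
    simp
  · have hk' : (k : ℝ) ≠ 0 := by exact_mod_cast hk
    rw [Pi.single_eq_of_ne hk, add_zero]
    have h3 : |c k| = |(k : ℝ) * c k| * |1 / (k : ℝ)| := by
      rw [← abs_mul]
      congr 1
      field_simp
    have h4 := two_mul_le_add_sq |(k : ℝ) * c k| |1 / (k : ℝ)|
    have h5 : |(k : ℝ) * c k| ^ 2 = (k : ℝ) ^ 2 * c k ^ 2 := by rw [sq_abs, mul_pow]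
    have h6 : |1 / (k : ℝ)| ^ 2 = 1 / (k : ℝ) ^ 2 := by rw [sq_abs, div_pow, one_pow]
    rw [h5, h6] at h4
    rw [h3]
    linarith

private theorem ser_summable {c : ℤ → ℝ} (h : FE c) (t : ℝ) :
    Summable fun k : ℤ => (c k : ℂ) * Complex.exp (((k : ℝ) * t : ℝ) * Complex.I) := by
  refine Summable.of_norm ?_
  simp only [ser_norm]
  exact summable_abs h

theorem zc_continuous {c : ℤ → ℝ} (h : FE c) : Continuous (zc c) := by
  refine continuous_tsum (u := fun k => |c k|) (fun k => ?_) (summable_abs h)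
    (fun k t => (ser_norm c t k).le)
  fun_prop

theorem zc_periodic (c : ℤ → ℝ) (t : ℝ) : zc c (t + 2 * π) = zc c t := by
  unfold zc
  refine tsum_congr fun k => ?_
  congr 1
  have h1 : (((k : ℝ) * (t + 2 * π) : ℝ) : ℂ) * Complex.I =
      (((k : ℝ) * t : ℝ) : ℂ) * Complex.I + (k : ℂ) * (2 * π * Complex.I) := by
    push_cast
    ring
  rw [h1, Complex.exp_add, Complex.exp_int_mul_two_pi_mul_I, mul_one]

theorem zc_neg (c : ℤ → ℝ) (t : ℝ) : zc c (-t) = (starRingEnd ℂ) (zc c t) := by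
  unfold zc
  rw [Complex.conj_tsum]
  refine tsum_congr fun k => ?_
  rw [map_mul, Complex.conj_ofReal, ← Complex.exp_conj, map_mul, Complex.conj_ofReal,
    Complex.conj_I]
  congr 2
  push_cast
  ring

private theorem ser_en (c : ℤ → ℝ) (k : ℤ) (s : ℝ) :
    (fun j : ℤ => (j : ℝ) ^ 2 * (c + Pi.single k s : ℤ → ℝ) j ^ 2) =
      fun j : ℤ => (j : ℝ) ^ 2 * c j ^ 2 +
        (Pi.single k ((k : ℝ) ^ 2 * (2 * c k * s + s ^ 2)) : ℤ → ℝ) j := by
  funext j
  by_cases hj : j = k
  · subst hj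
    rw [Pi.add_apply, Pi.single_eq_same, Pi.single_eq_same]
    ring
  · rw [Pi.add_apply, Pi.single_eq_of_ne hj, Pi.single_eq_of_ne hj]
    ring

theorem FE_add_single {c : ℤ → ℝ} (h : FE c) (k : ℤ) (s : ℝ) : FE (c + Pi.single k s) := by
  unfold FE
  rw [ser_en]
  exact h.add (hasSum_pi_single k _).summable

theorem zc_add_single {c : ℤ → ℝ} (h : FE c) (k : ℤ) (s t : ℝ) :
    zc (c + Pi.single k s) t = zc c t + (s : ℂ) * Complex.exp (((k : ℝ) * t : ℝ) * Complex.I) := by
  unfold zc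
  have h1 : (fun j : ℤ => (((c + Pi.single k s : ℤ → ℝ) j : ℝ) : ℂ) *
      Complex.exp (((j : ℝ) * t : ℝ) * Complex.I)) =
      fun j : ℤ => (c j : ℂ) * Complex.exp (((j : ℝ) * t : ℝ) * Complex.I) +
        (Pi.single k ((s : ℂ) * Complex.exp (((k : ℝ) * t : ℝ) * Complex.I)) : ℤ → ℂ) j := by
    funext j
    by_cases hj : j = k
    · subst hj
      rw [Pi.add_apply, Pi.single_eq_same, Pi.single_eq_same, Complex.ofReal_add, add_mul]
    · rw [Pi.add_apply, Pi.single_eq_of_ne hj, Pi.single_eq_of_ne hj, add_zero, add_zero]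
  rw [h1, (ser_summable h t).tsum_add (hasSum_pi_single k _).summable,
    (hasSum_pi_single k _).tsum_eq]

theorem en_nonneg (c : ℤ → ℝ) : 0 ≤ en c := by
  unfold en
  exact tsum_nonneg fun k => by positivity

theorem en_add_single {c : ℤ → ℝ} (h : FE c) (k : ℤ) (s : ℝ) :
    en (c + Pi.single k s) = en c + (k : ℝ) ^ 2 * (2 * c k * s + s ^ 2) := by
  unfold en
  rw [ser_en, Summable.tsum_add h (hasSum_pi_single k _).summable,
    (hasSum_pi_single k _).tsum_eq]

theorem ind_nonneg (c : ℤ → ℝ) : 0 ≤ ind S c := by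
  unfold ind
  refine tsum_nonneg fun k => ?_
  split_ifs
  · positivity
  · exact le_rfl

open Classical in
private theorem ser_ind {c : ℤ → ℝ} (h : FE c) :
    Summable fun k : ℤ => if k ∈ KH S then (k : ℝ) ^ 2 * c k ^ 2 else 0 := by
  refine Summable.of_nonneg_of_le (fun k => ?_) (fun k => ?_) h
  · split_ifs
    · positivity
    · exact le_rfl
  · split_ifs
    · exact le_rfl
    · positivity

theorem ind_le_en {c : ℤ → ℝ} (h : FE c) : ind S c ≤ en c := by
  unfold ind en
  refine Summable.tsum_le_tsum (fun k => ?_) (ser_ind S h) h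
  split_ifs
  · exact le_rfl
  · positivity

open Classical in
theorem ind_add_single {c : ℤ → ℝ} (h : FE c) (k : ℤ) (s : ℝ) :
    ind S (c + Pi.single k s) =
      ind S c + (if k ∈ KH S then (k : ℝ) ^ 2 * (2 * c k * s + s ^ 2) else 0) := by
  unfold ind
  have h1 : (fun j : ℤ => if j ∈ KH S then (j : ℝ) ^ 2 * (c + Pi.single k s : ℤ → ℝ) j ^ 2
      else 0) = fun j : ℤ => (if j ∈ KH S then (j : ℝ) ^ 2 * c j ^ 2 else 0) +
        (Pi.single k (if k ∈ KH S then (k : ℝ) ^ 2 * (2 * c k * s + s ^ 2) else 0) : ℤ → ℝ) j := by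
    funext j
    have h2 := congrFun (ser_en c k s) j
    by_cases hj : j = k
    · subst hj
      rw [Pi.single_eq_same] at h2 ⊢
      by_cases hK : j ∈ KH S
      · rw [if_pos hK, if_pos hK, if_pos hK]
        exact h2
      · rw [if_neg hK, if_neg hK, if_neg hK, add_zero]
    · rw [Pi.single_eq_of_ne hj] at h2 ⊢
      rw [add_zero] at h2 ⊢
      rw [h2]
  rw [h1, Summable.tsum_add (ser_ind S h) (hasSum_pi_single k _).summable,
    (hasSum_pi_single k _).tsum_eq]

end Pool.Agent.Helper43.Kep
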