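import Pool.Agent.Helper43.Kep.ELa
import Pool.Agent.Helper43.Kep.Ser

/-!
KEP ELB: the Euler-Lagrange equation as a statement on Fourier coefficients of the force.  `z = zc c`.
* `∑_{j≠0} ∫ re(conj(z - z_j) (e_k - R_j e_k(t+σ_j)))/‖z - z_j‖³`: in the second part substitute `t → t - σ_j`
  (periodic integrand over a period) and multiply by `conj R_j`, `R_j⁻¹ = R_{-j}`, `σ_{-j} ≡ -σ_j`:
  `z(t - σ_j) - R_j z(t)` times `R_{-j}` is `z_{-j}(t) - z(t)`; reindexing `j → -j` the second part equals the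
  first.  So the sum is `2 ∑_{j≠0} ∫ re(conj(z - z_j) e_k)/‖z - z_j‖³`.
* Hence `2πk²(1-λ_k)c_k = -∫ re(conj(force) e_k) = -re ∫ force(t) e^{-ikt} dt`.
* `force(-t) = conj (force t)` (`zc_neg`, `z_j(-t) = conj (z_{-j}(t))`), so `∫_0^{2π} force(t) e^{-ikt} dt` is
  real (substitute `t → -t` and periodicity).
-/

set_option autoImplicit false

namespace Pool.Agent.Helper43.Kep

open Real MeasureTheory Set Filter Topology

variable {J : Type} [AddCommGroup J] [Fintype J] [DecidableEq J] (S : Sym J)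


/-- the force on planet `0` without the indirect term -/
noncomputable def force (ε : ℝ) (z : ℝ → ℂ) (t : ℝ) : ℂ :=
  -(z t / (‖z t‖ ^ 3 : ℝ)) - (ε : ℂ) * ∑ j ∈ (Finset.univ : Finset J).erase 0,
    (z t - pl S z j t) / (‖z t - pl S z j t‖ ^ 3 : ℝ)

private theorem elb_R0 : S.R 0 = 1 := by
  have h := S.R_add 0 0
  rw [add_zero] at h
  have h0 : S.R 0 ≠ 0 := by
    intro hc
    have := S.norm_R 0
    rw [hc, norm_zero] at this
    exact zero_ne_one this
  exact (mul_right_cancel₀ h0 (by rw [one_mul]; exact h)).symm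

private theorem elb_RR (j : J) : (starRingEnd ℂ) (S.R j) * S.R j = 1 := by
  rw [mul_comm, Complex.mul_conj, Complex.normSq_eq_norm_sq, S.norm_R]
  norm_num

private theorem elb_Rneg (j : J) : S.R (-j) = (starRingEnd ℂ) (S.R j) := by
  have h := S.R_add (-j) j
  rw [neg_add_cancel, elb_R0] at h
  have h1 : S.R j ≠ 0 := by
    intro hc
    have := S.norm_R j
    rw [hc, norm_zero] at this
    exact zero_ne_one this
  apply mul_right_cancel₀ h1
  rw [← h, elb_RR]

private theorem elb_σneg (j : J) : ∃ n : ℤ, S.σ (-j) = -S.σ j + n * (2 * π) := by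
  obtain ⟨n, hn⟩ := S.σ_add 0 0
  obtain ⟨m, hm⟩ := S.σ_add (-j) j
  rw [add_zero] at hn
  rw [neg_add_cancel] at hm
  refine ⟨-n - m, ?_⟩
  push_cast
  linarith

private theorem elb_pl_neg {z : ℝ → ℂ} (hz : ∀ t, z (t + 2 * π) = z t) (j : J) (t : ℝ) :
    pl S z (-j) t = (starRingEnd ℂ) (S.R j) * z (t - S.σ j) := by
  obtain ⟨n, hn⟩ := elb_σneg S j
  have hp : Function.Periodic z (2 * π) := hz
  have h := hp.int_mul n (t - S.σ j)
  unfold pl
  rw [elb_Rneg, hn, show t + (-S.σ j + n * (2 * π)) = t - S.σ j + n * (2 * π) by ring, h]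

private theorem elb_shift {z : ℝ → ℂ} (hz : ∀ t, z (t + 2 * π) = z t) (j : J) (t : ℝ) :
    z (t - S.σ j) - pl S z j (t - S.σ j) = -S.R j * (z t - pl S z (-j) t) := by
  rw [elb_pl_neg S hz]
  unfold pl
  have h := elb_RR S j
  rw [show t - S.σ j + S.σ j = t by ring]
  linear_combination (-z (t - S.σ j)) * h

private theorem elb_pl_cont {z : ℝ → ℂ} (hz : Continuous z) (j : J) : Continuous (pl S z j) := by
  unfold pl
  fun_prop

private theorem elb_pl_per {z : ℝ → ℂ} (hz : ∀ t, z (t + 2 * π) = z t) (j : J) (t : ℝ) :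
    pl S z j (t + 2 * π) = pl S z j t := by
  unfold pl
  rw [show t + 2 * π + S.σ j = t + S.σ j + 2 * π by ring, hz]

private theorem elb_ek_cont (k : ℤ) : Continuous (ek k) := by
  unfold ek
  fun_prop

private theorem elb_ek_per (k : ℤ) (t : ℝ) : ek k (t + 2 * π) = ek k t := by
  unfold ek
  have h : (((k : ℝ) * (t + 2 * π) : ℝ) : ℂ) * Complex.I =
      (((k : ℝ) * t : ℝ) : ℂ) * Complex.I + k * (2 * π * Complex.I) := by
    push_cast
    ring
  rw [h, Complex.exp_add, Complex.exp_int_mul_two_pi_mul_I, mul_one]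

private theorem elb_ek_conj (k : ℤ) (t : ℝ) : (starRingEnd ℂ) (ek k t) = ek (-k) t := by
  unfold ek
  rw [← Complex.exp_conj, map_mul, Complex.conj_I, Complex.conj_ofReal]
  congr 1
  push_cast
  ring

private theorem elb_ek_neg (k : ℤ) (t : ℝ) : ek k (-t) = ek (-k) t := by
  unfold ek
  congr 1
  push_cast
  ring

private theorem elb_ne {x : ℂ} (h : x ≠ 0) : ((‖x‖ ^ 3 : ℝ) : ℂ) ≠ 0 := by
  have : ‖x‖ ^ 3 ≠ 0 := pow_ne_zero _ (norm_ne_zero_iff.2 h)
  exact_mod_cast this

theorem force_continuous {ε : ℝ} {z : ℝ → ℂ} (hz : Continuous z) (h0 : ∀ t, z t ≠ 0)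
    (hj : ∀ j : J, j ≠ 0 → ∀ t : ℝ, z t ≠ pl S z j t) : Continuous (force S ε z) := by
  unfold force
  apply Continuous.sub
  · apply Continuous.neg
    apply Continuous.div hz
    · exact Complex.continuous_ofReal.comp (hz.norm.pow 3)
    · exact fun t => elb_ne (h0 t)
  · apply Continuous.mul continuous_const
    apply continuous_finsetSum
    intro j hjm
    have hj0 : j ≠ 0 := Finset.ne_of_mem_erase hjm
    have hw : Continuous fun t => z t - pl S z j t := hz.sub (elb_pl_cont S hz j)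
    apply Continuous.div hw
    · exact Complex.continuous_ofReal.comp (hw.norm.pow 3)
    · exact fun t => elb_ne (sub_ne_zero.2 (hj j hj0 t))

theorem force_periodic {ε : ℝ} {z : ℝ → ℂ} (hz : ∀ t, z (t + 2 * π) = z t) (t : ℝ) :
    force S ε z (t + 2 * π) = force S ε z t := by
  unfold force
  rw [hz]
  congr 2
  refine Finset.sum_congr rfl fun j _ => ?_
  rw [elb_pl_per S hz]

/-- reindexing by `j ↦ -j` -/
private theorem elb_reindex {E : Type} [AddCommMonoid E] (f : J → E) :
    ∑ j ∈ (Finset.univ : Finset J).erase 0, f (-j) =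
      ∑ j ∈ (Finset.univ : Finset J).erase 0, f j := by
  refine Finset.sum_bij' (fun j _ => -j) (fun j _ => -j) ?_ ?_ ?_ ?_ ?_
  · intro j hj
    exact Finset.mem_erase.2 ⟨neg_ne_zero.2 (Finset.ne_of_mem_erase hj), Finset.mem_univ _⟩
  · intro j hj
    exact Finset.mem_erase.2 ⟨neg_ne_zero.2 (Finset.ne_of_mem_erase hj), Finset.mem_univ _⟩
  · intro j _
    exact neg_neg j
  · intro j _
    exact neg_neg j
  · intro j _
    rfl

private theorem elb_force_neg {ε : ℝ} {z : ℝ → ℂ} (hz : ∀ t, z (t + 2 * π) = z t)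
    (hc : ∀ t, z (-t) = (starRingEnd ℂ) (z t)) (t : ℝ) :
    force S ε z (-t) = (starRingEnd ℂ) (force S ε z t) := by
  have hw : ∀ j : J, z (-t) - pl S z j (-t) =
      (starRingEnd ℂ) (z t - pl S z (-j) t) := by
    intro j
    rw [elb_pl_neg S hz, map_sub, map_mul, Complex.conj_conj, hc]
    unfold pl
    rw [show -t + S.σ j = -(t - S.σ j) by ring, hc]
  unfold force
  rw [map_sub, map_neg, map_mul, map_sum, map_div₀, Complex.conj_ofReal, Complex.conj_ofReal, hc,
    Complex.norm_conj]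
  congr 2
  rw [← elb_reindex (fun j => (starRingEnd ℂ) ((z t - pl S z j t) /
    ((‖z t - pl S z j t‖ ^ 3 : ℝ) : ℂ)))]
  refine Finset.sum_congr rfl fun j _ => ?_
  have h1 := hw j
  rw [hc] at h1
  rw [h1, map_div₀, Complex.conj_ofReal, Complex.norm_conj]

/-- shifting a periodic integrand -/
private theorem elb_int_shift {f : ℝ → ℝ} (hf : ∀ t, f (t + 2 * π) = f t) (s : ℝ) :
    ∫ t in (0 : ℝ)..(2 * π), f t = ∫ t in (0 : ℝ)..(2 * π), f (t - s) := by
  have hp : Function.Periodic f (2 * π) := hf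
  have h := hp.intervalIntegral_add_eq (0 - s) 0
  rw [intervalIntegral.integral_comp_sub_right f s, zero_add] at *
  rw [← h]
  congr 1
  ring

private theorem elb_B {z : ℝ → ℂ} (hz : ∀ t, z (t + 2 * π) = z t) (k : ℤ) (j : J) :
    ∫ t in (0 : ℝ)..(2 * π), ((starRingEnd ℂ) (z t - pl S z j t) * pl S (ek k) j t).re /
        ‖z t - pl S z j t‖ ^ 3 =
      -∫ t in (0 : ℝ)..(2 * π), ((starRingEnd ℂ) (z t - pl S z (-j) t) * ek k t).re /
        ‖z t - pl S z (-j) t‖ ^ 3 := by
  rw [elb_int_shift (fun t => by rw [hz, elb_pl_per S hz, elb_pl_per S (elb_ek_per k)]) (S.σ j),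
    ← intervalIntegral.integral_neg]
  congr 1
  funext t
  have h := elb_RR S j
  have e1 : pl S (ek k) j (t - S.σ j) = S.R j * ek k t := by
    unfold pl
    rw [show t - S.σ j + S.σ j = t by ring]
  rw [elb_shift S hz, e1, norm_mul, norm_neg, S.norm_R, one_mul, ← neg_div, map_mul, map_neg]
  congr 1
  have e2 : -(starRingEnd ℂ) (S.R j) * (starRingEnd ℂ) (z t - pl S z (-j) t) *
      (S.R j * ek k t) = -((starRingEnd ℂ) (z t - pl S z (-j) t) * ek k t) := by
    linear_combination (-(starRingEnd ℂ) (z t - pl S z (-j) t) * ek k t) * h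
  rw [e2, Complex.neg_re]

open Classical in
theorem fourier_force {ε : ℝ} {c : ℤ → ℝ} (hc : FE c) (h0 : ∀ t : ℝ, zc c t ≠ 0)
    (hj : ∀ j : J, j ≠ 0 → ∀ t : ℝ, zc c t ≠ pl S (zc c) j t) (k : ℤ)
    (hel : 2 * π * (k : ℝ) ^ 2 * (1 - if k ∈ KH S then mm J * kap J ε else 0) * c k =
      (∫ t in (0 : ℝ)..(2 * π), ((starRingEnd ℂ) (zc c t) * ek k t).re / ‖zc c t‖ ^ 3) +
      ε / 2 * ∑ j ∈ (Finset.univ : Finset J).erase 0, ∫ t in (0 : ℝ)..(2 * π),
        ((starRingEnd ℂ) (zc c t - pl S (zc c) j t) * (ek k t - pl S (ek k) j t)).re /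
          ‖zc c t - pl S (zc c) j t‖ ^ 3) :
    ∫ t in (0 : ℝ)..(2 * π), force S ε (zc c) t * ek (-k) t =
      ((-(2 * π * (k : ℝ) ^ 2 * (1 - if k ∈ KH S then mm J * kap J ε else 0) * c k) : ℝ) : ℂ) := by
  rw [hel]
  have hzc := zc_continuous hc
  have hzp := zc_periodic c
  have hzn := zc_neg c
  set z := zc c with hzdef
  have hwc : ∀ j : J, Continuous fun t => z t - pl S z j t :=
    fun j => hzc.sub (elb_pl_cont S hzc j)
  have hek := elb_ek_cont k
  have hGz : Continuous fun t => ((starRingEnd ℂ) (z t) * ek k t).re / ‖z t‖ ^ 3 := by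
    apply Continuous.div
    · exact Complex.continuous_re.comp ((Complex.continuous_conj.comp hzc).mul hek)
    · exact hzc.norm.pow 3
    · exact fun t => pow_ne_zero _ (norm_ne_zero_iff.2 (h0 t))
  have hGj : ∀ j : J, j ≠ 0 → Continuous fun t =>
      ((starRingEnd ℂ) (z t - pl S z j t) * ek k t).re / ‖z t - pl S z j t‖ ^ 3 := by
    intro j hj0
    apply Continuous.div
    · exact Complex.continuous_re.comp ((Complex.continuous_conj.comp (hwc j)).mul hek)
    · exact (hwc j).norm.pow 3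
    · exact fun t => pow_ne_zero _ (norm_ne_zero_iff.2 (sub_ne_zero.2 (hj j hj0 t)))
  have hHj : ∀ j : J, j ≠ 0 → Continuous fun t =>
      ((starRingEnd ℂ) (z t - pl S z j t) * pl S (ek k) j t).re / ‖z t - pl S z j t‖ ^ 3 := by
    intro j hj0
    apply Continuous.div
    · exact Complex.continuous_re.comp ((Complex.continuous_conj.comp (hwc j)).mul
        (elb_pl_cont S hek j))
    · exact (hwc j).norm.pow 3
    · exact fun t => pow_ne_zero _ (norm_ne_zero_iff.2 (sub_ne_zero.2 (hj j hj0 t)))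
  -- the symmetrisation
  have hsym : ∑ j ∈ (Finset.univ : Finset J).erase 0, (∫ t in (0 : ℝ)..(2 * π),
        ((starRingEnd ℂ) (z t - pl S z j t) * (ek k t - pl S (ek k) j t)).re /
          ‖z t - pl S z j t‖ ^ 3) =
      2 * ∑ j ∈ (Finset.univ : Finset J).erase 0, (∫ t in (0 : ℝ)..(2 * π),
        ((starRingEnd ℂ) (z t - pl S z j t) * ek k t).re / ‖z t - pl S z j t‖ ^ 3) := by
    have h1 : ∀ j ∈ (Finset.univ : Finset J).erase 0, (∫ t in (0 : ℝ)..(2 * π),
        ((starRingEnd ℂ) (z t - pl S z j t) * (ek k t - pl S (ek k) j t)).re /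
          ‖z t - pl S z j t‖ ^ 3) =
        (∫ t in (0 : ℝ)..(2 * π),
          ((starRingEnd ℂ) (z t - pl S z j t) * ek k t).re / ‖z t - pl S z j t‖ ^ 3) +
        ∫ t in (0 : ℝ)..(2 * π),
          ((starRingEnd ℂ) (z t - pl S z (-j) t) * ek k t).re / ‖z t - pl S z (-j) t‖ ^ 3 := by
      intro j hjm
      have hj0 : j ≠ 0 := Finset.ne_of_mem_erase hjm
      have h2 := elb_B S hzp k j
      have h3 : (∫ t in (0 : ℝ)..(2 * π),
          ((starRingEnd ℂ) (z t - pl S z (-j) t) * ek k t).re / ‖z t - pl S z (-j) t‖ ^ 3) =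
          -∫ t in (0 : ℝ)..(2 * π), ((starRingEnd ℂ) (z t - pl S z j t) *
            pl S (ek k) j t).re / ‖z t - pl S z j t‖ ^ 3 := by
        rw [h2, neg_neg]
      rw [h3, ← sub_eq_add_neg, ← intervalIntegral.integral_sub
        ((hGj j hj0).intervalIntegrable _ _) ((hHj j hj0).intervalIntegrable _ _)]
      congr 1
      funext t
      rw [← sub_div, mul_sub, Complex.sub_re]
    rw [Finset.sum_congr rfl h1, Finset.sum_add_distrib,
      elb_reindex (fun j => ∫ t in (0 : ℝ)..(2 * π),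
        ((starRingEnd ℂ) (z t - pl S z j t) * ek k t).re / ‖z t - pl S z j t‖ ^ 3)]
    ring
  rw [hsym]
  -- real part of the integral
  have hFc : Continuous fun t => force S ε z t * ek (-k) t :=
    (force_continuous S hzc h0 hj).mul (elb_ek_cont (-k))
  have hre : (∫ t in (0 : ℝ)..(2 * π), force S ε z t * ek (-k) t).re =
      -((∫ t in (0 : ℝ)..(2 * π), ((starRingEnd ℂ) (z t) * ek k t).re / ‖z t‖ ^ 3) +
      ε / 2 * (2 * ∑ j ∈ (Finset.univ : Finset J).erase 0, (∫ t in (0 : ℝ)..(2 * π),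
        ((starRingEnd ℂ) (z t - pl S z j t) * ek k t).re / ‖z t - pl S z j t‖ ^ 3))) := by
    have h1 := Complex.reCLM.intervalIntegral_comp_comm (hFc.intervalIntegrable
      (μ := volume) 0 (2 * π))
    have h2 : (∫ t in (0 : ℝ)..(2 * π), force S ε z t * ek (-k) t).re =
      ∫ t in (0 : ℝ)..(2 * π), (force S ε z t * ek (-k) t).re := h1.symm
    rw [h2]
    have h3 : ∀ t, (force S ε z t * ek (-k) t).re =
        -(((starRingEnd ℂ) (z t) * ek k t).re / ‖z t‖ ^ 3) -
        ε * ∑ j ∈ (Finset.univ : Finset J).erase 0,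
          ((starRingEnd ℂ) (z t - pl S z j t) * ek k t).re / ‖z t - pl S z j t‖ ^ 3 := by
      intro t
      have hq : ∀ w : ℂ, (w / ((‖w‖ ^ 3 : ℝ) : ℂ) * ek (-k) t).re =
          ((starRingEnd ℂ) w * ek k t).re / ‖w‖ ^ 3 := by
        intro w
        have e1 : w / ((‖w‖ ^ 3 : ℝ) : ℂ) * ek (-k) t =
            (starRingEnd ℂ) ((starRingEnd ℂ) w * ek k t) / ((‖w‖ ^ 3 : ℝ) : ℂ) := by
          rw [map_mul, Complex.conj_conj, elb_ek_conj]
          ring
        rw [e1, Complex.div_ofReal_re, Complex.conj_re]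
      unfold force
      rw [sub_mul, neg_mul, Complex.sub_re, Complex.neg_re, hq, mul_assoc, Complex.re_ofReal_mul,
        Finset.sum_mul, Complex.re_sum]
      congr 2
      exact Finset.sum_congr rfl fun j _ => hq _
    simp only [h3]
    rw [intervalIntegral.integral_sub, intervalIntegral.integral_neg,
      intervalIntegral.integral_const_mul, intervalIntegral.integral_finsetSum]
    · ring
    · intro j hjm
      exact (hGj j (Finset.ne_of_mem_erase hjm)).intervalIntegrable _ _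
    · exact hGz.neg.intervalIntegrable _ _
    · apply Continuous.intervalIntegrable
      apply Continuous.mul continuous_const
      exact continuous_finsetSum _ fun j hjm => hGj j (Finset.ne_of_mem_erase hjm)
  have him : (starRingEnd ℂ) (∫ t in (0 : ℝ)..(2 * π), force S ε z t * ek (-k) t) =
      ∫ t in (0 : ℝ)..(2 * π), force S ε z t * ek (-k) t := by
    have h1 : (starRingEnd ℂ) (∫ t in (0 : ℝ)..(2 * π), force S ε z t * ek (-k) t) =
        ∫ t in (0 : ℝ)..(2 * π), (starRingEnd ℂ) (force S ε z t * ek (-k) t) := by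
      rw [intervalIntegral.integral_of_le (by positivity),
        intervalIntegral.integral_of_le (by positivity)]
      exact integral_conj.symm
    rw [h1]
    have h2 : ∀ t, (starRingEnd ℂ) (force S ε z t * ek (-k) t) =
        (fun s => force S ε z s * ek (-k) s) (-t) := by
      intro t
      show _ = force S ε z (-t) * ek (-k) (-t)
      rw [map_mul, elb_force_neg S hzp hzn, elb_ek_conj, elb_ek_neg]
    simp only [h2]
    rw [intervalIntegral.integral_comp_neg (fun s => force S ε z s * ek (-k) s)]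
    have hp : Function.Periodic (fun s => force S ε z s * ek (-k) s) (2 * π) := by
      intro s
      show force S ε z (s + 2 * π) * ek (-k) (s + 2 * π) = force S ε z s * ek (-k) s
      rw [force_periodic S hzp, elb_ek_per]
    have h3 := hp.intervalIntegral_add_eq (-(2 * π)) 0
    rw [neg_add_cancel, zero_add] at h3
    rw [neg_zero]
    exact h3
  apply Complex.ext
  · rw [Complex.ofReal_re]
    exact hre
  · rw [Complex.ofReal_im]
    exact Complex.conj_eq_iff_im.1 him

end Pool.Agent.Helper43.Kep
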