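import Pool.Agent.Helper43.Kep.Defs

/-!
KEP ECC: Kepler's equation.  For `|e| ≤ 1` the function `x ↦ x - e sin x` is strictly increasing
(`|sin y - sin x| = 2 |sin ((y-x)/2)| |cos ..| < y - x` for `x < y`), continuous and surjective (IVT,
`|e sin x| ≤ 1`); `Function.invFun` is its inverse (`Function.leftInverse_invFun`,
`Function.rightInverse_invFun`).
* joint continuity at `(e, t)`, `x = ecc e t`, `r > 0`: `x - r - e sin (x-r) < t < x + r - e sin (x+r)`; for
  `(e', t')` close to `(e, t)` the same inequalities hold, so `ecc e' t' ∈ (x - r, x + r)` by monotonicity.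
* derivative: `HasDerivAt.of_local_left_inverse`.
-/

set_option autoImplicit false

namespace Pool.Agent.Helper43.Kep

open Real MeasureTheory Set Filter Topology

private theorem ecc_abs_sin_lt {u : ℝ} (hu : 0 < u) : |Real.sin u| < u := by
  rcases le_or_gt u 1 with h | h
  · rw [abs_of_pos (Real.sin_pos_of_pos_of_le_one hu h)]
    exact Real.sin_lt hu
  · exact (Real.abs_sin_le_one u).trans_lt h

private theorem ecc_f_mono {e : ℝ} (he : |e| ≤ 1) :
    StrictMono (fun x : ℝ => x - e * Real.sin x) := by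
  intro x y hxy
  have h1 : Real.sin y - Real.sin x = 2 * Real.sin ((y - x) / 2) * Real.cos ((y + x) / 2) :=
    Real.sin_sub_sin y x
  have h2 : |Real.sin y - Real.sin x| < y - x := by
    rw [h1, abs_mul, abs_mul, abs_two]
    have h3 := ecc_abs_sin_lt (u := (y - x) / 2) (by linarith)
    have h4 := Real.abs_cos_le_one ((y + x) / 2)
    have h5 := abs_nonneg (Real.sin ((y - x) / 2))
    have h6 := abs_nonneg (Real.cos ((y + x) / 2))
    nlinarith
  have h3 : e * (Real.sin y - Real.sin x) < y - x := by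
    refine lt_of_le_of_lt (le_abs_self _) ?_
    rw [abs_mul]
    refine lt_of_le_of_lt ?_ h2
    exact mul_le_of_le_one_left (abs_nonneg _) he
  simp only
  linarith

private theorem ecc_f_cont (e : ℝ) : Continuous (fun x : ℝ => x - e * Real.sin x) := by
  fun_prop

private theorem ecc_abs_mul {e : ℝ} (he : |e| ≤ 1) (x : ℝ) : |e * Real.sin x| ≤ 1 := by
  rw [abs_mul]
  exact mul_le_one₀ he (abs_nonneg _) (Real.abs_sin_le_one x)

private theorem ecc_f_surj {e : ℝ} (he : |e| ≤ 1) :
    Function.Surjective (fun x : ℝ => x - e * Real.sin x) := by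
  refine (ecc_f_cont e).surjective ?_ ?_
  · have hle : ∀ x : ℝ, x + (-1) ≤ x - e * Real.sin x := fun x => by
      have := (abs_le.1 (ecc_abs_mul he x)).2
      linarith
    exact tendsto_atTop_mono hle (tendsto_atTop_add_const_right _ _ tendsto_id)
  · have hle : ∀ x : ℝ, x - e * Real.sin x ≤ x + 1 := fun x => by
      have := (abs_le.1 (ecc_abs_mul he x)).1
      linarith
    exact tendsto_atBot_mono hle (tendsto_atBot_add_const_right _ _ tendsto_id)

theorem ecc_spec {e : ℝ} (he : |e| ≤ 1) (t : ℝ) : ecc e t - e * Real.sin (ecc e t) = t :=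
  Function.rightInverse_invFun (ecc_f_surj he) t

theorem ecc_eq {e t x : ℝ} (he : |e| ≤ 1) (h : x - e * Real.sin x = t) : ecc e t = x := by
  subst h
  exact Function.leftInverse_invFun (ecc_f_mono he).injective x

theorem ecc_strictMono {e : ℝ} (he : |e| ≤ 1) : StrictMono (ecc e) := by
  intro s t hst
  rw [← (ecc_f_mono he).lt_iff_lt, ecc_spec he, ecc_spec he]
  exact hst

theorem ecc_continuousOn :
    ContinuousOn (fun p : ℝ × ℝ => ecc p.1 p.2) (Icc (-1 : ℝ) 1 ×ˢ univ) := by
  intro p hp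
  have hpe : |p.1| ≤ 1 := abs_le.2 hp.1
  set x := ecc p.1 p.2 with hx
  rw [Metric.continuousWithinAt_iff']
  intro r hr
  have h1 : ∀ᶠ q : ℝ × ℝ in 𝓝 p, (x - r) - q.1 * Real.sin (x - r) < q.2 := by
    have hc : Continuous (fun q : ℝ × ℝ => (x - r) - q.1 * Real.sin (x - r)) := by fun_prop
    refine hc.continuousAt.eventually_lt continuous_snd.continuousAt ?_
    have := ecc_f_mono hpe (show x - r < x by linarith)
    simp only at this
    rwa [hx, ecc_spec hpe, ← hx] at this
  have h2 : ∀ᶠ q : ℝ × ℝ in 𝓝 p, q.2 < (x + r) - q.1 * Real.sin (x + r) := by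
    have hc : Continuous (fun q : ℝ × ℝ => (x + r) - q.1 * Real.sin (x + r)) := by fun_prop
    refine continuous_snd.continuousAt.eventually_lt hc.continuousAt ?_
    have := ecc_f_mono hpe (show x < x + r by linarith)
    simp only at this
    rwa [hx, ecc_spec hpe, ← hx] at this
  filter_upwards [mem_nhdsWithin_of_mem_nhds h1, mem_nhdsWithin_of_mem_nhds h2,
    self_mem_nhdsWithin] with q hq1 hq2 hq
  have hqe : |q.1| ≤ 1 := abs_le.2 hq.1
  rw [← ecc_spec hqe q.2] at hq1 hq2
  have h3 := (ecc_f_mono hqe).lt_iff_lt.1 hq1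
  have h4 := (ecc_f_mono hqe).lt_iff_lt.1 hq2
  rw [Real.dist_eq, abs_lt]
  constructor <;> linarith

theorem ecc_add_two_pi {e : ℝ} (he : |e| ≤ 1) (t : ℝ) : ecc e (t + 2 * π) = ecc e t + 2 * π := by
  apply ecc_eq he
  rw [Real.sin_add_two_pi]
  have := ecc_spec he t
  linarith

theorem ecc_neg {e : ℝ} (he : |e| ≤ 1) (t : ℝ) : ecc e (-t) = -ecc e t := by
  apply ecc_eq he
  rw [Real.sin_neg]
  have := ecc_spec he t
  linarith

theorem ecc_zero {e : ℝ} (he : |e| ≤ 1) : ecc e 0 = 0 := by
  apply ecc_eq he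
  simp

theorem ecc_pi {e : ℝ} (he : |e| ≤ 1) : ecc e π = π := by
  apply ecc_eq he
  simp

theorem ecc_hasDerivAt {e t : ℝ} (he : |e| ≤ 1) (h : 1 - e * Real.cos (ecc e t) ≠ 0) :
    HasDerivAt (ecc e) (1 - e * Real.cos (ecc e t))⁻¹ t := by
  have hc : Continuous (ecc e) := by
    have : Continuous (fun s : ℝ => ((e, s) : ℝ × ℝ)) := by fun_prop
    exact ecc_continuousOn.comp_continuous this (fun s => ⟨abs_le.1 he, mem_univ _⟩)
  have hf : HasDerivAt (fun x : ℝ => x - e * Real.sin x) (1 - e * Real.cos (ecc e t)) (ecc e t) :=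
    (hasDerivAt_id _).sub ((Real.hasDerivAt_sin _).const_mul e)
  exact hf.of_local_left_inverse hc.continuousAt h (Eventually.of_forall (ecc_spec he))

end Pool.Agent.Helper43.Kep
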