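import Pool.Agent.Helper43.Kep.KzA

/-!
KEP FLSC: the interaction is lower semicontinuous.  Fatou (`lintegral_liminf_le`) for each `j`, the integrand
`(‖z_n t - pl S (z_n) j t‖ₑ)⁻¹` converges pointwise (inversion is continuous on `ENNReal`), measurability by
continuity; a finite sum of liminf is at most the liminf of the sum (induction, `ENNReal.add_liminf_le..` or:
take a subsequence realising the liminf; alternatively write `Fint` as one `lintegral` of the finite sum,
`lintegral_finset_sum`, and use Fatou once).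
`Fint_lsc_kz`: for `e_n → e` in `[-1,1]`, with `kz_continuousOn`.
-/

set_option autoImplicit false

namespace Pool.Agent.Helper43.Kep

open Real MeasureTheory Set Filter Topology

variable {J : Type} [AddCommGroup J] [Fintype J] [DecidableEq J] (S : Sym J)


omit [Fintype J] [DecidableEq J] in
private theorem flsc_cont {z : ℝ → ℂ} (hz : Continuous z) (j : J) :
    Continuous fun t => (‖z t - pl S z j t‖ₑ)⁻¹ := by
  have h1 : Continuous fun t => pl S z j t := by
    unfold pl
    exact continuous_const.mul (hz.comp (continuous_id.add continuous_const))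
  exact (hz.sub h1).enorm.inv

private theorem flsc_eq {z : ℝ → ℂ} (hz : Continuous z) :
    Fint S z = ∫⁻ t in Ioc (0 : ℝ) (2 * π),
      ∑ j ∈ (Finset.univ : Finset J).erase 0, (‖z t - pl S z j t‖ₑ)⁻¹ := by
  unfold Fint
  rw [lintegral_finsetSum]
  exact fun j _ => (flsc_cont S hz j).measurable

theorem Fint_lsc {z : ℕ → ℝ → ℂ} {w : ℝ → ℂ} (hz : ∀ n, Continuous (z n)) (hw : Continuous w)
    (h : ∀ t, Tendsto (fun n => z n t) atTop (𝓝 (w t))) :
    Fint S w ≤ liminf (fun n => Fint S (z n)) atTop := by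
  have h1 : ∀ t, Tendsto (fun n => ∑ j ∈ (Finset.univ : Finset J).erase 0,
      (‖z n t - pl S (z n) j t‖ₑ)⁻¹) atTop
      (𝓝 (∑ j ∈ (Finset.univ : Finset J).erase 0, (‖w t - pl S w j t‖ₑ)⁻¹)) := by
    intro t
    refine tendsto_finsetSum _ fun j _ => ?_
    have h2 : Tendsto (fun n => pl S (z n) j t) atTop (𝓝 (pl S w j t)) := by
      unfold pl
      exact (h (t + S.σ j)).const_mul _
    exact ((h t).sub h2).enorm.inv
  rw [flsc_eq S hw]
  have h2 : (fun n => Fint S (z n)) = fun n => ∫⁻ t in Ioc (0 : ℝ) (2 * π),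
      ∑ j ∈ (Finset.univ : Finset J).erase 0, (‖z n t - pl S (z n) j t‖ₑ)⁻¹ :=
    funext fun n => flsc_eq S (hz n)
  rw [h2]
  have h3 : (fun t => ∑ j ∈ (Finset.univ : Finset J).erase 0, (‖w t - pl S w j t‖ₑ)⁻¹) =
      fun t => liminf (fun n => ∑ j ∈ (Finset.univ : Finset J).erase 0,
        (‖z n t - pl S (z n) j t‖ₑ)⁻¹) atTop := funext fun t => ((h1 t).liminf_eq).symm
  rw [h3]
  refine lintegral_liminf_le fun n => ?_
  exact (continuous_finsetSum _ fun j _ => flsc_cont S (hz n) j).measurable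

theorem Fint_lsc_kz {e : ℝ} (he : |e| ≤ 1) {B : ENNReal} (hB : B < Fint S (kz e)) :
    ∃ η > 0, ∀ e', |e'| ≤ 1 → |e' - e| < η → B < Fint S (kz e') := by
  by_contra hcon
  push Not at hcon
  have h1 : ∀ n : ℕ, ∃ e', |e'| ≤ 1 ∧ |e' - e| < 1 / ((n : ℝ) + 1) ∧ Fint S (kz e') ≤ B :=
    fun n => hcon _ (by positivity)
  choose f hf1 hf2 hf3 using h1
  have hmem : ∀ {x : ℝ}, |x| ≤ 1 → x ∈ Icc (-1 : ℝ) 1 := fun h => abs_le.1 h
  have hf : Tendsto f atTop (𝓝 e) := by
    rw [tendsto_iff_dist_tendsto_zero]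
    refine squeeze_zero (fun n => dist_nonneg) (fun n => ?_) tendsto_one_div_add_atTop_nhds_zero_nat
    rw [Real.dist_eq]
    exact (hf2 n).le
  have hlim : ∀ t, Tendsto (fun n => kz (f n) t) atTop (𝓝 (kz e t)) := by
    intro t
    have h2 : Tendsto (fun p : ℝ × ℝ => kz p.1 p.2) (𝓝[Icc (-1 : ℝ) 1 ×ˢ univ] (e, t))
        (𝓝 (kz e t)) := kz_continuousOn (e, t) ⟨hmem he, mem_univ _⟩
    have h3 : Tendsto (fun n => ((f n, t) : ℝ × ℝ)) atTop
        (𝓝[Icc (-1 : ℝ) 1 ×ˢ univ] (e, t)) := by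
      rw [tendsto_nhdsWithin_iff]
      exact ⟨hf.prodMk_nhds tendsto_const_nhds,
        Eventually.of_forall fun n => ⟨hmem (hf1 n), mem_univ _⟩⟩
    have h4 := h2.comp h3
    exact h4
  have h4 := Fint_lsc S (fun n => kz_continuous (hf1 n)) (kz_continuous he) hlim
  have h5 : liminf (fun n => Fint S (kz (f n))) atTop ≤ B := by
    refine (liminf_le_liminf (Eventually.of_forall hf3)).trans ?_
    rw [liminf_const]
  exact absurd (h4.trans h5) (not_le.2 hB)

end Pool.Agent.Helper43.Kep
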