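import Pool.Agent.Helper43.Kep.Ser

/-!
KEP FOURC: a `2π`-periodic `C¹` function `z` with `z(-t) = conj z(t)` is a series `zc c` with `c` real.
On `AddCircle (2π)` (`fourierCoeff`, `fourierCoeffOn`): coefficients `ĉ_k = (1/2π) ∫_0^{2π} z e^{-ikt}` are real
by the symmetry (substitute `t → 2π - t`); those of `z'` are `ik ĉ_k` (`fourierCoeffOn_of_hasDerivAt` or
integration by parts); Parseval (`tsum_sq_fourierCoeff`/`hasSum_sq_fourierCoeff`) for `z'` gives
`∑ k² ĉ_k² = (1/2π) ∫ |z'|²`; by `summable_abs` the coefficients are summable, so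
`has_pointwise_sum_fourier_series_of_summable` gives `z = zc c` pointwise.
-/

set_option autoImplicit false

namespace Pool.Agent.Helper43.Kep

open Real MeasureTheory Set Filter Topology

/-- the Fourier coefficients, computed on any period -/
private theorem fourC_coeff {a b : ℝ} (hab : a < b) (h : b - a = 2 * π) (f : ℝ → ℂ) (k : ℤ) :
    fourierCoeffOn hab f k = ((2 * π)⁻¹ : ℝ) •
      ∫ x in a..b, Complex.exp (((-k : ℝ) * x : ℝ) * Complex.I) * f x := by
  rw [fourierCoeffOn_eq_integral, h, one_div]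
  congr 1
  refine intervalIntegral.integral_congr fun x _ => ?_
  have h0 : (π : ℂ) ≠ 0 := by exact_mod_cast Real.pi_ne_zero
  simp only [smul_eq_mul]
  rw [fourier_coe_apply]
  congr 2
  push_cast
  field_simp

private theorem fourC_real {z : ℝ → ℂ} (hsym : ∀ t, z (-t) = (starRingEnd ℂ) (z t)) (k : ℤ) :
    (starRingEnd ℂ) (∫ x in (-π)..π, Complex.exp (((-k : ℝ) * x : ℝ) * Complex.I) * z x) =
      ∫ x in (-π)..π, Complex.exp (((-k : ℝ) * x : ℝ) * Complex.I) * z x := by
  rw [← intervalIntegral.intervalIntegral_conj]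
  have h1 := intervalIntegral.integral_comp_neg (a := -π) (b := π)
    (fun x : ℝ => Complex.exp (((-k : ℝ) * x : ℝ) * Complex.I) * z x)
  rw [neg_neg] at h1
  rw [← h1]
  refine intervalIntegral.integral_congr fun x _ => ?_
  rw [hsym, map_mul, ← Complex.exp_conj, map_mul, Complex.conj_I, Complex.conj_ofReal]
  congr 2
  push_cast
  ring

theorem fourC {z z' : ℝ → ℂ} (hz : ∀ t, HasDerivAt z (z' t) t) (hz' : Continuous z')
    (hper : ∀ t, z (t + 2 * π) = z t) (hsym : ∀ t, z (-t) = (starRingEnd ℂ) (z t)) :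
    ∃ c : ℤ → ℝ, FE c ∧ (∀ t, zc c t = z t) ∧
      2 * π * en c = ∫ t in (0 : ℝ)..(2 * π), ‖z' t‖ ^ 2 := by
  have hpi := Real.pi_pos
  have hzc : Continuous z := continuous_iff_continuousAt.2 fun t => (hz t).continuousAt
  have hT : Fact (0 < 2 * π) := ⟨by positivity⟩
  have hP : Function.Periodic z (2 * π) := hper
  let g : C(AddCircle (2 * π), ℂ) := ⟨hP.lift, continuous_coinduced_dom.mpr hzc⟩
  have hg : ∀ t : ℝ, g (t : AddCircle (2 * π)) = z t := fun t => hP.lift_coe t
  have e0 : (0 : ℝ) < 2 * π := hT.out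
  have e1 : -π < π := by linarith
  -- the coefficients
  have hC : ∀ (k : ℤ) (a : ℝ), fourierCoeff g k = ((2 * π)⁻¹ : ℝ) •
      ∫ x in a..a + 2 * π, Complex.exp (((-k : ℝ) * x : ℝ) * Complex.I) * z x := by
    intro k a
    rw [fourierCoeff_eq_intervalIntegral _ _ a, one_div]
    congr 1
    refine intervalIntegral.integral_congr fun x _ => ?_
    simp only [smul_eq_mul]
    rw [hg, fourier_coe_apply]
    have h0 : (π : ℂ) ≠ 0 := by exact_mod_cast Real.pi_ne_zero
    congr 2
    push_cast
    field_simp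
  have hreal : ∀ k, (((fourierCoeff g k).re : ℝ) : ℂ) = fourierCoeff g k := by
    intro k
    rw [← Complex.conj_eq_iff_re]
    rw [hC k (-π), show -π + 2 * π = π by ring, Complex.real_smul, map_mul, Complex.conj_ofReal,
      fourC_real hsym]
  have hon : ∀ k, fourierCoeffOn e0 z k = fourierCoeff g k := by
    intro k
    rw [fourC_coeff e0 (by ring), hC k 0, zero_add]
  have hz2 : z (2 * π) = z 0 := by
    have := hper 0
    rwa [zero_add] at this
  have hder : ∀ k : ℤ, fourierCoeffOn e0 z' k = (k : ℂ) * Complex.I * fourierCoeff g k := by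
    intro k
    have hint : IntervalIntegrable z' volume 0 (2 * π) := hz'.intervalIntegrable _ _
    by_cases hk : k = 0
    · subst hk
      rw [fourC_coeff e0 (by ring)]
      simp only [Int.cast_zero, neg_zero, zero_mul, Complex.ofReal_zero, Complex.exp_zero, one_mul]
      rw [intervalIntegral.integral_eq_sub_of_hasDerivAt (fun x _ => hz x) hint, hz2, sub_self,
        smul_zero]
    · have h1 := fourierCoeffOn_of_hasDerivAt e0 hk (fun x _ => hz x) hint
      rw [hon, hz2, sub_self, mul_zero, zero_sub] at h1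
      have h2 : (k : ℂ) ≠ 0 := by exact_mod_cast hk
      have h3 : (π : ℂ) ≠ 0 := by exact_mod_cast Real.pi_ne_zero
      rw [h1]
      push_cast
      field_simp
      ring_nf
  obtain ⟨C, hC'⟩ := isCompact_Icc.exists_bound_of_continuousOn (s := Icc 0 (2 * π))
    hz'.continuousOn
  have hmem : MemLp z' 2 (volume.restrict (Ioc 0 (2 * π))) := by
    refine MemLp.of_bound hz'.aestronglyMeasurable C ?_
    filter_upwards [ae_restrict_mem measurableSet_Ioc] with x hx
    exact hC' x (Ioc_subset_Icc_self hx)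
  have hpars := hasSum_sq_fourierCoeffOn (f := z') e0 hmem
  have hn : ∀ k : ℤ, ‖fourierCoeffOn e0 z' k‖ ^ 2 = (k : ℝ) ^ 2 * (fourierCoeff g k).re ^ 2 := by
    intro k
    rw [hder, ← hreal k, norm_mul, norm_mul, Complex.norm_I, Complex.norm_real, mul_one, mul_pow]
    rw [Complex.ofReal_re, Real.norm_eq_abs, sq_abs, Complex.norm_intCast, sq_abs]
  simp only [hn] at hpars
  have hFE : FE fun k => (fourierCoeff g k).re := hpars.summable
  refine ⟨fun k => (fourierCoeff g k).re, hFE, fun t => ?_, ?_⟩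
  · have h1 : Summable (fourierCoeff g) := by
      refine Summable.of_norm ?_
      refine (summable_abs hFE).congr fun k => ?_
      rw [← hreal k, Complex.norm_real, Complex.ofReal_re, Real.norm_eq_abs]
    have h2 := has_pointwise_sum_fourier_series_of_summable h1 (t : AddCircle (2 * π))
    rw [hg] at h2
    rw [← h2.tsum_eq]
    unfold zc
    refine tsum_congr fun k => ?_
    rw [hreal k, smul_eq_mul, fourier_coe_apply]
    have h0 : (π : ℂ) ≠ 0 := by exact_mod_cast Real.pi_ne_zero
    congr 2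
    push_cast
    field_simp
  · have h1 : en (fun k => (fourierCoeff g k).re) = (2 * π - 0)⁻¹ • ∫ x in (0 : ℝ)..2 * π, ‖z' x‖ ^ 2 :=
      hpars.tsum_eq
    rw [h1, sub_zero, smul_eq_mul]
    field_simp

end Pool.Agent.Helper43.Kep
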