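import Pool.Agent.Helper43.Kep.KDef
import Pool.Agent.Helper43.Kep.FLsc

/-!
KEP GAM: for small `ε` the competitors are close to ellipses `kz e`, `e ∈ [a,b]`.
By contradiction: `η > 0`, `ε_n → 0` and `c_n ∈ KK` with `Phi ε_n c_n ≤ Phi ε_n c0` but the conclusion fails.
`A0 (c_n) ≥ 3π` (`gordon`), so with `A0m ε c ≥ A0 c - 5π m ε` and `A0m ε c0 ≤ 3π`:
`ofReal (A0 c_n - 5π m ε_n) + ofReal (ε_n/2) F(c_n) ≤ ofReal (3π) + ofReal (ε_n/2) F(c0)`,  hence
`F(c_n) ≤ F(c0) + 10π m ≤ B` and `A0 c_n ≤ 3π + 5π m ε_n + (ε_n/2) F(c0) → 3π`.  Pass to a subsequence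
(`KK_compact`): limit `d ∈ KK`, `A0 d ≤ 3π` (`A0_lsc` along a further subsequence), so `zc d = kz e'`
(`rigid`), `F(kz e') ≤ B` (`Fint_lsc`).  `d ∈ KK`: there is `e ∈ [a,b]` with
`|e' - e| = ‖kz e' 0 - kz e 0‖ ≤ δ` (`kz_zero`), so `e' ∈ [l, r]`, hence `e' ∈ [a,b]` (`hsel`), and
`‖zc (c_n) t - kz e' t‖ ≤ η` eventually.  `en c_n < 5` eventually: `π en c_n ≤ A0 c_n → 3π`.  Contradiction.
-/

set_option autoImplicit false
set_option linter.unusedSectionVars false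
set_option linter.unusedVariables false

namespace Pool.Agent.Helper43.Kep

open Real MeasureTheory Set Filter Topology

variable {J : Type} [AddCommGroup J] [Fintype J] [DecidableEq J] (S : Sym J)


private theorem gam_mm : 0 ≤ mm J := by
  unfold mm
  positivity

private theorem gam_pot (z : ℝ → ℂ) : 0 ≤ pot z := by
  unfold pot
  exact intervalIntegral.integral_nonneg (by positivity) fun t _ => by positivity

/-- the real form of the comparison of the functionals -/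
private theorem gam_real {ε A x y : ℝ} {F F0 : ENNReal} (hε : 0 < ε) (hF0 : F0 ≠ ⊤)
    (hA : A ≤ x) (hy : y ≤ 3 * π)
    (h : ENNReal.ofReal x + ENNReal.ofReal (ε / 2) * F ≤
      ENNReal.ofReal y + ENNReal.ofReal (ε / 2) * F0) :
    F ≠ ⊤ ∧ A + ε / 2 * F.toReal ≤ 3 * π + ε / 2 * F0.toReal := by
  have hF : F ≠ ⊤ := by
    rintro rfl
    have h1 : ENNReal.ofReal (ε / 2) * ⊤ = ⊤ :=
      ENNReal.mul_top (ENNReal.ofReal_pos.2 (by positivity)).ne'
    rw [h1, add_top, top_le_iff] at h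
    exact (ENNReal.add_ne_top.2 ⟨ENNReal.ofReal_ne_top,
      ENNReal.mul_ne_top ENNReal.ofReal_ne_top hF0⟩) h
  refine ⟨hF, ?_⟩
  have h1 : ENNReal.ofReal (ε / 2) * F = ENNReal.ofReal (ε / 2 * F.toReal) := by
    rw [ENNReal.ofReal_mul (by positivity), ENNReal.ofReal_toReal hF]
  have h2 : ENNReal.ofReal (ε / 2) * F0 = ENNReal.ofReal (ε / 2 * F0.toReal) := by
    rw [ENNReal.ofReal_mul (by positivity), ENNReal.ofReal_toReal hF0]
  rw [h1, h2] at h
  have h3 : (0 : ℝ) ≤ ε / 2 * F0.toReal := mul_nonneg (by positivity) ENNReal.toReal_nonneg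
  have h4 : ENNReal.ofReal (A + ε / 2 * F.toReal) ≤
      ENNReal.ofReal (3 * π + ε / 2 * F0.toReal) := by
    calc ENNReal.ofReal (A + ε / 2 * F.toReal)
        ≤ ENNReal.ofReal (x + ε / 2 * F.toReal) := ENNReal.ofReal_le_ofReal (by linarith)
      _ ≤ ENNReal.ofReal x + ENNReal.ofReal (ε / 2 * F.toReal) := ENNReal.ofReal_add_le
      _ ≤ ENNReal.ofReal y + ENNReal.ofReal (ε / 2 * F0.toReal) := h
      _ ≤ ENNReal.ofReal (3 * π) + ENNReal.ofReal (ε / 2 * F0.toReal) := by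
          gcongr
      _ = ENNReal.ofReal (3 * π + ε / 2 * F0.toReal) :=
          (ENNReal.ofReal_add (by positivity) h3).symm
  exact (ENNReal.ofReal_le_ofReal_iff (by positivity)).1 h4

theorem gamma {l a b r δ e0 η : ℝ} {c0 : ℤ → ℝ} {B : ENNReal} (hη : 0 < η) (hδ : 0 ≤ δ)
    (ha : δ < 1 - |a|) (hb : δ < 1 - |b|) (hl : δ ≤ a - l) (hr : δ ≤ r - b)
    (he0 : |e0| < 1) (hc0 : FE c0) (hz0 : ∀ t, zc c0 t = kz e0 t) (hA0 : A0 c0 = 3 * π)
    (hF0 : Fint S (kz e0) ≠ ⊤) (hB : Fint S (kz e0) + ENNReal.ofReal (10 * π * mm J) ≤ B)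
    (hsel : ∀ e ∈ Icc l r, Fint S (kz e) ≤ B → a ≤ e ∧ e ≤ b) :
    ∃ ε₀ > 0, ∀ ε, 0 < ε → ε < ε₀ → ∀ c ∈ KK a b δ, Phi S ε c ≤ Phi S ε c0 →
      en c < 5 ∧ ∃ e ∈ Icc a b, ∀ t : ℝ, ‖zc c t - kz e t‖ ≤ η := by
  by_contra hcon
  push Not at hcon
  have hcon' : ∀ n : ℕ, ∃ (ε : ℝ) (c : ℤ → ℝ), 0 < ε ∧ ε < 1 / ((n : ℝ) + 1) ∧ c ∈ KK a b δ ∧
      Phi S ε c ≤ Phi S ε c0 ∧ ¬ (en c < 5 ∧ ∃ e ∈ Icc a b, ∀ t : ℝ, ‖zc c t - kz e t‖ ≤ η) := by
    intro n
    obtain ⟨ε, h1, h2, c, h3, h4, h5⟩ := hcon (1 / ((n : ℝ) + 1)) (by positivity)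
    refine ⟨ε, c, h1, h2, h3, h4, ?_⟩
    rintro ⟨h6, e, he, h7⟩
    obtain ⟨t, ht⟩ := h5 h6 e he
    exact absurd (h7 t) (not_le.2 ht)
  choose ε c hε hε1 hK hPhi hnP using hcon'
  have hmm := gam_mm (J := J)
  have hz0' : zc c0 = kz e0 := funext hz0
  set f0 := (Fint S (kz e0)).toReal with hf0
  -- estimates
  have hest : ∀ n, A0 (c n) - 5 * π * mm J * ε n + ε n / 2 * (Fint S (zc (c n))).toReal ≤
      3 * π + ε n / 2 * f0 ∧ Fint S (zc (c n)) ≠ ⊤ := by
    intro n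
    obtain ⟨hFE, hen, hnear⟩ := hK n
    have h1 : A0 (c n) - 5 * π * mm J * ε n ≤ A0m S (ε n) (c n) := by
      unfold A0m
      obtain ⟨hk0, hk1, -, -⟩ := kap_bounds (J := J) (hε n)
      have hi0 := ind_nonneg S (c n)
      have hi1 := (ind_le_en S hFE).trans hen
      have h2 : kap J (ε n) * ind S (c n) ≤ ε n * 5 := mul_le_mul hk1 hi1 hi0 (hε n).le
      have h3 : π * mm J * (kap J (ε n) * ind S (c n)) ≤ π * mm J * (ε n * 5) :=
        mul_le_mul_of_nonneg_left h2 (mul_nonneg pi_pos.le hmm)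
      linarith
    have h2 : A0m S (ε n) c0 ≤ 3 * π := by
      rw [← hA0]
      exact (A0m_lower S (hε n) hc0).2
    have h3 : ENNReal.ofReal (A0m S (ε n) (c n)) +
        ENNReal.ofReal (ε n / 2) * Fint S (zc (c n)) ≤
        ENNReal.ofReal (A0m S (ε n) c0) + ENNReal.ofReal (ε n / 2) * Fint S (kz e0) := by
      have h4 := hPhi n
      unfold Phi at h4
      rw [hz0'] at h4
      exact h4
    obtain ⟨h4, h5⟩ := gam_real (hε n) hF0 h1 h2 h3
    exact ⟨h5, h4⟩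
  have hg : ∀ n, 3 * π ≤ A0 (c n) := fun n => gordon hδ ha hb (hK n).1 (hK n).2.2
  have hFB : ∀ n, Fint S (zc (c n)) ≤ B := by
    intro n
    obtain ⟨h1, h2⟩ := hest n
    have h3 := hg n
    have h4 : (Fint S (zc (c n))).toReal ≤ f0 + 10 * π * mm J := by
      by_contra hc
      push Not at hc
      have h5 : ε n / 2 * (f0 + 10 * π * mm J) < ε n / 2 * (Fint S (zc (c n))).toReal :=
        mul_lt_mul_of_pos_left hc (by linarith [hε n])
      have h6 : ε n / 2 * (f0 + 10 * π * mm J) = ε n / 2 * f0 + 5 * π * mm J * ε n := by ring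
      linarith
    refine le_trans ?_ hB
    rw [← ENNReal.ofReal_toReal h2, ← ENNReal.ofReal_toReal hF0,
      ← ENNReal.ofReal_add ENNReal.toReal_nonneg (by positivity)]
    exact ENNReal.ofReal_le_ofReal h4
  have hA1 : ∀ n, A0 (c n) ≤ 3 * π + (5 * π * mm J + f0 / 2) * ε n := by
    intro n
    obtain ⟨h1, -⟩ := hest n
    have h2 : 0 ≤ ε n / 2 * (Fint S (zc (c n))).toReal :=
      mul_nonneg (by linarith [hε n]) ENNReal.toReal_nonneg
    linarith
  have hε0 : Tendsto ε atTop (𝓝 0) := by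
    refine squeeze_zero (fun n => (hε n).le) (fun n => (hε1 n).le)
      tendsto_one_div_add_atTop_nhds_zero_nat
  obtain ⟨φ, hφ, d, hd, hcoef, hunif, hpot⟩ := KK_compact hδ ha hb hK
  have hAlim : Tendsto (fun n => A0 (c (φ n))) atTop (𝓝 (3 * π)) := by
    have h1 : Tendsto (fun n => 3 * π + (5 * π * mm J + f0 / 2) * ε (φ n)) atTop
        (𝓝 (3 * π)) := by
      have h2 := ((hε0.comp hφ.tendsto_atTop).const_mul (5 * π * mm J + f0 / 2)).const_add (3 * π)
      rw [mul_zero, add_zero] at h2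
      exact h2
    exact tendsto_of_tendsto_of_tendsto_of_le_of_le tendsto_const_nhds h1
      (fun n => hg (φ n)) (fun n => hA1 (φ n))
  have hAd : A0 d ≤ 3 * π := A0_lsc hδ ha hb (fun n => hK (φ n)) hd hcoef hpot hAlim
  obtain ⟨e', he', hze'⟩ := rigid hδ ha hb hd.1 hd.2.2 hAd
  have hpt : ∀ t, Tendsto (fun n => zc (c (φ n)) t) atTop (𝓝 (zc d t)) := by
    intro t
    rw [Metric.tendsto_nhds]
    intro η' hη'
    filter_upwards [hunif (η' / 2) (by positivity)] with n hn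
    rw [dist_eq_norm]
    linarith [hn t]
  have hFd : Fint S (kz e') ≤ B := by
    rw [← (funext hze' : zc d = kz e')]
    refine (Fint_lsc S (fun n => zc_continuous (hK (φ n)).1) (zc_continuous hd.1) hpt).trans ?_
    refine (liminf_le_liminf (v := fun _ => B)
      (Eventually.of_forall fun n => hFB (φ n))).trans ?_
    rw [liminf_const]
  obtain ⟨e, he, hnear⟩ := hd.2.2
  have habs : |e| < 1 := by
    rw [abs_lt]
    have h1 := neg_abs_le a
    have h2 := le_abs_self b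
    exact ⟨by linarith [he.1], by linarith [he.2]⟩
  have hee : |e - e'| ≤ δ := by
    have h1 := hnear 0
    rw [hze' 0, kz_zero he'.le, kz_zero habs.le, ← Complex.ofReal_sub, Complex.norm_real,
      Real.norm_eq_abs] at h1
    have h2 : 1 - e' - (1 - e) = e - e' := by ring
    rwa [h2] at h1
  rw [abs_le] at hee
  obtain ⟨hae, heb⟩ := hsel e' ⟨by linarith [he.1, hee.2], by linarith [he.2, hee.1]⟩ hFd
  have hev1 : ∀ᶠ n in atTop, A0 (c (φ n)) < 5 * π :=
    hAlim.eventually_lt_const (by linarith [pi_pos])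
  obtain ⟨n, hn1, hn2⟩ := (hev1.and (hunif η hη)).exists
  refine hnP (φ n) ⟨?_, e', ⟨hae, heb⟩, fun t => ?_⟩
  · unfold A0 at hn1
    have h1 := gam_pot (zc (c (φ n)))
    have h2 : π * en (c (φ n)) < π * 5 := by linarith
    exact lt_of_mul_lt_mul_left h2 pi_pos.le
  · rw [← hze' t]
    exact hn2 t

end Pool.Agent.Helper43.Kep
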