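import Pool.Agent.Helper43.Kep.Ecc

/-!
KEP KZA: elementary properties of the Kepler ellipses `kz e`, `|e| ≤ 1`.  Everything follows from `Ecc.lean`
and the formula `kz e t = (cos x - e, √(1-e²) sin x)`, `x = ecc e t`;
`‖kz e t‖² = (cos x - e)² + (1-e²) sin² x = (1 - e cos x)²`.
* `kz_inj`: equal real parts give `cos x = cos x'`, equal imaginary parts `sin x = sin x'` (`1 - e² > 0`), so
  `x' = x + 2πn` (`Real.Angle` or `Complex.exp_eq_exp_iff_exists_int`) and `t' = t + 2πn` by `ecc_spec`.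
-/

set_option autoImplicit false

namespace Pool.Agent.Helper43.Kep

open Real MeasureTheory Set Filter Topology

private theorem kza_eq (e t : ℝ) : kz e t = ((Real.cos (ecc e t) - e : ℝ) : ℂ) +
    ((Real.sqrt (1 - e ^ 2) * Real.sin (ecc e t) : ℝ) : ℂ) * Complex.I := by
  apply Complex.ext
  · simp only [kz, Complex.add_re, Complex.ofReal_re, Complex.re_ofReal_mul, Complex.I_re,
      mul_zero, add_zero]
  · simp only [kz, Complex.add_im, Complex.ofReal_im, Complex.im_ofReal_mul, Complex.I_im,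
      mul_one, zero_add]

private theorem kza_sq {e : ℝ} (he : |e| ≤ 1) : 0 ≤ 1 - e ^ 2 := by
  have := sq_abs e
  have h0 := abs_nonneg e
  nlinarith

theorem kz_continuousOn :
    ContinuousOn (fun p : ℝ × ℝ => kz p.1 p.2) (Icc (-1 : ℝ) 1 ×ˢ univ) := by
  have h := ecc_continuousOn
  have h1 : ContinuousOn (fun p : ℝ × ℝ => Real.cos (ecc p.1 p.2) - p.1)
      (Icc (-1 : ℝ) 1 ×ˢ univ) :=
    (Real.continuous_cos.comp_continuousOn h).sub continuous_fst.continuousOn
  have h2 : ContinuousOn (fun p : ℝ × ℝ => Real.sqrt (1 - p.1 ^ 2) * Real.sin (ecc p.1 p.2))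
      (Icc (-1 : ℝ) 1 ×ˢ univ) := by
    refine ContinuousOn.mul ?_ (Real.continuous_sin.comp_continuousOn h)
    exact (Real.continuous_sqrt.comp (by fun_prop)).continuousOn
  have h3 : ContinuousOn (fun p : ℝ × ℝ => ((Real.cos (ecc p.1 p.2) - p.1 : ℝ) : ℂ) +
      ((Real.sqrt (1 - p.1 ^ 2) * Real.sin (ecc p.1 p.2) : ℝ) : ℂ) * Complex.I)
      (Icc (-1 : ℝ) 1 ×ˢ univ) :=
    (Complex.continuous_ofReal.comp_continuousOn h1).add
      ((Complex.continuous_ofReal.comp_continuousOn h2).mul continuousOn_const)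
  exact h3.congr fun p _ => kza_eq p.1 p.2

theorem kz_continuous {e : ℝ} (he : |e| ≤ 1) : Continuous (kz e) := by
  have h := kz_continuousOn.comp_continuous (f := fun t : ℝ => (e, t)) (by fun_prop)
    (fun t => ⟨⟨by linarith [neg_abs_le e], by linarith [le_abs_self e]⟩, mem_univ _⟩)
  exact h

theorem kz_add_two_pi {e : ℝ} (he : |e| ≤ 1) (t : ℝ) : kz e (t + 2 * π) = kz e t := by
  rw [kza_eq, kza_eq, ecc_add_two_pi he, Real.cos_add_two_pi, Real.sin_add_two_pi]

theorem kz_neg {e : ℝ} (he : |e| ≤ 1) (t : ℝ) : kz e (-t) = (starRingEnd ℂ) (kz e t) := by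
  rw [kza_eq, kza_eq, ecc_neg he, Real.cos_neg, Real.sin_neg]
  simp only [map_add, map_mul, Complex.conj_ofReal, Complex.conj_I]
  push_cast
  ring

private theorem kza_pos {e : ℝ} (he : |e| ≤ 1) (x : ℝ) : 0 ≤ 1 - e * Real.cos x := by
  have h1 : |e * Real.cos x| ≤ 1 := by
    rw [abs_mul]
    have := Real.abs_cos_le_one x
    have h0 := abs_nonneg e
    have h2 := abs_nonneg (Real.cos x)
    nlinarith
  linarith [le_abs_self (e * Real.cos x)]

theorem norm_kz {e : ℝ} (he : |e| ≤ 1) (t : ℝ) : ‖kz e t‖ = 1 - e * Real.cos (ecc e t) := by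
  have h1 : ‖kz e t‖ ^ 2 = (1 - e * Real.cos (ecc e t)) ^ 2 := by
    rw [← Complex.normSq_eq_norm_sq, Complex.normSq_apply]
    simp only [kz]
    have h2 := Real.mul_self_sqrt (kza_sq he)
    have h3 := Real.sin_sq_add_cos_sq (ecc e t)
    have h4 : Real.sqrt (1 - e ^ 2) * Real.sin (ecc e t) * (Real.sqrt (1 - e ^ 2) *
        Real.sin (ecc e t)) = (1 - e ^ 2) * Real.sin (ecc e t) ^ 2 := by
      linear_combination (Real.sin (ecc e t) ^ 2) * h2
    rw [h4]
    linear_combination (1 - e ^ 2) * h3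
  exact (sq_eq_sq₀ (norm_nonneg _) (kza_pos he _)).1 h1

theorem norm_kz_ge {e : ℝ} (he : |e| ≤ 1) (t : ℝ) : 1 - |e| ≤ ‖kz e t‖ := by
  rw [norm_kz he]
  have h1 : |e * Real.cos (ecc e t)| ≤ |e| := by
    rw [abs_mul]
    exact mul_le_of_le_one_right (abs_nonneg e) (Real.abs_cos_le_one _)
  linarith [le_abs_self (e * Real.cos (ecc e t))]

theorem norm_kz_le {e : ℝ} (he : |e| ≤ 1) (t : ℝ) : ‖kz e t‖ ≤ 2 := by
  rw [norm_kz he]
  have h1 : |e * Real.cos (ecc e t)| ≤ |e| := by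
    rw [abs_mul]
    exact mul_le_of_le_one_right (abs_nonneg e) (Real.abs_cos_le_one _)
  linarith [neg_abs_le (e * Real.cos (ecc e t))]

theorem kz_zero {e : ℝ} (he : |e| ≤ 1) : kz e 0 = ((1 - e : ℝ) : ℂ) := by
  rw [kza_eq, ecc_zero he]
  simp

theorem kz_pi {e : ℝ} (he : |e| ≤ 1) : kz e π = ((-(1 + e) : ℝ) : ℂ) := by
  rw [kza_eq, ecc_pi he, Real.cos_pi, Real.sin_pi]
  push_cast
  ring

theorem kz_im_nonneg {e t : ℝ} (he : |e| ≤ 1) (ht : t ∈ Icc (0 : ℝ) π) : 0 ≤ (kz e t).im := by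
  have h1 : 0 ≤ ecc e t := by
    rw [← ecc_zero he]
    exact (ecc_strictMono he).monotone ht.1
  have h2 : ecc e t ≤ π := by
    rw [← ecc_pi he]
    exact (ecc_strictMono he).monotone ht.2
  exact mul_nonneg (Real.sqrt_nonneg _) (Real.sin_nonneg_of_nonneg_of_le_pi h1 h2)

theorem kz_inj {e t t' : ℝ} (he : |e| < 1) (h : kz e t = kz e t') : ∃ n : ℤ, t' = t + 2 * π * n := by
  have hre := congrArg Complex.re h
  have him := congrArg Complex.im h
  simp only [kz] at hre him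
  have hs : 0 < Real.sqrt (1 - e ^ 2) := by
    apply Real.sqrt_pos.2
    have := sq_abs e
    have h0 := abs_nonneg e
    nlinarith
  have h1 : Real.cos (ecc e t') = Real.cos (ecc e t) := by linarith
  have h2 : Real.sin (ecc e t') = Real.sin (ecc e t) := (mul_left_cancel₀ hs.ne' him).symm
  have h3 := Real.Angle.cos_sin_inj h1 h2
  obtain ⟨n, hn⟩ := Real.Angle.angle_eq_iff_two_pi_dvd_sub.1 h3
  refine ⟨n, ?_⟩
  have k1 := ecc_spec he.le t
  have k2 := ecc_spec he.le t'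
  rw [h2] at k2
  linarith

end Pool.Agent.Helper43.Kep
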