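import Pool.Agent.Helper43.Kep.Defs

/-!
KEP LIFT: the square root with the cut along the negative imaginary axis.
`lift z = e^{iπ/4} (-iz)^{1/2}` (principal branch); `Up = {z : -iz ∈ slitPlane} = {z : im z > 0 or re z ≠ 0}`.
* `lift_sq`: `Complex.cpow_nat_inv_pow` or `Complex.cpow_ofNat..`; `(e^{iπ/4})² = i`, `i·(-i z) = z`.
* `lift_hasDerivAt`: `HasDerivAt.cpow_const`/`Complex.hasStrictDerivAt_cpow_const`; or: `lift` is continuous
  on `Up`, and `lift z ^ 2 = z` (inverse function rule).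
* `lift_real`: `-i x = x e^{-iπ/2}`; `lift_neg`: `-i x = |x| e^{iπ/2}`.
* `up_of_near`: if `z ∉ Up` then `re z = 0`, `im z ≤ 0`, so `‖z - k‖² = (re k)² + (im k - im z)² ≥ ‖k‖² > δ²`.
-/

set_option autoImplicit false

namespace Pool.Agent.Helper43.Kep

open Real MeasureTheory Set Filter Topology

/-- the square root on `Up` -/
noncomputable def lift (z : ℂ) : ℂ :=
  Complex.exp ((π / 4 : ℝ) * Complex.I) * (-Complex.I * z) ^ ((1 : ℂ) / 2)

/-- the plane without the closed negative imaginary half axis -/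
def Up : Set ℂ := {z | -Complex.I * z ∈ Complex.slitPlane}

private theorem lift_expsq : Complex.exp ((π / 4 : ℝ) * Complex.I) ^ 2 = Complex.I := by
  rw [← Complex.exp_nat_mul]
  have h : ((2 : ℕ) : ℂ) * (((π / 4 : ℝ) : ℂ) * Complex.I) = (π : ℂ) / 2 * Complex.I := by
    push_cast
    ring
  rw [h, Complex.exp_pi_div_two_mul_I]

theorem lift_sq (z : ℂ) : lift z ^ 2 = z := by
  unfold lift
  rw [mul_pow, lift_expsq]
  have h := Complex.cpow_nat_inv_pow (-Complex.I * z) (n := 2) two_ne_zero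
  have h2 : ((2 : ℕ) : ℂ)⁻¹ = (1 : ℂ) / 2 := by norm_num
  rw [h2] at h
  rw [h]
  linear_combination (-z) * Complex.I_mul_I

theorem lift_ne {z : ℂ} (h : z ≠ 0) : lift z ≠ 0 := by
  intro h0
  have h1 := lift_sq z
  rw [h0, zero_pow two_ne_zero] at h1
  exact h h1.symm

theorem lift_norm (z : ℂ) : ‖lift z‖ ^ 2 = ‖z‖ := by
  rw [← norm_pow, lift_sq]

theorem lift_continuousOn : ContinuousOn lift Up := by
  intro z hz
  refine ContinuousAt.continuousWithinAt ?_
  unfold lift
  refine continuousAt_const.mul ?_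
  have h1 : ContinuousAt (fun x : ℂ => x ^ ((1 : ℂ) / 2)) (-Complex.I * z) :=
    continuousAt_cpow_const hz
  exact ContinuousAt.comp (f := fun z : ℂ => -Complex.I * z) h1
    (continuousAt_const.mul continuousAt_id)

theorem lift_hasDerivAt {z : ℝ → ℂ} {z' : ℂ} {t : ℝ} (hz : HasDerivAt z z' t) (h : z t ∈ Up) :
    HasDerivAt (fun s => lift (z s)) (z' / (2 * lift (z t))) t := by
  have h1 : HasDerivAt (fun x : ℂ => x ^ ((1 : ℂ) / 2)) _ (-Complex.I * z t) :=
    (Complex.hasStrictDerivAt_cpow_const (c := (1 : ℂ) / 2) h).hasDerivAt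
  have h2 : HasDerivAt (fun s => -Complex.I * z s) (-Complex.I * z') t := hz.const_mul _
  have h3 := HasDerivAt.comp t h1 h2
  have h4 := h3.const_mul (Complex.exp ((π / 4 : ℝ) * Complex.I))
  obtain ⟨D, hD⟩ : ∃ D, HasDerivAt (fun s => lift (z s)) D t := ⟨_, h4⟩
  have h5 := hD.pow 2
  have h6 : (fun s => lift (z s)) ^ 2 = z := by
    funext s
    exact lift_sq (z s)
  rw [h6] at h5
  have h7 := h5.unique hz
  have hz0 : z t ≠ 0 := by
    intro h0
    have h8 : -Complex.I * z t ∈ Complex.slitPlane := h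
    rw [h0, mul_zero] at h8
    exact Complex.zero_notMem_slitPlane h8
  have h8 : lift (z t) ≠ 0 := lift_ne hz0
  have h9 : z' / (2 * lift (z t)) = D := by
    rw [← h7, div_eq_iff (mul_ne_zero two_ne_zero h8)]
    norm_num
    ring
  rw [h9]
  exact hD

theorem lift_real {x : ℝ} (hx : 0 < x) : (lift x).im = 0 ∧ 0 < (lift x).re := by
  have h1 : lift x = ((Real.exp (Real.log x / 2) : ℝ) : ℂ) := by
    unfold lift
    have hne : -Complex.I * (x : ℂ) ≠ 0 :=
      mul_ne_zero (neg_ne_zero.2 Complex.I_ne_zero) (by exact_mod_cast hx.ne')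
    rw [Complex.cpow_def_of_ne_zero hne, Complex.log_mul_ofReal x hx _
      (neg_ne_zero.2 Complex.I_ne_zero), Complex.log_neg_I, ← Complex.exp_add, Complex.ofReal_exp]
    congr 1
    push_cast
    ring
  rw [h1]
  exact ⟨Complex.ofReal_im _, by rw [Complex.ofReal_re]; exact Real.exp_pos _⟩

theorem lift_neg {x : ℝ} (hx : x < 0) : (lift x).re = 0 ∧ 0 < (lift x).im := by
  have h1 : lift x = ((Real.exp (Real.log (-x) / 2) : ℝ) : ℂ) * Complex.I := by
    unfold lift
    have hne : Complex.I * ((-x : ℝ) : ℂ) ≠ 0 :=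
      mul_ne_zero Complex.I_ne_zero (by exact_mod_cast (neg_pos.2 hx).ne')
    have h2 : -Complex.I * (x : ℂ) = Complex.I * ((-x : ℝ) : ℂ) := by
      push_cast
      ring
    have h3 : ((Real.exp (Real.log (-x) / 2) : ℝ) : ℂ) * Complex.I =
        Complex.exp (((Real.log (-x) / 2 : ℝ) : ℂ) + π / 2 * Complex.I) := by
      rw [Complex.exp_add, Complex.exp_pi_div_two_mul_I, Complex.ofReal_exp]
    rw [h3, h2, Complex.cpow_def_of_ne_zero hne, Complex.log_mul_ofReal (-x) (neg_pos.2 hx) _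
      Complex.I_ne_zero, Complex.log_I, ← Complex.exp_add]
    congr 1
    push_cast
    ring
  rw [h1]
  constructor
  · rw [Complex.re_ofReal_mul, Complex.I_re, mul_zero]
  · rw [Complex.im_ofReal_mul, Complex.I_im, mul_one]
    exact Real.exp_pos _

theorem up_of_near {z k : ℂ} {δ : ℝ} (hk : 0 ≤ k.im) (hk' : δ < ‖k‖) (h : ‖z - k‖ ≤ δ) : z ∈ Up := by
  by_contra hz
  have h1 : ¬ (0 < (-Complex.I * z).re ∨ (-Complex.I * z).im ≠ 0) := hz
  push Not at h1
  obtain ⟨h2, h3⟩ := h1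
  simp only [neg_mul, Complex.neg_re, Complex.neg_im, Complex.mul_re, Complex.mul_im, Complex.I_re,
    Complex.I_im] at h2 h3
  have h4 : z.re = 0 := by linarith
  have h5 : z.im ≤ 0 := by linarith
  have h6 : ‖k‖ ^ 2 ≤ ‖z - k‖ ^ 2 := by
    rw [← Complex.normSq_eq_norm_sq, ← Complex.normSq_eq_norm_sq, Complex.normSq_apply,
      Complex.normSq_apply, Complex.sub_re, Complex.sub_im, h4]
    nlinarith [mul_nonneg hk (neg_nonneg.2 h5), sq_nonneg z.im]
  have h7 : ‖k‖ ≤ ‖z - k‖ := by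
    exact (sq_le_sq₀ (norm_nonneg _) (norm_nonneg _)).1 h6
  linarith

end Pool.Agent.Helper43.Kep
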