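import Pool.Agent.Helper43.Kep.Wirt

/-!
KEP GORW: Gordon's inequality in Levi-Civita form.  `ρ = ‖w‖²`, `ℓ = tau ρ π`, `κ = lam ρ`,
`A = ∫_0^π 2‖w‖²‖w'‖² + 1/‖w‖²`, `u = re w`, `v = im w` (so `u(π) = 0`, `v(0) = 0`,
`‖w'‖² = u'² + v'²`, `(u² + v²)/ρ = 1`).  Adding `wirt` and `wirt'` (twice):
`A ≥ 2κ² π + ℓ + 2 D_u + 2 D_v`, and `2κ²π + ℓ - 3π/2 = (ℓ-π)²(2ℓ+π)/(2ℓ²) ≥ 0` (`κ = π/(2ℓ)`, `field_simp`,
`ring`).  Hence the first two claims and `D_u(t), D_v(t) ≤ (A - 3π/2)/2`.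
Third claim: `U = u/cos(κτ)` has `U' = (u' + κ tan(κτ) u/ρ)/cos(κτ)` on `[0, t]`, so
`(U(t) - U(0))² ≤ ∫_0^t ρ (u' + κ tan(κτ) u/ρ)² · ∫_0^t 1/(ρ cos²(κτ)) = D_u(t) tan(κτ(t))/κ`
(Cauchy-Schwarz; `(tan(κτ)/κ)' = 1/(ρ cos²(κτ))`).  Fourth claim: the same with `v/sin(κτ)` on `[t, π]`.
(Cauchy-Schwarz for integrals of continuous functions: e.g. from `∫ (a f - b g)² ≥ 0`, or
`inner_mul_le_norm_mul_norm`, see `Pool.Agent` for `integral_mul_le_Lp_mul_Lq_of_nonneg`.)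
-/

set_option autoImplicit false

namespace Pool.Agent.Helper43.Kep

open Real MeasureTheory Set Filter Topology

/-- the half action in Levi-Civita form -/
noncomputable def actW (w w' : ℝ → ℂ) : ℝ :=
  ∫ t in (0 : ℝ)..π, (2 * ‖w t‖ ^ 2 * ‖w' t‖ ^ 2 + (‖w t‖ ^ 2)⁻¹)

/-- the weight -/
noncomputable def rho (w : ℝ → ℂ) (t : ℝ) : ℝ := ‖w t‖ ^ 2

lemma gorW_alg {ℓ : ℝ} (hℓ : 0 < ℓ) :
    2 * (π / (2 * ℓ)) ^ 2 * π + ℓ - 3 * π / 2 = (ℓ - π) ^ 2 * (2 * ℓ + π) / (2 * ℓ ^ 2) := by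
  field_simp
  ring

lemma gorW_alg_nonneg {ℓ : ℝ} (hℓ : 0 < ℓ) :
    0 ≤ (ℓ - π) ^ 2 * (2 * ℓ + π) / (2 * ℓ ^ 2) := by
  have := pi_pos
  positivity

/-- the basic facts about `w` -/
private lemma gorW_basic {w w' : ℝ → ℂ} (hw : ∀ t ∈ Icc 0 π, HasDerivAt w (w' t) t)
    (hw' : ContinuousOn w' (Icc 0 π)) (h0 : ∀ t ∈ Icc 0 π, w t ≠ 0) :
    ContinuousOn (rho w) (Icc 0 π) ∧ (∀ t ∈ Icc 0 π, 0 < rho w t) ∧
    (∀ t ∈ Icc 0 π, HasDerivAt (fun t => (w t).re) ((w' t).re) t) ∧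
    (∀ t ∈ Icc 0 π, HasDerivAt (fun t => (w t).im) ((w' t).im) t) ∧
    ContinuousOn (fun t => (w' t).re) (Icc 0 π) ∧ ContinuousOn (fun t => (w' t).im) (Icc 0 π) := by
  have hwc : ContinuousOn w (Icc 0 π) := fun t ht => (hw t ht).continuousAt.continuousWithinAt
  refine ⟨hwc.norm.pow 2, fun t ht => ?_, fun t ht => ?_, fun t ht => ?_, ?_, ?_⟩
  · unfold rho
    have := norm_pos_iff.mpr (h0 t ht)
    positivity
  · exact (Complex.reCLM.hasFDerivAt.comp_hasDerivAt t (hw t ht))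
  · exact (Complex.imCLM.hasFDerivAt.comp_hasDerivAt t (hw t ht))
  · exact Complex.continuous_re.comp_continuousOn hw'
  · exact Complex.continuous_im.comp_continuousOn hw'

private lemma gorW_act {w w' : ℝ → ℂ} (hw : ∀ t ∈ Icc 0 π, HasDerivAt w (w' t) t)
    (hw' : ContinuousOn w' (Icc 0 π)) (h0 : ∀ t ∈ Icc 0 π, w t ≠ 0) :
    actW w w' = 2 * (∫ t in (0 : ℝ)..π, rho w t * (w' t).re ^ 2) +
      2 * (∫ t in (0 : ℝ)..π, rho w t * (w' t).im ^ 2) + tau (rho w) π := by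
  obtain ⟨hρ, hpos, -, -, hr, hi⟩ := gorW_basic hw hw' h0
  have i1 : IntervalIntegrable (fun t => rho w t * (w' t).re ^ 2) volume 0 π :=
    wirt_int (hρ.mul (hr.pow 2)) le_rfl pi_pos.le le_rfl
  have i2 : IntervalIntegrable (fun t => rho w t * (w' t).im ^ 2) volume 0 π :=
    wirt_int (hρ.mul (hi.pow 2)) le_rfl pi_pos.le le_rfl
  have i3 := wirt_int (wirt_inv_cont hρ hpos) le_rfl pi_pos.le le_rfl
  have e : ∀ t ∈ uIcc 0 π, 2 * ‖w t‖ ^ 2 * ‖w' t‖ ^ 2 + (‖w t‖ ^ 2)⁻¹ =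
      (2 * (rho w t * (w' t).re ^ 2) + 2 * (rho w t * (w' t).im ^ 2)) + (rho w t)⁻¹ := by
    intro t _
    have : ‖w' t‖ ^ 2 = (w' t).re ^ 2 + (w' t).im ^ 2 := by
      rw [← Complex.normSq_eq_norm_sq, Complex.normSq_apply]
      ring
    unfold rho
    rw [this]
    ring
  unfold actW
  rw [intervalIntegral.integral_congr e, intervalIntegral.integral_add
    ((i1.const_mul 2).add (i2.const_mul 2)) i3, intervalIntegral.integral_add (i1.const_mul 2)
    (i2.const_mul 2), intervalIntegral.integral_const_mul, intervalIntegral.integral_const_mul]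
  rfl

private lemma gorW_sum {w w' : ℝ → ℂ} (hw : ∀ t ∈ Icc 0 π, HasDerivAt w (w' t) t)
    (hw' : ContinuousOn w' (Icc 0 π)) (h0 : ∀ t ∈ Icc 0 π, w t ≠ 0) :
    (∫ t in (0 : ℝ)..π, (w t).re ^ 2 / rho w t) + (∫ t in (0 : ℝ)..π, (w t).im ^ 2 / rho w t) =
      π := by
  obtain ⟨hρ, hpos, hu, hv, hr, hi⟩ := gorW_basic hw hw' h0
  have huc : ContinuousOn (fun t => (w t).re) (Icc 0 π) :=
    fun t ht => (hu t ht).continuousAt.continuousWithinAt
  have hvc : ContinuousOn (fun t => (w t).im) (Icc 0 π) :=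
    fun t ht => (hv t ht).continuousAt.continuousWithinAt
  have j1 : IntervalIntegrable (fun t => (w t).re ^ 2 / rho w t) volume 0 π :=
    wirt_int ((huc.pow 2).div hρ fun t ht => (hpos t ht).ne') le_rfl pi_pos.le le_rfl
  have j2 : IntervalIntegrable (fun t => (w t).im ^ 2 / rho w t) volume 0 π :=
    wirt_int ((hvc.pow 2).div hρ fun t ht => (hpos t ht).ne') le_rfl pi_pos.le le_rfl
  rw [← intervalIntegral.integral_add j1 j2]
  have e : ∀ t ∈ uIcc 0 π, (w t).re ^ 2 / rho w t + (w t).im ^ 2 / rho w t = 1 := by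
    intro t ht
    rw [uIcc_of_le pi_pos.le] at ht
    have hp := (hpos t ht).ne'
    rw [← add_div, div_eq_one_iff_eq hp]
    unfold rho
    rw [← Complex.normSq_eq_norm_sq, Complex.normSq_apply]
    ring
  rw [intervalIntegral.integral_congr e]
  simp

/-- `tan (κτ)/κ` is a primitive of `1/(ρ cos²)` -/
private lemma gorW_tan {ρ : ℝ → ℝ} (hρ : ContinuousOn ρ (Icc 0 π))
    (hpos : ∀ t ∈ Icc 0 π, 0 < ρ t) {t : ℝ} (h0 : 0 ≤ t) (ht : t < π) :
    ∫ s in (0 : ℝ)..t, (ρ s * Real.cos (lam ρ * tau ρ s) ^ 2)⁻¹ =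
      Real.tan (lam ρ * tau ρ t) / lam ρ := by
  have hl := lam_pos hρ hpos
  have hsub : Icc 0 t ⊆ Icc 0 π := Icc_subset_Icc le_rfl ht.le
  have hcos : ∀ s ∈ Icc 0 t, Real.cos (lam ρ * tau ρ s) ≠ 0 := by
    intro s hs
    have hang := ang_mem hρ hpos hs.1 (lt_of_le_of_lt hs.2 ht)
    exact (Real.cos_pos_of_mem_Ioo ⟨by linarith [pi_pos, hang.1], hang.2⟩).ne'
  have hac : ContinuousOn (fun s => lam ρ * tau ρ s) (Icc 0 t) :=
    continuousOn_const.mul ((tau_cont hρ hpos).mono hsub)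
  have htan : ContinuousOn (fun s => Real.tan (lam ρ * tau ρ s) / lam ρ) (Icc 0 t) := by
    refine ContinuousOn.div_const ?_ _
    intro s hs
    exact ContinuousAt.comp_continuousWithinAt (g := Real.tan) (f := fun s => lam ρ * tau ρ s)
      (Real.continuousAt_tan.mpr (hcos s hs)) (hac s hs)
  have hi : IntervalIntegrable (fun s => (ρ s * Real.cos (lam ρ * tau ρ s) ^ 2)⁻¹) volume 0 t := by
    refine ContinuousOn.intervalIntegrable ?_
    rw [uIcc_of_le h0]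
    refine ((hρ.mono hsub).mul ((Real.continuous_cos.comp_continuousOn hac).pow 2)).inv₀ ?_
    intro s hs
    exact mul_ne_zero (hpos s (hsub hs)).ne' (pow_ne_zero 2 (hcos s hs))
  have hder : ∀ s ∈ Ioo 0 t, HasDerivAt (fun s => Real.tan (lam ρ * tau ρ s) / lam ρ)
      (ρ s * Real.cos (lam ρ * tau ρ s) ^ 2)⁻¹ s := by
    intro s hs
    have hsI : s ∈ Icc 0 t := ⟨hs.1.le, hs.2.le⟩
    have h1 : HasDerivAt (fun s => Real.tan (lam ρ * tau ρ s))
        (1 / Real.cos (lam ρ * tau ρ s) ^ 2 * (lam ρ * (ρ s)⁻¹)) s :=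
      HasDerivAt.comp (h := fun s => lam ρ * tau ρ s) (h₂ := Real.tan) s
        (Real.hasDerivAt_tan (hcos s hsI))
        ((tau_deriv hρ hpos ⟨hs.1, hs.2.trans ht⟩).const_mul (lam ρ))
    refine (h1.div_const (lam ρ)).congr_deriv ?_
    have hc := hcos s hsI
    have hr := (hpos s (hsub hsI)).ne'
    have hl' := hl.ne'
    field_simp
  rw [intervalIntegral.integral_eq_sub_of_hasDerivAt_of_le h0 htan hder hi]
  simp [tau_zero]

/-- closeness of `u/cos` to its initial value -/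
private lemma gorW_C {ρ u u' : ℝ → ℝ} (hρ : ContinuousOn ρ (Icc 0 π))
    (hpos : ∀ t ∈ Icc 0 π, 0 < ρ t)
    (hu : ∀ t ∈ Icc 0 π, HasDerivAt u (u' t) t) (hu' : ContinuousOn u' (Icc 0 π))
    {t : ℝ} (h0 : 0 ≤ t) (ht : t < π) :
    (u t / Real.cos (lam ρ * tau ρ t) - u 0) ^ 2 ≤
      (∫ s in (0 : ℝ)..t, ρ s * (u' s + lam ρ * Real.tan (lam ρ * tau ρ s) * u s / ρ s) ^ 2) *
        (Real.tan (lam ρ * tau ρ t) / lam ρ) := by
  have hsub : Icc 0 t ⊆ Icc 0 π := Icc_subset_Icc le_rfl ht.le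
  have huc : ContinuousOn u (Icc 0 π) := fun t ht => (hu t ht).continuousAt.continuousWithinAt
  have hcos : ∀ s ∈ Icc 0 t, 0 < Real.cos (lam ρ * tau ρ s) := by
    intro s hs
    have hang := ang_mem hρ hpos hs.1 (lt_of_le_of_lt hs.2 ht)
    exact Real.cos_pos_of_mem_Ioo ⟨by linarith [pi_pos, hang.1], hang.2⟩
  have hac : ContinuousOn (fun s => lam ρ * tau ρ s) (Icc 0 t) :=
    continuousOn_const.mul ((tau_cont hρ hpos).mono hsub)
  have hcc : ContinuousOn (fun s => Real.cos (lam ρ * tau ρ s)) (Icc 0 t) :=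
    Real.continuous_cos.comp_continuousOn hac
  have hdc := wirt_def_cont hρ hpos huc hu' ht
  have hg : ContinuousOn (fun s => (u' s + lam ρ * Real.tan (lam ρ * tau ρ s) * u s / ρ s) /
      Real.cos (lam ρ * tau ρ s)) (Icc 0 t) := hdc.div hcc fun s hs => (hcos s hs).ne'
  have h1 := wirt_cs h0 (ρ := fun s => ρ s * Real.cos (lam ρ * tau ρ s) ^ 2)
    ((hρ.mono hsub).mul (hcc.pow 2))
    (fun s hs => mul_pos (hpos s (hsub hs)) (pow_pos (hcos s hs) 2)) hg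
  rw [gorW_tan hρ hpos h0 ht] at h1
  have e1 : ∫ s in (0 : ℝ)..t, ρ s * Real.cos (lam ρ * tau ρ s) ^ 2 *
      ((u' s + lam ρ * Real.tan (lam ρ * tau ρ s) * u s / ρ s) /
        Real.cos (lam ρ * tau ρ s)) ^ 2 =
      ∫ s in (0 : ℝ)..t, ρ s * (u' s + lam ρ * Real.tan (lam ρ * tau ρ s) * u s / ρ s) ^ 2 := by
    refine intervalIntegral.integral_congr fun s hs => ?_
    rw [uIcc_of_le h0] at hs
    have := (hcos s hs).ne'
    rw [div_pow]
    field_simp
  rw [e1] at h1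
  have e2 : ∫ s in (0 : ℝ)..t, (u' s + lam ρ * Real.tan (lam ρ * tau ρ s) * u s / ρ s) /
      Real.cos (lam ρ * tau ρ s) = u t / Real.cos (lam ρ * tau ρ t) - u 0 := by
    have hUc : ContinuousOn (fun s => u s / Real.cos (lam ρ * tau ρ s)) (Icc 0 t) :=
      (huc.mono hsub).div hcc fun s hs => (hcos s hs).ne'
    have hgi : IntervalIntegrable (fun s => (u' s + lam ρ * Real.tan (lam ρ * tau ρ s) * u s /
        ρ s) / Real.cos (lam ρ * tau ρ s)) volume 0 t := by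
      refine ContinuousOn.intervalIntegrable ?_
      rw [uIcc_of_le h0]
      exact hg
    have hder : ∀ s ∈ Ioo 0 t, HasDerivAt (fun s => u s / Real.cos (lam ρ * tau ρ s))
        ((u' s + lam ρ * Real.tan (lam ρ * tau ρ s) * u s / ρ s) /
          Real.cos (lam ρ * tau ρ s)) s := by
      intro s hs
      have hsI : s ∈ Icc 0 t := ⟨hs.1.le, hs.2.le⟩
      have h2 : HasDerivAt (fun s => Real.cos (lam ρ * tau ρ s))
          (-Real.sin (lam ρ * tau ρ s) * (lam ρ * (ρ s)⁻¹)) s :=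
        HasDerivAt.comp (h := fun s => lam ρ * tau ρ s) (h₂ := Real.cos) s
          (Real.hasDerivAt_cos _)
          ((tau_deriv hρ hpos ⟨hs.1, hs.2.trans ht⟩).const_mul (lam ρ))
      refine ((hu s (hsub hsI)).div h2 (hcos s hsI).ne').congr_deriv ?_
      have hc := (hcos s hsI).ne'
      have hr := (hpos s (hsub hsI)).ne'
      rw [Real.tan_eq_sin_div_cos]
      field_simp
      ring
    rw [intervalIntegral.integral_eq_sub_of_hasDerivAt_of_le h0 hUc hder hgi]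
    simp [tau_zero]
  rw [e2] at h1
  linarith

/-- the reflected version -/
private lemma gorW_C' {ρ v v' : ℝ → ℝ} (hρ : ContinuousOn ρ (Icc 0 π))
    (hpos : ∀ t ∈ Icc 0 π, 0 < ρ t)
    (hv : ∀ t ∈ Icc 0 π, HasDerivAt v (v' t) t) (hv' : ContinuousOn v' (Icc 0 π))
    {t : ℝ} (h0 : 0 < t) (ht : t ≤ π) :
    (v t / Real.sin (lam ρ * tau ρ t) - v π) ^ 2 ≤
      (∫ s in t..π, ρ s * (v' s - lam ρ * (Real.cos (lam ρ * tau ρ s) /
        Real.sin (lam ρ * tau ρ s)) * v s / ρ s) ^ 2) *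
        ((Real.cos (lam ρ * tau ρ t) / Real.sin (lam ρ * tau ρ t)) / lam ρ) := by
  have hmap : ∀ t ∈ Icc 0 π, π - t ∈ Icc 0 π := fun t ht => ⟨by linarith [ht.2], by linarith [ht.1]⟩
  have hcm : ContinuousOn (fun t : ℝ => π - t) (Icc 0 π) := by fun_prop
  have hρ2 : ContinuousOn (fun t => ρ (π - t)) (Icc 0 π) := hρ.comp hcm hmap
  have hpos2 : ∀ t ∈ Icc 0 π, 0 < ρ (π - t) := fun t ht => hpos _ (hmap t ht)
  have htau : ∀ t ∈ Icc 0 π, tau (fun t => ρ (π - t)) t = tau ρ π - tau ρ (π - t) := by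
    intro t ht
    rw [tau_sub hρ hpos (hmap t ht).1 (by linarith [ht.1]) le_rfl]
    unfold tau
    rw [intervalIntegral.integral_comp_sub_left (fun x => (ρ x)⁻¹) π]
    simp
  have htauπ : tau (fun t => ρ (π - t)) π = tau ρ π := by
    rw [htau π ⟨pi_pos.le, le_rfl⟩, sub_self, tau_zero, sub_zero]
  have hlam : lam (fun t => ρ (π - t)) = lam ρ := by
    unfold lam
    rw [htauπ]
  have harg : ∀ s ∈ Icc 0 π, lam ρ * tau (fun t => ρ (π - t)) s =
      π / 2 - lam ρ * tau ρ (π - s) := by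
    intro s hs
    rw [htau s hs, mul_sub, lam_mul hρ hpos]
  have h := gorW_C (ρ := fun t => ρ (π - t)) (u := fun t => v (π - t))
    (u' := fun t => -v' (π - t)) hρ2 hpos2 (fun t ht => by
      have h1 : HasDerivAt (fun t => v (π - t)) (v' (π - t) * (-1)) t :=
        (hv (π - t) (hmap t ht)).comp t ((hasDerivAt_id t).const_sub π)
      exact h1.congr_deriv (by ring)) (hv'.comp hcm hmap).neg (t := π - t) (by linarith)
      (by linarith)
  rw [hlam, harg (π - t) ⟨by linarith, by linarith⟩] at h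
  have e2 : ∫ s in (0 : ℝ)..(π - t), ρ (π - s) * (-v' (π - s) +
      lam ρ * Real.tan (lam ρ * tau (fun t => ρ (π - t)) s) * v (π - s) / ρ (π - s)) ^ 2 =
      ∫ s in t..π, ρ s * (v' s - lam ρ * (Real.cos (lam ρ * tau ρ s) /
        Real.sin (lam ρ * tau ρ s)) * v s / ρ s) ^ 2 := by
    have e4 : ∀ s ∈ uIcc 0 (π - t), ρ (π - s) * (-v' (π - s) +
      lam ρ * Real.tan (lam ρ * tau (fun t => ρ (π - t)) s) * v (π - s) / ρ (π - s)) ^ 2 =
      (fun s => ρ s * (v' s - lam ρ * (Real.cos (lam ρ * tau ρ s) /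
        Real.sin (lam ρ * tau ρ s)) * v s / ρ s) ^ 2) (π - s) := by
      intro s hs
      rw [uIcc_of_le (by linarith)] at hs
      simp only
      rw [harg s ⟨hs.1, by linarith [hs.2]⟩, Real.tan_pi_div_two_sub, Real.tan_eq_sin_div_cos,
        inv_div]
      ring
    rw [intervalIntegral.integral_congr e4, intervalIntegral.integral_comp_sub_left
      (fun s => ρ s * (v' s - lam ρ * (Real.cos (lam ρ * tau ρ s) /
        Real.sin (lam ρ * tau ρ s)) * v s / ρ s) ^ 2) π]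
    simp
  rw [e2, Real.cos_pi_div_two_sub, Real.tan_pi_div_two_sub, Real.tan_eq_sin_div_cos, inv_div,
    sub_sub_cancel, sub_zero] at h
  exact h

theorem gorW {w w' : ℝ → ℂ} (hw : ∀ t ∈ Icc 0 π, HasDerivAt w (w' t) t)
    (hw' : ContinuousOn w' (Icc 0 π)) (h0 : ∀ t ∈ Icc 0 π, w t ≠ 0) (hi : (w 0).im = 0)
    (hr : (w π).re = 0) :
    (tau (rho w) π - π) ^ 2 * (2 * tau (rho w) π + π) / (2 * tau (rho w) π ^ 2) ≤
        actW w w' - 3 * π / 2 ∧
    3 * π / 2 ≤ actW w w' ∧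
    (∀ t, 0 ≤ t → t < π →
      ((w t).re / Real.cos (lam (rho w) * tau (rho w) t) - (w 0).re) ^ 2 ≤
        (actW w w' - 3 * π / 2) / 2 * (Real.tan (lam (rho w) * tau (rho w) t) / lam (rho w))) ∧
    (∀ t, 0 < t → t ≤ π →
      ((w t).im / Real.sin (lam (rho w) * tau (rho w) t) - (w π).im) ^ 2 ≤
        (actW w w' - 3 * π / 2) / 2 * ((Real.cos (lam (rho w) * tau (rho w) t) /
          Real.sin (lam (rho w) * tau (rho w) t)) / lam (rho w))) := by
  obtain ⟨hρ, hpos, hu, hv, hrc, hic⟩ := gorW_basic hw hw' h0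
  have hℓ := tau_pos hρ hpos
  have hlam := lam_pos hρ hpos
  have hA := gorW_act hw hw' h0
  have hS := gorW_sum hw hw' h0
  have halg := gorW_alg hℓ
  have hnn := gorW_alg_nonneg hℓ
  set Pu := ∫ t in (0 : ℝ)..π, (w t).re ^ 2 / rho w t with hPu
  set Pv := ∫ t in (0 : ℝ)..π, (w t).im ^ 2 / rho w t with hPv
  have hlameq : lam (rho w) = π / (2 * tau (rho w) π) := rfl
  -- the two Wirtinger inequalities
  have hU : ∀ t, 0 ≤ t → t < π → lam (rho w) ^ 2 * Pu + (∫ s in (0 : ℝ)..t, rho w s *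
      ((w' s).re + lam (rho w) * Real.tan (lam (rho w) * tau (rho w) s) * (w s).re /
        rho w s) ^ 2) ≤ ∫ t in (0 : ℝ)..π, rho w t * (w' t).re ^ 2 :=
    fun t h1 h2 => wirt hρ hpos hu hrc hr h1 h2
  have hV : ∀ t, 0 < t → t ≤ π → lam (rho w) ^ 2 * Pv + (∫ s in t..π, rho w s *
      ((w' s).im - lam (rho w) * (Real.cos (lam (rho w) * tau (rho w) s) /
        Real.sin (lam (rho w) * tau (rho w) s)) * (w s).im / rho w s) ^ 2) ≤
      ∫ t in (0 : ℝ)..π, rho w t * (w' t).im ^ 2 :=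
    fun t h1 h2 => wirt' hρ hpos hv hic hi h1 h2
  have hU0 := hU 0 le_rfl pi_pos
  have hVπ := hV π pi_pos le_rfl
  rw [intervalIntegral.integral_same, add_zero] at hU0 hVπ
  have hsum : lam (rho w) ^ 2 * Pu + lam (rho w) ^ 2 * Pv = lam (rho w) ^ 2 * π := by
    rw [← mul_add, hS]
  have hmain : 2 * lam (rho w) ^ 2 * π + tau (rho w) π ≤ actW w w' := by
    rw [hA]
    linarith
  rw [← hlameq] at halg
  have h1 : (tau (rho w) π - π) ^ 2 * (2 * tau (rho w) π + π) / (2 * tau (rho w) π ^ 2) ≤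
      actW w w' - 3 * π / 2 := by
    rw [← halg]
    linarith
  refine ⟨h1, by linarith, fun t ht0 ht => ?_, fun t ht0 ht => ?_⟩
  · refine (gorW_C hρ hpos hu hrc ht0 ht).trans (mul_le_mul_of_nonneg_right ?_ ?_)
    · have := hU t ht0 ht
      rw [hA] at hmain ⊢
      linarith
    · have hang := ang_mem hρ hpos ht0 ht
      exact div_nonneg (Real.tan_nonneg_of_nonneg_of_le_pi_div_two hang.1 hang.2.le) hlam.le
  · refine (gorW_C' hρ hpos hv hic ht0 ht).trans (mul_le_mul_of_nonneg_right ?_ ?_)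
    · have := hV t ht0 ht
      rw [hA] at hmain ⊢
      linarith
    · have hτ : 0 < tau (rho w) t := by
        have := tau_lt hρ hpos le_rfl ht0 ht
        rwa [tau_zero] at this
      have hle : lam (rho w) * tau (rho w) t ≤ π / 2 := by
        rcases ht.eq_or_lt with h | h
        · rw [h, lam_mul hρ hpos]
        · exact (ang_mem hρ hpos ht0.le h).2.le
      have hp : 0 < lam (rho w) * tau (rho w) t := mul_pos hlam hτ
      refine div_nonneg (div_nonneg ?_ ?_) hlam.le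
      · exact Real.cos_nonneg_of_neg_pi_div_two_le_of_le (by linarith [pi_pos]) hle
      · exact Real.sin_nonneg_of_nonneg_of_le_pi hp.le (by linarith [pi_pos])

end Pool.Agent.Helper43.Kep
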