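import Pool.Agent.Helper43.Kep.Wirt
import Pool.Agent.Helper43.Kep.KzA
import Pool.Agent.Helper43.Kep.GorW

/-!
KEP RIGK: from the Levi-Civita form to the Kepler ellipse.  Let `C = (w 0).re > 0`, `D = (w π).im > 0`,
`x(t) = tau (rho w) t`.  `rho w t = C² cos²(x/2) + D² sin²(x/2) = (C²+D²)/2 + (C²-D²)/2 cos x`, and `x' = 1/rho`
(`x` is `C¹` on `[0,π]`), so `(C²+D²)/2 x + (C²-D²)/2 sin x = t` (both sides have derivative `1` and vanish at
`0`).  At `t = π`, `x = π`: `C² + D² = 2`.  With `e = 1 - C² = D² - 1 = (D²-C²)/2` (so `|e| < 1`):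
`x - e sin x = t`, so `x = ecc e t`, and
`w² = C² cos² - D² sin² + 2 i C D sin cos = cos x - e + i √(1-e²) sin x` (`C D = √((1-e)(1+e))`).
-/

set_option autoImplicit false

namespace Pool.Agent.Helper43.Kep

open Real MeasureTheory Set Filter Topology

theorem rigK {w : ℝ → ℂ} (hwc : ContinuousOn w (Icc 0 π)) (h0 : ∀ t ∈ Icc 0 π, w t ≠ 0)
    (hτ : tau (rho w) π = π) (hC : 0 < (w 0).re) (hD : 0 < (w π).im)
    (hform : ∀ t ∈ Icc 0 π,
      w t = ⟨(w 0).re * Real.cos (tau (rho w) t / 2), (w π).im * Real.sin (tau (rho w) t / 2)⟩) :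
    |1 - (w 0).re ^ 2| < 1 ∧ ∀ t ∈ Icc 0 π, w t ^ 2 = kz (1 - (w 0).re ^ 2) t := by
  set C := (w 0).re with hCdef
  set D := (w π).im with hDdef
  have hρ : ContinuousOn (rho w) (Icc 0 π) := hwc.norm.pow 2
  have hpos : ∀ t ∈ Icc 0 π, 0 < rho w t := fun t ht => by
    unfold rho
    have := norm_pos_iff.mpr (h0 t ht)
    positivity
  have hhalf : ∀ x : ℝ, Real.cos (x / 2) ^ 2 = (1 + Real.cos x) / 2 ∧
      Real.sin (x / 2) ^ 2 = (1 - Real.cos x) / 2 := by
    intro x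
    have h1 := Real.cos_sq (x / 2)
    have h2 := Real.sin_sq_add_cos_sq (x / 2)
    rw [show 2 * (x / 2) = x by ring] at h1
    constructor <;> linarith
  have hrho : ∀ t ∈ Icc 0 π, rho w t = (C ^ 2 + D ^ 2) / 2 + (C ^ 2 - D ^ 2) / 2 *
      Real.cos (tau (rho w) t) := by
    intro t ht
    have h1 : rho w t = (w t).re ^ 2 + (w t).im ^ 2 := by
      unfold rho
      rw [Complex.sq_norm, Complex.normSq_apply]
      ring
    have h2 := hform t ht
    have h3 : (w t).re = C * Real.cos (tau (rho w) t / 2) := by rw [h2]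
    have h4 : (w t).im = D * Real.sin (tau (rho w) t / 2) := by rw [h2]
    obtain ⟨h5, h6⟩ := hhalf (tau (rho w) t)
    rw [h1, h3, h4, mul_pow, mul_pow, h5, h6]
    ring
  have key : ∀ t ∈ Icc 0 π, (C ^ 2 + D ^ 2) / 2 * tau (rho w) t + (C ^ 2 - D ^ 2) / 2 *
      Real.sin (tau (rho w) t) = t := by
    intro t ht
    rcases eq_or_lt_of_le ht.1 with h | h
    · rw [← h, tau_zero]
      simp
    · have hsub : Icc 0 t ⊆ Icc 0 π := Icc_subset_Icc le_rfl ht.2
      have hτc := (tau_cont hρ hpos).mono hsub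
      obtain ⟨c, hc, hc'⟩ := exists_hasDerivAt_eq_slope
        (fun s => (C ^ 2 + D ^ 2) / 2 * tau (rho w) s + (C ^ 2 - D ^ 2) / 2 *
          Real.sin (tau (rho w) s) - s)
        (fun s => (C ^ 2 + D ^ 2) / 2 * (rho w s)⁻¹ + (C ^ 2 - D ^ 2) / 2 *
          (Real.cos (tau (rho w) s) * (rho w s)⁻¹) - 1) h
        (((continuousOn_const.mul hτc).add (continuousOn_const.mul
          (Real.continuous_sin.comp_continuousOn hτc))).sub continuousOn_id)
        (fun s hs => by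
          have hd := tau_deriv hρ hpos (t := s) ⟨hs.1, hs.2.trans_le ht.2⟩
          exact ((hd.const_mul _).add (hd.sin.const_mul _)).sub (hasDerivAt_id s))
      have hcI : c ∈ Icc 0 π := ⟨hc.1.le, hc.2.le.trans ht.2⟩
      have h1 : (C ^ 2 + D ^ 2) / 2 * (rho w c)⁻¹ + (C ^ 2 - D ^ 2) / 2 *
          (Real.cos (tau (rho w) c) * (rho w c)⁻¹) - 1 = 0 := by
        have h2 := hrho c hcI
        have h3 := (hpos c hcI).ne'
        have h4 : (C ^ 2 + D ^ 2) / 2 * (rho w c)⁻¹ + (C ^ 2 - D ^ 2) / 2 *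
          (Real.cos (tau (rho w) c) * (rho w c)⁻¹) = ((C ^ 2 + D ^ 2) / 2 + (C ^ 2 - D ^ 2) / 2 *
          Real.cos (tau (rho w) c)) * (rho w c)⁻¹ := by ring
        rw [h4, ← h2, mul_inv_cancel₀ h3, sub_self]
      simp only [h1, tau_zero, Real.sin_zero, mul_zero, sub_zero, add_zero] at hc'
      have h2 := (div_eq_zero_iff.1 hc'.symm).resolve_right h.ne'
      linarith
  have hsum : C ^ 2 + D ^ 2 = 2 := by
    have h1 := key π ⟨pi_pos.le, le_rfl⟩
    rw [hτ, Real.sin_pi, mul_zero, add_zero] at h1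
    have h2 : ((C ^ 2 + D ^ 2) / 2 - 1) * π = 0 := by linarith
    rcases mul_eq_zero.1 h2 with h3 | h3
    · linarith
    · exact absurd h3 pi_ne_zero
  have hC2 : 0 < C ^ 2 := by positivity
  have hD2 : 0 < D ^ 2 := by positivity
  have he : |1 - C ^ 2| < 1 := by
    rw [abs_lt]
    constructor <;> linarith
  refine ⟨he, fun t ht => ?_⟩
  have hx : ecc (1 - C ^ 2) t = tau (rho w) t := by
    apply ecc_eq he.le
    have h1 := key t ht
    have h2 : (C ^ 2 - D ^ 2) / 2 = -(1 - C ^ 2) := by linarith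
    rw [hsum, h2] at h1
    linarith
  have hCD : Real.sqrt (1 - (1 - C ^ 2) ^ 2) = C * D := by
    have h1 : 1 - (1 - C ^ 2) ^ 2 = (C * D) ^ 2 := by
      have h2 : D ^ 2 = 2 - C ^ 2 := by linarith
      rw [mul_pow, h2]
      ring
    rw [h1, Real.sqrt_sq (by positivity)]
  obtain ⟨h5, h6⟩ := hhalf (tau (rho w) t)
  have h7 : Real.sin (tau (rho w) t) = 2 * Real.sin (tau (rho w) t / 2) *
      Real.cos (tau (rho w) t / 2) := by
    rw [← Real.sin_two_mul]
    congr 1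
    ring
  unfold kz
  rw [hform t ht, hx, hCD]
  apply Complex.ext
  · simp only [sq, Complex.mul_re]
    linear_combination C ^ 2 * h5 - D ^ 2 * h6 + (1 / 2) * (Real.cos (tau (rho w) t) - 1) * hsum
  · simp only [sq, Complex.mul_im]
    rw [h7]
    ring

end Pool.Agent.Helper43.Kep
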