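import Pool.Agent.Helper43.Kep.GorW

/-!
KEP RIGW: the limit case.  `W n → w` uniformly on `[0,π]`, `w` has no zero there, so `1/‖W n‖² → 1/‖w‖²`
uniformly on `[0,π]` and `tau (rho (W n)) t → tau (rho w) t` for `t ∈ [0,π]`.  By the first claim of `gorW`
and `actW (W n) (W' n) → 3π/2`: `tau (rho w) π = π`, so `lam (rho (W n)) → lam (rho w) = 1/2`.  For
`0 ≤ t < π`, `tau (rho w) t < π`, `cos (tau/2) > 0`; the third claim of `gorW` in the limit gives
`(w t).re/cos(τ(t)/2) = (w 0).re`; similarly the fourth claim for `0 < t ≤ π`.  At `t = π`: `(w π).re = 0`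
(limit of `(W n π).re = 0`) `= (w 0).re cos(π/2)`; at `t = 0`: `(w 0).im = 0`.
-/

set_option autoImplicit false

namespace Pool.Agent.Helper43.Kep

open Real MeasureTheory Set Filter Topology

private theorem rigw_tau {w : ℝ → ℂ} (hwc : ContinuousOn w (Icc 0 π))
    (h0 : ∀ t ∈ Icc 0 π, w t ≠ 0) {W : ℕ → ℝ → ℂ}
    (hWc : ∀ n, ContinuousOn (W n) (Icc 0 π)) (hW0 : ∀ n, ∀ t ∈ Icc 0 π, W n t ≠ 0)
    (hlim : TendstoUniformlyOn W w atTop (Icc 0 π)) {t : ℝ} (ht : t ∈ Icc 0 π) :
    Tendsto (fun n => tau (rho (W n)) t) atTop (𝓝 (tau (rho w) t)) := by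
  obtain ⟨s₀, hs₀, hmin⟩ := isCompact_Icc.exists_isMinOn (nonempty_Icc.2 pi_pos.le)
    (f := fun s => ‖w s‖) hwc.norm
  set m := ‖w s₀‖ with hm
  have hmpos : 0 < m := norm_pos_iff.2 (h0 s₀ hs₀)
  have hmle : ∀ s ∈ Icc 0 π, m ≤ ‖w s‖ := fun s hs => hmin hs
  unfold tau
  refine intervalIntegral.tendsto_integral_filter_of_dominated_convergence
    (fun _ => ((m / 2) ^ 2)⁻¹) ?_ ?_ ?_ ?_
  · refine Eventually.of_forall fun n => ?_
    have h1 : ContinuousOn (fun s => (rho (W n) s)⁻¹) (Ioc 0 t) := by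
      refine ContinuousOn.inv₀ ?_ ?_
      · exact ((hWc n).mono fun s hs => ⟨hs.1.le, hs.2.trans ht.2⟩).norm.pow 2
      · intro s hs
        have := norm_pos_iff.2 (hW0 n s ⟨hs.1.le, hs.2.trans ht.2⟩)
        unfold rho
        positivity
    rw [uIoc_of_le ht.1]
    exact h1.aestronglyMeasurable measurableSet_Ioc
  · rw [Metric.tendstoUniformlyOn_iff] at hlim
    filter_upwards [hlim (m / 2) (by positivity)] with n hn
    refine ae_of_all _ fun s hs => ?_
    rw [uIoc_of_le ht.1] at hs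
    have hsI : s ∈ Icc 0 π := ⟨hs.1.le, hs.2.trans ht.2⟩
    have h1 := hn s hsI
    have h2 := hmle s hsI
    rw [dist_eq_norm] at h1
    have h3 : ‖w s‖ ≤ ‖w s - W n s‖ + ‖W n s‖ := by
      have := norm_add_le (w s - W n s) (W n s)
      simpa using this
    have h4 : m / 2 ≤ ‖W n s‖ := by linarith
    have h5 : (m / 2) ^ 2 ≤ ‖W n s‖ ^ 2 := pow_le_pow_left₀ (by positivity) h4 2
    rw [Real.norm_eq_abs, abs_inv]
    unfold rho
    rw [abs_of_nonneg (by positivity)]
    exact inv_anti₀ (by positivity) h5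
  · exact intervalIntegrable_const
  · refine ae_of_all _ fun s hs => ?_
    rw [uIoc_of_le ht.1] at hs
    have hsI : s ∈ Icc 0 π := ⟨hs.1.le, hs.2.trans ht.2⟩
    have h1 : Tendsto (fun n => W n s) atTop (𝓝 (w s)) := hlim.tendsto_at hsI
    have h2 : ‖w s‖ ^ 2 ≠ 0 := pow_ne_zero 2 (norm_ne_zero_iff.2 (h0 s hsI))
    exact (h1.norm.pow 2).inv₀ h2

private theorem rigw_sq {a b : ℕ → ℝ} {x : ℝ} (ha : Tendsto a atTop (𝓝 x))
    (hb : Tendsto b atTop (𝓝 0)) (h : ∀ n, (a n) ^ 2 ≤ b n) : x = 0 := by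
  have h1 : x ^ 2 ≤ 0 := le_of_tendsto_of_tendsto' (ha.pow 2) hb h
  have h2 : x ^ 2 = 0 := le_antisymm h1 (sq_nonneg x)
  exact pow_eq_zero_iff (two_ne_zero) |>.1 h2

theorem rigW {w : ℝ → ℂ} (hwc : ContinuousOn w (Icc 0 π)) (h0 : ∀ t ∈ Icc 0 π, w t ≠ 0)
    {W W' : ℕ → ℝ → ℂ} (hW : ∀ n, ∀ t ∈ Icc 0 π, HasDerivAt (W n) (W' n t) t)
    (hW' : ∀ n, ContinuousOn (W' n) (Icc 0 π)) (hW0 : ∀ n, ∀ t ∈ Icc 0 π, W n t ≠ 0)
    (hWi : ∀ n, (W n 0).im = 0) (hWr : ∀ n, (W n π).re = 0)
    (hlim : TendstoUniformlyOn W w atTop (Icc 0 π))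
    (hA : Tendsto (fun n => actW (W n) (W' n)) atTop (𝓝 (3 * π / 2))) :
    tau (rho w) π = π ∧ ∀ t ∈ Icc 0 π,
      w t = ⟨(w 0).re * Real.cos (tau (rho w) t / 2), (w π).im * Real.sin (tau (rho w) t / 2)⟩ := by
  have hπI : π ∈ Icc 0 π := ⟨pi_pos.le, le_rfl⟩
  have h0I : (0 : ℝ) ∈ Icc 0 π := ⟨le_rfl, pi_pos.le⟩
  have hWc : ∀ n, ContinuousOn (W n) (Icc 0 π) :=
    fun n t ht => (hW n t ht).continuousAt.continuousWithinAt
  have hτ : ∀ t ∈ Icc 0 π, Tendsto (fun n => tau (rho (W n)) t) atTop (𝓝 (tau (rho w) t)) :=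
    fun t ht => rigw_tau hwc h0 hWc hW0 hlim ht
  have hρ : ContinuousOn (rho w) (Icc 0 π) := hwc.norm.pow 2
  have hpos : ∀ t ∈ Icc 0 π, 0 < rho w t := by
    intro t ht
    have := norm_pos_iff.2 (h0 t ht)
    unfold rho
    positivity
  have hℓ := tau_pos hρ hpos
  have hG := fun n => gorW (hW n) (hW' n) (hW0 n) (hWi n) (hWr n)
  have hA0 : Tendsto (fun n => actW (W n) (W' n) - 3 * π / 2) atTop (𝓝 0) := by
    have := hA.sub_const (3 * π / 2)
    simpa using this
  have hA2 : Tendsto (fun n => (actW (W n) (W' n) - 3 * π / 2) / 2) atTop (𝓝 0) := by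
    have := hA0.div_const 2
    simpa using this
  have hπ : tau (rho w) π = π := by
    have h1 : Tendsto (fun n => (tau (rho (W n)) π - π) ^ 2 * (2 * tau (rho (W n)) π + π) /
        (2 * tau (rho (W n)) π ^ 2)) atTop (𝓝 ((tau (rho w) π - π) ^ 2 * (2 * tau (rho w) π + π) /
        (2 * tau (rho w) π ^ 2))) := by
      have h2 := hτ π hπI
      refine Tendsto.div ?_ ?_ (by positivity)
      · exact ((h2.sub_const π).pow 2).mul ((h2.const_mul 2).add_const π)
      · exact (h2.pow 2).const_mul 2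
    have h3 := le_of_tendsto_of_tendsto' h1 hA0 (fun n => (hG n).1)
    have h4 : 0 < (2 * tau (rho w) π + π) / (2 * tau (rho w) π ^ 2) := by
      have := pi_pos
      positivity
    rw [mul_div_assoc] at h3
    have h5 : (tau (rho w) π - π) ^ 2 ≤ 0 := by
      by_contra hcon
      push Not at hcon
      exact absurd h3 (not_le.2 (mul_pos hcon h4))
    have h6 : (tau (rho w) π - π) ^ 2 = 0 := le_antisymm h5 (sq_nonneg _)
    have h7 := (pow_eq_zero_iff two_ne_zero).1 h6
    linarith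
  have hlam : Tendsto (fun n => lam (rho (W n))) atTop (𝓝 (1 / 2)) := by
    have h1 : Tendsto (fun n => π / (2 * tau (rho (W n)) π)) atTop
        (𝓝 (π / (2 * tau (rho w) π))) :=
      Tendsto.div tendsto_const_nhds ((hτ π hπI).const_mul 2) (by positivity)
    rw [hπ] at h1
    have h2 : π / (2 * π) = 1 / 2 := by
      have := pi_pos.ne'
      field_simp
    rwa [h2] at h1
  have hang : ∀ t ∈ Icc 0 π, Tendsto (fun n => lam (rho (W n)) * tau (rho (W n)) t) atTop
      (𝓝 (tau (rho w) t / 2)) := by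
    intro t ht
    have := hlam.mul (hτ t ht)
    have h2 : 1 / 2 * tau (rho w) t = tau (rho w) t / 2 := by ring
    rwa [h2] at this
  have hre : ∀ t ∈ Icc 0 π, Tendsto (fun n => (W n t).re) atTop (𝓝 (w t).re) :=
    fun t ht => (Complex.continuous_re.tendsto _).comp (hlim.tendsto_at ht)
  have him : ∀ t ∈ Icc 0 π, Tendsto (fun n => (W n t).im) atTop (𝓝 (w t).im) :=
    fun t ht => (Complex.continuous_im.tendsto _).comp (hlim.tendsto_at ht)
  have hreπ : (w π).re = 0 := by
    refine tendsto_nhds_unique (hre π hπI) ?_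
    simp only [hWr]
    exact tendsto_const_nhds
  have him0 : (w 0).im = 0 := by
    refine tendsto_nhds_unique (him 0 h0I) ?_
    simp only [hWi]
    exact tendsto_const_nhds
  refine ⟨hπ, fun t ht => ?_⟩
  have hR : (w t).re = (w 0).re * Real.cos (tau (rho w) t / 2) := by
    rcases ht.2.eq_or_lt with h | h
    · rw [h, hπ, Real.cos_pi_div_two, mul_zero, hreπ]
    · have ht1 : tau (rho w) t < π := by
        have := tau_lt hρ hpos ht.1 h le_rfl
        rwa [hπ] at this
      have ht0 := tau_nonneg hρ hpos ht.1 ht.2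
      have hcos : 0 < Real.cos (tau (rho w) t / 2) :=
        Real.cos_pos_of_mem_Ioo ⟨by linarith [pi_pos], by linarith⟩
      have hc := (Real.continuous_cos.tendsto _).comp (hang t ht)
      have h1 : Tendsto (fun n => (W n t).re / Real.cos (lam (rho (W n)) * tau (rho (W n)) t) -
          (W n 0).re) atTop (𝓝 ((w t).re / Real.cos (tau (rho w) t / 2) - (w 0).re)) :=
        ((hre t ht).div hc hcos.ne').sub (hre 0 h0I)
      have h2 : Tendsto (fun n => (actW (W n) (W' n) - 3 * π / 2) / 2 *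
          (Real.tan (lam (rho (W n)) * tau (rho (W n)) t) / lam (rho (W n)))) atTop (𝓝 0) := by
        have h3 := hA2.mul (((Real.continuousAt_tan.2 hcos.ne').tendsto.comp (hang t ht)).div hlam
          (by norm_num))
        rwa [zero_mul] at h3
      have h3 := rigw_sq h1 h2 (fun n => (hG n).2.2.1 t ht.1 h)
      have h4 : (w t).re / Real.cos (tau (rho w) t / 2) = (w 0).re := by linarith
      rw [← h4, div_mul_cancel₀ _ hcos.ne']
  have hI : (w t).im = (w π).im * Real.sin (tau (rho w) t / 2) := by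
    rcases ht.1.eq_or_lt with h | h
    · rw [← h, tau_zero, zero_div, Real.sin_zero, mul_zero, him0]
    · have ht1 : tau (rho w) t ≤ π := by
        rcases ht.2.eq_or_lt with h2 | h2
        · rw [h2, hπ]
        · have := tau_lt hρ hpos ht.1 h2 le_rfl
          rw [hπ] at this
          exact this.le
      have ht0 : 0 < tau (rho w) t := by
        have := tau_lt hρ hpos le_rfl h ht.2
        rwa [tau_zero] at this
      have hsin : 0 < Real.sin (tau (rho w) t / 2) :=
        Real.sin_pos_of_pos_of_lt_pi (by linarith) (by linarith [pi_pos])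
      have hc := (Real.continuous_cos.tendsto _).comp (hang t ht)
      have hs := (Real.continuous_sin.tendsto _).comp (hang t ht)
      have h1 : Tendsto (fun n => (W n t).im / Real.sin (lam (rho (W n)) * tau (rho (W n)) t) -
          (W n π).im) atTop (𝓝 ((w t).im / Real.sin (tau (rho w) t / 2) - (w π).im)) :=
        ((him t ht).div hs hsin.ne').sub (him π hπI)
      have h2 : Tendsto (fun n => (actW (W n) (W' n) - 3 * π / 2) / 2 *
          ((Real.cos (lam (rho (W n)) * tau (rho (W n)) t) /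
            Real.sin (lam (rho (W n)) * tau (rho (W n)) t)) / lam (rho (W n)))) atTop (𝓝 0) := by
        have h3 := hA2.mul ((hc.div hs hsin.ne').div hlam (by norm_num))
        rwa [zero_mul] at h3
      have h3 := rigw_sq h1 h2 (fun n => (hG n).2.2.2 t h ht.2)
      have h4 : (w t).im / Real.sin (tau (rho w) t / 2) = (w π).im := by linarith
      rw [← h4, div_mul_cancel₀ _ hsin.ne']
  exact Complex.ext hR hI

end Pool.Agent.Helper43.Kep
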