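import Pool.Agent.Helper43.Kep.Trunc
import Pool.Agent.Helper43.Kep.RigW
import Pool.Agent.Helper43.Kep.RigK
import Pool.Agent.Helper43.Kep.Lift
import Pool.Agent.Helper43.Kep.KzA

/-!
KEP GOR: Gordon's theorem near the ellipses.  Let `e ∈ [a,b]` with `‖zc c t - kz e t‖ ≤ δ` for all `t`; then
`δ < 1 - |e| ≤ ‖kz e t‖` (`|e| ≤ max |a| |b|`).  Choose `δ'` with `δ < δ' < 1 - |e|`.  For large `n` the
trigonometric polynomial `z_n = zc (tr c n)` satisfies `‖z_n t - kz e t‖ ≤ δ'` (`tr_conv`), so on `[0,π]`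
`z_n t ∈ Up`, `z_n t ≠ 0` (`up_of_near`, `kz_im_nonneg`), `z_n 0` is real (`zc_neg`) and `> 0` (close to
`1 - e > δ'`), `z_n π` is real (`zc_neg` and periodicity) and `< 0`.  With `W_n = lift ∘ z_n`,
`W'_n = dz/(2 W_n)`: `2‖W‖²‖W'‖² + 1/‖W‖² = ‖dz‖²/2 + 1/‖z_n‖` (`lift_norm`), so by `tr_action`
`actW = A0 (tr c n)/2`, and `gorW` gives `3π ≤ A0 (tr c n)`.  Finally `A0 (tr c n) → A0 c` (`tr_conv`; the
potential: uniform convergence and `‖z_n‖ ≥ 1 - |e| - δ' > 0`).
`rigid`: `W_n → lift ∘ zc c` uniformly on `[0,π]` (`lift` is continuous on `Up`, uniformly on a compact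
neighbourhood of the curve; or: `TendstoUniformlyOn` by compactness), `actW → A0 c/2 = 3π/2`; apply `rigW` and
`rigK` (with a tail of the sequence); `(w 0).re > 0` and `(w π).im > 0` by `lift_real`, `lift_neg`.  So
`zc c t = kz e' t` on `[0,π]`, on `[-π,0]` by `zc_neg`, `kz_neg`, and everywhere by periodicity.
-/

set_option autoImplicit false

namespace Pool.Agent.Helper43.Kep

open Real MeasureTheory Set Filter Topology

private lemma gor_a {z : ℝ → ℂ} {e d : ℝ} (he : |e| < 1) (hd : d < 1 - |e|)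
    (h : ∀ t, ‖z t - kz e t‖ ≤ d) (h0 : (z 0).im = 0) (hπ : (z π).im = 0) :
    (∀ t ∈ Icc 0 π, z t ∈ Up ∧ z t ≠ 0) ∧ ((lift (z 0)).im = 0 ∧ 0 < (lift (z 0)).re) ∧
      ((lift (z π)).re = 0 ∧ 0 < (lift (z π)).im) := by
  have habs := abs_le.mp (le_refl |e|)
  refine ⟨fun t ht => ?_, ?_, ?_⟩
  · have h1 := norm_kz_ge he.le t
    refine ⟨up_of_near (kz_im_nonneg he.le ht) (lt_of_lt_of_le hd h1) (h t), ?_⟩
    intro hz
    have h2 := h t
    rw [hz, zero_sub, norm_neg] at h2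
    linarith
  · have h2 := h 0
    rw [kz_zero he.le] at h2
    have h3 : z 0 = (((z 0).re : ℝ) : ℂ) := Complex.ext rfl (by simp [h0])
    rw [h3, ← Complex.ofReal_sub, Complex.norm_real, Real.norm_eq_abs] at h2
    have h4 := (abs_le.mp h2).1
    rw [h3]
    exact lift_real (by linarith [habs.2])
  · have h2 := h π
    rw [kz_pi he.le] at h2
    have h3 : z π = (((z π).re : ℝ) : ℂ) := Complex.ext rfl (by simp [hπ])
    rw [h3, ← Complex.ofReal_sub, Complex.norm_real, Real.norm_eq_abs] at h2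
    have h4 := (abs_le.mp h2).2
    rw [h3]
    exact lift_neg (by linarith [habs.1])

private lemma gor_im (c : ℤ → ℝ) : (zc c 0).im = 0 ∧ (zc c π).im = 0 := by
  constructor
  · have h := zc_neg c 0
    rw [neg_zero] at h
    exact Complex.conj_eq_iff_im.mp h.symm
  · have h := zc_neg c π
    have h2 := zc_periodic c (-π)
    have h3 : -π + 2 * π = π := by ring
    rw [h3, h] at h2
    exact Complex.conj_eq_iff_im.mp h2.symm

private lemma gor_pot {z : ℕ → ℝ → ℂ} {w : ℝ → ℂ} {g : ℝ} (hg : 0 < g) (hz : ∀ n, Continuous (z n))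
    (hw : ∀ t, g ≤ ‖w t‖)
    (h : ∀ η > 0, ∀ᶠ n in atTop, ∀ t : ℝ, ‖z n t - w t‖ ≤ η) :
    Tendsto (fun n => pot (z n)) atTop (𝓝 (pot w)) := by
  unfold pot
  have hbig : ∀ᶠ n in atTop, ∀ t : ℝ, g / 2 ≤ ‖z n t‖ := by
    filter_upwards [h (g / 2) (by positivity)] with n hn t
    have h1 := hn t
    have h2 := norm_sub_norm_le (w t) (z n t)
    rw [norm_sub_rev] at h2
    have h3 := hw t
    linarith
  refine intervalIntegral.tendsto_integral_filter_of_dominated_convergence (fun _ => (g / 2)⁻¹)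
    ?_ ?_ ?_ ?_
  · filter_upwards [hbig] with n hn
    refine Continuous.aestronglyMeasurable ?_
    refine (hz n).norm.inv₀ fun t => ?_
    have := hn t
    have : 0 < g / 2 := by positivity
    linarith [hn t]
  · filter_upwards [hbig] with n hn
    refine Filter.Eventually.of_forall fun t _ => ?_
    rw [norm_inv, norm_norm]
    exact inv_anti₀ (by positivity) (hn t)
  · exact intervalIntegrable_const
  · refine Filter.Eventually.of_forall fun t _ => ?_
    have ht : Tendsto (fun n => z n t) atTop (𝓝 (w t)) := by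
      rw [Metric.tendsto_nhds]
      intro η hη
      filter_upwards [h (η / 2) (by positivity)] with n hn
      rw [dist_eq_norm]
      linarith [hn t]
    refine (ht.norm).inv₀ ?_
    have := hw t
    linarith

/-- the Levi-Civita data of a trigonometric polynomial near an ellipse -/
private lemma gor_b {c : ℤ → ℝ} {n : ℕ} {e d : ℝ} (he : |e| < 1) (hd : d < 1 - |e|)
    (h : ∀ t, ‖zc (tr c n) t - kz e t‖ ≤ d) :
    (∀ t ∈ Icc 0 π, HasDerivAt (fun s => lift (zc (tr c n) s))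
      (dz (tr c n) t / (2 * lift (zc (tr c n) t))) t) ∧
    ContinuousOn (fun t => dz (tr c n) t / (2 * lift (zc (tr c n) t))) (Icc 0 π) ∧
    (∀ t ∈ Icc 0 π, lift (zc (tr c n) t) ≠ 0) ∧ (lift (zc (tr c n) 0)).im = 0 ∧
    (lift (zc (tr c n) π)).re = 0 ∧
    actW (fun s => lift (zc (tr c n) s)) (fun t => dz (tr c n) t / (2 * lift (zc (tr c n) t))) =
      A0 (tr c n) / 2 := by
  obtain ⟨h0, h1, h2⟩ := gor_a he hd h (gor_im _).1 (gor_im _).2
  have hcont : Continuous (zc (tr c n)) := zc_continuous (tr_FE c n)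
  have hne : ∀ t : ℝ, zc (tr c n) t ≠ 0 := by
    intro t hz
    have h3 := h t
    rw [hz, zero_sub, norm_neg] at h3
    have h4 := norm_kz_ge he.le t
    linarith
  have hl : ∀ t ∈ Icc 0 π, lift (zc (tr c n) t) ≠ 0 := fun t ht => lift_ne (h0 t ht).2
  refine ⟨fun t ht => lift_hasDerivAt (tr_hasDerivAt c n t) (h0 t ht).1, ?_, hl, h1.1, h2.1, ?_⟩
  · refine ContinuousOn.div (tr_dz_continuous c n).continuousOn ?_ ?_
    · refine continuousOn_const.mul ?_
      exact lift_continuousOn.comp hcont.continuousOn (fun t ht => (h0 t ht).1)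
    · intro t ht
      exact mul_ne_zero two_ne_zero (hl t ht)
  · rw [← tr_action c n hne]
    unfold actW
    refine intervalIntegral.integral_congr fun t ht => ?_
    rw [uIcc_of_le pi_pos.le] at ht
    have hn := lift_norm (zc (tr c n) t)
    have hpos : 0 < ‖lift (zc (tr c n) t)‖ := norm_pos_iff.mpr (hl t ht)
    simp only [norm_div, norm_mul, Complex.norm_ofNat]
    rw [hn, ← hn]
    field_simp

private lemma gor_A0 {c : ℤ → ℝ} (hc : FE c) {e d : ℝ} (he : |e| < 1) (hd : d < 1 - |e|)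
    (h : ∀ t, ‖zc c t - kz e t‖ ≤ d) :
    Tendsto (fun n => A0 (tr c n)) atTop (𝓝 (A0 c)) := by
  obtain ⟨h1, h2⟩ := tr_conv hc
  have h3 := gor_pot (g := 1 - |e| - d) (by linarith) (fun n => zc_continuous (tr_FE c n))
    (w := zc c) (fun t => by
      have h4 := norm_kz_ge he.le t
      have h5 := norm_sub_norm_le (kz e t) (zc c t)
      rw [norm_sub_rev] at h5
      linarith [h t]) h2
  exact (h1.const_mul π).add h3

private lemma gor_e {a b δ e : ℝ} (ha : δ < 1 - |a|) (hb : δ < 1 - |b|) (he : e ∈ Icc a b) :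
    δ < 1 - |e| := by
  have h1 : |e| ≤ max |a| |b| := abs_le_max_abs_abs he.1 he.2
  rcases le_total |a| |b| with h | h
  · rw [max_eq_right h] at h1; linarith
  · rw [max_eq_left h] at h1; linarith

private lemma gor_near {c : ℤ → ℝ} (hc : FE c) {e δ d : ℝ} (hd : δ < d)
    (h : ∀ t, ‖zc c t - kz e t‖ ≤ δ) :
    ∀ᶠ n in atTop, ∀ t, ‖zc (tr c n) t - kz e t‖ ≤ d := by
  filter_upwards [(tr_conv hc).2 (d - δ) (by linarith)] with n hn t
  have h1 : zc (tr c n) t - kz e t = (zc (tr c n) t - zc c t) + (zc c t - kz e t) := by ring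
  rw [h1]
  refine (norm_add_le _ _).trans ?_
  linarith [hn t, h t]

theorem gordon {a b δ : ℝ} {c : ℤ → ℝ} (hδ : 0 ≤ δ) (ha : δ < 1 - |a|) (hb : δ < 1 - |b|)
    (hc : FE c) (hn : Near a b δ c) : 3 * π ≤ A0 c := by
  obtain ⟨e, he, hen⟩ := hn
  have hδe := gor_e ha hb he
  have he1 : |e| < 1 := by linarith
  set d := (δ + (1 - |e|)) / 2 with hd
  have hd1 : δ < d := by rw [hd]; linarith
  have hd2 : d < 1 - |e| := by rw [hd]; linarith
  refine ge_of_tendsto (gor_A0 hc he1 hδe hen) ?_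
  filter_upwards [gor_near hc hd1 hen] with n hn
  obtain ⟨b1, b2, b3, b4, b5, b6⟩ := gor_b he1 hd2 hn
  have h := (gorW b1 b2 b3 b4 b5).2.1
  rw [b6] at h
  linarith

private lemma gor_unif {z : ℕ → ℝ → ℂ} {w : ℝ → ℂ} (hw : Continuous w)
    (hU : ∀ t ∈ Icc 0 π, w t ∈ Up) (h : ∀ η > 0, ∀ᶠ n in atTop, ∀ t : ℝ, ‖z n t - w t‖ ≤ η) :
    TendstoUniformlyOn (fun n s => lift (z n s)) (fun s => lift (w s)) atTop (Icc 0 π) := by
  have hK : IsCompact (w '' Icc 0 π) := isCompact_Icc.image hw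
  have hUo : IsOpen Up := Complex.isOpen_slitPlane.preimage (continuous_const.mul continuous_id)
  have hsub : w '' Icc 0 π ⊆ Up := by
    rintro _ ⟨t, ht, rfl⟩
    exact hU t ht
  obtain ⟨r, hr, hrU⟩ := hK.exists_cthickening_subset_open hUo hsub
  have hKc : IsCompact (Metric.cthickening r (w '' Icc 0 π)) := hK.cthickening
  have huc := hKc.uniformContinuousOn_of_continuous (lift_continuousOn.mono hrU)
  rw [Metric.uniformContinuousOn_iff] at huc
  rw [Metric.tendstoUniformlyOn_iff]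
  intro ε hε
  obtain ⟨δ, hδ, hδ'⟩ := huc ε hε
  filter_upwards [h (min r (δ / 2)) (by positivity)] with n hn t ht
  have h1 := hn t
  have hmem : w t ∈ w '' Icc 0 π := ⟨t, ht, rfl⟩
  refine hδ' _ (Metric.self_subset_cthickening _ hmem) _ ?_ ?_
  · refine Metric.mem_cthickening_of_dist_le _ (w t) r _ hmem ?_
    rw [dist_eq_norm]
    exact h1.trans (min_le_left _ _)
  · rw [dist_comm, dist_eq_norm]
    have := h1.trans (min_le_right _ _)
    linarith

private lemma gor_ext {e : ℝ} (he : |e| < 1) {c : ℤ → ℝ} (h : ∀ t ∈ Icc 0 π, zc c t = kz e t)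
    (t : ℝ) : zc c t = kz e t := by
  have hp1 : Function.Periodic (zc c) (2 * π) := zc_periodic c
  have hp2 : Function.Periodic (kz e) (2 * π) := kz_add_two_pi he.le
  have key : ∀ s ∈ Icc (-π) π, zc c s = kz e s := by
    intro s hs
    rcases le_total 0 s with h0 | h0
    · exact h s ⟨h0, hs.2⟩
    · have h1 := h (-s) ⟨by linarith, by linarith [hs.1]⟩
      have h2 := zc_neg c (-s)
      have h3 := kz_neg he.le (-s)
      rw [neg_neg] at h2 h3
      rw [h2, h3, h1]
  have h2π : (0 : ℝ) < 2 * π := by positivity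
  obtain ⟨n, hn, -⟩ := existsUnique_sub_zsmul_mem_Ico h2π t (-π)
  have h1 : zc c (t - n • (2 * π)) = zc c t := hp1.sub_zsmul_eq n
  have h2 : kz e (t - n • (2 * π)) = kz e t := hp2.sub_zsmul_eq n
  rw [← h1, ← h2]
  refine key _ ⟨hn.1, ?_⟩
  have := hn.2
  linarith

theorem rigid {a b δ : ℝ} {c : ℤ → ℝ} (hδ : 0 ≤ δ) (ha : δ < 1 - |a|) (hb : δ < 1 - |b|)
    (hc : FE c) (hn : Near a b δ c) (h : A0 c ≤ 3 * π) :
    ∃ e, |e| < 1 ∧ ∀ t, zc c t = kz e t := by
  have hge := gordon hδ ha hb hc hn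
  have hA : A0 c = 3 * π := le_antisymm h hge
  obtain ⟨e, he, hen⟩ := hn
  have hδe := gor_e ha hb he
  have he1 : |e| < 1 := by linarith
  set d := (δ + (1 - |e|)) / 2 with hd
  have hd1 : δ < d := by rw [hd]; linarith
  have hd2 : d < 1 - |e| := by rw [hd]; linarith
  obtain ⟨N, hN⟩ := eventually_atTop.mp (gor_near hc hd1 hen)
  have hB := fun n => gor_b he1 hd2 (hN (N + n) (Nat.le_add_right N n))
  have hcont := zc_continuous hc
  obtain ⟨a1, a2, a3⟩ := gor_a he1 hδe hen (gor_im c).1 (gor_im c).2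
  have hsh : Tendsto (fun n : ℕ => N + n) atTop atTop := tendsto_atTop_mono
    (fun n => Nat.le_add_left n N) tendsto_id
  have hlim : TendstoUniformlyOn (fun n s => lift (zc (tr c (N + n)) s)) (fun s => lift (zc c s))
      atTop (Icc 0 π) := by
    refine gor_unif hcont (fun t ht => (a1 t ht).1) fun η hη => ?_
    exact hsh.eventually ((tr_conv hc).2 η hη)
  have hact : Tendsto (fun n => actW (fun s => lift (zc (tr c (N + n)) s))
      (fun t => dz (tr c (N + n)) t / (2 * lift (zc (tr c (N + n)) t)))) atTop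
      (𝓝 (3 * π / 2)) := by
    have h1 := ((gor_A0 hc he1 hδe hen).comp hsh).div_const 2
    rw [hA] at h1
    refine h1.congr fun n => ?_
    exact ((hB n).2.2.2.2.2).symm
  have hlc : ContinuousOn (fun s => lift (zc c s)) (Icc 0 π) :=
    lift_continuousOn.comp hcont.continuousOn (fun t ht => (a1 t ht).1)
  have hl0 : ∀ t ∈ Icc 0 π, lift (zc c t) ≠ 0 := fun t ht => lift_ne (a1 t ht).2
  obtain ⟨r1, r2⟩ := rigW (w := fun s => lift (zc c s)) hlc hl0 (fun n => (hB n).1)
    (fun n => (hB n).2.1) (fun n => (hB n).2.2.1) (fun n => (hB n).2.2.2.1)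
    (fun n => (hB n).2.2.2.2.1) hlim hact
  obtain ⟨k1, k2⟩ := rigK (w := fun s => lift (zc c s)) hlc hl0 r1 a2.2 a3.2 r2
  refine ⟨_, k1, gor_ext k1 fun t ht => ?_⟩
  rw [← k2 t ht, lift_sq]

end Pool.Agent.Helper43.Kep
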