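import Pool.Agent.Helper43.Kep.KzA
import Pool.Agent.Helper43.Kep.FFin

/-!
KEP HOM: the homotopy.  `e(s) = e1 + s (e0 - e1) ∈ [a,b]`,
`z_s(t) = kz (e(s)) t + (1-s) (z t - kz e1 t)`, `H s t none = (1-s) sun(t)`,
`H s t (some j) = pl S z_s j t + (1-s) sun(t)`.  Collision free: `‖z_s - kz (e(s))‖ ≤ η`, so
`‖z_s t - pl S z_s j t‖ ≥ g - 2η > 0` for `j ≠ 0` (for two planets `i ≠ j` multiply by `R_{-i}`, shift the
time), and `‖z_s‖ ≥ 1 - |e(s)| - η > 0`.
-/

set_option autoImplicit false

namespace Pool.Agent.Helper43.Kep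

open Real MeasureTheory Set Filter Topology

variable {J : Type} [AddCommGroup J] [Fintype J] [DecidableEq J] (S : Sym J)

private theorem hom_pl_add {z : ℝ → ℂ} (hper : ∀ t, z (t + 2 * π) = z t) (i j : J) (t : ℝ) :
    pl S z (i + j) t = S.R i * pl S z j (t + S.σ i) := by
  obtain ⟨n, hn⟩ := S.σ_add i j
  have hp : Function.Periodic z (2 * π) := hper
  have h := hp.int_mul n (t + S.σ i + S.σ j)
  unfold pl
  rw [S.R_add, hn, show t + (S.σ i + S.σ j + 2 * π * n) = t + S.σ i + S.σ j + n * (2 * π) by ring,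
    h, mul_assoc]

private theorem hom_dist {z : ℝ → ℂ} (hper : ∀ t, z (t + 2 * π) = z t) (i j : J) (t : ℝ) :
    ‖pl S z i t - pl S z j t‖ = ‖z (t + S.σ i) - pl S z (j - i) (t + S.σ i)‖ := by
  have h := hom_pl_add S hper i (j - i) t
  rw [add_sub_cancel] at h
  rw [h]
  conv_lhs => rw [pl, ← mul_sub]
  rw [norm_mul, S.norm_R, one_mul]

private theorem hom_e {a b e0 e1 s : ℝ} (he0 : e0 ∈ Icc a b) (he1 : e1 ∈ Icc a b)
    (hs : s ∈ Icc (0 : ℝ) 1) : e1 + s * (e0 - e1) ∈ Icc a b := by
  obtain ⟨h1, h2⟩ := he0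
  obtain ⟨h3, h4⟩ := he1
  obtain ⟨h5, h6⟩ := hs
  constructor
  · nlinarith
  · nlinarith

private theorem hom_pl_sub {z w : ℝ → ℂ} {η : ℝ} (h : ∀ t, ‖z t - w t‖ ≤ η) (j : J) (t : ℝ) :
    ‖pl S z j t - pl S w j t‖ ≤ η := by
  unfold pl
  rw [← mul_sub, norm_mul, S.norm_R, one_mul]
  exact h _

theorem homotopy {a b e0 e1 η g ε : ℝ} (ha : -1 < a) (hb : b < 1) (he0 : e0 ∈ Icc a b)
    (he1 : e1 ∈ Icc a b) (hη : 0 ≤ η) (hgη : 2 * η < g) (ha' : η < 1 - |a|) (hb' : η < 1 - |b|)
    (hgap : ∀ e ∈ Icc a b, ∀ j : J, j ≠ 0 → ∀ t : ℝ, g ≤ ‖kz e t - pl S (kz e) j t‖)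
    {z : ℝ → ℂ} (hz : Continuous z) (hper : ∀ t, z (t + 2 * π) = z t)
    (hn : ∀ t : ℝ, ‖z t - kz e1 t‖ ≤ η) :
    SameBraid (2 * π) (bodies S ε z) (constel S e0) := by
  have habs : ∀ e ∈ Icc a b, |e| < 1 := fun e he => abs_lt.2 ⟨by linarith [he.1], by linarith [he.2]⟩
  have habs' : ∀ e ∈ Icc a b, η < 1 - |e| := by
    intro e he
    rcases abs_cases e with ⟨h1, h2⟩ | ⟨h1, h2⟩
    · have h3 := le_abs_self b
      have := he.2
      linarith
    · have h3 := neg_abs_le a
      have := he.1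
      linarith
  set zs : ℝ → ℝ → ℂ := fun s t => kz (e1 + s * (e0 - e1)) t + ((1 - s : ℝ) : ℂ) * (z t - kz e1 t)
    with hzs
  have hsunper : ∀ t, sun S ε z (t + 2 * π) = sun S ε z t := by
    intro t
    unfold sun pl
    congr 1
    refine Finset.sum_congr rfl fun j _ => ?_
    rw [show t + 2 * π + S.σ j = t + S.σ j + 2 * π by ring, hper]
  have hsunc : Continuous (sun S ε z) := by
    unfold sun pl
    fun_prop
  have hzper : ∀ s ∈ Icc (0 : ℝ) 1, ∀ t, zs s (t + 2 * π) = zs s t := by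
    intro s hs t
    simp only [hzs]
    rw [kz_add_two_pi (habs _ (hom_e he0 he1 hs)).le, kz_add_two_pi (habs _ he1).le, hper]
  have hclose : ∀ s ∈ Icc (0 : ℝ) 1, ∀ t, ‖zs s t - kz (e1 + s * (e0 - e1)) t‖ ≤ η := by
    intro s hs t
    simp only [hzs]
    rw [add_sub_cancel_left, norm_mul, Complex.norm_real, Real.norm_eq_abs,
      abs_of_nonneg (by linarith [hs.2])]
    calc (1 - s) * ‖z t - kz e1 t‖ ≤ 1 * η :=
          mul_le_mul (by linarith [hs.1]) (hn t) (norm_nonneg _) zero_le_one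
      _ = η := one_mul η
  have hzs0 : ∀ s ∈ Icc (0 : ℝ) 1, ∀ t, zs s t ≠ 0 := by
    intro s hs t h0
    have he := hom_e he0 he1 hs
    have h1 := hclose s hs t
    have h2 := norm_kz_ge (habs _ he).le t
    have h3 := habs' _ he
    rw [h0, zero_sub, norm_neg] at h1
    linarith
  have hzsj : ∀ s ∈ Icc (0 : ℝ) 1, ∀ i j : J, i ≠ j → ∀ t, pl S (zs s) i t ≠ pl S (zs s) j t := by
    intro s hs i j hij t h0
    have he := hom_e he0 he1 hs
    have h1 := hom_dist S (hzper s hs) i j t
    rw [h0, sub_self, norm_zero] at h1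
    have h2 := hgap _ he (j - i) (sub_ne_zero.2 hij.symm) (t + S.σ i)
    have h3 := hclose s hs (t + S.σ i)
    have h4 := hom_pl_sub S (hclose s hs) (j - i) (t + S.σ i)
    have h5 : kz (e1 + s * (e0 - e1)) (t + S.σ i) - pl S (kz (e1 + s * (e0 - e1))) (j - i) (t + S.σ i)
        = -(zs s (t + S.σ i) - kz (e1 + s * (e0 - e1)) (t + S.σ i)) +
          (zs s (t + S.σ i) - pl S (zs s) (j - i) (t + S.σ i)) +
          (pl S (zs s) (j - i) (t + S.σ i) -
            pl S (kz (e1 + s * (e0 - e1))) (j - i) (t + S.σ i)) := by ring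
    rw [h5] at h2
    have h6 := norm_add₃_le (a := -(zs s (t + S.σ i) - kz (e1 + s * (e0 - e1)) (t + S.σ i)))
      (b := zs s (t + S.σ i) - pl S (zs s) (j - i) (t + S.σ i))
      (c := pl S (zs s) (j - i) (t + S.σ i) -
            pl S (kz (e1 + s * (e0 - e1))) (j - i) (t + S.σ i))
    rw [norm_neg, ← h1] at h6
    linarith
  have hcont : ∀ u : ℝ, ContinuousOn (fun p : ℝ × ℝ => zs p.1 (p.2 + u)) (Icc (0 : ℝ) 1 ×ˢ univ) := by
    intro u
    simp only [hzs]
    refine ContinuousOn.add ?_ (ContinuousOn.mul ?_ (ContinuousOn.sub ?_ ?_))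
    · refine kz_continuousOn.comp (f := fun p : ℝ × ℝ => (e1 + p.1 * (e0 - e1), p.2 + u))
        (by fun_prop) ?_
      rintro ⟨s, t⟩ ⟨hs, -⟩
      have he := hom_e he0 he1 hs
      exact ⟨⟨by linarith [he.1], by linarith [he.2]⟩, mem_univ _⟩
    · exact (Complex.continuous_ofReal.comp (by fun_prop)).continuousOn
    · exact (hz.comp (by fun_prop)).continuousOn
    · exact ((kz_continuous (habs _ he1).le).comp (by fun_prop)).continuousOn
  refine ⟨fun s t => fun
    | none => ((1 - s : ℝ) : ℂ) * sun S ε z t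
    | some j => pl S (zs s) j t + ((1 - s : ℝ) : ℂ) * sun S ε z t, ?_, ?_, ?_, ?_, ?_⟩
  · intro a
    cases a with
    | none =>
      refine ContinuousOn.mul ?_ ?_
      · exact (Complex.continuous_ofReal.comp (by fun_prop)).continuousOn
      · exact (hsunc.comp (by fun_prop)).continuousOn
    | some j =>
      refine ContinuousOn.add ?_ (ContinuousOn.mul ?_ ?_)
      · exact continuousOn_const.mul (hcont (S.σ j))
      · exact (Complex.continuous_ofReal.comp (by fun_prop)).continuousOn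
      · exact (hsunc.comp (by fun_prop)).continuousOn
  · intro s hs t a b hab
    cases a with
    | none =>
      cases b with
      | none => exact absurd rfl hab
      | some j =>
        intro h
        change ((1 - s : ℝ) : ℂ) * sun S ε z t = pl S (zs s) j t + ((1 - s : ℝ) : ℂ) * sun S ε z t at h
        have h1 : pl S (zs s) j t = 0 := by linear_combination -h
        unfold pl at h1
        rcases mul_eq_zero.1 h1 with h2 | h2
        · have := S.norm_R j
          rw [h2, norm_zero] at this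
          exact zero_ne_one this
        · exact hzs0 s hs _ h2
    | some i =>
      cases b with
      | none =>
        intro h
        change pl S (zs s) i t + ((1 - s : ℝ) : ℂ) * sun S ε z t = ((1 - s : ℝ) : ℂ) * sun S ε z t at h
        have h1 : pl S (zs s) i t = 0 := by linear_combination h
        unfold pl at h1
        rcases mul_eq_zero.1 h1 with h2 | h2
        · have := S.norm_R i
          rw [h2, norm_zero] at this
          exact zero_ne_one this
        · exact hzs0 s hs _ h2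
      | some j =>
        intro h
        have h1 : pl S (zs s) i t = pl S (zs s) j t := add_right_cancel h
        exact hzsj s hs i j (fun h => hab (by rw [h])) t h1
  · intro s hs t
    funext a
    cases a with
    | none =>
      change ((1 - s : ℝ) : ℂ) * sun S ε z (t + 2 * π) = ((1 - s : ℝ) : ℂ) * sun S ε z t
      rw [hsunper]
    | some j =>
      change pl S (zs s) j (t + 2 * π) + ((1 - s : ℝ) : ℂ) * sun S ε z (t + 2 * π) =
        pl S (zs s) j t + ((1 - s : ℝ) : ℂ) * sun S ε z t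
      rw [hsunper]
      unfold pl
      rw [show t + 2 * π + S.σ j = t + S.σ j + 2 * π by ring, hzper s hs]
  · intro t
    have h0 : zs 0 = z := by
      funext t
      simp [hzs]
    funext a
    cases a with
    | none =>
      change ((1 - 0 : ℝ) : ℂ) * sun S ε z t = sun S ε z t
      simp
    | some j =>
      change pl S (zs 0) j t + ((1 - 0 : ℝ) : ℂ) * sun S ε z t = pl S z j t + sun S ε z t
      rw [h0]
      simp
  · intro t
    have h0 : zs 1 = kz e0 := by
      funext t
      simp [hzs]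
    funext a
    cases a with
    | none =>
      change ((1 - 1 : ℝ) : ℂ) * sun S ε z t = 0
      simp
    | some j =>
      change pl S (zs 1) j t + ((1 - 1 : ℝ) : ℂ) * sun S ε z t = pl S (kz e0) j t
      rw [h0]
      simp

end Pool.Agent.Helper43.Kep
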