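import Pool.Agent.Helper43.Kep.KzB
import Pool.Agent.Helper43.Kep.FourC

/-!
KEP KZC: coefficients of the Kepler ellipses.  `fourC` for `kz e`, `kz' e`, and `kz_action`
(`A0 c = π en c + pot (zc c) = ∫ ‖kz'‖²/2 + ∫ ‖kz‖⁻¹`).
-/

set_option autoImplicit false

namespace Pool.Agent.Helper43.Kep

open Real MeasureTheory Set Filter Topology

theorem exists_coeff {e : ℝ} (he : |e| < 1) :
    ∃ c : ℤ → ℝ, FE c ∧ (∀ t, zc c t = kz e t) ∧ A0 c = 3 * π := by
  obtain ⟨c, hc, hz, hE⟩ := fourC (z := kz e) (z' := kz' e) (fun t => kz_hasDerivAt he t)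
    (kz'_continuous he) (fun t => kz_add_two_pi he.le t) (fun t => kz_neg he.le t)
  refine ⟨c, hc, hz, ?_⟩
  have hact := kz_action he
  have hcont : Continuous fun t : ℝ => ‖kz e t‖⁻¹ := by
    refine (kz_continuous he.le).norm.inv₀ fun t => ?_
    have h1 := norm_kz_ge he.le t
    have h2 : 0 < 1 - |e| := by linarith
    linarith
  have hc2 : Continuous fun t : ℝ => ‖kz' e t‖ ^ 2 / 2 := by
    have := kz'_continuous he
    fun_prop
  rw [intervalIntegral.integral_add (hc2.intervalIntegrable _ _)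
    (hcont.intervalIntegrable _ _), intervalIntegral.integral_div] at hact
  unfold A0 pot
  have hzf : zc c = kz e := funext hz
  rw [hzf, ← hact, ← hE]
  ring

end Pool.Agent.Helper43.Kep
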