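import Pool.Agent.Helper43.Kep.Conv
import Pool.Agent.Helper43.Kep.Comp
import Pool.Agent.Helper43.Kep.Gor
import Pool.Agent.Helper43.Kep.KzC

/-!
KEP KDEF: the set on which the functional is minimised is sequentially compact, and the weighted energy.
* `KK_compact`: `|c_n 0| ≤ 3` (`c0_bound`, `‖kz‖ ≤ 2`, `δ ≤ 1`), `compact` gives `φ`, `d`; `conv` gives `FE d`,
  `en d ≤ 5` and uniform convergence; the ellipses `e_n ∈ [a,b]` have a convergent subsequence `e_n → e`, and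
  `kz e_n t → kz e t` (`kz_continuousOn`), so `‖zc d t - kz e t‖ ≤ δ`.
* `pot_tendsto`: uniform convergence and `‖zc (c n) t‖ ≥ g > 0` (dominated convergence).
* `A0m_eq`: definition of `ind`; `A0m_lsc`: `wen_lsc` along a subsequence, weights `1 - mκ 1_{KH}`.
-/

set_option autoImplicit false

namespace Pool.Agent.Helper43.Kep

open Real MeasureTheory Set Filter Topology

variable {J : Type} [AddCommGroup J] [Fintype J] [DecidableEq J] (S : Sym J)


/-- the set on which the functional is minimised -/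
def KK (a b δ : ℝ) : Set (ℤ → ℝ) := {c | FE c ∧ en c ≤ 5 ∧ Near a b δ c}

/-- the action with the kinetic correction -/
noncomputable def A0m (ε : ℝ) (c : ℤ → ℝ) : ℝ := A0 c - π * mm J * kap J ε * ind S c

private lemma kdef_e {a b e : ℝ} (he : e ∈ Icc a b) : |e| ≤ max |a| |b| :=
  abs_le_max_abs_abs he.1 he.2

private lemma kdef_max {a b δ : ℝ} (ha : δ < 1 - |a|) (hb : δ < 1 - |b|) :
    δ < 1 - max |a| |b| := by
  rcases le_total |a| |b| with h | h
  · rw [max_eq_right h]; exact hb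
  · rw [max_eq_left h]; exact ha

theorem near_norm {a b δ : ℝ} {c : ℤ → ℝ} (ha : δ < 1 - |a|) (hb : δ < 1 - |b|)
    (hn : Near a b δ c) (t : ℝ) : 1 - max |a| |b| - δ ≤ ‖zc c t‖ := by
  obtain ⟨e, he, hen⟩ := hn
  have h1 := kdef_e he
  have h2 := kdef_max ha hb
  have hδ : 0 ≤ δ := (norm_nonneg _).trans (hen 0)
  have h3 : |e| ≤ 1 := by linarith
  have h4 := norm_kz_ge h3 t
  have h5 := norm_sub_norm_le (kz e t) (zc c t)
  rw [norm_sub_rev] at h5
  linarith [hen t]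

private lemma kdef_pot {z : ℕ → ℝ → ℂ} {w : ℝ → ℂ} {g : ℝ} (hg : 0 < g)
    (hz : ∀ n, Continuous (z n)) (hw : ∀ t, g ≤ ‖w t‖)
    (h : ∀ η > 0, ∀ᶠ n in atTop, ∀ t : ℝ, ‖z n t - w t‖ ≤ η) :
    Tendsto (fun n => pot (z n)) atTop (𝓝 (pot w)) := by
  unfold pot
  have hbig : ∀ᶠ n in atTop, ∀ t : ℝ, g / 2 ≤ ‖z n t‖ := by
    filter_upwards [h (g / 2) (by positivity)] with n hn t
    have h1 := hn t
    have h2 := norm_sub_norm_le (w t) (z n t)
    rw [norm_sub_rev] at h2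
    have h3 := hw t
    linarith
  refine intervalIntegral.tendsto_integral_filter_of_dominated_convergence (fun _ => (g / 2)⁻¹)
    ?_ ?_ ?_ ?_
  · filter_upwards [hbig] with n hn
    refine Continuous.aestronglyMeasurable ?_
    refine (hz n).norm.inv₀ fun t => ?_
    have : 0 < g / 2 := by positivity
    linarith [hn t]
  · filter_upwards [hbig] with n hn
    refine Filter.Eventually.of_forall fun t _ => ?_
    rw [norm_inv, norm_norm]
    exact inv_anti₀ (by positivity) (hn t)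
  · exact intervalIntegrable_const
  · refine Filter.Eventually.of_forall fun t _ => ?_
    have ht : Tendsto (fun n => z n t) atTop (𝓝 (w t)) := by
      rw [Metric.tendsto_nhds]
      intro η hη
      filter_upwards [h (η / 2) (by positivity)] with n hn
      rw [dist_eq_norm]
      linarith [hn t]
    refine (ht.norm).inv₀ ?_
    have := hw t
    linarith

private lemma kdef_kz1 {e' t : ℝ} (he' : e' ∈ Icc (-1 : ℝ) 1) :
    ContinuousWithinAt (fun p : ℝ × ℝ => kz p.1 p.2) (Icc (-1 : ℝ) 1 ×ˢ univ) (e', t) := by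
  apply kz_continuousOn
  exact Set.mk_mem_prod he' (mem_univ _)

private lemma kdef_kz2 {e : ℕ → ℝ} {e' t : ℝ} (he : ∀ n, e n ∈ Icc (-1 : ℝ) 1)
    (h : Tendsto e atTop (𝓝 e')) :
    Tendsto (fun n => ((e n, t) : ℝ × ℝ)) atTop
      (𝓝[Icc (-1 : ℝ) 1 ×ˢ univ] (e', t)) := by
  rw [tendsto_nhdsWithin_iff]
  constructor
  · exact h.prodMk_nhds tendsto_const_nhds
  · exact Filter.Eventually.of_forall fun n => Set.mk_mem_prod (he n) (mem_univ _)

private lemma kdef_kz {e : ℕ → ℝ} {e' t : ℝ} (he : ∀ n, e n ∈ Icc (-1 : ℝ) 1)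
    (he' : e' ∈ Icc (-1 : ℝ) 1) (h : Tendsto e atTop (𝓝 e')) :
    Tendsto (fun n => kz (e n) t) atTop (𝓝 (kz e' t)) := by
  have h1 := (kdef_kz1 (t := t) he').tendsto.comp (kdef_kz2 (t := t) he h)
  exact h1

theorem KK_compact {a b δ : ℝ} (hδ : 0 ≤ δ) (ha : δ < 1 - |a|) (hb : δ < 1 - |b|)
    {c : ℕ → ℤ → ℝ} (hc : ∀ n, c n ∈ KK a b δ) :
    ∃ φ : ℕ → ℕ, StrictMono φ ∧ ∃ d ∈ KK a b δ,
      (∀ k, Tendsto (fun n => c (φ n) k) atTop (𝓝 (d k))) ∧
      (∀ η > 0, ∀ᶠ n in atTop, ∀ t : ℝ, ‖zc (c (φ n)) t - zc d t‖ ≤ η) ∧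
      Tendsto (fun n => pot (zc (c (φ n)))) atTop (𝓝 (pot (zc d))) := by
  have hmax := kdef_max ha hb
  have hmax0 : 0 ≤ max |a| |b| := (abs_nonneg a).trans (le_max_left _ _)
  have h0 : ∀ n, |c n 0| ≤ 3 := by
    intro n
    refine c0_bound (hc n).1 fun t => ?_
    obtain ⟨e, he, hen⟩ := (hc n).2.2
    have h1 := kdef_e he
    have h3 : |e| ≤ 1 := by linarith
    have h4 := norm_kz_le h3 t
    have h5 := norm_sub_norm_le (zc (c n) t) (kz e t)
    linarith [hen t]
  obtain ⟨φ, hφ, d, hd⟩ := compact (fun n => (hc n).1) (fun n => (hc n).2.1) h0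
  obtain ⟨hFE, hen, hunif⟩ := conv (fun n => (hc (φ n)).1) (fun n => (hc (φ n)).2.1) hd
  choose e he hne using fun n => (hc (φ n)).2.2
  obtain ⟨e', he', ψ, hψ, hlim⟩ := (isCompact_Icc (a := a) (b := b)).tendsto_subseq he
  have hψt := hψ.tendsto_atTop
  have hI : ∀ x ∈ Icc a b, x ∈ Icc (-1 : ℝ) 1 := by
    intro x hx
    have h1 := kdef_e hx
    exact abs_le.mp (by linarith)
  have hnear : Near a b δ d := by
    refine ⟨e', he', fun t => ?_⟩
    have h1 : Tendsto (fun n => kz (e (ψ n)) t) atTop (𝓝 (kz e' t)) := by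
      exact kdef_kz (fun n => hI _ (he _)) (hI e' he') hlim
    have h3 : Tendsto (fun n => zc (c (φ (ψ n))) t) atTop (𝓝 (zc d t)) := by
      rw [Metric.tendsto_nhds]
      intro η hη
      filter_upwards [hψt.eventually (hunif (η / 2) (by positivity))] with n hn
      rw [dist_eq_norm]
      linarith [hn t]
    exact le_of_tendsto (h3.sub h1).norm (Filter.Eventually.of_forall fun n => hne (ψ n) t)
  refine ⟨φ ∘ ψ, hφ.comp hψ, d, ⟨hFE, hen, hnear⟩, fun k => (hd k).comp hψt,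
    fun η hη => hψt.eventually (hunif η hη), ?_⟩
  exact kdef_pot (g := 1 - max |a| |b| - δ) (by linarith)
    (fun n => zc_continuous (hc (φ (ψ n))).1) (near_norm ha hb hnear)
    (fun η hη => hψt.eventually (hunif η hη))

omit [AddCommGroup J] [DecidableEq J] in
theorem kap_bounds {ε : ℝ} (hε : 0 < ε) :
    0 ≤ kap J ε ∧ kap J ε ≤ ε ∧ mm J * kap J ε < 1 ∧ (1 - mm J * kap J ε) * (1 + mm J * ε) = 1 := by
  have hm : 0 ≤ mm J := by unfold mm; positivity
  have hmε : 0 ≤ mm J * ε := mul_nonneg hm hε.le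
  have hpos : 0 < 1 + mm J * ε := by linarith
  unfold kap
  refine ⟨by positivity, ?_, ?_, ?_⟩
  · rw [div_le_iff₀ hpos]
    nlinarith
  · rw [← mul_div_assoc, div_lt_one hpos]
    linarith
  · field_simp
    ring

theorem A0m_lower {ε : ℝ} (hε : 0 < ε) {c : ℤ → ℝ} (hc : FE c) :
    π * (1 - mm J * kap J ε) * en c + pot (zc c) ≤ A0m S ε c ∧ A0m S ε c ≤ A0 c := by
  obtain ⟨h1, h2, h3, h4⟩ := kap_bounds (J := J) hε
  have hm : 0 ≤ mm J := by unfold mm; positivity
  have h5 := ind_le_en S hc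
  have h6 := ind_nonneg S c
  have h7 : 0 ≤ π * mm J * kap J ε := by
    have := pi_pos
    positivity
  unfold A0m A0
  constructor
  · have := mul_le_mul_of_nonneg_left h5 h7
    nlinarith
  · have := mul_nonneg h7 h6
    linarith

open Classical in
private lemma kdef_w {ε : ℝ} (hε : 0 < ε) (k : ℤ) :
    0 ≤ (1 - if k ∈ KH S then mm J * kap J ε else 0) ∧
      (1 - if k ∈ KH S then mm J * kap J ε else 0) ≤ 1 := by
  obtain ⟨h1, h2, h3, h4⟩ := kap_bounds (J := J) hε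
  have hm : 0 ≤ mm J := by unfold mm; positivity
  have h5 : 0 ≤ mm J * kap J ε := mul_nonneg hm h1
  split_ifs <;> constructor <;> linarith

open Classical in
private lemma kdef_sum {ε : ℝ} {c : ℤ → ℝ} (hc : FE c) :
    A0m S ε c = π * (∑' k : ℤ, (1 - if k ∈ KH S then mm J * kap J ε else 0) *
      ((k : ℝ) ^ 2 * c k ^ 2)) + pot (zc c) := by
  have hs : Summable fun k : ℤ => if k ∈ KH S then (k : ℝ) ^ 2 * c k ^ 2 else 0 := by
    refine Summable.of_nonneg_of_le (fun k => ?_) (fun k => ?_) hc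
    · split_ifs
      · positivity
      · exact le_rfl
    · split_ifs
      · exact le_rfl
      · positivity
  have h1 : (∑' k : ℤ, (1 - if k ∈ KH S then mm J * kap J ε else 0) *
      ((k : ℝ) ^ 2 * c k ^ 2)) = en c - mm J * kap J ε * ind S c := by
    unfold en ind
    rw [← tsum_mul_left, ← Summable.tsum_sub hc (hs.mul_left _)]
    refine tsum_congr fun k => ?_
    split_ifs <;> ring
  rw [h1]
  unfold A0m A0
  ring

/-- lower semicontinuity of `A0m` along sequences in `KK` -/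
theorem A0m_lsc {a b δ ε : ℝ} (hε : 0 < ε) (hδ : 0 ≤ δ) (ha : δ < 1 - |a|) (hb : δ < 1 - |b|)
    {c : ℕ → ℤ → ℝ} {d : ℤ → ℝ} {E : ℝ} (hc : ∀ n, c n ∈ KK a b δ) (hd : d ∈ KK a b δ)
    (hp : ∀ k, Tendsto (fun n => c n k) atTop (𝓝 (d k)))
    (hpot : Tendsto (fun n => pot (zc (c n))) atTop (𝓝 (pot (zc d))))
    (hE : Tendsto (fun n => A0m S ε (c n)) atTop (𝓝 E)) : A0m S ε d ≤ E := by
  classical
  have hpi := pi_pos
  have h1 : Tendsto (fun n => ∑' k : ℤ, (1 - if k ∈ KH S then mm J * kap J ε else 0) *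
      ((k : ℝ) ^ 2 * c n k ^ 2)) atTop (𝓝 ((E - pot (zc d)) / π)) := by
    refine ((hE.sub hpot).div_const π).congr fun n => ?_
    rw [kdef_sum S (hc n).1]
    field_simp
    ring
  have h2 := wen_lsc (fun n => (hc n).1) hd.1 (fun k => kdef_w S hε k) hp h1
  rw [kdef_sum S hd.1]
  rw [le_div_iff₀ hpi] at h2
  linarith

/-- the same for `A0` -/
theorem A0_lsc {a b δ : ℝ} (hδ : 0 ≤ δ) (ha : δ < 1 - |a|) (hb : δ < 1 - |b|)
    {c : ℕ → ℤ → ℝ} {d : ℤ → ℝ} {E : ℝ} (hc : ∀ n, c n ∈ KK a b δ) (hd : d ∈ KK a b δ)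
    (hp : ∀ k, Tendsto (fun n => c n k) atTop (𝓝 (d k)))
    (hpot : Tendsto (fun n => pot (zc (c n))) atTop (𝓝 (pot (zc d))))
    (hE : Tendsto (fun n => A0 (c n)) atTop (𝓝 E)) : A0 d ≤ E := by
  have hpi := pi_pos
  have h1 : Tendsto (fun n => ∑' k : ℤ, (1 : ℝ) * ((k : ℝ) ^ 2 * c n k ^ 2)) atTop
      (𝓝 ((E - pot (zc d)) / π)) := by
    refine ((hE.sub hpot).div_const π).congr fun n => ?_
    simp only [one_mul]
    unfold A0 en
    field_simp
    ring
  have h2 := wen_lsc (w := fun _ => 1) (fun n => (hc n).1) hd.1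
    (fun k => ⟨zero_le_one, le_rfl⟩) hp h1
  simp only [one_mul] at h2
  unfold A0 en
  rw [le_div_iff₀ hpi] at h2
  linarith

end Pool.Agent.Helper43.Kep
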