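import Pool.Agent.Helper43.Kep.KzA

/-!
KEP KZB: velocity and action of the Kepler ellipses, `|e| < 1`.
* `kz_hasDerivAt`: chain rule with `ecc_hasDerivAt` (`1 - e cos x ≥ 1 - |e| > 0`), componentwise.
* `‖kz' e t‖² = (sin² x + (1-e²) cos² x)/(1 - e cos x)² = (1 + e cos x)/(1 - e cos x)`.
* `kz_action`: substitute `t = x - e sin x` (`intervalIntegral.integral_comp_mul_deriv`): the integral is
  `∫_0^{2π} (1 + e cos x)/2 + 1 dx = 3π`.
-/

set_option autoImplicit false

namespace Pool.Agent.Helper43.Kep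

open Real MeasureTheory Set Filter Topology

private theorem kzb_pos {e : ℝ} (he : |e| < 1) (x : ℝ) : 0 < 1 - e * Real.cos x := by
  have h1 : |e * Real.cos x| ≤ |e| := by
    rw [abs_mul]
    have := Real.abs_cos_le_one x
    have := abs_nonneg e
    nlinarith
  have h2 := le_abs_self (e * Real.cos x)
  linarith

private theorem kzb_ecc {e : ℝ} (he : |e| < 1) (t : ℝ) :
    HasDerivAt (ecc e) (1 - e * Real.cos (ecc e t))⁻¹ t :=
  ecc_hasDerivAt he.le (kzb_pos he _).ne'

private theorem kzb_ecc_cont {e : ℝ} (he : |e| < 1) : Continuous (ecc e) :=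
  continuous_iff_continuousAt.2 fun t => (kzb_ecc he t).continuousAt

private theorem kzb_kz (e t : ℝ) : kz e t = ((Real.cos (ecc e t) - e : ℝ) : ℂ) +
    ((Real.sqrt (1 - e ^ 2) * Real.sin (ecc e t) : ℝ) : ℂ) * Complex.I := by
  apply Complex.ext
  · simp only [kz, Complex.add_re, Complex.re_ofReal_mul, Complex.I_re, Complex.ofReal_re]
    ring
  · simp only [kz, Complex.add_im, Complex.im_ofReal_mul, Complex.I_im, Complex.ofReal_im]
    ring

private theorem kzb_kz' (e t : ℝ) : kz' e t =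
    ((-Real.sin (ecc e t) / (1 - e * Real.cos (ecc e t)) : ℝ) : ℂ) +
    ((Real.sqrt (1 - e ^ 2) * Real.cos (ecc e t) / (1 - e * Real.cos (ecc e t)) : ℝ) : ℂ) *
      Complex.I := by
  apply Complex.ext
  · simp only [kz', Complex.add_re, Complex.re_ofReal_mul, Complex.I_re, Complex.ofReal_re]
    ring
  · simp only [kz', Complex.add_im, Complex.im_ofReal_mul, Complex.I_im, Complex.ofReal_im]
    ring

theorem kz_hasDerivAt {e : ℝ} (he : |e| < 1) (t : ℝ) : HasDerivAt (kz e) (kz' e t) t := by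
  have h := kzb_ecc he t
  have h1 : HasDerivAt (fun t => Real.cos (ecc e t) - e)
      (-Real.sin (ecc e t) / (1 - e * Real.cos (ecc e t))) t := by
    rw [div_eq_mul_inv]
    exact (h.cos).sub_const e
  have h2 : HasDerivAt (fun t => Real.sqrt (1 - e ^ 2) * Real.sin (ecc e t))
      (Real.sqrt (1 - e ^ 2) * Real.cos (ecc e t) / (1 - e * Real.cos (ecc e t))) t := by
    rw [div_eq_mul_inv, mul_assoc]
    exact (h.sin).const_mul _
  have h3 := (h1.ofReal_comp).add ((h2.ofReal_comp).mul_const Complex.I)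
  rw [kzb_kz']
  have e1 : kz e = fun t => ((Real.cos (ecc e t) - e : ℝ) : ℂ) +
    ((Real.sqrt (1 - e ^ 2) * Real.sin (ecc e t) : ℝ) : ℂ) * Complex.I :=
    funext fun t => kzb_kz e t
  rw [e1]
  exact h3

theorem kz'_continuous {e : ℝ} (he : |e| < 1) : Continuous (kz' e) := by
  have e1 : kz' e = fun t => ((-Real.sin (ecc e t) / (1 - e * Real.cos (ecc e t)) : ℝ) : ℂ) +
    ((Real.sqrt (1 - e ^ 2) * Real.cos (ecc e t) / (1 - e * Real.cos (ecc e t)) : ℝ) : ℂ) *
      Complex.I := funext fun t => kzb_kz' e t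
  rw [e1]
  have hc := kzb_ecc_cont he
  have hd : Continuous fun t => 1 - e * Real.cos (ecc e t) := by fun_prop
  have h1 : Continuous fun t => -Real.sin (ecc e t) / (1 - e * Real.cos (ecc e t)) :=
    Continuous.div (by fun_prop) hd fun t => (kzb_pos he _).ne'
  have h2 : Continuous fun t => Real.sqrt (1 - e ^ 2) * Real.cos (ecc e t) /
      (1 - e * Real.cos (ecc e t)) :=
    Continuous.div (by fun_prop) hd fun t => (kzb_pos he _).ne'
  exact (Complex.continuous_ofReal.comp h1).add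
    ((Complex.continuous_ofReal.comp h2).mul continuous_const)

private theorem kzb_norm {e : ℝ} (he : |e| < 1) (t : ℝ) : ‖kz' e t‖ ^ 2 =
    (1 + e * Real.cos (ecc e t)) / (1 - e * Real.cos (ecc e t)) := by
  have hp := kzb_pos he (ecc e t)
  have he2 : 0 ≤ 1 - e ^ 2 := by
    have := abs_lt.1 he
    nlinarith
  rw [Complex.sq_norm, Complex.normSq_apply]
  simp only [kz']
  have hs := Real.sin_sq_add_cos_sq (ecc e t)
  have hq := Real.sq_sqrt he2
  rw [← pow_two, ← pow_two, div_pow, div_pow, mul_pow, hq, ← add_div, neg_sq,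
    div_eq_div_iff (by positivity) hp.ne']
  have h1 : Real.sin (ecc e t) ^ 2 = 1 - Real.cos (ecc e t) ^ 2 := by linarith
  rw [h1]
  ring

theorem kz_action {e : ℝ} (he : |e| < 1) :
    ∫ t in (0 : ℝ)..(2 * π), (‖kz' e t‖ ^ 2 / 2 + ‖kz e t‖⁻¹) = 3 * π := by
  have hg : Continuous fun t => ‖kz' e t‖ ^ 2 / 2 + ‖kz e t‖⁻¹ := by
    apply Continuous.add
    · exact ((kz'_continuous he).norm.pow 2).div_const 2
    · apply Continuous.inv₀ (kz_continuous he.le).norm
      intro t
      rw [norm_kz he.le]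
      exact (kzb_pos he _).ne'
  have hF : ∀ t : ℝ, HasDerivAt (fun t => 3 / 2 * ecc e t + e / 2 * Real.sin (ecc e t))
      (‖kz' e t‖ ^ 2 / 2 + ‖kz e t‖⁻¹) t := by
    intro t
    have h := kzb_ecc he t
    have hp := kzb_pos he (ecc e t)
    have h1 := (h.const_mul (3 / 2)).add ((h.sin).const_mul (e / 2))
    rw [kzb_norm he, norm_kz he.le]
    have e1 : (1 + e * Real.cos (ecc e t)) / (1 - e * Real.cos (ecc e t)) / 2 +
        (1 - e * Real.cos (ecc e t))⁻¹ = 3 / 2 * (1 - e * Real.cos (ecc e t))⁻¹ +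
        e / 2 * (Real.cos (ecc e t) * (1 - e * Real.cos (ecc e t))⁻¹) := by
      field_simp
      ring
    rw [e1]
    exact h1
  rw [intervalIntegral.integral_eq_sub_of_hasDerivAt (fun t _ => hF t)
    (hg.intervalIntegrable _ _)]
  have h1 : ecc e (2 * π) = 2 * π := by
    have := ecc_add_two_pi he.le 0
    rw [zero_add, ecc_zero he.le, zero_add] at this
    exact this
  rw [h1, ecc_zero he.le]
  simp
  ring

end Pool.Agent.Helper43.Kep
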