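import Pool.Agent.Helper43.Kep.KDef
import Pool.Agent.Helper43.Kep.FLsc

/-!
KEP MINE: existence of a minimiser.  `Phi S ε c = ofReal (A0m S ε c) + ofReal (ε/2) * Fint S (zc c)`.  Take a
minimising sequence in `KK` for the infimum `I` (in `ENNReal`), a convergent subsequence (`KK_compact`), and a
further subsequence along which `A0m` (bounded real numbers: between `0` and `A0 ≤ 5π + pot`) converges to `E`.
If `I = ⊤` anything works.  `A0m d ≤ E` (`A0m_lsc`), `F(d) ≤ liminf F(c_n)` (`Fint_lsc`, uniform convergence gives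
pointwise convergence), so `Phi d ≤ I`.
-/

set_option autoImplicit false

namespace Pool.Agent.Helper43.Kep

open Real MeasureTheory Set Filter Topology

variable {J : Type} [AddCommGroup J] [Fintype J] [DecidableEq J] (S : Sym J)


theorem exists_min {a b δ ε : ℝ} (hε : 0 < ε) (hδ : 0 ≤ δ) (ha : δ < 1 - |a|) (hb : δ < 1 - |b|)
    (hne : (KK a b δ).Nonempty) :
    ∃ c ∈ KK a b δ, ∀ d ∈ KK a b δ, Phi S ε c ≤ Phi S ε d := by
  obtain ⟨u, -, hu, hmem⟩ := exists_seq_tendsto_sInf (S := Phi S ε '' KK a b δ)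
    (hne.image _) (OrderBot.bddBelow _)
  choose c hc hcu using hmem
  obtain ⟨φ₁, hφ₁, d, hd, hp, hunif, hpot⟩ := KK_compact hδ ha hb hc
  -- the action along the sequence is bounded
  obtain ⟨B, hB⟩ := hpot.bddAbove_range
  have hB' : ∀ n, pot (zc (c (φ₁ n))) ≤ B := fun n => hB ⟨n, rfl⟩
  have hpot0 : ∀ z : ℝ → ℂ, 0 ≤ pot z := by
    intro z
    unfold pot
    exact intervalIntegral.integral_nonneg (by positivity) fun t _ => by positivity
  obtain ⟨hk0, hkε, hk1, -⟩ := kap_bounds (J := J) hε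
  have hA : ∀ n, A0m S ε (c (φ₁ n)) ∈ Icc (0 : ℝ) (π * 5 + B) := by
    intro n
    have h1 := A0m_lower S hε (hc (φ₁ n)).1
    have h2 : 0 ≤ π * (1 - mm J * kap J ε) * en (c (φ₁ n)) :=
      mul_nonneg (mul_nonneg Real.pi_pos.le (by linarith)) (en_nonneg _)
    have h3 := hpot0 (zc (c (φ₁ n)))
    refine ⟨by linarith [h1.1], h1.2.trans ?_⟩
    unfold A0
    have h4 := mul_le_mul_of_nonneg_left (hc (φ₁ n)).2.1 Real.pi_pos.le
    linarith [hB' n]
  obtain ⟨E, -, φ₂, hφ₂, hE⟩ := isCompact_Icc.tendsto_subseq hA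
  obtain ⟨F, φ₃, hφ₃, hF⟩ := CompactSpace.tendsto_subseq
    (fun n => Fint S (zc (c (φ₁ (φ₂ n)))))
  set ψ : ℕ → ℕ := fun n => φ₂ (φ₃ n) with hψ
  have hψm : Tendsto ψ atTop atTop := (hφ₂.comp hφ₃).tendsto_atTop
  have hE' : Tendsto (fun n => A0m S ε (c (φ₁ (ψ n)))) atTop (𝓝 E) :=
    hE.comp hφ₃.tendsto_atTop
  have hF' : Tendsto (fun n => Fint S (zc (c (φ₁ (ψ n))))) atTop (𝓝 F) := hF
  have hAd : A0m S ε d ≤ E :=
    A0m_lsc S hε hδ ha hb (c := fun n => c (φ₁ (ψ n))) (fun n => hc _) hd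
      (fun k => (hp k).comp hψm) (hpot.comp hψm) hE'
  have hzc : ∀ t, Tendsto (fun n => zc (c (φ₁ (ψ n))) t) atTop (𝓝 (zc d t)) := by
    intro t
    have h1 : Tendsto (fun n => zc (c (φ₁ n)) t) atTop (𝓝 (zc d t)) := by
      rw [Metric.tendsto_atTop]
      intro η hη
      obtain ⟨n₀, hn₀⟩ := eventually_atTop.1 (hunif (η / 2) (by positivity))
      refine ⟨n₀, fun n hn => ?_⟩
      rw [dist_eq_norm]
      exact (hn₀ n hn t).trans_lt (by linarith)
    exact h1.comp hψm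
  have hFd : Fint S (zc d) ≤ F := by
    have h1 := Fint_lsc S (z := fun n => zc (c (φ₁ (ψ n)))) (w := zc d)
      (fun n => zc_continuous (hc _).1) (zc_continuous hd.1) hzc
    rwa [hF'.liminf_eq] at h1
  have hlim : Tendsto (fun n => Phi S ε (c (φ₁ (ψ n)))) atTop
      (𝓝 (ENNReal.ofReal E + ENNReal.ofReal (ε / 2) * F)) := by
    unfold Phi
    refine Tendsto.add ?_ ?_
    · exact (ENNReal.continuous_ofReal.tendsto E).comp hE'
    · exact ENNReal.Tendsto.const_mul hF' (Or.inr ENNReal.ofReal_ne_top)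
  have hlim2 : Tendsto (fun n => Phi S ε (c (φ₁ (ψ n)))) atTop (𝓝 (sInf (Phi S ε '' KK a b δ))) := by
    have h1 := hu.comp (hφ₁.tendsto_atTop.comp hψm)
    refine h1.congr fun n => ?_
    exact (hcu _).symm
  have heq := tendsto_nhds_unique hlim hlim2
  refine ⟨d, hd, fun d' hd' => ?_⟩
  calc Phi S ε d = ENNReal.ofReal (A0m S ε d) + ENNReal.ofReal (ε / 2) * Fint S (zc d) := rfl
    _ ≤ ENNReal.ofReal E + ENNReal.ofReal (ε / 2) * F := by
        gcongr
    _ = sInf (Phi S ε '' KK a b δ) := heq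
    _ ≤ Phi S ε d' := sInf_le ⟨d', hd', rfl⟩

end Pool.Agent.Helper43.Kep
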