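import Pool.Agent.Helper43.Kep.Chr

/-!
KEP NEWT: the heliocentric equation gives the N-body problem.  `z_j = pl S z j`, `f_j = pl S (force S ε z) j`,
`s = sun S ε z = -κ ∑ z_j`.
* equivariance: `f_j(t) = -z_j/‖z_j‖³ - ε ∑_{i ≠ j} (z_j - z_i)/‖z_j - z_i‖³` (`R_j R_i = R_{i+j}`,
  `z_i(t + σ_j)`: `R_j (pl z i)(t+σ_j) = pl z (i+j) t` by `σ_add` and periodicity; `‖R_j‖ = 1`; reindex).
* `∑_j f_j = -∑_j z_j/‖z_j‖³` (the pair forces cancel).
* `z_j'' = f_j + ε ∑_i f_i` (as `∑_i pl S (..) i` is invariant: `pl S (∑_i pl S f i) j = ∑_i f_i`), so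
  `s'' = -κ (1 + mε) ∑ f_i = -ε ∑_i f_i` (`κ = ε/(1+mε)`), and `x_j'' = z_j'' + s'' = f_j`.
* bodies: `x_none = s`, `x_j = z_j + s`; multiply by the masses.
-/

set_option autoImplicit false

namespace Pool.Agent.Helper43.Kep

open Real MeasureTheory Set Filter Topology

variable {J : Type} [AddCommGroup J] [Fintype J] [DecidableEq J] (S : Sym J)

omit [Fintype J] [DecidableEq J] in
private theorem newt_pl_add {z : ℝ → ℂ} (hper : ∀ t, z (t + 2 * π) = z t) (i j : J) (t : ℝ) :
    pl S z (i + j) t = S.R i * pl S z j (t + S.σ i) := by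
  obtain ⟨n, hn⟩ := S.σ_add i j
  have hp : Function.Periodic z (2 * π) := hper
  have h := hp.int_mul n (t + S.σ i + S.σ j)
  unfold pl
  rw [S.R_add, hn, show t + (S.σ i + S.σ j + 2 * π * n) = t + S.σ i + S.σ j + n * (2 * π) by ring,
    h, mul_assoc]

omit [Fintype J] [DecidableEq J] in
private theorem newt_pl_zero {z : ℝ → ℂ} (hper : ∀ t, z (t + 2 * π) = z t) (t : ℝ) :
    pl S z 0 t = z t := by
  have h := S.R_add 0 0
  rw [add_zero] at h
  have h0 : S.R 0 ≠ 0 := by
    intro hc
    have := S.norm_R 0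
    rw [hc, norm_zero] at this
    exact zero_ne_one this
  have h1 : S.R 0 = 1 := (mul_right_cancel₀ h0 (by rw [one_mul]; exact h)).symm
  obtain ⟨n, hn⟩ := S.σ_add 0 0
  rw [add_zero] at hn
  have hp : Function.Periodic z (2 * π) := hper
  have h2 := hp.int_mul (-n) t
  unfold pl
  rw [h1, one_mul, ← h2]
  congr 1
  push_cast
  linarith

omit [Fintype J] [DecidableEq J] in
private theorem newt_pl_per {z : ℝ → ℂ} (hper : ∀ t, z (t + 2 * π) = z t) (j : J) (t : ℝ) :
    pl S z j (t + 2 * π) = pl S z j t := by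
  unfold pl
  rw [show t + 2 * π + S.σ j = t + S.σ j + 2 * π by ring, hper]

/-- Newtonian attraction -/
private noncomputable def nw (w : ℂ) : ℂ := w / (‖w‖ ^ 3 : ℝ)

private theorem nw_zero : nw 0 = 0 := by simp [nw]

private theorem nw_neg (w : ℂ) : nw (-w) = -nw w := by
  unfold nw
  rw [norm_neg, neg_div]

private theorem nw_mul {r : ℂ} (hr : ‖r‖ = 1) (w : ℂ) : nw (r * w) = r * nw w := by
  unfold nw
  rw [norm_mul, hr, one_mul, mul_div_assoc]

private theorem newt_force {ε : ℝ} {z : ℝ → ℂ} (hper : ∀ t, z (t + 2 * π) = z t) (t : ℝ) :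
    force S ε z t = -nw (z t) - (ε : ℂ) * ∑ i : J, nw (z t - pl S z i t) := by
  unfold force
  rw [Finset.sum_erase]
  · rfl
  · rw [newt_pl_zero S hper, sub_self, zero_div]

private theorem newt_force_per {ε : ℝ} {z : ℝ → ℂ} (hper : ∀ t, z (t + 2 * π) = z t) (t : ℝ) :
    force S ε z (t + 2 * π) = force S ε z t := by
  rw [newt_force S hper, newt_force S hper, hper]
  congr 2
  refine Finset.sum_congr rfl fun i _ => ?_
  rw [newt_pl_per S hper]

private theorem newt_f {ε : ℝ} {z : ℝ → ℂ} (hper : ∀ t, z (t + 2 * π) = z t) (j : J) (t : ℝ) :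
    pl S (force S ε z) j t =
      -nw (pl S z j t) - (ε : ℂ) * ∑ i : J, nw (pl S z j t - pl S z i t) := by
  have h1 : pl S (force S ε z) j t = S.R j * force S ε z (t + S.σ j) := rfl
  have h2 : ∀ i : J, nw (pl S z j t - pl S z (j + i) t) =
      S.R j * nw (z (t + S.σ j) - pl S z i (t + S.σ j)) := by
    intro i
    rw [newt_pl_add S hper, ← nw_mul (S.norm_R j), mul_sub]
    rfl
  have h3 : nw (pl S z j t) = S.R j * nw (z (t + S.σ j)) := nw_mul (S.norm_R j) _
  rw [h1, newt_force S hper, h3,
    ← Equiv.sum_comp (Equiv.addLeft j) (fun i => nw (pl S z j t - pl S z i t))]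
  simp only [Equiv.coe_addLeft, h2]
  rw [← Finset.mul_sum]
  ring

private theorem newt_F {ε : ℝ} {z : ℝ → ℂ} (hper : ∀ t, z (t + 2 * π) = z t) (t : ℝ) :
    ∑ j : J, pl S (force S ε z) j t = -∑ j : J, nw (pl S z j t) := by
  have h : ∑ j : J, ∑ i : J, nw (pl S z j t - pl S z i t) = 0 := by
    have h1 : ∑ j : J, ∑ i : J, nw (pl S z j t - pl S z i t) =
        -∑ j : J, ∑ i : J, nw (pl S z j t - pl S z i t) := by
      conv_lhs => rw [Finset.sum_comm]
      rw [← Finset.sum_neg_distrib]
      refine Finset.sum_congr rfl fun j _ => ?_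
      rw [← Finset.sum_neg_distrib]
      refine Finset.sum_congr rfl fun i _ => ?_
      rw [← nw_neg, neg_sub]
    exact self_eq_neg.1 h1
  simp only [newt_f S hper]
  rw [Finset.sum_sub_distrib, ← Finset.mul_sum, h, Finset.sum_neg_distrib]
  ring

private theorem newt_acc {ε : ℝ} {z : ℝ → ℂ} (hper : ∀ t, z (t + 2 * π) = z t) (j : J) (t : ℝ) :
    pl S (acc S ε z) j t =
      pl S (force S ε z) j t + (ε : ℂ) * ∑ i : J, pl S (force S ε z) i t := by
  have h1 : pl S (acc S ε z) j t = S.R j * acc S ε z (t + S.σ j) := rfl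
  have h2 : ∀ i : J, pl S (force S ε z) (j + i) t =
      S.R j * pl S (force S ε z) i (t + S.σ j) :=
    fun i => newt_pl_add S (newt_force_per S hper) j i t
  rw [h1, acc, ← Equiv.sum_comp (Equiv.addLeft j) (fun i => pl S (force S ε z) i t)]
  simp only [Equiv.coe_addLeft, h2]
  rw [← Finset.mul_sum]
  change _ = S.R j * force S ε z (t + S.σ j) + _
  ring

omit [Fintype J] [DecidableEq J] in
private theorem newt_dist {z : ℝ → ℂ} (hper : ∀ t, z (t + 2 * π) = z t) (i j : J) (t : ℝ) :
    pl S z i t - pl S z j t = S.R i * (z (t + S.σ i) - pl S z (j - i) (t + S.σ i)) := by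
  have h := newt_pl_add S hper i (j - i) t
  rw [add_sub_cancel] at h
  rw [h, mul_sub]
  rfl

omit [Fintype J] [DecidableEq J] in
private theorem newt_R (j : J) : S.R j ≠ 0 := by
  intro hc
  have := S.norm_R j
  rw [hc, norm_zero] at this
  exact zero_ne_one this

omit [Fintype J] [DecidableEq J] in
private theorem newt_deriv {z v : ℝ → ℂ} (h : ∀ t, HasDerivAt z (v t) t) (j : J) (t : ℝ) :
    HasDerivAt (fun s => pl S z j s) (pl S v j t) t := by
  unfold pl
  exact ((h (t + S.σ j)).comp_add_const t (S.σ j)).const_mul (S.R j)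

theorem newton {ε : ℝ} (hε : 0 < ε) {z v : ℝ → ℂ} (hper : ∀ t, z (t + 2 * π) = z t)
    (h0 : ∀ t, z t ≠ 0) (hj : ∀ j : J, j ≠ 0 → ∀ t : ℝ, z t ≠ pl S z j t)
    (hv : ∀ t, HasDerivAt z (v t) t ∧ HasDerivAt v (acc S ε z t) t) :
    IsSol (mass J ε) (bodies S ε z) := by
  have hz0 : ∀ (j : J) (t : ℝ), pl S z j t ≠ 0 := fun j t => mul_ne_zero (newt_R S j) (h0 _)
  have hzij : ∀ (i j : J) (t : ℝ), i ≠ j → pl S z i t ≠ pl S z j t := by
    intro i j t hij h
    have h1 := newt_dist S hper i j t
    rw [h, sub_self] at h1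
    rcases mul_eq_zero.1 h1.symm with h2 | h2
    · exact newt_R S i h2
    · exact hj (j - i) (sub_ne_zero.2 hij.symm) _ (sub_eq_zero.1 h2)
  have hκ : kap J ε * (1 + mm J * ε) = ε := by
    have h1 : (0 : ℝ) ≤ mm J := Nat.cast_nonneg _
    have h2 : 1 + mm J * ε ≠ 0 := by positivity
    unfold kap
    field_simp
  have hκ' : (kap J ε : ℂ) * (1 + (mm J : ℂ) * (ε : ℂ)) = (ε : ℂ) := by
    have h := congrArg (fun x : ℝ => (x : ℂ)) hκ
    push_cast at h
    exact h
  have hsun' : ∀ t, HasDerivAt (fun s => sun S ε z s) (-(kap J ε : ℂ) * ∑ j : J, pl S v j t) t := by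
    intro t
    unfold sun
    refine HasDerivAt.const_mul _ ?_
    exact HasDerivAt.fun_sum fun j _ => newt_deriv S (fun t => (hv t).1) j t
  have hsun'' : ∀ t, HasDerivAt (fun s => -(kap J ε : ℂ) * ∑ j : J, pl S v j s)
      (-(ε : ℂ) * ∑ j : J, pl S (force S ε z) j t) t := by
    intro t
    have h1 : HasDerivAt (fun s => -(kap J ε : ℂ) * ∑ j : J, pl S v j s)
        (-(kap J ε : ℂ) * ∑ j : J, pl S (acc S ε z) j t) t := by
      refine HasDerivAt.const_mul _ ?_
      exact HasDerivAt.fun_sum fun j _ => newt_deriv S (fun t => (hv t).2) j t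
    convert h1 using 1
    simp only [newt_acc S hper]
    rw [Finset.sum_add_distrib, Finset.sum_const, Finset.card_univ, nsmul_eq_mul]
    have h2 : ((Fintype.card J : ℕ) : ℂ) = (mm J : ℂ) := by simp [mm]
    rw [h2]
    linear_combination (∑ j : J, pl S (force S ε z) j t) * hκ'
  refine ⟨?_, fun t => fun
    | none => -(kap J ε : ℂ) * ∑ j : J, pl S v j t
    | some j => pl S v j t + -(kap J ε : ℂ) * ∑ j : J, pl S v j t, ?_⟩
  · intro t a b hab
    cases a with
    | none =>
      cases b with
      | none => exact absurd rfl hab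
      | some j =>
        intro h
        change sun S ε z t = pl S z j t + sun S ε z t at h
        exact hz0 j t (by linear_combination -h)
    | some i =>
      cases b with
      | none =>
        intro h
        change pl S z i t + sun S ε z t = sun S ε z t at h
        exact hz0 i t (by linear_combination h)
      | some j =>
        intro h
        exact hzij i j t (fun h => hab (by rw [h])) (add_right_cancel h)
  · intro t a
    cases a with
    | none =>
      refine ⟨hsun' t, -(ε : ℂ) * ∑ j : J, pl S (force S ε z) j t, hsun'' t, ?_⟩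
      rw [Finset.sum_erase _ (by simp), Fintype.sum_option, newt_F S hper]
      simp only [bodies, mass, sub_self, mul_zero, zero_div, zero_add, add_sub_cancel_right]
      rw [mul_neg, neg_mul, neg_neg, Finset.mul_sum]
      push_cast
      rw [one_mul]
      refine Finset.sum_congr rfl fun j _ => ?_
      unfold nw
      push_cast
      ring
    | some j =>
      refine ⟨(newt_deriv S (fun t => (hv t).1) j t).add (hsun' t), pl S (force S ε z) j t, ?_, ?_⟩
      · have h1 := (newt_deriv S (fun t => (hv t).2) j t).add (hsun'' t)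
        refine HasDerivAt.congr_deriv h1 ?_
        rw [newt_acc S hper]
        ring
      · rw [Finset.sum_erase _ (by simp), Fintype.sum_option, newt_f S hper]
        simp only [bodies, mass, add_sub_add_right_eq_sub]
        rw [show sun S ε z t - (pl S z j t + sun S ε z t) = -pl S z j t by ring, mul_sub,
          Finset.mul_sum, Finset.mul_sum, sub_eq_add_neg, ← Finset.sum_neg_distrib]
        congr 1
        · rw [norm_neg]
          unfold nw
          push_cast
          ring
        · refine Finset.sum_congr rfl fun i _ => ?_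
          rw [← neg_sub (pl S z i t) (pl S z j t), nw_neg]
          unfold nw
          push_cast
          ring

end Pool.Agent.Helper43.Kep
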