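import Pool.Agent.Helper43.Kep.ELa
import Pool.Agent.Helper43.Kep.Ser

/-!
KEP ODE: weak solutions are classical.  `k = 0`: `∫_0^{2π} g = 0`, so `P(t) = ∫_0^t g` is periodic; let
`μ = (1/2π) ∫_0^{2π} P`, `G(t) = ∫_0^t (P - μ)`, periodic, `G' = P - μ`, `G'' = g`.  Integration by parts twice:
`∫_0^{2π} G e^{-ikt} = 2π c_k` for `k ≠ 0`.  So the Fourier coefficients of the continuous function `G` on the
circle are `c_k` (`k ≠ 0`), summable (`summable_abs`), and `has_pointwise_sum_fourier_series_of_summable` gives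
`G(t) = const + zc c t`.  `v = P - μ`.
-/

set_option autoImplicit false

namespace Pool.Agent.Helper43.Kep

open Real MeasureTheory Set Filter Topology

private theorem ode_coeff {a b : ℝ} (hab : a < b) (h : b - a = 2 * π) (f : ℝ → ℂ) (k : ℤ) :
    fourierCoeffOn hab f k = ((2 * π)⁻¹ : ℝ) •
      ∫ x in a..b, Complex.exp (((-k : ℝ) * x : ℝ) * Complex.I) * f x := by
  rw [fourierCoeffOn_eq_integral, h, one_div]
  congr 1
  refine intervalIntegral.integral_congr fun x _ => ?_
  have h0 : (π : ℂ) ≠ 0 := by exact_mod_cast Real.pi_ne_zero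
  simp only [smul_eq_mul]
  rw [fourier_coe_apply]
  congr 2
  push_cast
  field_simp

private theorem ode_prim {g : ℝ → ℂ} (hg : Continuous g) (hper : ∀ t, g (t + 2 * π) = g t)
    (h0 : ∫ t in (0 : ℝ)..(2 * π), g t = 0) :
    ∃ G : ℝ → ℂ, (∀ t, HasDerivAt G (g t) t) ∧ (∀ t, G (t + 2 * π) = G t) := by
  refine ⟨fun t => ∫ s in (0 : ℝ)..t, g s, fun t => (hg.integral_hasStrictDerivAt 0 t).hasDerivAt,
    fun t => ?_⟩
  have hP : Function.Periodic g (2 * π) := hper
  have h1 := intervalIntegral.integral_add_adjacent_intervals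
    (hg.intervalIntegrable (μ := volume) 0 t) (hg.intervalIntegrable (μ := volume) t (t + 2 * π))
  have h2 := hP.intervalIntegral_add_eq t 0
  rw [zero_add, h0] at h2
  rw [h2, add_zero] at h1
  exact h1.symm

private theorem ode_der {f f' : ℝ → ℂ} (hf : ∀ t, HasDerivAt f (f' t) t) (hf' : Continuous f')
    (hper : ∀ t, f (t + 2 * π) = f t) (e0 : (0 : ℝ) < 2 * π) {k : ℤ} (hk : k ≠ 0) :
    fourierCoeffOn e0 f k = fourierCoeffOn e0 f' k / (Complex.I * k) := by
  have h1 := fourierCoeffOn_of_hasDerivAt e0 hk (fun x _ => hf x)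
    (hf'.intervalIntegrable (μ := volume) 0 (2 * π))
  have hz2 : f (2 * π) = f 0 := by
    have := hper 0
    rwa [zero_add] at this
  rw [hz2, sub_self, mul_zero, zero_sub] at h1
  have h2 : (k : ℂ) ≠ 0 := by exact_mod_cast hk
  have h3 : (π : ℂ) ≠ 0 := by exact_mod_cast Real.pi_ne_zero
  have h4 := Complex.I_ne_zero
  rw [h1]
  push_cast
  rw [eq_div_iff (mul_ne_zero h4 h2)]
  field_simp
  ring_nf

theorem ode {c : ℤ → ℝ} (hc : FE c) {g : ℝ → ℂ} (hg : Continuous g)
    (hper : ∀ t, g (t + 2 * π) = g t)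
    (h : ∀ k : ℤ, ∫ t in (0 : ℝ)..(2 * π), g t * ek (-k) t =
      ((-(2 * π * (k : ℝ) ^ 2 * c k) : ℝ) : ℂ)) :
    ∃ v : ℝ → ℂ, ∀ t, HasDerivAt (zc c) (v t) t ∧ HasDerivAt v (g t) t := by
  have e0 : (0 : ℝ) < 2 * π := by positivity
  have hT : Fact (0 < 2 * π) := ⟨e0⟩
  have hpi : (π : ℂ) ≠ 0 := by exact_mod_cast Real.pi_ne_zero
  have hg0 : ∫ t in (0 : ℝ)..(2 * π), g t = 0 := by
    have h1 := h 0
    have h2 : (fun t => g t * ek (-0) t) = g := by
      funext t
      unfold ek
      simp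
    rw [h2] at h1
    rw [h1]
    simp
  obtain ⟨P, hP, hPper⟩ := ode_prim hg hper hg0
  have hPc : Continuous P := continuous_iff_continuousAt.2 fun t => (hP t).continuousAt
  obtain ⟨m, hm⟩ : ∃ m : ℂ, m = ((2 * π)⁻¹ : ℝ) • ∫ t in (0 : ℝ)..(2 * π), P t := ⟨_, rfl⟩
  have hv : ∀ t, HasDerivAt (fun t => P t - m) (g t) t := fun t => (hP t).sub_const m
  have hvc : Continuous fun t => P t - m := hPc.sub continuous_const
  have hv0 : ∫ t in (0 : ℝ)..(2 * π), (P t - m) = 0 := by
    rw [intervalIntegral.integral_sub (hPc.intervalIntegrable _ _) intervalIntegrable_const,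
      intervalIntegral.integral_const, hm, sub_zero, smul_smul, mul_inv_cancel₀ e0.ne', one_smul,
      sub_self]
  obtain ⟨G, hG, hGper⟩ := ode_prim hvc (fun t => by rw [hPper]) hv0
  have hGc : Continuous G := continuous_iff_continuousAt.2 fun t => (hG t).continuousAt
  have hPG : Function.Periodic G (2 * π) := hGper
  let Gc : C(AddCircle (2 * π), ℂ) := ⟨hPG.lift, continuous_coinduced_dom.mpr hGc⟩
  have hGt : ∀ t : ℝ, Gc (t : AddCircle (2 * π)) = G t := fun t => hPG.lift_coe t
  have hon : ∀ k, fourierCoeffOn e0 G k = fourierCoeff Gc k := by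
    intro k
    rw [ode_coeff e0 (by ring), fourierCoeff_eq_intervalIntegral _ _ 0, one_div, zero_add]
    congr 1
    refine intervalIntegral.integral_congr fun x _ => ?_
    simp only [smul_eq_mul]
    rw [hGt, fourier_coe_apply]
    congr 2
    push_cast
    field_simp
  have hco : ∀ k : ℤ, k ≠ 0 → fourierCoeff Gc k = (c k : ℂ) := by
    intro k hk
    have hk' : (k : ℂ) ≠ 0 := by exact_mod_cast hk
    rw [← hon, ode_der hG hvc hGper e0 hk, ode_der hv hg (fun t => by rw [hPper]) e0 hk,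
      ode_coeff e0 (by ring)]
    have h1 : ∫ x in (0 : ℝ)..(2 * π), Complex.exp (((-k : ℝ) * x : ℝ) * Complex.I) * g x =
        ((-(2 * π * (k : ℝ) ^ 2 * c k) : ℝ) : ℂ) := by
      rw [← h k]
      refine intervalIntegral.integral_congr fun x _ => ?_
      simp only [ek]
      rw [mul_comm]
      push_cast
      rfl
    rw [h1, Complex.real_smul]
    have h4 := Complex.I_ne_zero
    push_cast
    field_simp
    linear_combination (-(c k : ℂ)) * Complex.I_sq
  obtain ⟨D, hD⟩ : ∃ D : ℂ, D = fourierCoeff Gc 0 - (c 0 : ℂ) := ⟨_, rfl⟩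
  have hco' : ∀ k : ℤ, fourierCoeff Gc k = (c k : ℂ) + if k = 0 then D else 0 := by
    intro k
    by_cases hk : k = 0
    · rw [if_pos hk, hD, hk, add_sub_cancel]
    · rw [if_neg hk, add_zero, hco k hk]
  have hsumc : Summable fun k => (c k : ℂ) := by
    refine Summable.of_norm ?_
    refine (summable_abs hc).congr fun k => ?_
    rw [Complex.norm_real, Real.norm_eq_abs]
  have hsum : Summable (fourierCoeff Gc) := by
    have h1 := hsumc.add (hasSum_ite_eq (0 : ℤ) D).summable
    exact h1.congr fun k => (hco' k).symm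
  have hzc : ∀ t, zc c t = G t - D := by
    intro t
    have h2 := has_pointwise_sum_fourier_series_of_summable hsum (t : AddCircle (2 * π))
    rw [hGt] at h2
    have h3 := h2.sub (hasSum_ite_eq (0 : ℤ) D)
    rw [← h3.tsum_eq]
    unfold zc
    refine tsum_congr fun k => ?_
    rw [hco' k, smul_eq_mul, fourier_coe_apply]
    have h5 : 2 * (π : ℂ) * Complex.I * k * t / ((2 * π : ℝ) : ℂ) =
        (((k : ℝ) * t : ℝ) : ℂ) * Complex.I := by
      push_cast
      field_simp
    rw [h5]
    by_cases hk : k = 0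
    · subst hk
      simp
    · simp [hk]
  refine ⟨fun t => P t - m, fun t => ⟨?_, hv t⟩⟩
  have h6 : zc c = fun t => G t - D := funext hzc
  rw [h6]
  exact (hG t).sub_const D

end Pool.Agent.Helper43.Kep
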