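import Pool.Agent.Helper43.Kep.Choose
import Pool.Agent.Helper43.Kep.Gam
import Pool.Agent.Helper43.Kep.MinE
import Pool.Agent.Helper43.Kep.ELb
import Pool.Agent.Helper43.Kep.Chr
import Pool.Agent.Helper43.Kep.Ode
import Pool.Agent.Helper43.Kep.Newt
import Pool.Agent.Helper43.Kep.Hom

/-!
KEP MAIN: assembly.  `F0 = Fint S (kz e0) ≠ ⊤`, `B = F0 + ofReal (10π m)`, `choose` gives `l a b r`; `free_gap`
gives `g` on `[a,b]`; `δ` small (`δ < 1-|a|, 1-|b|`, `δ ≤ a-l, r-b`, `δ ≤ g/4`), `η = δ/2`; `exists_coeff` gives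
`c0` (in `KK`: `en c0 ≤ 3` as `π en c0 ≤ A0 c0`, `kz e0` with `e0 ∈ [a,b]`); `gamma` gives `ε₀`; for `ε < ε₀` take
the minimiser `c` (`exists_min`), `Phi c ≤ Phi c0`, so `gamma` applies; `euler`, `fourier_force`,
`fourier_acc`, `ode`, `newton`, `homotopy` with `z = zc c`.
-/

set_option autoImplicit false

namespace Pool.Agent.Helper43.Kep

open Real MeasureTheory Set Filter Topology

variable {J : Type} [AddCommGroup J] [Fintype J] [DecidableEq J] (S : Sym J)


omit [DecidableEq J] in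
private lemma main_pl_cont {z : ℝ → ℂ} (hz : Continuous z) (j : J) : Continuous (pl S z j) := by
  unfold pl
  fun_prop

omit [DecidableEq J] in
private lemma main_pl_per {z : ℝ → ℂ} (hz : ∀ t, z (t + 2 * π) = z t) (j : J) (t : ℝ) :
    pl S z j (t + 2 * π) = pl S z j t := by
  unfold pl
  have : t + 2 * π + S.σ j = (t + S.σ j) + 2 * π := by ring
  rw [this, hz]

theorem main {em e0 ep : ℝ} (h1 : -1 ≤ em) (h2 : em < e0) (h3 : e0 < ep) (h4 : ep ≤ 1)
    (hf : Free S e0) (hm : Fint S (kz em) = ⊤) (hp : Fint S (kz ep) = ⊤) :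
    ∃ ε₀ > 0, ∀ ε, 0 < ε → ε < ε₀ → ∃ x : ℝ → Option J → ℂ, IsSol (mass J ε) x ∧
      (∀ t, x (t + 2 * π) = x t) ∧ SameBraid (2 * π) x (constel S e0) := by
  have he0 : |e0| < 1 := abs_lt.mpr ⟨by linarith, by linarith⟩
  have hF0 := Fint_ne_top S he0 hf
  have hB : Fint S (kz e0) + ENNReal.ofReal (10 * π * mm J) ≠ ⊤ :=
    ENNReal.add_ne_top.mpr ⟨hF0, ENNReal.ofReal_ne_top⟩
  obtain ⟨l, a, b, r, hl1, hla, ha0, h0b, hbr, hr1, hfree, hsel⟩ :=
    choose S h1 h2 h3 h4 hf hm hp hB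
  have ha1 : |a| < 1 := abs_lt.mpr ⟨by linarith, by linarith⟩
  have hb1 : |b| < 1 := abs_lt.mpr ⟨by linarith, by linarith⟩
  obtain ⟨g, hg, hgap⟩ := free_gap S (abs_lt.mp ha1).1 (abs_lt.mp hb1).2 hfree
  obtain ⟨δ, hδ, hδa, hδb, hδl, hδr, hδg⟩ : ∃ δ : ℝ, 0 < δ ∧ δ < 1 - |a| ∧ δ < 1 - |b| ∧
      δ ≤ a - l ∧ δ ≤ r - b ∧ δ ≤ g / 4 := by
    have p1 : 0 < (1 - |a|) / 2 := by linarith
    have p2 : 0 < (1 - |b|) / 2 := by linarith
    have p3 : 0 < a - l := by linarith
    have p4 : 0 < r - b := by linarith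
    have p5 : 0 < g / 4 := by linarith
    refine ⟨min ((1 - |a|) / 2) (min ((1 - |b|) / 2) (min (a - l) (min (r - b) (g / 4)))),
      by positivity, ?_, ?_, ?_, ?_, ?_⟩
    · exact (min_le_left _ _).trans_lt (by linarith)
    · exact ((min_le_right _ _).trans (min_le_left _ _)).trans_lt (by linarith)
    · exact (min_le_right _ _).trans ((min_le_right _ _).trans (min_le_left _ _))
    · exact (min_le_right _ _).trans ((min_le_right _ _).trans
        ((min_le_right _ _).trans (min_le_left _ _)))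
    · exact (min_le_right _ _).trans ((min_le_right _ _).trans
        ((min_le_right _ _).trans (min_le_right _ _)))
  obtain ⟨c0, hc0, hz0, hA0⟩ := exists_coeff he0
  have hpot0 : 0 ≤ pot (zc c0) := by
    unfold pot
    exact intervalIntegral.integral_nonneg (by positivity) fun t _ => by positivity
  have hen0 : en c0 ≤ 5 := by
    unfold A0 at hA0
    have hpi := pi_pos
    nlinarith
  have hc0K : c0 ∈ KK a b δ := by
    refine ⟨hc0, hen0, e0, ⟨ha0, h0b⟩, fun t => ?_⟩
    rw [hz0, sub_self, norm_zero]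
    exact hδ.le
  obtain ⟨ε₀, hε₀, hgam⟩ := gamma S (η := δ / 2) (by positivity) hδ.le hδa hδb hδl hδr he0 hc0 hz0
    hA0 hF0 le_rfl hsel
  refine ⟨ε₀, hε₀, fun ε hε hεε => ?_⟩
  obtain ⟨c, hc, hmin⟩ := exists_min S (a := a) (b := b) hε hδ.le hδa hδb ⟨c0, hc0K⟩
  obtain ⟨h5, e1, he1, hn⟩ := hgam ε hε hεε c hc (hmin c0 hc0K)
  have he1a : |e1| ≤ max |a| |b| := abs_le_max_abs_abs he1.1 he1.2
  have hmax : δ < 1 - max |a| |b| := by
    rcases le_total |a| |b| with h | h
    · rw [max_eq_right h]; exact hδb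
    · rw [max_eq_left h]; exact hδa
  have he1' : |e1| ≤ 1 := by linarith
  have hsun : ∀ t : ℝ, δ / 2 ≤ ‖zc c t‖ := by
    intro t
    have q1 := norm_kz_ge he1' t
    have q2 := norm_sub_norm_le (kz e1 t) (zc c t)
    rw [norm_sub_rev] at q2
    linarith [hn t]
  have hpl : ∀ j : J, j ≠ 0 → ∀ t : ℝ, δ / 2 ≤ ‖zc c t - pl S (zc c) j t‖ := by
    intro j hj t
    have q1 := hgap e1 he1 j hj t
    have q2 : kz e1 t - pl S (kz e1) j t = (zc c t - pl S (zc c) j t) -
        ((zc c t - kz e1 t) - S.R j * (zc c (t + S.σ j) - kz e1 (t + S.σ j))) := by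
      unfold pl
      ring
    have q3 : ‖(zc c t - kz e1 t) - S.R j * (zc c (t + S.σ j) - kz e1 (t + S.σ j))‖ ≤
        δ / 2 + δ / 2 := by
      refine (norm_sub_le _ _).trans (add_le_add (hn t) ?_)
      rw [norm_mul, S.norm_R, one_mul]
      exact hn _
    have q4 : ‖kz e1 t - pl S (kz e1) j t‖ ≤ ‖zc c t - pl S (zc c) j t‖ + (δ / 2 + δ / 2) := by
      rw [q2]
      exact (norm_sub_le _ _).trans (add_le_add le_rfl q3)
    linarith
  have h0 : ∀ t : ℝ, zc c t ≠ 0 := by
    intro t ht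
    have := hsun t
    rw [ht, norm_zero] at this
    linarith
  have hj : ∀ j : J, j ≠ 0 → ∀ t : ℝ, zc c t ≠ pl S (zc c) j t := by
    intro j hj t ht
    have := hpl j hj t
    rw [ht, sub_self, norm_zero] at this
    linarith
  have hel := euler S hε hc hmin h5 ⟨e1, he1, hn⟩ (by linarith) (by positivity : 0 < δ / 2) hsun hpl
  have hff := fun k => fourier_force S hc.1 h0 hj k (hel k)
  have hfa := fourier_acc S hε hc.1 h0 hj hff
  have hfc : Continuous (force S ε (zc c)) := force_continuous S (zc_continuous hc.1) h0 hj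
  have hfp : ∀ t, force S ε (zc c) (t + 2 * π) = force S ε (zc c) t :=
    fun t => force_periodic S (zc_periodic c) t
  have hac : Continuous (acc S ε (zc c)) := by
    unfold acc
    refine hfc.add (continuous_const.mul ?_)
    exact continuous_finset_sum _ fun j _ => main_pl_cont S hfc j
  have hap : ∀ t, acc S ε (zc c) (t + 2 * π) = acc S ε (zc c) t := by
    intro t
    unfold acc
    rw [hfp]
    congr 2
    exact Finset.sum_congr rfl fun j _ => main_pl_per S hfp j t
  obtain ⟨v, hv⟩ := ode hc.1 hac hap hfa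
  refine ⟨bodies S ε (zc c), newton S hε (zc_periodic c) h0 hj hv, ?_, ?_⟩
  · intro t
    have hsper : sun S ε (zc c) (t + 2 * π) = sun S ε (zc c) t := by
      unfold sun
      congr 1
      exact Finset.sum_congr rfl fun j _ => main_pl_per S (zc_periodic c) j t
    funext o
    cases o with
    | none => exact hsper
    | some j =>
      change pl S (zc c) j (t + 2 * π) + sun S ε (zc c) (t + 2 * π) = _
      rw [main_pl_per S (zc_periodic c) j t, hsper]
      rfl
  · exact homotopy S (abs_lt.mp ha1).1 (abs_lt.mp hb1).2 ⟨ha0, h0b⟩ he1 (by positivity)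
      (by linarith : 2 * (δ / 2) < g) (by linarith) (by linarith) hgap (zc_continuous hc.1)
      (zc_periodic c) hn

end Pool.Agent.Helper43.Kep
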