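import Pool.Agent.Helper43.Kep.Conv

/-!
KEP TRUNC: trigonometric polynomials.  `tr c n` is the truncation to `|k| ≤ n`, `dz c t = ∑ ik c_k e^{ikt}`.
* `zc (tr c n)` is a finite sum (`tsum_eq_sum` over `Finset.Icc (-n) n`), derivative termwise.
* `tr_energy`: `∫_0^{2π} |∑ a_k e^{ikt}|² = 2π ∑ |a_k|²` (orthogonality: `∫_0^{2π} e^{i(k-l)t} = 0` for
  `k ≠ l`; or Parseval of Mathlib), and `‖dz(-t)‖ = ‖dz t‖`, `‖zc(-t)‖ = ‖zc t‖` with periodicity give the
  half interval.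
* `tr_conv`: `conv` for the sequence `tr c n → c` (or directly), `en (tr c n) → en c`
  (`Summable.tendsto_sum..`, partial sums over `Finset.Icc (-n) n`).
-/

set_option autoImplicit false

namespace Pool.Agent.Helper43.Kep

open Real MeasureTheory Set Filter Topology

/-- truncation to the frequencies `|k| ≤ n` -/
def tr (c : ℤ → ℝ) (n : ℕ) : ℤ → ℝ := fun k => if |k| ≤ (n : ℤ) then c k else 0

/-- the derivative series -/
noncomputable def dz (c : ℤ → ℝ) (t : ℝ) : ℂ :=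
  ∑' k : ℤ, (c k : ℂ) * ((k : ℂ) * Complex.I) * Complex.exp (((k : ℝ) * t : ℝ) * Complex.I)

private theorem tr_exp_int (k : ℤ) :
    ∫ t in (0 : ℝ)..(2 * π), Complex.exp (((k : ℝ) * t : ℝ) * Complex.I) =
      if k = 0 then (2 * π : ℂ) else 0 := by
  split_ifs with hk
  · subst hk
    simp
  · have hc : (k : ℂ) * Complex.I ≠ 0 :=
      mul_ne_zero (by exact_mod_cast hk) Complex.I_ne_zero
    have h1 : ∀ t : ℝ, Complex.exp (((k : ℝ) * t : ℝ) * Complex.I) =
        Complex.exp (((k : ℂ) * Complex.I) * t) := by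
      intro t
      congr 1
      push_cast
      ring
    simp_rw [h1]
    rw [integral_exp_mul_complex hc]
    have h2 : Complex.exp ((k : ℂ) * Complex.I * ((2 * π : ℝ) : ℂ)) = 1 := by
      have := Complex.exp_int_mul_two_pi_mul_I k
      rw [← this]
      congr 1
      push_cast
      ring
    rw [h2]
    simp

private theorem tr_zero (c : ℤ → ℝ) (n : ℕ) {k : ℤ} (hk : k ∉ Finset.Icc (-(n : ℤ)) n) :
    tr c n k = 0 := by
  rw [tr, if_neg]
  intro h
  exact hk (Finset.mem_Icc.2 (abs_le.1 h))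

private theorem tr_eq (c : ℤ → ℝ) (n : ℕ) {k : ℤ} (hk : k ∈ Finset.Icc (-(n : ℤ)) n) :
    tr c n k = c k := by
  rw [tr, if_pos (abs_le.2 (Finset.mem_Icc.1 hk))]

theorem tr_FE (c : ℤ → ℝ) (n : ℕ) : FE (tr c n) :=
  summable_of_ne_finset_zero (s := Finset.Icc (-(n : ℤ)) n) (fun k hk => by
    rw [tr_zero c n hk]
    simp)

private theorem tr_zc (c : ℤ → ℝ) (n : ℕ) (t : ℝ) : zc (tr c n) t =
    ∑ k ∈ Finset.Icc (-(n : ℤ)) n, (c k : ℂ) * Complex.exp (((k : ℝ) * t : ℝ) * Complex.I) := by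
  rw [zc, tsum_eq_sum (s := Finset.Icc (-(n : ℤ)) n) (fun k hk => by
    rw [tr_zero c n hk]
    simp)]
  exact Finset.sum_congr rfl (fun k hk => by rw [tr_eq c n hk])

private theorem tr_dz (c : ℤ → ℝ) (n : ℕ) (t : ℝ) : dz (tr c n) t =
    ∑ k ∈ Finset.Icc (-(n : ℤ)) n, (c k : ℂ) * ((k : ℂ) * Complex.I) *
      Complex.exp (((k : ℝ) * t : ℝ) * Complex.I) := by
  rw [dz, tsum_eq_sum (s := Finset.Icc (-(n : ℤ)) n) (fun k hk => by
    rw [tr_zero c n hk]
    simp)]
  exact Finset.sum_congr rfl (fun k hk => by rw [tr_eq c n hk])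

theorem tr_hasDerivAt (c : ℤ → ℝ) (n : ℕ) (t : ℝ) :
    HasDerivAt (zc (tr c n)) (dz (tr c n) t) t := by
  have h1 : zc (tr c n) = fun t : ℝ => ∑ k ∈ Finset.Icc (-(n : ℤ)) n,
      (c k : ℂ) * Complex.exp (((k : ℝ) * t : ℝ) * Complex.I) := funext (tr_zc c n)
  rw [h1, tr_dz]
  refine HasDerivAt.fun_sum (fun k _ => ?_)
  have h2 : HasDerivAt (fun t : ℝ => (((k : ℝ) * t : ℝ) : ℂ) * Complex.I)
      ((k : ℂ) * Complex.I) t := by
    have h3 : HasDerivAt (fun t : ℝ => (k : ℝ) * t) (k : ℝ) t := by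
      simpa using (hasDerivAt_id t).const_mul (k : ℝ)
    have := h3.ofReal_comp.mul_const Complex.I
    simpa using this
  have h4 := h2.cexp.const_mul (c k : ℂ)
  have h5 : (c k : ℂ) * ((k : ℂ) * Complex.I) * Complex.exp (((k : ℝ) * t : ℝ) * Complex.I) =
      (c k : ℂ) * (Complex.exp (((k : ℝ) * t : ℝ) * Complex.I) * ((k : ℂ) * Complex.I)) := by
    ring
  rw [h5]
  exact h4

theorem tr_dz_continuous (c : ℤ → ℝ) (n : ℕ) : Continuous (dz (tr c n)) := by
  have h1 : dz (tr c n) = fun t : ℝ => ∑ k ∈ Finset.Icc (-(n : ℤ)) n, (c k : ℂ) *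
      ((k : ℂ) * Complex.I) * Complex.exp (((k : ℝ) * t : ℝ) * Complex.I) := funext (tr_dz c n)
  rw [h1]
  fun_prop

private theorem tr_en (c : ℤ → ℝ) (n : ℕ) : en (tr c n) =
    ∑ k ∈ Finset.Icc (-(n : ℤ)) n, (k : ℝ) ^ 2 * c k ^ 2 := by
  rw [en, tsum_eq_sum (s := Finset.Icc (-(n : ℤ)) n) (fun k hk => by
    rw [tr_zero c n hk]
    simp)]
  exact Finset.sum_congr rfl (fun k hk => by rw [tr_eq c n hk])

private theorem tr_parseval (s : Finset ℤ) (a : ℤ → ℂ) :
    ∫ t in (0 : ℝ)..(2 * π), ‖∑ k ∈ s, a k * Complex.exp (((k : ℝ) * t : ℝ) * Complex.I)‖ ^ 2 =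
      2 * π * ∑ k ∈ s, ‖a k‖ ^ 2 := by
  have h1 : ∀ t : ℝ,
      ((‖∑ k ∈ s, a k * Complex.exp (((k : ℝ) * t : ℝ) * Complex.I)‖ ^ 2 : ℝ) : ℂ) =
      ∑ k ∈ s, ∑ l ∈ s, (a k * (starRingEnd ℂ) (a l)) *
        Complex.exp ((((k - l : ℤ) : ℝ) * t : ℝ) * Complex.I) := by
    intro t
    rw [← Complex.normSq_eq_norm_sq, ← Complex.mul_conj, map_sum, Finset.sum_mul_sum]
    refine Finset.sum_congr rfl (fun k _ => Finset.sum_congr rfl (fun l _ => ?_))
    rw [map_mul, ← Complex.exp_conj, map_mul, Complex.conj_ofReal, Complex.conj_I]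
    have h2 : Complex.exp ((((k - l : ℤ) : ℝ) * t : ℝ) * Complex.I) =
        Complex.exp (((k : ℝ) * t : ℝ) * Complex.I) *
          Complex.exp (((l : ℝ) * t : ℝ) * -Complex.I) := by
      rw [← Complex.exp_add]
      congr 1
      push_cast
      ring
    rw [h2]
    ring
  have h2 : ((∫ t in (0 : ℝ)..(2 * π),
      ‖∑ k ∈ s, a k * Complex.exp (((k : ℝ) * t : ℝ) * Complex.I)‖ ^ 2 : ℝ) : ℂ) =
      ((2 * π * ∑ k ∈ s, ‖a k‖ ^ 2 : ℝ) : ℂ) := by
    rw [← intervalIntegral.integral_ofReal]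
    simp_rw [h1]
    rw [intervalIntegral.integral_finsetSum (fun k _ => by
      apply Continuous.intervalIntegrable
      fun_prop)]
    have h3 : ∀ k ∈ s, ∫ t in (0 : ℝ)..(2 * π), ∑ l ∈ s, (a k * (starRingEnd ℂ) (a l)) *
        Complex.exp ((((k - l : ℤ) : ℝ) * t : ℝ) * Complex.I) = (2 * π) * (‖a k‖ ^ 2 : ℝ) := by
      intro k hk
      rw [intervalIntegral.integral_finsetSum (fun l _ => by
        apply Continuous.intervalIntegrable
        fun_prop)]
      rw [Finset.sum_eq_single k]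
      · rw [intervalIntegral.integral_const_mul, tr_exp_int, if_pos (sub_self k),
          Complex.mul_conj, Complex.normSq_eq_norm_sq]
        ring
      · intro l _ hl
        rw [intervalIntegral.integral_const_mul, tr_exp_int,
          if_neg (sub_ne_zero.2 (Ne.symm hl)), mul_zero]
      · intro h
        exact absurd hk h
    rw [Finset.sum_congr rfl h3]
    push_cast
    rw [Finset.mul_sum]
  exact_mod_cast h2

private theorem tr_energy (c : ℤ → ℝ) (n : ℕ) :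
    ∫ t in (0 : ℝ)..(2 * π), ‖dz (tr c n) t‖ ^ 2 = 2 * π * en (tr c n) := by
  simp_rw [tr_dz]
  rw [tr_parseval, tr_en]
  congr 1
  refine Finset.sum_congr rfl (fun k _ => ?_)
  rw [norm_mul, norm_mul, Complex.norm_I, mul_one, Complex.norm_real, Complex.norm_intCast,
    mul_pow, Real.norm_eq_abs, sq_abs, sq_abs]
  ring

private theorem tr_dz_neg (c : ℤ → ℝ) (n : ℕ) (t : ℝ) :
    ‖dz (tr c n) (-t)‖ = ‖dz (tr c n) t‖ := by
  have h1 : dz (tr c n) (-t) = -(starRingEnd ℂ) (dz (tr c n) t) := by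
    rw [tr_dz, tr_dz, map_sum, ← Finset.sum_neg_distrib]
    refine Finset.sum_congr rfl (fun k _ => ?_)
    rw [map_mul, map_mul, map_mul, Complex.conj_ofReal, Complex.conj_I, ← Complex.exp_conj,
      map_mul, Complex.conj_ofReal, Complex.conj_I]
    have h2 : (starRingEnd ℂ) (k : ℂ) = k := by simp
    rw [h2]
    have h3 : (((k : ℝ) * -t : ℝ) : ℂ) * Complex.I = (((k : ℝ) * t : ℝ) : ℂ) * -Complex.I := by
      push_cast
      ring
    rw [h3]
    ring
  rw [h1, norm_neg, RCLike.norm_conj]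

private theorem tr_dz_periodic (c : ℤ → ℝ) (n : ℕ) (t : ℝ) :
    dz (tr c n) (t + 2 * π) = dz (tr c n) t := by
  rw [tr_dz, tr_dz]
  refine Finset.sum_congr rfl (fun k _ => ?_)
  have h3 : (((k : ℝ) * (t + 2 * π) : ℝ) : ℂ) * Complex.I =
      (((k : ℝ) * t : ℝ) : ℂ) * Complex.I + k * (2 * π * Complex.I) := by
    push_cast
    ring
  rw [h3, Complex.exp_add, Complex.exp_int_mul_two_pi_mul_I, mul_one]

theorem tr_action (c : ℤ → ℝ) (n : ℕ) (h : ∀ t : ℝ, zc (tr c n) t ≠ 0) :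
    ∫ t in (0 : ℝ)..π, (‖dz (tr c n) t‖ ^ 2 / 2 + ‖zc (tr c n) t‖⁻¹) = A0 (tr c n) / 2 := by
  set g : ℝ → ℝ := fun t => ‖dz (tr c n) t‖ ^ 2 / 2 + ‖zc (tr c n) t‖⁻¹ with hg
  have hzc : Continuous (zc (tr c n)) := zc_continuous (tr_FE c n)
  have hc1 : Continuous (fun t => ‖zc (tr c n) t‖⁻¹) :=
    hzc.norm.inv₀ (fun t => norm_ne_zero_iff.2 (h t))
  have hc2 : Continuous (fun t => ‖dz (tr c n) t‖ ^ 2 / 2) :=
    ((tr_dz_continuous c n).norm.pow 2).div_const 2
  have hgc : Continuous g := hc2.add hc1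
  have hneg : ∀ t, g (-t) = g t := by
    intro t
    simp only [hg]
    rw [tr_dz_neg, zc_neg, RCLike.norm_conj]
  have hper : ∀ t, g (t + 2 * π) = g t := by
    intro t
    simp only [hg]
    rw [tr_dz_periodic, zc_periodic]
  have h1 : ∫ t in (0 : ℝ)..(2 * π), g t = 2 * ∫ t in (0 : ℝ)..π, g t := by
    rw [← intervalIntegral.integral_add_adjacent_intervals (a := 0) (b := π) (c := 2 * π)
      (hgc.intervalIntegrable _ _) (hgc.intervalIntegrable _ _)]
    have h2 : ∫ t in π..(2 * π), g t = ∫ t in (0 : ℝ)..π, g t := by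
      have h3 : ∫ t in (0 : ℝ)..π, g (2 * π - t) = ∫ t in (2 * π - π)..(2 * π - 0), g t :=
        intervalIntegral.integral_comp_sub_left g (2 * π)
      have h4 : ∀ t, g (2 * π - t) = g t := by
        intro t
        rw [← hneg t, ← hper (-t)]
        congr 1
        ring
      simp_rw [h4] at h3
      rw [h3]
      congr 1 <;> ring
    rw [h2]
    ring
  have h2 : ∫ t in (0 : ℝ)..(2 * π), g t = A0 (tr c n) := by
    simp only [hg]
    rw [intervalIntegral.integral_add (hc2.intervalIntegrable _ _) (hc1.intervalIntegrable _ _),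
      intervalIntegral.integral_div, tr_energy, A0, pot]
    ring
  rw [← h2, h1]
  ring

theorem tr_conv {c : ℤ → ℝ} (h : FE c) :
    Tendsto (fun n => en (tr c n)) atTop (𝓝 (en c)) ∧
      ∀ η > 0, ∀ᶠ n in atTop, ∀ t : ℝ, ‖zc (tr c n) t - zc c t‖ ≤ η := by
  have hle : ∀ n, en (tr c n) ≤ en c := by
    intro n
    rw [tr_en]
    exact h.sum_le_tsum _ (fun k _ => by positivity)
  constructor
  · have ht : Tendsto (fun n : ℕ => Finset.Icc (-(n : ℤ)) n) atTop atTop := by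
      refine tendsto_atTop_finset_of_monotone ?_ ?_
      · intro m n hmn
        exact Finset.Icc_subset_Icc (by omega) (by omega)
      · intro k
        refine ⟨k.natAbs, ?_⟩
        rw [Finset.mem_Icc]
        omega
    have := h.hasSum.comp ht
    refine this.congr (fun n => ?_)
    rw [tr_en]
    rfl
  · refine (conv (C := en c) (tr_FE c) hle (fun k => ?_)).2.2
    refine tendsto_const_nhds.congr' ?_
    filter_upwards [eventually_ge_atTop k.natAbs] with n hn
    rw [tr_eq]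
    rw [Finset.mem_Icc]
    omega

end Pool.Agent.Helper43.Kep
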