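import Pool.Agent.Helper43.Kep.Defs

/-!
KEP WIRT: a weighted Wirtinger inequality with its defect.  `tau ρ t = ∫_0^t 1/ρ`, `ℓ = tau ρ π`,
`lam ρ = π/(2ℓ)` (so `lam ρ * tau ρ t ∈ [0, π/2]`, `= π/2` only for `t = π`).
PROOF of `wirt`.  Write `κ = lam ρ`, `T(t) = tan (κ τ(t))`, `T' = κ (1 + T²)/ρ` on `[0, π)`.  Pointwise
`ρ (u' + κ T u/ρ)² = ρ u'² + (κ T u²)' - κ² u²/ρ`, as `(κ T u²)' = κ² (1+T²) u²/ρ + 2 κ T u u'`.  Integrate over
`[0, t1]`, `T(0) = 0`:  `∫_0^{t1} ρ u'² = κ² ∫_0^{t1} u²/ρ + D(t1) - κ T(t1) u(t1)²`.  Boundary term: as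
`u(π) = 0`, Cauchy-Schwarz gives `u(t1)² = (∫_{t1}^π u')² ≤ (∫_{t1}^π 1/ρ) (∫_{t1}^π ρ u'²)
= (ℓ - τ(t1)) ∫_{t1}^π ρ u'²`, and `κ T(t1) (ℓ - τ(t1)) ≤ 1` because
`tan (κτ) = 1/tan (κ(ℓ-τ)) ≤ 1/(κ(ℓ-τ))`.  So `∫_0^π ρ u'² ≥ κ² ∫_0^{t1} u²/ρ + D(t1)`, for every `t1 < π`; for
`t1 ≤ t < π` also `∫_0^π ρ u'² ≥ κ² ∫_0^t u²/ρ + D(t1)` (`D` is increasing), and let `t → π`.
`wirt'` is `wirt` for `v(π - t)`, `ρ(π - t)`: `τ~(t) = ℓ - τ(π - t)`, `tan (κτ~) = cos(κτ)/sin(κτ)` at `π - t`.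
-/

set_option autoImplicit false

namespace Pool.Agent.Helper43.Kep

open Real MeasureTheory Set Filter Topology

/-- the Levi-Civita time -/
noncomputable def tau (ρ : ℝ → ℝ) (t : ℝ) : ℝ := ∫ s in (0 : ℝ)..t, (ρ s)⁻¹

/-- the Wirtinger constant -/
noncomputable def lam (ρ : ℝ → ℝ) : ℝ := π / (2 * tau ρ π)

lemma wirt_inv_cont {ρ : ℝ → ℝ} (hρ : ContinuousOn ρ (Icc 0 π)) (hpos : ∀ t ∈ Icc 0 π, 0 < ρ t) :
    ContinuousOn (fun t => (ρ t)⁻¹) (Icc 0 π) :=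
  hρ.inv₀ fun t ht => (hpos t ht).ne'

/-- a continuous function on `[0,π]` is integrable on subintervals -/
lemma wirt_int {f : ℝ → ℝ} (hf : ContinuousOn f (Icc 0 π)) {a b : ℝ} (ha : 0 ≤ a) (hab : a ≤ b)
    (hb : b ≤ π) : IntervalIntegrable f volume a b := by
  refine ContinuousOn.intervalIntegrable ?_
  rw [uIcc_of_le hab]
  exact hf.mono (Icc_subset_Icc ha hb)

lemma wirt_prim_cont {f : ℝ → ℝ} (hf : ContinuousOn f (Icc 0 π)) :
    ContinuousOn (fun t => ∫ s in (0 : ℝ)..t, f s) (Icc 0 π) := by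
  have h := intervalIntegral.continuousOn_primitive_interval (μ := volume) (f := f) (a := 0)
    (b := π) (by
      rw [uIcc_of_le pi_pos.le]
      exact hf.integrableOn_compact isCompact_Icc)
  rwa [uIcc_of_le pi_pos.le] at h

lemma wirt_prim_deriv {f : ℝ → ℝ} (hf : ContinuousOn f (Icc 0 π)) {t : ℝ} (ht : t ∈ Ioo 0 π) :
    HasDerivAt (fun t => ∫ s in (0 : ℝ)..t, f s) (f t) t := by
  refine intervalIntegral.integral_hasDerivAt_right (wirt_int hf le_rfl ht.1.le ht.2.le) ?_ ?_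
  · exact (hf.mono Ioo_subset_Icc_self).stronglyMeasurableAtFilter isOpen_Ioo t ht
  · exact hf.continuousAt (Icc_mem_nhds ht.1 ht.2)

lemma tau_cont {ρ : ℝ → ℝ} (hρ : ContinuousOn ρ (Icc 0 π)) (hpos : ∀ t ∈ Icc 0 π, 0 < ρ t) :
    ContinuousOn (tau ρ) (Icc 0 π) := wirt_prim_cont (wirt_inv_cont hρ hpos)

lemma tau_deriv {ρ : ℝ → ℝ} (hρ : ContinuousOn ρ (Icc 0 π)) (hpos : ∀ t ∈ Icc 0 π, 0 < ρ t)
    {t : ℝ} (ht : t ∈ Ioo 0 π) : HasDerivAt (tau ρ) (ρ t)⁻¹ t :=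
  wirt_prim_deriv (wirt_inv_cont hρ hpos) ht

lemma tau_zero (ρ : ℝ → ℝ) : tau ρ 0 = 0 := by
  unfold tau
  simp

lemma tau_sub {ρ : ℝ → ℝ} (hρ : ContinuousOn ρ (Icc 0 π)) (hpos : ∀ t ∈ Icc 0 π, 0 < ρ t)
    {a b : ℝ} (ha : 0 ≤ a) (hab : a ≤ b) (hb : b ≤ π) :
    tau ρ b - tau ρ a = ∫ s in a..b, (ρ s)⁻¹ := by
  unfold tau
  have h := intervalIntegral.integral_add_adjacent_intervals
    (wirt_int (wirt_inv_cont hρ hpos) le_rfl ha (hab.trans hb))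
    (wirt_int (wirt_inv_cont hρ hpos) ha hab hb)
  linarith

lemma tau_lt {ρ : ℝ → ℝ} (hρ : ContinuousOn ρ (Icc 0 π)) (hpos : ∀ t ∈ Icc 0 π, 0 < ρ t)
    {a b : ℝ} (ha : 0 ≤ a) (hab : a < b) (hb : b ≤ π) : tau ρ a < tau ρ b := by
  have h := tau_sub hρ hpos ha hab.le hb
  have h2 : 0 < ∫ s in a..b, (ρ s)⁻¹ :=
    intervalIntegral.intervalIntegral_pos_of_pos_on
      (wirt_int (wirt_inv_cont hρ hpos) ha hab.le hb)
      (fun x hx => inv_pos.mpr (hpos x ⟨ha.trans hx.1.le, hx.2.le.trans hb⟩)) hab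
  linarith

lemma tau_pos {ρ : ℝ → ℝ} (hρ : ContinuousOn ρ (Icc 0 π)) (hpos : ∀ t ∈ Icc 0 π, 0 < ρ t) :
    0 < tau ρ π := by
  have := tau_lt hρ hpos le_rfl pi_pos le_rfl
  rwa [tau_zero] at this

lemma lam_pos {ρ : ℝ → ℝ} (hρ : ContinuousOn ρ (Icc 0 π)) (hpos : ∀ t ∈ Icc 0 π, 0 < ρ t) :
    0 < lam ρ := by
  have := tau_pos hρ hpos
  unfold lam
  positivity

lemma lam_mul {ρ : ℝ → ℝ} (hρ : ContinuousOn ρ (Icc 0 π)) (hpos : ∀ t ∈ Icc 0 π, 0 < ρ t) :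
    lam ρ * tau ρ π = π / 2 := by
  have := tau_pos hρ hpos
  unfold lam
  field_simp

lemma tau_nonneg {ρ : ℝ → ℝ} (hρ : ContinuousOn ρ (Icc 0 π)) (hpos : ∀ t ∈ Icc 0 π, 0 < ρ t)
    {t : ℝ} (h0 : 0 ≤ t) (ht : t ≤ π) : 0 ≤ tau ρ t := by
  rcases h0.eq_or_lt with h | h
  · rw [← h, tau_zero]
  · have := tau_lt hρ hpos le_rfl h ht
    rw [tau_zero] at this
    exact this.le

/-- the angle `κ τ(t)` lies in `[0, π/2)` for `t < π` -/
lemma ang_mem {ρ : ℝ → ℝ} (hρ : ContinuousOn ρ (Icc 0 π)) (hpos : ∀ t ∈ Icc 0 π, 0 < ρ t)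
    {t : ℝ} (h0 : 0 ≤ t) (ht : t < π) :
    0 ≤ lam ρ * tau ρ t ∧ lam ρ * tau ρ t < π / 2 := by
  have hl := lam_pos hρ hpos
  refine ⟨mul_nonneg hl.le (tau_nonneg hρ hpos h0 ht.le), ?_⟩
  rw [← lam_mul hρ hpos]
  exact mul_lt_mul_of_pos_left (tau_lt hρ hpos h0 ht le_rfl) hl

/-- the weighted Cauchy-Schwarz inequality -/
lemma wirt_cs {a b : ℝ} (hab : a ≤ b) {ρ g : ℝ → ℝ} (hρ : ContinuousOn ρ (Icc a b))
    (hpos : ∀ t ∈ Icc a b, 0 < ρ t) (hg : ContinuousOn g (Icc a b)) :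
    (∫ t in a..b, g t) ^ 2 ≤ (∫ t in a..b, (ρ t)⁻¹) * ∫ t in a..b, ρ t * g t ^ 2 := by
  rcases hab.eq_or_lt with h | h
  · subst h
    simp
  have hi : ContinuousOn (fun t => (ρ t)⁻¹) (Icc a b) := hρ.inv₀ fun t ht => (hpos t ht).ne'
  have ii : IntervalIntegrable (fun t => (ρ t)⁻¹) volume a b := by
    refine ContinuousOn.intervalIntegrable ?_
    rwa [uIcc_of_le hab]
  have ig : IntervalIntegrable g volume a b := by
    refine ContinuousOn.intervalIntegrable ?_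
    rwa [uIcc_of_le hab]
  have ir : IntervalIntegrable (fun t => ρ t * g t ^ 2) volume a b := by
    refine ContinuousOn.intervalIntegrable ?_
    rw [uIcc_of_le hab]
    exact hρ.mul (hg.pow 2)
  set I := ∫ t in a..b, (ρ t)⁻¹ with hI
  set G := ∫ t in a..b, g t with hG
  set R := ∫ t in a..b, ρ t * g t ^ 2 with hR
  have hIpos : 0 < I := intervalIntegral.intervalIntegral_pos_of_pos_on ii
    (fun x hx => inv_pos.mpr (hpos x ⟨hx.1.le, hx.2.le⟩)) h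
  have h1 : 0 ≤ ∫ t in a..b, ρ t * (g t - G / I * (ρ t)⁻¹) ^ 2 :=
    intervalIntegral.integral_nonneg hab fun t ht =>
      mul_nonneg (hpos t ht).le (sq_nonneg _)
  have h2 : ∫ t in a..b, ρ t * (g t - G / I * (ρ t)⁻¹) ^ 2 =
      R - 2 * (G / I) * G + (G / I) ^ 2 * I := by
    rw [hR, hI]
    have e1 : ∀ t ∈ uIcc a b, ρ t * (g t - G / I * (ρ t)⁻¹) ^ 2 =
        (ρ t * g t ^ 2 - 2 * (G / I) * g t) + (G / I) ^ 2 * (ρ t)⁻¹ := by
      intro t ht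
      rw [uIcc_of_le hab] at ht
      have := (hpos t ht).ne'
      field_simp
      ring
    rw [intervalIntegral.integral_congr e1, intervalIntegral.integral_add
      (ir.sub (ig.const_mul _)) (ii.const_mul _), intervalIntegral.integral_sub ir
      (ig.const_mul _), intervalIntegral.integral_const_mul, intervalIntegral.integral_const_mul]
  rw [h2] at h1
  have h3 : R - 2 * (G / I) * G + (G / I) ^ 2 * I = R - G ^ 2 / I := by
    field_simp
    ring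
  rw [h3] at h1
  have h4 : G ^ 2 / I ≤ R := by linarith
  rw [div_le_iff₀ hIpos] at h4
  linarith

/-- the defect integrand is continuous on `[0, t1]`, `t1 < π` -/
lemma wirt_def_cont {ρ u u' : ℝ → ℝ} (hρ : ContinuousOn ρ (Icc 0 π))
    (hpos : ∀ t ∈ Icc 0 π, 0 < ρ t) (hu : ContinuousOn u (Icc 0 π))
    (hu' : ContinuousOn u' (Icc 0 π)) {t1 : ℝ} (ht1' : t1 < π) :
    ContinuousOn (fun t => u' t + lam ρ * Real.tan (lam ρ * tau ρ t) * u t / ρ t) (Icc 0 t1) := by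
  have hsub : Icc 0 t1 ⊆ Icc 0 π := Icc_subset_Icc le_rfl ht1'.le
  have htan : ContinuousOn (fun t => Real.tan (lam ρ * tau ρ t)) (Icc 0 t1) := by
    intro t ht
    have hang := ang_mem hρ hpos ht.1 (lt_of_le_of_lt ht.2 ht1')
    have hc : Real.cos (lam ρ * tau ρ t) ≠ 0 :=
      (Real.cos_pos_of_mem_Ioo ⟨by linarith [pi_pos, hang.1], hang.2⟩).ne'
    exact ContinuousAt.comp_continuousWithinAt (g := Real.tan) (f := fun t => lam ρ * tau ρ t)
      (Real.continuousAt_tan.mpr hc) (((tau_cont hρ hpos).mono hsub t ht).const_mul _)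
  exact (hu'.mono hsub).add (((continuousOn_const.mul htan).mul (hu.mono hsub)).div
    (hρ.mono hsub) fun t ht => (hpos t (hsub ht)).ne')

private lemma wirt_A {ρ u u' : ℝ → ℝ} (hρ : ContinuousOn ρ (Icc 0 π))
    (hpos : ∀ t ∈ Icc 0 π, 0 < ρ t)
    (hu : ∀ t ∈ Icc 0 π, HasDerivAt u (u' t) t) (hu' : ContinuousOn u' (Icc 0 π))
    {t1 : ℝ} (ht1 : 0 ≤ t1) (ht1' : t1 < π) :
    (∫ t in (0 : ℝ)..t1, ρ t * (u' t + lam ρ * Real.tan (lam ρ * tau ρ t) * u t / ρ t) ^ 2) =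
      (∫ t in (0 : ℝ)..t1, ρ t * u' t ^ 2) +
        lam ρ * Real.tan (lam ρ * tau ρ t1) * u t1 ^ 2 -
        lam ρ ^ 2 * ∫ t in (0 : ℝ)..t1, u t ^ 2 / ρ t := by
  have hsub : Icc 0 t1 ⊆ Icc 0 π := Icc_subset_Icc le_rfl ht1'.le
  have huc : ContinuousOn u (Icc 0 π) := fun t ht => (hu t ht).continuousAt.continuousWithinAt
  set K := lam ρ with hK
  have hcos : ∀ t ∈ Icc 0 t1, Real.cos (K * tau ρ t) ≠ 0 := by
    intro t ht
    have hang := ang_mem hρ hpos ht.1 (lt_of_le_of_lt ht.2 ht1')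
    exact (Real.cos_pos_of_mem_Ioo ⟨by linarith [pi_pos, hang.1], hang.2⟩).ne'
  have htan : ContinuousOn (fun t => Real.tan (K * tau ρ t)) (Icc 0 t1) := by
    intro t ht
    exact ContinuousAt.comp_continuousWithinAt (g := Real.tan) (f := fun t => K * tau ρ t)
      (Real.continuousAt_tan.mpr (hcos t ht)) (((tau_cont hρ hpos).mono hsub t ht).const_mul _)
  have hΦc : ContinuousOn (fun t => K * Real.tan (K * tau ρ t) * u t ^ 2) (Icc 0 t1) :=
    (continuousOn_const.mul htan).mul ((huc.mono hsub).pow 2)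
  have hΦ' : ContinuousOn (fun t => K ^ 2 * (1 + Real.tan (K * tau ρ t) ^ 2) * (u t ^ 2 / ρ t) +
      2 * K * Real.tan (K * tau ρ t) * u t * u' t) (Icc 0 t1) := by
    refine ContinuousOn.add ?_ ?_
    · exact (continuousOn_const.mul (continuousOn_const.add (htan.pow 2))).mul
        (((huc.mono hsub).pow 2).div (hρ.mono hsub) fun t ht => (hpos t (hsub ht)).ne')
    · exact (((continuousOn_const.mul htan).mul (huc.mono hsub))).mul (hu'.mono hsub)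
  have i2 : IntervalIntegrable (fun t => K ^ 2 * (1 + Real.tan (K * tau ρ t) ^ 2) *
      (u t ^ 2 / ρ t) + 2 * K * Real.tan (K * tau ρ t) * u t * u' t) volume 0 t1 := by
    refine ContinuousOn.intervalIntegrable ?_
    rwa [uIcc_of_le ht1]
  have hFTC := intervalIntegral.integral_eq_sub_of_hasDerivAt_of_le ht1 hΦc
    (f' := fun t => K ^ 2 * (1 + Real.tan (K * tau ρ t) ^ 2) * (u t ^ 2 / ρ t) +
      2 * K * Real.tan (K * tau ρ t) * u t * u' t) (fun t ht => by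
      have htI : t ∈ Icc 0 t1 := ⟨ht.1.le, ht.2.le⟩
      have h1 := (Real.hasDerivAt_tan (hcos t htI)).comp t
        ((tau_deriv hρ hpos ⟨ht.1, ht.2.trans ht1'⟩).const_mul K)
      have h2 := ((h1.const_mul K).mul ((hu t (hsub htI)).pow 2))
      refine h2.congr_deriv ?_
      have hr := (hpos t (hsub htI)).ne'
      have hsec : 1 / Real.cos (K * tau ρ t) ^ 2 = 1 + Real.tan (K * tau ρ t) ^ 2 := by
        rw [← Real.inv_one_add_tan_sq (hcos t htI), one_div, inv_inv]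
      simp only [Function.comp, Pi.pow_apply]
      rw [hsec]
      field_simp
      push_cast
      ring) i2
  have i1 : IntervalIntegrable (fun t => ρ t * u' t ^ 2) volume 0 t1 :=
    wirt_int (hρ.mul (hu'.pow 2)) le_rfl ht1 ht1'.le
  have i3 : IntervalIntegrable (fun t => u t ^ 2 / ρ t) volume 0 t1 :=
    wirt_int ((huc.pow 2).div hρ fun t ht => (hpos t ht).ne') le_rfl ht1 ht1'.le
  have e1 : ∀ t ∈ uIcc 0 t1, ρ t * (u' t + K * Real.tan (K * tau ρ t) * u t / ρ t) ^ 2 =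
      (ρ t * u' t ^ 2 + (K ^ 2 * (1 + Real.tan (K * tau ρ t) ^ 2) * (u t ^ 2 / ρ t) +
      2 * K * Real.tan (K * tau ρ t) * u t * u' t)) - K ^ 2 * (u t ^ 2 / ρ t) := by
    intro t ht
    rw [uIcc_of_le ht1] at ht
    have := (hpos t (hsub ht)).ne'
    field_simp
    ring
  rw [intervalIntegral.integral_congr e1, intervalIntegral.integral_sub (i1.add i2)
    (i3.const_mul _), intervalIntegral.integral_add i1 i2, hFTC,
    intervalIntegral.integral_const_mul]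
  simp [tau_zero]

private lemma wirt_B {ρ u u' : ℝ → ℝ} (hρ : ContinuousOn ρ (Icc 0 π))
    (hpos : ∀ t ∈ Icc 0 π, 0 < ρ t)
    (hu : ∀ t ∈ Icc 0 π, HasDerivAt u (u' t) t) (hu' : ContinuousOn u' (Icc 0 π))
    (hend : u π = 0) {t1 : ℝ} (ht1 : 0 ≤ t1) (ht1' : t1 < π) :
    lam ρ * Real.tan (lam ρ * tau ρ t1) * u t1 ^ 2 ≤ ∫ t in t1..π, ρ t * u' t ^ 2 := by
  have hsub : Icc t1 π ⊆ Icc 0 π := Icc_subset_Icc ht1 le_rfl
  have h1 := wirt_cs ht1'.le (hρ.mono hsub) (fun t ht => hpos t (hsub ht)) (hu'.mono hsub)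
  have h2 : ∫ t in t1..π, u' t = u π - u t1 := by
    refine intervalIntegral.integral_eq_sub_of_hasDerivAt (fun t ht => ?_)
      (wirt_int hu' ht1 ht1'.le le_rfl)
    rw [uIcc_of_le ht1'.le] at ht
    exact hu t (hsub ht)
  rw [h2, hend, ← tau_sub hρ hpos ht1 ht1'.le le_rfl] at h1
  have hK := lam_pos hρ hpos
  have hang := ang_mem hρ hpos ht1 ht1'
  have htan : 0 ≤ Real.tan (lam ρ * tau ρ t1) :=
    Real.tan_nonneg_of_nonneg_of_le_pi_div_two hang.1 hang.2.le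
  have hR : 0 ≤ ∫ t in t1..π, ρ t * u' t ^ 2 :=
    intervalIntegral.integral_nonneg ht1'.le fun t ht =>
      mul_nonneg (hpos t (hsub ht)).le (sq_nonneg _)
  have hlt := tau_lt hρ hpos ht1 ht1' le_rfl
  set y := lam ρ * (tau ρ π - tau ρ t1) with hy
  have hy0 : 0 < y := mul_pos hK (by linarith)
  have hyle : y ≤ π / 2 := by
    have := lam_mul hρ hpos
    rw [hy, mul_sub, this]
    linarith [hang.1]
  have harg : lam ρ * tau ρ t1 = π / 2 - y := by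
    rw [hy, mul_sub, lam_mul hρ hpos]
    ring
  have hkey : Real.tan (lam ρ * tau ρ t1) * y ≤ 1 := by
    rcases hyle.eq_or_lt with h | h
    · rw [harg, h]
      simp
    · rw [harg, Real.tan_pi_div_two_sub]
      have h3 := Real.lt_tan hy0 h
      have h4 : 0 < Real.tan y := hy0.trans h3
      rw [inv_mul_le_iff₀ h4, mul_one]
      exact h3.le
  have h5 : u t1 ^ 2 ≤ (tau ρ π - tau ρ t1) * ∫ t in t1..π, ρ t * u' t ^ 2 := by
    have : (0 - u t1) ^ 2 = u t1 ^ 2 := by ring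
    rwa [this] at h1
  calc lam ρ * Real.tan (lam ρ * tau ρ t1) * u t1 ^ 2
      ≤ lam ρ * Real.tan (lam ρ * tau ρ t1) *
        ((tau ρ π - tau ρ t1) * ∫ t in t1..π, ρ t * u' t ^ 2) :=
        mul_le_mul_of_nonneg_left h5 (mul_nonneg hK.le htan)
    _ = (Real.tan (lam ρ * tau ρ t1) * y) * ∫ t in t1..π, ρ t * u' t ^ 2 := by
        rw [hy]; ring
    _ ≤ 1 * ∫ t in t1..π, ρ t * u' t ^ 2 := mul_le_mul_of_nonneg_right hkey hR
    _ = _ := one_mul _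

theorem wirt {ρ u u' : ℝ → ℝ} (hρ : ContinuousOn ρ (Icc 0 π)) (hpos : ∀ t ∈ Icc 0 π, 0 < ρ t)
    (hu : ∀ t ∈ Icc 0 π, HasDerivAt u (u' t) t) (hu' : ContinuousOn u' (Icc 0 π)) (hend : u π = 0)
    {t1 : ℝ} (ht1 : 0 ≤ t1) (ht1' : t1 < π) :
    lam ρ ^ 2 * (∫ t in (0 : ℝ)..π, u t ^ 2 / ρ t) +
      (∫ t in (0 : ℝ)..t1,
        ρ t * (u' t + lam ρ * Real.tan (lam ρ * tau ρ t) * u t / ρ t) ^ 2) ≤
      ∫ t in (0 : ℝ)..π, ρ t * u' t ^ 2 := by
  have huc : ContinuousOn u (Icc 0 π) := fun t ht => (hu t ht).continuousAt.continuousWithinAt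
  set D := fun t1 : ℝ => ∫ t in (0 : ℝ)..t1,
        ρ t * (u' t + lam ρ * Real.tan (lam ρ * tau ρ t) * u t / ρ t) ^ 2 with hD
  have i3c : ContinuousOn (fun t => u t ^ 2 / ρ t) (Icc 0 π) :=
    (huc.pow 2).div hρ fun t ht => (hpos t ht).ne'
  have i1c : ContinuousOn (fun t => ρ t * u' t ^ 2) (Icc 0 π) := hρ.mul (hu'.pow 2)
  -- the inequality on `[0,t]`
  have key : ∀ t, 0 ≤ t → t < π →
      lam ρ ^ 2 * (∫ s in (0 : ℝ)..t, u s ^ 2 / ρ s) + D t ≤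
        ∫ t in (0 : ℝ)..π, ρ t * u' t ^ 2 := by
    intro t h0 ht
    have hA := wirt_A hρ hpos hu hu' h0 ht
    have hB := wirt_B hρ hpos hu hu' hend h0 ht
    have hadj := intervalIntegral.integral_add_adjacent_intervals
      (wirt_int i1c le_rfl h0 ht.le) (wirt_int i1c h0 ht.le le_rfl)
    rw [← hadj]
    change _ + (∫ t in (0 : ℝ)..t,
        ρ t * (u' t + lam ρ * Real.tan (lam ρ * tau ρ t) * u t / ρ t) ^ 2) ≤ _
    rw [hA]
    linarith
  have hmono : ∀ t, t1 ≤ t → t < π → D t1 ≤ D t := by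
    intro t h0 ht
    have hc := wirt_def_cont hρ hpos huc hu' ht
    have hcc : ContinuousOn (fun t => ρ t * (u' t + lam ρ * Real.tan (lam ρ * tau ρ t) *
        u t / ρ t) ^ 2) (Icc 0 t) :=
      (hρ.mono (Icc_subset_Icc le_rfl ht.le)).mul (hc.pow 2)
    have j1 : IntervalIntegrable (fun t => ρ t * (u' t + lam ρ * Real.tan (lam ρ * tau ρ t) *
        u t / ρ t) ^ 2) volume 0 t1 := by
      refine ContinuousOn.intervalIntegrable ?_
      rw [uIcc_of_le ht1]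
      exact hcc.mono (Icc_subset_Icc le_rfl h0)
    have j2 : IntervalIntegrable (fun t => ρ t * (u' t + lam ρ * Real.tan (lam ρ * tau ρ t) *
        u t / ρ t) ^ 2) volume t1 t := by
      refine ContinuousOn.intervalIntegrable ?_
      rw [uIcc_of_le h0]
      exact hcc.mono (Icc_subset_Icc ht1 le_rfl)
    have hadj := intervalIntegral.integral_add_adjacent_intervals j1 j2
    have hnn : 0 ≤ ∫ t in t1..t, ρ t * (u' t + lam ρ * Real.tan (lam ρ * tau ρ t) *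
        u t / ρ t) ^ 2 :=
      intervalIntegral.integral_nonneg h0 fun s hs =>
        mul_nonneg (hpos s ⟨ht1.trans hs.1, hs.2.trans ht.le⟩).le (sq_nonneg _)
    simp only [hD]
    linarith
  -- the limit
  have hcont := (wirt_prim_cont i3c) π (right_mem_Icc.mpr pi_pos.le)
  have hlim : Tendsto (fun t => lam ρ ^ 2 * (∫ s in (0 : ℝ)..t, u s ^ 2 / ρ s) + D t1) (𝓝[<] π)
      (𝓝 (lam ρ ^ 2 * (∫ s in (0 : ℝ)..π, u s ^ 2 / ρ s) + D t1)) := by
    refine Tendsto.add_const _ (Tendsto.const_mul _ ?_)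
    exact hcont.mono_left (nhdsWithin_le_iff.mpr (Icc_mem_nhdsLT pi_pos))
  refine le_of_tendsto hlim ?_
  filter_upwards [Ioo_mem_nhdsLT ht1'] with t ht
  have h1 := key t (ht1.trans ht.1.le) ht.2
  have h2 := hmono t ht.1.le ht.2
  linarith

theorem wirt' {ρ v v' : ℝ → ℝ} (hρ : ContinuousOn ρ (Icc 0 π)) (hpos : ∀ t ∈ Icc 0 π, 0 < ρ t)
    (hv : ∀ t ∈ Icc 0 π, HasDerivAt v (v' t) t) (hv' : ContinuousOn v' (Icc 0 π)) (hend : v 0 = 0)
    {t1 : ℝ} (ht1 : 0 < t1) (ht1' : t1 ≤ π) :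
    lam ρ ^ 2 * (∫ t in (0 : ℝ)..π, v t ^ 2 / ρ t) +
      (∫ t in t1..π, ρ t * (v' t - lam ρ * (Real.cos (lam ρ * tau ρ t) /
        Real.sin (lam ρ * tau ρ t)) * v t / ρ t) ^ 2) ≤
      ∫ t in (0 : ℝ)..π, ρ t * v' t ^ 2 := by
  have hmap : ∀ t ∈ Icc 0 π, π - t ∈ Icc 0 π := fun t ht => ⟨by linarith [ht.2], by linarith [ht.1]⟩
  have hcm : ContinuousOn (fun t : ℝ => π - t) (Icc 0 π) := by fun_prop
  have hρ2 : ContinuousOn (fun t => ρ (π - t)) (Icc 0 π) := hρ.comp hcm hmap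
  have hpos2 : ∀ t ∈ Icc 0 π, 0 < ρ (π - t) := fun t ht => hpos _ (hmap t ht)
  have htau : ∀ t ∈ Icc 0 π, tau (fun t => ρ (π - t)) t = tau ρ π - tau ρ (π - t) := by
    intro t ht
    rw [tau_sub hρ hpos (hmap t ht).1 (by linarith [ht.1]) le_rfl]
    unfold tau
    rw [intervalIntegral.integral_comp_sub_left (fun x => (ρ x)⁻¹) π]
    simp
  have htauπ : tau (fun t => ρ (π - t)) π = tau ρ π := by
    rw [htau π ⟨pi_pos.le, le_rfl⟩, sub_self, tau_zero, sub_zero]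
  have hlam : lam (fun t => ρ (π - t)) = lam ρ := by
    unfold lam
    rw [htauπ]
  have h := wirt (ρ := fun t => ρ (π - t)) (u := fun t => v (π - t)) (u' := fun t => -v' (π - t))
    hρ2 hpos2 (fun t ht => by
      have h1 : HasDerivAt (fun t => v (π - t)) (v' (π - t) * (-1)) t :=
        (hv (π - t) (hmap t ht)).comp t ((hasDerivAt_id t).const_sub π)
      exact h1.congr_deriv (by ring)) (hv'.comp hcm hmap).neg (by simp [hend]) (t1 := π - t1) (by linarith)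
      (by linarith)
  rw [hlam] at h
  have e1 : ∫ t in (0 : ℝ)..π, v (π - t) ^ 2 / ρ (π - t) = ∫ t in (0 : ℝ)..π, v t ^ 2 / ρ t := by
    rw [intervalIntegral.integral_comp_sub_left (fun x => v x ^ 2 / ρ x) π]
    simp
  have e3 : ∫ t in (0 : ℝ)..π, ρ (π - t) * (-v' (π - t)) ^ 2 =
      ∫ t in (0 : ℝ)..π, ρ t * v' t ^ 2 := by
    rw [intervalIntegral.integral_comp_sub_left (fun x => ρ x * (-v' x) ^ 2) π]
    simp
  have e2 : ∫ t in (0 : ℝ)..(π - t1), ρ (π - t) * (-v' (π - t) +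
      lam ρ * Real.tan (lam ρ * tau (fun t => ρ (π - t)) t) * v (π - t) / ρ (π - t)) ^ 2 =
      ∫ t in t1..π, ρ t * (v' t - lam ρ * (Real.cos (lam ρ * tau ρ t) /
        Real.sin (lam ρ * tau ρ t)) * v t / ρ t) ^ 2 := by
    have e4 : ∀ t ∈ uIcc 0 (π - t1), ρ (π - t) * (-v' (π - t) +
      lam ρ * Real.tan (lam ρ * tau (fun t => ρ (π - t)) t) * v (π - t) / ρ (π - t)) ^ 2 =
      (fun t => ρ t * (v' t - lam ρ * (Real.cos (lam ρ * tau ρ t) /
        Real.sin (lam ρ * tau ρ t)) * v t / ρ t) ^ 2) (π - t) := by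
      intro t ht
      rw [uIcc_of_le (by linarith)] at ht
      have htI : t ∈ Icc 0 π := ⟨ht.1, by linarith [ht.2]⟩
      have harg : lam ρ * tau (fun t => ρ (π - t)) t = π / 2 - lam ρ * tau ρ (π - t) := by
        rw [htau t htI, mul_sub, lam_mul hρ hpos]
      simp only
      rw [harg, Real.tan_pi_div_two_sub, Real.tan_eq_sin_div_cos, inv_div]
      ring
    rw [intervalIntegral.integral_congr e4, intervalIntegral.integral_comp_sub_left
      (fun t => ρ t * (v' t - lam ρ * (Real.cos (lam ρ * tau ρ t) /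
        Real.sin (lam ρ * tau ρ t)) * v t / ρ t) ^ 2) π]
    simp
  rw [e1, e3, e2] at h
  exact h

end Pool.Agent.Helper43.Kep
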