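import Pool.Agent.Helper43.Kep.XThr

/-!
KEP XLINK: linking numbers of pairs of planets; every pair has a threshold eccentricity.
-/

set_option autoImplicit false

namespace Pool.Agent.Helper43.Kep

open Real Set Filter Topology

private theorem at_zero {x α : ℝ} {k : ℤ} (h1 : 0 < x + α)
    (h : x + α < 2 * π) (h' : x + α = k * π) : x + α = π := by
  have h3 : (0 : ℝ) < k := by
    by_contra hh
    push Not at hh
    nlinarith [mul_nonneg (neg_nonneg.mpr hh) Real.pi_pos.le]
  have h4 : (k : ℝ) < 2 := by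
    by_contra hh
    push Not at hh
    nlinarith [mul_nonneg (sub_nonneg.mpr hh) Real.pi_pos.le]
  have h5 : (0 : ℤ) < k := by exact_mod_cast h3
  have h6 : k < (2 : ℤ) := by exact_mod_cast h4
  have h7 : k = 1 := by omega
  rw [h', h7]
  simp

theorem wind_dif_one {x α e : ℝ} (hx : x ∈ Ioo 0 π) (hα : α ∈ Ico 0 π) (he : 0 ≤ e) (he1 : e < 1)
    (h : 0 < dd x α e ∨ 0 < dd (π - x) (π - α) e) :
    Wind (dif (Complex.exp (((2 * α : ℝ) : ℂ) * Complex.I)) (2 * x) e) 1 := by
  have hx' : π - x ∈ Ioo 0 π := ⟨by linarith [hx.2], by linarith [hx.1]⟩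
  have hα0 : α ∈ Icc 0 π := ⟨hα.1, hα.2.le⟩
  have hα' : π - α ∈ Icc 0 π := ⟨by linarith [hα.2], by linarith [hα.1]⟩
  have m1 : ∀ e' ∈ Icc 0 e, e' ∈ Icc (-1 : ℝ) 1 := fun e' h => ⟨by linarith [h.1], by linarith [h.2]⟩
  have a1 := (dd_strictAntiOn hx hα0).antitoneOn
  have a2 := (dd_strictAntiOn hx' hα').antitoneOn
  have me : e ∈ Icc (-1 : ℝ) 1 := m1 e (right_mem_Icc.mpr he)
  have m0 : (0 : ℝ) ∈ Icc (-1 : ℝ) 1 := m1 0 (left_mem_Icc.mpr he)
  have z1 := dd_zero x α
  have z2 := dd_zero' x α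
  have key : ∀ e' ∈ Icc 0 e, dd x α e' ≠ 0 ∧ dd (π - x) (π - α) e' ≠ 0 := by
    intro e' he'
    have me' := m1 e' he'
    rcases h with h | h
    · have k1 := a1 me' me he'.2
      have k2 := a2 m0 me' he'.1
      have k3 := a1 m0 me he
      constructor
      · linarith
      · linarith
    · have k1 := a2 me' me he'.2
      have k2 := a1 m0 me' he'.1
      have k3 := a2 m0 me he
      constructor
      · linarith
      · linarith
  apply wind_pair_one he he1.le
  intro e' he' t h0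
  rcases he'.1.lt_or_eq with hpos | hzero
  · have := dd_of_coll (t := t) hpos (he'.2.trans_lt he1) hx hα0 (by
      unfold dif at h0
      exact sub_eq_zero.mp h0)
    obtain ⟨k1, k2⟩ := key e' he'
    tauto
  · rw [← hzero] at h0
    obtain ⟨k1, k2⟩ := key 0 (left_mem_Icc.mpr he)
    rw [z1] at k1
    unfold dif at h0
    rw [kz_zero_ecc, kz_zero_ecc, sub_eq_zero, ← Complex.exp_add, Complex.exp_eq_exp_iff_exists_int] at h0
    obtain ⟨n, hn⟩ := h0
    have h1 : (t : ℂ) = 2 * α + (t + 2 * x) + n * (2 * π) := by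
      have : ((t : ℂ) - (2 * α + (t + 2 * x) + n * (2 * π))) * Complex.I = 0 := by
        push_cast at hn
        linear_combination hn
      rcases mul_eq_zero.mp this with h | h
      · linear_combination h
      · exact absurd h Complex.I_ne_zero
    have h2 : t = 2 * α + (t + 2 * x) + n * (2 * π) := by exact_mod_cast h1
    have h3 : x + α = ((-n : ℤ) : ℝ) * π := by
      push_cast
      linarith
    have h4 := at_zero (by linarith [hx.1, hα.1]) (by linarith [hx.2, hα.2]) h3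
    apply k1
    rw [h4, Real.cos_pi_div_two]

theorem wind_dif_zero {x α e : ℝ} (hx : x ∈ Ioo 0 π) (hα : α ∈ Ioo 0 π) (he : 0 < e) (he1 : e < 1)
    (h : dd x α e < 0) (h' : dd (π - x) (π - α) e < 0) :
    Wind (dif (Complex.exp (((2 * α : ℝ) : ℂ) * Complex.I)) (2 * x) e) 0 := by
  have hx' : π - x ∈ Ioo 0 π := ⟨by linarith [hx.2], by linarith [hx.1]⟩
  have hα0 : α ∈ Icc 0 π := ⟨hα.1.le, hα.2.le⟩
  have hα' : π - α ∈ Icc 0 π := ⟨by linarith [hα.2], by linarith [hα.1]⟩
  have a1 := (dd_strictAntiOn hx hα0).antitoneOn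
  have a2 := (dd_strictAntiOn hx' hα').antitoneOn
  have hR1 : Complex.exp (((2 * α : ℝ) : ℂ) * Complex.I) ≠ 1 := by
    intro h0
    rw [Complex.exp_eq_one_iff] at h0
    obtain ⟨n, hn⟩ := h0
    have h1 : ((2 * α : ℝ) : ℂ) = n * (2 * π) := by
      have : (((2 * α : ℝ) : ℂ) - n * (2 * π)) * Complex.I = 0 := by
        linear_combination hn
      rcases mul_eq_zero.mp this with h | h
      · linear_combination h
      · exact absurd h Complex.I_ne_zero
    have h2 : 2 * α = n * (2 * π) := by exact_mod_cast h1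
    have h3 : α = n * π := by linarith
    have h4 := hα.1
    have h5 := hα.2
    have h6 : (0 : ℝ) < n := by
      by_contra hh
      push Not at hh
      nlinarith [mul_nonneg (neg_nonneg.mpr hh) Real.pi_pos.le]
    have h7 : (n : ℝ) < 1 := by
      by_contra hh
      push Not at hh
      nlinarith [mul_nonneg (sub_nonneg.mpr hh) Real.pi_pos.le]
    have h8 : (0 : ℤ) < n := by exact_mod_cast h6
    have h9 : n < (1 : ℤ) := by exact_mod_cast h7
    omega
  apply wind_pair_zero (Complex.norm_exp_ofReal_mul_I _) hR1 (by linarith) he1.le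
  intro e' he' t h0
  have me : e ∈ Icc (-1 : ℝ) 1 := ⟨by linarith, he1.le⟩
  have me' : e' ∈ Icc (-1 : ℝ) 1 := ⟨by linarith [he'.1], he'.2⟩
  have k1 := a1 me me' he'.1
  have k2 := a2 me me' he'.1
  rcases he'.2.lt_or_eq with h1 | h1
  · have := dd_of_coll (t := t) (he.trans_le he'.1) h1 hx hα0 (by
      unfold dif at h0
      exact sub_eq_zero.mp h0)
    rcases this with h2 | h2
    · linarith
    · linarith
  · -- `e' = 1`
    subst h1
    have h11 : |(1 : ℝ)| ≤ 1 := by simp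
    have hk : ∀ t, kz 1 t = ((Real.cos (ecc 1 t) - 1 : ℝ) : ℂ) := by
      intro t
      apply Complex.ext
      · rw [Complex.ofReal_re]
        rfl
      · rw [Complex.ofReal_im]
        simp [kz]
    unfold dif at h0
    rw [hk, hk, sub_eq_zero] at h0
    have hre := congrArg norm h0
    rw [norm_mul, Complex.norm_exp_ofReal_mul_I, one_mul, Complex.norm_real, Complex.norm_real,
      Real.norm_eq_abs, Real.norm_eq_abs,
      abs_of_nonpos (by linarith [Real.cos_le_one (ecc 1 t)]),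
      abs_of_nonpos (by linarith [Real.cos_le_one (ecc 1 (t + 2 * x))])] at hre
    have h2 : Real.cos (ecc 1 (t + 2 * x)) = Real.cos (ecc 1 t) := by linarith
    rw [h2] at h0
    by_cases h3 : Real.cos (ecc 1 t) = 1
    · have h4 : Real.cos (ecc 1 (t + 2 * x)) = 1 := by rw [h2, h3]
      rw [Real.cos_eq_one_iff] at h3 h4
      obtain ⟨a, ha⟩ := h3
      obtain ⟨b, hb⟩ := h4
      have s1 := ecc_spec h11 t
      have s2 := ecc_spec h11 (t + 2 * x)
      rw [← ha] at s1
      rw [← hb] at s2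
      have w1 : Real.sin ((a : ℝ) * (2 * π)) = 0 := by
        have := Real.sin_int_mul_pi (2 * a)
        rw [← this]
        congr 1
        push_cast
        ring
      have w2 : Real.sin ((b : ℝ) * (2 * π)) = 0 := by
        have := Real.sin_int_mul_pi (2 * b)
        rw [← this]
        congr 1
        push_cast
        ring
      rw [w1] at s1
      rw [w2] at s2
      have h5 : x = ((b - a : ℤ) : ℝ) * π := by
        push_cast
        linarith
      have h6 := hx.1
      have h7 := hx.2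
      rw [h5] at h6 h7
      have h8 : (0 : ℝ) < ((b - a : ℤ) : ℝ) := by
        by_contra hh
        push Not at hh
        nlinarith [mul_nonneg (neg_nonneg.mpr hh) Real.pi_pos.le]
      have h9 : ((b - a : ℤ) : ℝ) < 1 := by
        by_contra hh
        push Not at hh
        nlinarith [mul_nonneg (sub_nonneg.mpr hh) Real.pi_pos.le]
      have h10 : (0 : ℤ) < b - a := by exact_mod_cast h8
      have h12 : b - a < (1 : ℤ) := by exact_mod_cast h9
      omega
    · apply hR1
      have h4 : ((Real.cos (ecc 1 t) - 1 : ℝ) : ℂ) ≠ 0 := by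
        rw [Ne, Complex.ofReal_eq_zero]
        intro h5
        exact h3 (by linarith)
      have h5 : (1 : ℂ) * ((Real.cos (ecc 1 t) - 1 : ℝ) : ℂ) =
          Complex.exp (((2 * α : ℝ) : ℂ) * Complex.I) * ((Real.cos (ecc 1 t) - 1 : ℝ) : ℂ) := by
        rw [one_mul]
        exact h0
      exact (mul_right_cancel₀ h4 h5).symm

/-- angles -/
theorem exists_half {σ : ℝ} (h : Real.sin (σ / 2) ≠ 0) : ∃ x ∈ Ioo 0 π, ∃ n : ℤ, σ = 2 * x + n * (2 * π) := by
  have hπ := Real.pi_pos
  have h1 := toIcoMod_mem_Ico hπ 0 (σ / 2)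
  have h2 : toIcoMod hπ 0 (σ / 2) = σ / 2 - toIcoDiv hπ 0 (σ / 2) • π := rfl
  rw [zsmul_eq_mul] at h2
  refine ⟨toIcoMod hπ 0 (σ / 2), ⟨?_, by linarith [h1.2]⟩, toIcoDiv hπ 0 (σ / 2), ?_⟩
  · rcases h1.1.lt_or_eq with h3 | h3
    · exact h3
    · exfalso
      apply h
      rw [← h3] at h2
      have : σ / 2 = toIcoDiv hπ 0 (σ / 2) * π := by linarith
      rw [this, Real.sin_int_mul_pi]
  · rw [h2]
    ring

theorem exists_angle {R : ℂ} (h : ‖R‖ = 1) (h1 : R ≠ 1) :
    ∃ α ∈ Ioo 0 π, R = Complex.exp (((2 * α : ℝ) : ℂ) * Complex.I) := by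
  have h2 := Complex.norm_mul_exp_arg_mul_I R
  rw [h] at h2
  simp only [Complex.ofReal_one, one_mul] at h2
  have h3 := Complex.arg_mem_Ioc R
  have hπ := Real.pi_pos
  rcases lt_trichotomy R.arg 0 with h4 | h4 | h4
  · refine ⟨R.arg / 2 + π, ⟨by linarith [h3.1], by linarith⟩, ?_⟩
    refine h2.symm.trans ?_
    rw [Complex.exp_eq_exp_iff_exists_int]
    refine ⟨-1, ?_⟩
    push_cast
    ring
  · exfalso
    apply h1
    rw [← h2, h4]
    simp
  · refine ⟨R.arg / 2, ⟨by linarith, by linarith [h3.2]⟩, ?_⟩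
    conv_lhs => rw [← h2]
    congr 2
    push_cast
    ring

theorem dif_shift {R : ℂ} {x e : ℝ} (he : |e| ≤ 1) (n : ℤ) :
    dif R (2 * x + n * (2 * π)) e = dif R (2 * x) e := by
  funext t
  unfold dif
  have hper : Function.Periodic (kz e) (2 * π) := kz_add_two_pi he
  rw [show t + (2 * x + n * (2 * π)) = t + 2 * x + n * (2 * π) by ring, hper.int_mul n]

/-- every pair of planets on different rays with a time shift has a threshold eccentricity -/
theorem threshold {R : ℂ} {σ : ℝ} (hR : ‖R‖ = 1) (hR1 : R ≠ 1) (hσ : Real.sin (σ / 2) ≠ 0) :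
    ∃ τ ∈ Ico (0 : ℝ) 1, (∃ t, kz τ t = R * kz τ (t + σ)) ∧ (∀ e ∈ Ico 0 τ, Wind (dif R σ e) 1) ∧
      ∀ e ∈ Ioo τ 1, Wind (dif R σ e) 0 := by
  obtain ⟨α, hα, rfl⟩ := exists_angle hR hR1
  obtain ⟨x, hx, n, rfl⟩ := exists_half hσ
  have hx' : π - x ∈ Ioo 0 π := ⟨by linarith [hx.2], by linarith [hx.1]⟩
  have hα0 : α ∈ Icc 0 π := ⟨hα.1.le, hα.2.le⟩
  have hα' : π - α ∈ Icc 0 π := ⟨by linarith [hα.2], by linarith [hα.1]⟩
  have a1 := dd_strictAntiOn hx hα0
  have a2 := dd_strictAntiOn hx' hα'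
  have c1 := (dd_continuousOn x α).mono (Icc_subset_Icc (by norm_num : (-1 : ℝ) ≤ 0) le_rfl)
  have c2 := (dd_continuousOn (π - x) (π - α)).mono (Icc_subset_Icc (by norm_num : (-1 : ℝ) ≤ 0) le_rfl)
  have z1 := dd_zero x α
  have z2 := dd_zero' x α
  have o1 : dd x α 1 < 0 := dd_one_neg hx ⟨hα.1, hα.2.le⟩
  have o2 : dd (π - x) (π - α) 1 < 0 := dd_one_neg hx' ⟨by linarith [hα.2], by linarith [hα.1]⟩
  have mem : ∀ e : ℝ, 0 ≤ e → e ≤ 1 → e ∈ Icc (-1 : ℝ) 1 := fun e h h' => ⟨by linarith, h'⟩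
  have m0 := mem 0 le_rfl zero_le_one
  have hper : ∀ e : ℝ, |e| ≤ 1 → Function.Periodic (kz e) (2 * π) := fun e he => kz_add_two_pi he
  rcases le_total 0 (dd x α 0) with h | h
  · obtain ⟨τ, hτ, hτ0⟩ := intermediate_value_Icc' zero_le_one c1 ⟨o1.le, h⟩
    have hτ1 : τ < 1 := by
      rcases hτ.2.lt_or_eq with h1 | h1
      · exact h1
      · rw [h1] at hτ0
        linarith
    have hab : |τ| ≤ 1 := by
      rw [abs_of_nonneg hτ.1]
      exact hτ.2
    refine ⟨τ, ⟨hτ.1, hτ1⟩, ⟨-x, ?_⟩, fun e he => ?_, fun e he => ?_⟩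
    · rw [coll_of_dd hab hτ0, show -x + (2 * x + n * (2 * π)) = -x + 2 * x + n * (2 * π) by ring,
        (hper τ hab).int_mul n]
    · rw [dif_shift (by rw [abs_of_nonneg he.1]; linarith [he.2])]
      refine wind_dif_one hx ⟨hα.1.le, hα.2⟩ he.1 (he.2.trans hτ1) (Or.inl ?_)
      rw [← hτ0]
      exact a1 (mem e he.1 (he.2.trans hτ1).le) (mem τ hτ.1 hτ.2) he.2
    · have he0 : 0 < e := hτ.1.trans_lt he.1
      rw [dif_shift (by rw [abs_of_pos he0]; exact he.2.le)]
      refine wind_dif_zero hx hα he0 he.2 ?_ ?_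
      · rw [← hτ0]
        exact a1 (mem τ hτ.1 hτ.2) (mem e he0.le he.2.le) he.1
      · have := a2 m0 (mem e he0.le he.2.le) he0
        linarith
  · have h' : 0 ≤ dd (π - x) (π - α) 0 := by
      rw [z2]
      rw [z1] at h
      linarith
    obtain ⟨τ, hτ, hτ0⟩ := intermediate_value_Icc' zero_le_one c2 ⟨o2.le, h'⟩
    have hτ1 : τ < 1 := by
      rcases hτ.2.lt_or_eq with h1 | h1
      · exact h1
      · rw [h1] at hτ0
        linarith
    have hab : |τ| ≤ 1 := by
      rw [abs_of_nonneg hτ.1]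
      exact hτ.2
    refine ⟨τ, ⟨hτ.1, hτ1⟩, ⟨π - x, ?_⟩, fun e he => ?_, fun e he => ?_⟩
    · have h1 := coll_of_dd hab hτ0
      have h2 : kz τ (π - x + (2 * x + n * (2 * π))) = kz τ (-(π - x)) := by
        have := (hper τ hab).int_mul (n + 1) (-(π - x))
        rw [← this]
        congr 1
        push_cast
        ring
      have h3 : kz τ (-(π - x) + 2 * (π - x)) = kz τ (π - x) := by
        congr 1
        ring
      rw [h2, h1, h3, ← mul_assoc, ← Complex.exp_add]
      have h4 : Complex.exp (((2 * α : ℝ) : ℂ) * Complex.I + ((2 * (π - α) : ℝ) : ℂ) * Complex.I) = 1 := by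
        rw [Complex.exp_eq_one_iff]
        refine ⟨1, ?_⟩
        push_cast
        ring
      rw [h4, one_mul]
    · rw [dif_shift (by rw [abs_of_nonneg he.1]; linarith [he.2])]
      refine wind_dif_one hx ⟨hα.1.le, hα.2⟩ he.1 (he.2.trans hτ1) (Or.inr ?_)
      rw [← hτ0]
      exact a2 (mem e he.1 (he.2.trans hτ1).le) (mem τ hτ.1 hτ.2) he.2
    · have he0 : 0 < e := hτ.1.trans_lt he.1
      rw [dif_shift (by rw [abs_of_pos he0]; exact he.2.le)]
      refine wind_dif_zero hx hα he0 he.2 ?_ ?_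
      · have := a1 m0 (mem e he0.le he.2.le) he0
        linarith
      · rw [← hτ0]
        exact a2 (mem τ hτ.1 hτ.2) (mem e he0.le he.2.le) he.1

end Pool.Agent.Helper43.Kep
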