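import Pool.Agent.Helper43.Kep.Main
import Pool.Agent.Helper43.Kep.FTop
import Pool.Agent.Helper43.Kep.XLink

/-!
KEP XCOLL: collisions of planets away from the sun, realised constellations, linking numbers of constellations.
-/

set_option autoImplicit false

namespace Pool.Agent.Helper43.Kep

open Real Set Filter Topology

variable {J : Type} [AddCommGroup J] [Fintype J] [DecidableEq J] (S : Sym J)

/-- two planets of the constellation of eccentricity `e` collide, not at the sun -/
def Coll (e : ℝ) : Prop := ∃ j : J, j ≠ 0 ∧ ∃ t, kz e t = pl S (kz e) j t ∧ kz e t ≠ 0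

/-- the braid type of the Kepler constellation of eccentricity `e` is realised by a `2π`-periodic solution of the
`N`-body problem, `N = |J| + 1`, for the masses `1, ε, ..., ε` with any small `ε > 0` -/
def Realised (e : ℝ) : Prop :=
  ∃ ε₀ > 0, ∀ ε, 0 < ε → ε < ε₀ → ∃ x : ℝ → Option J → ℂ, IsSol (mass J ε) x ∧
    (∀ t, x (t + 2 * π) = x t) ∧ SameBraid (2 * π) x (constel S e)

theorem kz_neg_e {e : ℝ} (he : |e| ≤ 1) (t : ℝ) : kz (-e) t = -kz e (t + π) := by
  have he' : |(-e)| ≤ 1 := by rwa [abs_neg]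
  have h1 : ecc (-e) t = ecc e (t + π) - π := by
    apply ecc_eq he'
    have := ecc_spec he (t + π)
    rw [Real.sin_sub_pi]
    linarith
  apply Complex.ext
  · simp only [kz, Complex.neg_re]
    rw [h1, Real.cos_sub_pi]
    ring
  · simp only [kz, Complex.neg_im]
    rw [h1, Real.sin_sub_pi]
    simp

theorem Coll.neg {e : ℝ} (he : |e| ≤ 1) (h : Coll S e) : Coll S (-e) := by
  obtain ⟨j, hj, t, h1, h2⟩ := h
  have hper := kz_add_two_pi he t
  refine ⟨j, hj, t + π, ?_, ?_⟩
  · unfold pl at h1 ⊢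
    rw [kz_neg_e he, kz_neg_e he, show t + π + π = t + 2 * π by ring,
      show t + π + S.σ j + π = t + S.σ j + 2 * π by ring, kz_add_two_pi he, kz_add_two_pi he, h1]
    ring
  · rw [kz_neg_e he, show t + π + π = t + 2 * π by ring, hper]
    exact neg_ne_zero.mpr h2

private theorem kz_one_real {e : ℝ} (he : e = 1 ∨ e = -1) (t : ℝ) :
    ∃ a : ℝ, 0 ≤ a ∧ kz e t = -(e : ℂ) * a := by
  rcases he with rfl | rfl
  · refine ⟨1 - Real.cos (ecc 1 t), by linarith [Real.cos_le_one (ecc 1 t)], ?_⟩
    apply Complex.ext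
    · simp only [kz, Complex.mul_re, Complex.neg_re, Complex.ofReal_re, Complex.neg_im,
        Complex.ofReal_im]
      ring
    · simp [kz]
  · refine ⟨1 + Real.cos (ecc (-1) t), by linarith [Real.neg_one_le_cos (ecc (-1) t)], ?_⟩
    apply Complex.ext
    · simp only [kz, Complex.mul_re, Complex.neg_re, Complex.ofReal_re, Complex.neg_im,
        Complex.ofReal_im]
      ring
    · simp [kz]

theorem coll_top {e0 e : ℝ} (he0 : |e0| ≤ 1) (h : Free S e0) (he : |e| ≤ 1) (hc : Coll S e) :
    Fint S (kz e) = ⊤ := by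
  obtain ⟨j, hj, t, h1, h2⟩ := hc
  rcases he.lt_or_eq with h3 | h3
  · exact Fint_top S h3 hj h1
  · have he' : e = 1 ∨ e = -1 := by
      rcases abs_eq (zero_le_one) |>.mp h3 with h | h
      · exact Or.inl h
      · exact Or.inr h
    have hR : S.R j = 1 := by
      obtain ⟨a, ha, ha'⟩ := kz_one_real he' t
      obtain ⟨b, hb, hb'⟩ := kz_one_real he' (t + S.σ j)
      have hn := congrArg norm h1
      unfold pl at h1 hn
      rw [norm_mul, S.norm_R, one_mul, ha', hb', norm_mul, norm_mul, Complex.norm_real,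
        Complex.norm_real, Real.norm_of_nonneg ha, Real.norm_of_nonneg hb] at hn
      have he1 : ‖-(e : ℂ)‖ = 1 := by
        rw [norm_neg, Complex.norm_real]
        exact h3
      rw [he1, one_mul, one_mul] at hn
      rw [hb', ← hn, ← ha'] at h1
      have h4 : (1 : ℂ) * kz e t = S.R j * kz e t := by
        rw [one_mul]
        exact h1
      exact (mul_right_cancel₀ h2 h4).symm
    refine Fint_top_one S he' hj hR ?_
    intro hs
    obtain ⟨n, hn⟩ := Real.sin_eq_zero_iff.mp hs
    apply h j hj 0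
    unfold pl
    have hper : Function.Periodic (kz e0) (2 * π) := kz_add_two_pi he0
    have h4 : S.σ j = n * (2 * π) := by linarith
    rw [hR, one_mul, h4, hper.int_mul n]

theorem realised {em e0 ep : ℝ} (h1 : -1 ≤ em) (h2 : em < e0) (h3 : e0 < ep) (h4 : ep ≤ 1)
    (hf : Free S e0) (hm : Coll S em) (hp : Coll S ep) : Realised S e0 := by
  have he0 : |e0| ≤ 1 := abs_le.mpr ⟨by linarith, by linarith⟩
  exact main S h1 h2 h3 h4 hf
    (coll_top S he0 hf (abs_le.mpr ⟨by linarith, by linarith⟩) hm)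
    (coll_top S he0 hf (abs_le.mpr ⟨by linarith, by linarith⟩) hp)

theorem realised' {e0 e1 : ℝ} (h1 : |e0| < e1) (h2 : e1 ≤ 1) (hf : Free S e0) (hc : Coll S e1) :
    Realised S e0 := by
  have h3 := abs_lt.mp h1
  have h4 : |e1| ≤ 1 := by
    rw [abs_of_nonneg ((abs_nonneg e0).trans h1.le)]
    exact h2
  exact realised S (em := -e1) (by linarith) h3.1 h3.2 h2 hf (hc.neg S h4) hc

theorem lk_planets {e : ℝ} (he : |e| ≤ 1) {i j : J} {n : ℤ}
    (h : Wind (dif (S.R (j - i)) (S.σ (j - i)) e) n) : Lk (constel S e) (some i) (some j) n := by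
  have hR : S.R j = S.R i * S.R (j - i) := by
    rw [← S.R_add]
    congr 1
    abel
  obtain ⟨k, hk⟩ := S.σ_add i (j - i)
  rw [show i + (j - i) = j by abel] at hk
  have hi : S.R i ≠ 0 := by
    intro h0
    have := S.norm_R i
    rw [h0, norm_zero] at this
    exact zero_ne_one this
  have h1 := h.smul (neg_ne_zero.mpr hi) (S.σ i)
  unfold Lk
  have h2 : (fun t => constel S e t (some j) - constel S e t (some i)) =
      fun t => -S.R i * dif (S.R (j - i)) (S.σ (j - i)) e (t + S.σ i) := by
    funext t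
    have hper : Function.Periodic (kz e) (2 * π) := kz_add_two_pi he
    simp only [constel, pl, dif]
    have h3 : kz e (t + S.σ j) = kz e (t + S.σ i + S.σ (j - i)) := by
      rw [hk, ← hper.int_mul k (t + S.σ i + S.σ (j - i))]
      congr 1
      ring
    rw [h3, hR]
    ring
  rw [h2]
  exact h1

theorem lk_sun {e : ℝ} (he : |e| < 1) (j : J) :
    Lk (constel S e) none (some j) 1 ∧ Lk (constel S e) (some j) none 1 := by
  have hi : S.R j ≠ 0 := by
    intro h0
    have := S.norm_R j
    rw [h0, norm_zero] at this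
    exact zero_ne_one this
  constructor
  · have h1 := (wind_kz he).smul hi (S.σ j)
    unfold Lk
    simpa [constel, pl] using h1
  · have h1 := (wind_kz he).smul (neg_ne_zero.mpr hi) (S.σ j)
    unfold Lk
    simpa [constel, pl] using h1

theorem free_of_wind {e : ℝ} (h : ∀ j : J, j ≠ 0 → ∃ n, Wind (dif (S.R j) (S.σ j) e) n) : Free S e := by
  intro j hj t h0
  obtain ⟨n, hn⟩ := h j hj
  exact hn.1 t (sub_eq_zero.mpr h0)

/-- planets on the same line, shifted in time: linking number `1` -/
theorem wind_same_line {σ e : ℝ} (hσ : Real.sin (σ / 2) ≠ 0) (he : 0 ≤ e) (he1 : e < 1) :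
    Wind (dif 1 σ e) 1 := by
  obtain ⟨x, hx, n, rfl⟩ := exists_half hσ
  have h1 := wind_dif_one (x := x) (α := 0) hx ⟨le_rfl, Real.pi_pos⟩ he he1 (Or.inl ?_)
  · rw [dif_shift (by rw [abs_of_nonneg he]; exact he1.le)]
    simpa using h1
  · have h2 := dd_strictAntiOn (x := x) (α := 0) hx ⟨le_rfl, Real.pi_pos.le⟩
      (a := e) (b := 1) ⟨by linarith, he1.le⟩ ⟨by norm_num, le_rfl⟩ he1
    have h3 : dd x 0 1 = 0 := by
      unfold dd
      simp
    linarith

/-- planets moving at the same time on different rays: linking number `1` -/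
theorem wind_same_time {R : ℂ} {σ e : ℝ} (hR : R ≠ 1) (hσ : Real.sin (σ / 2) = 0) (he : |e| < 1) :
    Wind (dif R σ e) 1 := by
  obtain ⟨n, hn⟩ := Real.sin_eq_zero_iff.mp hσ
  have h4 : σ = n * (2 * π) := by linarith
  have hper : Function.Periodic (kz e) (2 * π) := kz_add_two_pi he.le
  have h1 := (wind_kz he).smul (sub_ne_zero.mpr hR.symm) 0
  have h2 : dif R σ e = fun t => (1 - R) * kz e (t + 0) := by
    funext t
    unfold dif
    rw [h4, hper.int_mul n, add_zero]
    ring
  rw [h2]
  exact h1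

end Pool.Agent.Helper43.Kep
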