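import Pool.Agent.Helper43.Kep.XColl

/-!
KEP XGRP: the cyclic constellations `R_j = e^{2πij/m}`, `σ_j = 2πj/m` and the product constellations.
-/

set_option autoImplicit false

namespace Pool.Agent.Helper43.Kep

open Real Set Filter Topology

private theorem exp_nat_period {m : ℕ} [NeZero m] (a b : ZMod m) (w : ℂ) (hw : w * m = 2 * π * Complex.I) :
    Complex.exp (w * ((a + b).val : ℂ)) = Complex.exp (w * (a.val : ℂ)) * Complex.exp (w * (b.val : ℂ)) := by
  rw [← Complex.exp_add, Complex.exp_eq_exp_iff_exists_int]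
  have h1 := ZMod.val_add a b
  have h2 := Nat.mod_add_div (a.val + b.val) m
  rw [← h1] at h2
  refine ⟨-(((a.val + b.val) / m : ℕ) : ℤ), ?_⟩
  have h3 : (a.val : ℂ) + b.val = (a + b).val + (m : ℂ) * (((a.val + b.val) / m : ℕ) : ℂ) := by
    exact_mod_cast h2.symm
  rw [Int.cast_neg, Int.cast_natCast]
  linear_combination -w * h3 - (((a.val + b.val) / m : ℕ) : ℂ) * hw

private theorem shift_nat_period {m : ℕ} [NeZero m] (a b : ZMod m) :
    ∃ n : ℤ, 2 * π * ((a + b).val : ℝ) / m =
      2 * π * (a.val : ℝ) / m + 2 * π * (b.val : ℝ) / m + 2 * π * n := by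
  have h1 := ZMod.val_add a b
  have h2 := Nat.mod_add_div (a.val + b.val) m
  rw [← h1] at h2
  refine ⟨-(((a.val + b.val) / m : ℕ) : ℤ), ?_⟩
  have h3 : (a.val : ℝ) + b.val = (a + b).val + (m : ℝ) * (((a.val + b.val) / m : ℕ) : ℝ) := by
    exact_mod_cast h2.symm
  have hm : (m : ℝ) ≠ 0 := by exact_mod_cast NeZero.ne m
  rw [Int.cast_neg, Int.cast_natCast]
  field_simp
  linarith

/-- the cyclic constellation: planet `j` is rotated by `2πj/m` and shifted in time by `2πj/m` -/
noncomputable def cyc (m : ℕ) [NeZero m] : Sym (ZMod m) where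
  R j := Complex.exp (((2 * (π * (j.val : ℝ) / m) : ℝ) : ℂ) * Complex.I)
  σ j := 2 * (π * (j.val : ℝ) / m)
  norm_R _ := Complex.norm_exp_ofReal_mul_I _
  R_add a b := by
    have hm : (m : ℂ) ≠ 0 := by exact_mod_cast NeZero.ne m
    have h := exp_nat_period a b (2 * π * Complex.I / m) (by field_simp)
    have h1 : ∀ c : ZMod m, ((2 * (π * (c.val : ℝ) / m) : ℝ) : ℂ) * Complex.I =
        2 * π * Complex.I / m * (c.val : ℂ) := by
      intro c
      push_cast
      ring
    rw [h1, h1, h1, h]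
  σ_add a b := by
    obtain ⟨n, hn⟩ := shift_nat_period a b
    refine ⟨n, ?_⟩
    have h1 : ∀ c : ZMod m, 2 * (π * (c.val : ℝ) / m) = 2 * π * (c.val : ℝ) / m := fun c => by ring
    rw [h1, h1, h1, hn]

/-- the product constellation: planet `(a, b)` is rotated by `2πa/p` and shifted in time by `2πb/q` -/
noncomputable def prodS (p q : ℕ) [NeZero p] [NeZero q] : Sym (ZMod p × ZMod q) where
  R j := Complex.exp (((2 * (π * (j.1.val : ℝ) / p) : ℝ) : ℂ) * Complex.I)
  σ j := 2 * (π * (j.2.val : ℝ) / q)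
  norm_R _ := Complex.norm_exp_ofReal_mul_I _
  R_add a b := (cyc p).R_add a.1 b.1
  σ_add a b := (cyc q).σ_add a.2 b.2

private theorem cyc_lk {m k : ℕ} [NeZero m] (hm : 2 * (k + 1) ≤ m) {e : ℝ} (he : 0 < e) (he1 : e < 1)
    (hk : 0 < dd (π * k / m) (π * k / m) e)
    (hk' : dd (π * (k + 1 : ℕ) / m) (π * (k + 1 : ℕ) / m) e < 0) {j : ZMod m} (hj : j ≠ 0) (hk0 : 1 ≤ k) :
    Wind (dif ((cyc m).R j) ((cyc m).σ j) e) (if j.val ≤ k ∨ (-j).val ≤ k then 1 else 0) := by
  have hab : |e| < 1 := by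
    rw [abs_of_pos he]
    exact he1
  have hπ := Real.pi_pos
  have hm0 : (0 : ℝ) < m := by exact_mod_cast Nat.pos_of_ne_zero (NeZero.ne m)
  have hv0 : 0 < j.val := Nat.pos_of_ne_zero (by rwa [Ne, ZMod.val_eq_zero])
  have hvm : j.val < m := ZMod.val_lt j
  have hneg : (-j).val = m - j.val := by
    have : NeZero j := ⟨hj⟩
    exact ZMod.val_neg_of_ne_zero j
  have pos : ∀ d : ℕ, 0 < d → 0 < π * (d : ℝ) / m := by
    intro d hd
    have : (0 : ℝ) < d := by exact_mod_cast hd
    positivity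
  have lt : ∀ d d' : ℕ, d < d' → π * (d : ℝ) / m < π * (d' : ℝ) / m := by
    intro d d' hd
    have : (d : ℝ) < d' := by exact_mod_cast hd
    apply div_lt_div_of_pos_right _ hm0
    exact mul_lt_mul_of_pos_left this hπ
  have top : π * (m : ℝ) / m = π := by field_simp
  have anti : ∀ d d' : ℕ, 0 < d → d ≤ d' → d' < m →
      dd (π * (d' : ℝ) / m) (π * (d' : ℝ) / m) e ≤ dd (π * (d : ℝ) / m) (π * (d : ℝ) / m) e := by
    intro d d' h0 h1 h2
    rcases h1.lt_or_eq with h3 | h3
    · refine (dd_anti_x hab (pos d h0) (lt d d' h3) ?_).le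
      have := lt d' m h2
      rwa [top] at this
    · rw [h3]
  have hx : π * (j.val : ℝ) / m ∈ Ioo 0 π := ⟨pos _ hv0, by
    have := lt j.val m hvm
    rwa [top] at this⟩
  have hcomp : π - π * (j.val : ℝ) / m = π * ((m - j.val : ℕ) : ℝ) / m := by
    rw [Nat.cast_sub hvm.le]
    field_simp
  show Wind (dif (Complex.exp (((2 * (π * (j.val : ℝ) / m) : ℝ) : ℂ) * Complex.I))
    (2 * (π * (j.val : ℝ) / m)) e) _
  split_ifs with hif
  · apply wind_dif_one hx ⟨hx.1.le, hx.2⟩ he.le he1
    rcases hif with h | h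
    · left
      exact hk.trans_le (anti _ _ hv0 h (by omega))
    · right
      rw [hneg] at h
      rw [hcomp]
      exact hk.trans_le (anti _ _ (by omega) h (by omega))
  · push Not at hif
    rw [hneg] at hif
    apply wind_dif_zero hx hx he he1
    · exact (anti _ _ (by omega) (by omega) hvm).trans_lt hk'
    · rw [hcomp]
      exact (anti _ _ (by omega) (by omega) (by omega)).trans_lt hk'

/-- the cyclic constellations: for every `k ≥ 1`, `m ≥ 2(k+1)` a braid type of `m + 1` strands in which planets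
at cyclic distance `≤ k` have linking number `1` and the others `0` -/
theorem cyc_main {m k : ℕ} [NeZero m] (hk : 1 ≤ k) (hm : 2 * (k + 1) ≤ m) :
    ∃ e ∈ Ioo (0 : ℝ) 1, Realised (cyc m) e ∧ Free (cyc m) e ∧
      (∀ i j : ZMod m, i ≠ j → Lk (constel (cyc m) e) (some i) (some j)
        (if (j - i).val ≤ k ∨ (i - j).val ≤ k then 1 else 0)) ∧
      ∀ j : ZMod m, Lk (constel (cyc m) e) none (some j) 1 ∧ Lk (constel (cyc m) e) (some j) none 1 := by
  have hπ := Real.pi_pos
  have hm0 : (0 : ℝ) < m := by exact_mod_cast Nat.pos_of_ne_zero (NeZero.ne m)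
  have hmem : ∀ d : ℕ, 0 < d → d < m → π * (d : ℝ) / m ∈ Ioo 0 π := by
    intro d h1 h2
    have h3 : (0 : ℝ) < d := by exact_mod_cast h1
    have h4 : (d : ℝ) < m := by exact_mod_cast h2
    constructor
    · positivity
    · rw [div_lt_iff₀ hm0]
      exact mul_lt_mul_of_pos_left h4 hπ
  set y := π * ((k + 1 : ℕ) : ℝ) / m with hy
  set x := π * (k : ℝ) / m with hx
  have hxm : x ∈ Ioo 0 π := hmem k (by omega) (by omega)
  have hym : y ∈ Ioo 0 π := hmem (k + 1) (by omega) (by omega)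
  have hxy : x < y := by
    apply div_lt_div_of_pos_right _ hm0
    apply mul_lt_mul_of_pos_left _ hπ
    exact_mod_cast Nat.lt_succ_self k
  have cont : ∀ z : ℝ, ContinuousOn (dd z z) (Icc 0 1) := fun z =>
    (dd_continuousOn z z).mono (Icc_subset_Icc (by norm_num) le_rfl)
  have hy0 : 0 ≤ dd y y 0 := by
    rw [dd_zero]
    apply Real.cos_nonneg_of_mem_Icc
    constructor
    · linarith [hym.1]
    · have h1 : y ≤ π / 2 := by
        rw [hy, div_le_div_iff₀ hm0 (by norm_num)]
        have : (((k + 1 : ℕ) : ℝ)) * 2 ≤ m := by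
          have : ((k + 1) * 2 : ℕ) ≤ m := by omega
          exact_mod_cast this
        nlinarith
      linarith
  have hy1 : dd y y 1 < 0 := dd_one_neg hym ⟨hym.1, hym.2.le⟩
  have hx1 : dd x x 1 < 0 := dd_one_neg hxm ⟨hxm.1, hxm.2.le⟩
  obtain ⟨em, hem, hem0⟩ := intermediate_value_Icc' zero_le_one (cont y) ⟨hy1.le, hy0⟩
  have hem1 : em < 1 := by
    rcases hem.2.lt_or_eq with h | h
    · exact h
    · rw [h] at hem0
      linarith
  have hxpos : 0 < dd x x em := by
    rw [← hem0]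
    exact dd_anti_x (by rw [abs_of_nonneg hem.1]; exact hem1) hxm.1 hxy hym.2
  have c2 : ContinuousOn (dd x x) (Icc em 1) := (cont x).mono (Icc_subset_Icc hem.1 le_rfl)
  -- the upper collision
  obtain ⟨ep, hep, hep0⟩ := intermediate_value_Icc' hem1.le c2 ⟨hx1.le, hxpos.le⟩
  have hep1 : ep < 1 := by
    rcases hep.2.lt_or_eq with h | h
    · exact h
    · rw [h] at hep0
      linarith
  have hemp : em < ep := by
    rcases hep.1.lt_or_eq with h | h
    · exact h
    · rw [← h] at hep0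
      linarith
  have hxI : x ∈ Ioo 0 π := hxm
  have antix := dd_strictAntiOn hxm ⟨hxm.1.le, hxm.2.le⟩
  have antiy := dd_strictAntiOn hym ⟨hym.1.le, hym.2.le⟩
  set e := (em + ep) / 2 with he
  have he1 : em < e := by rw [he]; linarith
  have he2 : e < ep := by rw [he]; linarith
  have he0 : 0 < e := hem.1.trans_lt he1
  have hel : e < 1 := he2.trans hep1
  have mI : ∀ z : ℝ, 0 ≤ z → z ≤ 1 → z ∈ Icc (-1 : ℝ) 1 := fun z h h' => ⟨by linarith, h'⟩
  have hxe : 0 < dd x x e := by
    rw [← hep0]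
    exact antix (mI e he0.le hel.le) (mI ep (he0.trans he2).le hep1.le) he2
  have hye : dd y y e < 0 := by
    rw [← hem0]
    exact antiy (mI em hem.1 hem1.le) (mI e he0.le hel.le) he1
  have habs : |e| < 1 := by
    rw [abs_of_pos he0]
    exact hel
  have hW := fun (j : ZMod m) (hj : j ≠ 0) => cyc_lk (k := k) hm he0 hel hxe hye hj hk
  have hfree : Free (cyc m) e := free_of_wind (cyc m) fun j hj => ⟨_, hW j hj⟩
  have hcoll : ∀ (d : ℕ) (ε : ℝ), 0 < d → d < m → 0 ≤ ε → ε < 1 →
      dd (π * (d : ℝ) / m) (π * (d : ℝ) / m) ε = 0 → Coll (cyc m) ε := by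
    intro d ε h1 h2 h3 h4 h5
    have hv : ((d : ZMod m)).val = d := ZMod.val_cast_of_lt h2
    have hε : |ε| < 1 := by
      rw [abs_of_nonneg h3]
      exact h4
    refine ⟨(d : ZMod m), ?_, -(π * (d : ℝ) / m), ?_, ?_⟩
    · intro h0
      rw [← ZMod.val_eq_zero, hv] at h0
      omega
    · have := coll_of_dd hε.le h5
      show kz ε (-(π * (d : ℝ) / m)) =
        Complex.exp (((2 * (π * ((d : ZMod m).val : ℝ) / m) : ℝ) : ℂ) * Complex.I) *
          kz ε (-(π * (d : ℝ) / m) + 2 * (π * ((d : ZMod m).val : ℝ) / m))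
      rw [hv]
      exact this
    · intro h0
      have := norm_kz_ge hε.le (-(π * (d : ℝ) / m))
      rw [h0, norm_zero] at this
      linarith
  refine ⟨e, ⟨he0, hel⟩, ?_, hfree, fun i j hij => ?_, fun j => lk_sun (cyc m) habs j⟩
  · exact realised (cyc m) (em := em) (by linarith [hem.1]) he1 he2 hep1.le hfree
      (hcoll (k + 1) em (by omega) (by omega) hem.1 hem1 hem0)
      (hcoll k ep (by omega) (by omega) (he0.trans he2).le hep1 hep0)
  · apply lk_planets (cyc m) habs.le
    have := hW (j - i) (sub_ne_zero.mpr hij.symm)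
    rwa [neg_sub] at this

private theorem sin_pi_mul_div_ne {q b : ℕ} (h0 : 0 < b) (h1 : b < q) : Real.sin (π * (b : ℝ) / q) ≠ 0 := by
  have hq : (0 : ℝ) < q := by exact_mod_cast h0.trans h1
  have hb : (0 : ℝ) < b := by exact_mod_cast h0
  have hb1 : (b : ℝ) < q := by exact_mod_cast h1
  apply ne_of_gt
  apply Real.sin_pos_of_pos_of_lt_pi
  · positivity
  · rw [div_lt_iff₀ hq]
    exact mul_lt_mul_of_pos_left hb1 Real.pi_pos

private theorem exp_ne_one {p a : ℕ} (h0 : 0 < a) (h1 : a < p) :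
    Complex.exp (((2 * (π * (a : ℝ) / p) : ℝ) : ℂ) * Complex.I) ≠ 1 := by
  intro h
  have h2 := congrArg Complex.re h
  rw [Complex.exp_ofReal_mul_I_re, Complex.one_re, Real.cos_two_mul] at h2
  have h3 := Real.sin_sq_add_cos_sq (π * (a : ℝ) / p)
  have h4 := sin_pi_mul_div_ne h0 h1
  apply h4
  have : Real.sin (π * (a : ℝ) / p) ^ 2 = 0 := by linarith
  exact pow_eq_zero_iff (two_ne_zero) |>.mp this

/-- the product constellations -/
theorem prod_main {p q : ℕ} [NeZero p] [NeZero q] (hq : 2 ≤ q) :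
    (∀ e ∈ Ioo (-1 : ℝ) 1, Free (prodS p q) e → Realised (prodS p q) e) ∧
    ∃ τ ∈ Ico (0 : ℝ) 1, ∀ e ∈ Ioo τ 1, Free (prodS p q) e ∧
      (∀ i j : ZMod p × ZMod q, i ≠ j → Lk (constel (prodS p q) e) (some i) (some j)
        (if i.1 = j.1 ∨ i.2 = j.2 then 1 else 0)) ∧
      ∀ j : ZMod p × ZMod q,
        Lk (constel (prodS p q) e) none (some j) 1 ∧ Lk (constel (prodS p q) e) (some j) none 1 := by
  have hπ := Real.pi_pos
  have hq0 : (0 : ℝ) < q := by exact_mod_cast (by omega : 0 < q)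
  have : Fact (1 < q) := ⟨by omega⟩
  constructor
  · intro e he hfree
    have habs : |e| < 1 := abs_lt.mpr he
    refine realised' (prodS p q) (e1 := 1) habs le_rfl hfree ⟨(0, 1), ?_, -(π * 1 / q), ?_, ?_⟩
    · intro h
      have := congrArg Prod.snd h
      simp at this
    · have h1 : dd (π * 1 / q) 0 1 = 0 := by
        unfold dd
        simp
      have h2 := coll_of_dd (by simp) h1
      show kz 1 (-(π * 1 / q)) =
        Complex.exp (((2 * (π * (((0, 1) : ZMod p × ZMod q).1.val : ℝ) / p) : ℝ) : ℂ) * Complex.I) *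
          kz 1 (-(π * 1 / q) + 2 * (π * (((0, 1) : ZMod p × ZMod q).2.val : ℝ) / q))
      have h3 : (((0, 1) : ZMod p × ZMod q).1.val : ℝ) = 0 := by simp
      have h4 : (((0, 1) : ZMod p × ZMod q).2.val : ℝ) = 1 := by
        rw [ZMod.val_one]
        simp
      rw [h3, h4, h2]
      norm_num
    · rw [kz_neg (by simp)]
      intro h0
      rw [map_eq_zero] at h0
      refine kz_ne_zero_of_mem (e := 1) (by simp) ⟨?_, ?_⟩ h0
      · positivity
      · rw [mul_one, div_lt_iff₀ hq0]
        have : (1 : ℝ) < q := by exact_mod_cast (by omega : 1 < q)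
        nlinarith
  · -- thresholds of the mixed pairs
    have hthr : ∀ j : ZMod p × ZMod q, j.1 ≠ 0 → j.2 ≠ 0 → ∃ τ ∈ Ico (0 : ℝ) 1, ∀ e ∈ Ioo τ 1,
        Wind (dif ((prodS p q).R j) ((prodS p q).σ j) e) 0 := by
      intro j h1 h2
      have v1 : 0 < j.1.val := Nat.pos_of_ne_zero (by rwa [Ne, ZMod.val_eq_zero])
      have v2 : 0 < j.2.val := Nat.pos_of_ne_zero (by rwa [Ne, ZMod.val_eq_zero])
      obtain ⟨τ, hτ, -, -, h3⟩ := threshold (R := (prodS p q).R j) (σ := (prodS p q).σ j)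
        ((prodS p q).norm_R j) (exp_ne_one v1 (ZMod.val_lt _)) (by
          show Real.sin (2 * (π * (j.2.val : ℝ) / q) / 2) ≠ 0
          rw [mul_div_cancel_left₀ _ (two_ne_zero)]
          exact sin_pi_mul_div_ne v2 (ZMod.val_lt _))
      exact ⟨τ, hτ, h3⟩
    choose! τ hτ hτ' using hthr
    have hmax : ∃ T ∈ Ico (0 : ℝ) 1, ∀ j : ZMod p × ZMod q, j.1 ≠ 0 → j.2 ≠ 0 → τ j ≤ T := by
      classical
      let s : Finset (ZMod p × ZMod q) := Finset.univ.filter fun j => j.1 ≠ 0 ∧ j.2 ≠ 0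
      rcases s.eq_empty_or_nonempty with hs | hs
      · refine ⟨0, ⟨le_rfl, one_pos⟩, fun j h1 h2 => ?_⟩
        exfalso
        have : j ∈ s := by
          simp only [s, Finset.mem_filter, Finset.mem_univ, true_and]
          exact ⟨h1, h2⟩
        rw [hs] at this
        exact absurd this (Finset.notMem_empty j)
      · obtain ⟨j0, hj0, hmx⟩ := s.exists_max_image τ hs
        simp only [s, Finset.mem_filter, Finset.mem_univ, true_and] at hj0 hmx
        exact ⟨τ j0, hτ j0 hj0.1 hj0.2, fun j h1 h2 => hmx j ⟨h1, h2⟩⟩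
    obtain ⟨T, hT, hT'⟩ := hmax
    refine ⟨T, hT, fun e he => ?_⟩
    have he0 : 0 < e := hT.1.trans_lt he.1
    have habs : |e| < 1 := by
      rw [abs_of_pos he0]
      exact he.2
    have hW : ∀ j : ZMod p × ZMod q, j ≠ 0 → Wind (dif ((prodS p q).R j) ((prodS p q).σ j) e)
        (if j.1 = 0 ∨ j.2 = 0 then 1 else 0) := by
      intro j hj
      by_cases h1 : j.1 = 0
      · rw [if_pos (Or.inl h1)]
        have h2 : j.2 ≠ 0 := fun h2 => hj (Prod.ext h1 h2)
        have v2 : 0 < j.2.val := Nat.pos_of_ne_zero (by rwa [Ne, ZMod.val_eq_zero])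
        have hR : (prodS p q).R j = 1 := by
          show Complex.exp (((2 * (π * (j.1.val : ℝ) / p) : ℝ) : ℂ) * Complex.I) = 1
          rw [h1]
          simp
        rw [hR]
        apply wind_same_line _ he0.le he.2
        show Real.sin (2 * (π * (j.2.val : ℝ) / q) / 2) ≠ 0
        rw [mul_div_cancel_left₀ _ (two_ne_zero)]
        exact sin_pi_mul_div_ne v2 (ZMod.val_lt _)
      · have v1 : 0 < j.1.val := Nat.pos_of_ne_zero (by rwa [Ne, ZMod.val_eq_zero])
        by_cases h2 : j.2 = 0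
        · rw [if_pos (Or.inr h2)]
          apply wind_same_time (exp_ne_one v1 (ZMod.val_lt _)) _ habs
          show Real.sin (2 * (π * (j.2.val : ℝ) / q) / 2) = 0
          rw [h2]
          simp
        · rw [if_neg (by tauto)]
          exact hτ' j h1 h2 e ⟨(hT' j h1 h2).trans_lt he.1, he.2⟩
    refine ⟨free_of_wind _ fun j hj => ⟨_, hW j hj⟩, fun i j hij => ?_, fun j => lk_sun _ habs j⟩
    apply lk_planets _ habs.le
    have := hW (j - i) (sub_ne_zero.mpr hij.symm)
    simp only [Prod.fst_sub, Prod.snd_sub, sub_eq_zero] at this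
    have h1 : (j.1 = i.1 ∨ j.2 = i.2) ↔ (i.1 = j.1 ∨ i.2 = j.2) := by
      constructor
      · rintro (h | h)
        · exact Or.inl h.symm
        · exact Or.inr h.symm
      · rintro (h | h)
        · exact Or.inl h.symm
        · exact Or.inr h.symm
    simp only [h1] at this
    exact this

end Pool.Agent.Helper43.Kep
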