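import Pool.Agent.Helper43.Kep.XWind

/-!
KEP XNEST: nested linking (the linking matrices of iterated cables of full twists) and the obstruction.
-/

set_option autoImplicit false

namespace Pool.Agent.Helper43.Kep

open Real Set Filter Topology

/-- The linking numbers are nested: every set of at least two bodies splits into two nonempty groups such that all
linking numbers between the groups are equal.  The braids obtained from one strand by replacing repeatedly a strand
by some number of parallel strands with some number of full twists (iterated cables of full twists) have this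
property: split at the first replacement separating the set. -/
def Nested {B : Type} [DecidableEq B] (x : ℝ → B → ℂ) : Prop :=
  ∀ s : Finset B, 2 ≤ s.card → ∃ s₁ s₂ : Finset B, s₁.Nonempty ∧ s₂.Nonempty ∧ Disjoint s₁ s₂ ∧
    s₁ ∪ s₂ = s ∧ ∃ n : ℤ, ∀ a ∈ s₁, ∀ b ∈ s₂, Lk x a b n

theorem Lk.symm {B : Type} {x : ℝ → B → ℂ} {a b : B} {n : ℤ} (h : Lk x a b n) : Lk x b a n := by
  have h1 := Wind.smul h (c := -1) (by norm_num) 0
  unfold Lk
  have h2 : (fun t => x t a - x t b) = fun t => -1 * (x (t + 0) b - x (t + 0) a) := by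
    funext t
    rw [add_zero]
    ring
  rw [h2]
  exact h1

theorem not_nested {B : Type} [DecidableEq B] {x : ℝ → B → ℂ} {a b c d : B}
    (hab : Lk x a b 1) (hbc : Lk x b c 1) (hcd : Lk x c d 1) (hac : Lk x a c 0) (hbd : Lk x b d 0)
    (had : Lk x a d 0) (hne : a ≠ b) : ¬ Nested x := by
  intro h
  obtain ⟨s₁, s₂, h1, h2, hd, hu, n, hn⟩ := h {a, b, c, d} (by
    have : ({a, b} : Finset B) ⊆ {a, b, c, d} := by
      intro y hy
      simp only [Finset.mem_insert, Finset.mem_singleton] at hy ⊢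
      tauto
    calc 2 = ({a, b} : Finset B).card := by rw [Finset.card_pair hne]
      _ ≤ _ := Finset.card_le_card this)
  have hmem : ∀ y, y ∈ s₁ ∪ s₂ ↔ y ∈ ({a, b, c, d} : Finset B) := fun y => by rw [hu]
  have hor : ∀ y ∈ ({a, b, c, d} : Finset B), y ∈ s₁ ∨ y ∈ s₂ := fun y hy =>
    Finset.mem_union.mp ((hmem y).mpr hy)
  have hnot : ∀ y, y ∈ s₁ → y ∉ s₂ := fun y hy => Finset.disjoint_left.mp hd hy
  have ha := hor a (by simp)
  have hb := hor b (by simp)
  have hc := hor c (by simp)
  have hd' := hor d (by simp)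
  have key : ∀ u v : B, ∀ l : ℤ, Lk x u v l → n ≠ l → (u ∈ s₁ ∨ u ∈ s₂) → (v ∈ s₁ ∨ v ∈ s₂) →
      (u ∈ s₁ ↔ v ∈ s₁) := by
    intro u v l hl hnl hu hv
    constructor
    · intro h
      rcases hv with h' | h'
      · exact h'
      · exact absurd ((hn u h v h').unique hl) hnl
    · intro h
      rcases hu with h' | h'
      · exact h'
      · exact absurd ((hn v h u h').unique hl.symm) hnl
  have hall : (a ∈ s₁ ↔ b ∈ s₁) ∧ (a ∈ s₁ ↔ c ∈ s₁) ∧ (a ∈ s₁ ↔ d ∈ s₁) := by
    by_cases h0 : n = 0
    · have n1 : n ≠ 1 := by omega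
      have k1 := key a b 1 hab n1 ha hb
      have k2 := key b c 1 hbc n1 hb hc
      have k3 := key c d 1 hcd n1 hc hd'
      tauto
    · have k1 := key a c 0 hac h0 ha hc
      have k2 := key b d 0 hbd h0 hb hd'
      have k3 := key a d 0 had h0 ha hd'
      tauto
  obtain ⟨u, hu1⟩ := h1
  obtain ⟨v, hv2⟩ := h2
  have hu' : u ∈ ({a, b, c, d} : Finset B) := (hmem u).mp (Finset.mem_union_left _ hu1)
  have hv' : v ∈ ({a, b, c, d} : Finset B) := (hmem v).mp (Finset.mem_union_right _ hv2)
  have hv1 : v ∉ s₁ := fun h => hnot v h hv2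
  simp only [Finset.mem_insert, Finset.mem_singleton] at hu' hv'
  have ha1 : a ∈ s₁ := by
    rcases hu' with rfl | rfl | rfl | rfl
    · exact hu1
    · exact hall.1.mpr hu1
    · exact hall.2.1.mpr hu1
    · exact hall.2.2.mpr hu1
  rcases hv' with rfl | rfl | rfl | rfl
  · exact hv1 ha1
  · exact hv1 (hall.1.mp ha1)
  · exact hv1 (hall.2.1.mp ha1)
  · exact hv1 (hall.2.2.mp ha1)

theorem SameBraid.nested {B : Type} [DecidableEq B] {x y : ℝ → B → ℂ} (h : SameBraid (2 * π) x y)
    (hx : Nested x) : Nested y := by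
  intro s hs
  obtain ⟨s₁, s₂, h1, h2, hd, hu, n, hn⟩ := hx s hs
  refine ⟨s₁, s₂, h1, h2, hd, hu, n, fun a ha b hb => ?_⟩
  have hab : a ≠ b := by
    rintro rfl
    exact Finset.disjoint_left.mp hd ha hb
  exact (h.lk hab).mp (hn a ha b hb)

end Pool.Agent.Helper43.Kep
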