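import Pool.Agent.Helper43.Kep.XWind
import Pool.Agent.Helper43.Kep.KzA

/-!
KEP XPAIR: the winding number of a pair of planets `z(t) - R z(t + σ)`: it is `1` if the pair does not collide
for all eccentricities between `0` and `e`, and `0` if it does not collide for all eccentricities between `e` and
`1`.
-/

set_option autoImplicit false

namespace Pool.Agent.Helper43.Kep

open Real Set Filter Topology

/-- the difference of two planets -/
noncomputable def dif (R : ℂ) (σ e t : ℝ) : ℂ := kz e t - R * kz e (t + σ)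

theorem dif_continuousOn (R : ℂ) (σ : ℝ) :
    ContinuousOn (fun p : ℝ × ℝ => dif R σ p.1 p.2) (Icc (-1) 1 ×ˢ univ) := by
  have hA : ContinuousOn (fun p : ℝ × ℝ => kz p.1 p.2) (Icc (-1 : ℝ) 1 ×ˢ univ) := kz_continuousOn
  have h1 : ContinuousOn (fun p : ℝ × ℝ => (p.1, p.2 + σ)) (Icc (-1 : ℝ) 1 ×ˢ univ) := by fun_prop
  have hm : MapsTo (fun p : ℝ × ℝ => (p.1, p.2 + σ)) (Icc (-1 : ℝ) 1 ×ˢ univ)
      (Icc (-1 : ℝ) 1 ×ˢ univ) := by
    intro p hp
    rw [Set.mem_prod] at hp ⊢
    exact ⟨hp.1, mem_univ _⟩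
  have hB := hA.comp h1 hm
  have hC := hA.sub (continuousOn_const (c := R) |>.mul hB)
  refine hC.congr fun p _ => ?_
  rfl

theorem dif_add_two_pi {R : ℂ} {σ e : ℝ} (he : |e| ≤ 1) (t : ℝ) :
    dif R σ e (t + 2 * π) = dif R σ e t := by
  unfold dif
  rw [kz_add_two_pi he, show t + 2 * π + σ = t + σ + 2 * π by ring, kz_add_two_pi he]

theorem kz_zero_ecc (t : ℝ) : kz 0 t = Complex.exp ((t : ℂ) * Complex.I) := by
  have h : ecc 0 t = t := ecc_eq (by simp) (by simp)
  apply Complex.ext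
  · rw [Complex.exp_ofReal_mul_I_re]
    simp [kz, h]
  · rw [Complex.exp_ofReal_mul_I_im]
    simp [kz, h]

theorem wind_pair_one {R : ℂ} {σ e : ℝ} (he : 0 ≤ e) (he1 : e ≤ 1)
    (h : ∀ e' ∈ Icc 0 e, ∀ t, dif R σ e' t ≠ 0) : Wind (dif R σ e) 1 := by
  have h1 := Wind.homotopy (H := dif R σ) (n := 1) he
    ((dif_continuousOn R σ).mono (Set.prod_mono_left (Icc_subset_Icc (by norm_num) he1)))
    (fun s hs t => dif_add_two_pi (abs_le.mpr ⟨by linarith [hs.1], by linarith [hs.2]⟩) t) h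
  rw [← h1]
  have h2 : dif R σ 0 = fun t => (1 - R * Complex.exp ((σ : ℂ) * Complex.I)) *
      (fun t : ℝ => Complex.exp ((((1 : ℤ) * t : ℝ) : ℂ) * Complex.I)) (t + 0) := by
    funext t
    simp only [dif, kz_zero_ecc, add_zero]
    have h4 : ((((1 : ℤ) * t : ℝ) : ℂ) * Complex.I) = (t : ℂ) * Complex.I := by
      push_cast
      ring
    rw [h4]
    push_cast
    rw [add_mul, Complex.exp_add]
    ring
  have h3 : (1 - R * Complex.exp ((σ : ℂ) * Complex.I)) ≠ 0 := by
    intro h0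
    apply h 0 (left_mem_Icc.mpr he) 0
    rw [h2]
    simp only [h0, zero_mul]
  rw [h2]
  exact (wind_exp 1).smul h3 0

theorem wind_pair_zero {R : ℂ} {σ e : ℝ} (hR : ‖R‖ = 1) (hR1 : R ≠ 1) (he : -1 ≤ e) (he1 : e ≤ 1)
    (h : ∀ e' ∈ Icc e 1, ∀ t, dif R σ e' t ≠ 0) : Wind (dif R σ e) 0 := by
  have h1 := Wind.homotopy (H := dif R σ) (n := 0) he1
    ((dif_continuousOn R σ).mono (Set.prod_mono_left (Icc_subset_Icc he le_rfl)))
    (fun s hs t => dif_add_two_pi (abs_le.mpr ⟨by linarith [hs.1], by linarith [hs.2]⟩) t) h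
  rw [h1]
  have h11 : |(1 : ℝ)| ≤ 1 := by simp
  have hc : Continuous (dif R σ 1) := by
    unfold dif
    have := kz_continuous h11
    fun_prop
  have hre : R.re < 1 := by
    have h2 : R.re ≤ 1 := (Complex.re_le_norm R).trans hR.le
    rcases h2.lt_or_eq with h3 | h3
    · exact h3
    · exfalso
      apply hR1
      have h4 : ‖R‖ ^ 2 = R.re ^ 2 + R.im ^ 2 := by
        rw [← Complex.normSq_eq_norm_sq, Complex.normSq_apply]
        ring
      rw [hR, h3] at h4
      have h5 : R.im = 0 := by nlinarith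
      apply Complex.ext <;> simp [h3, h5]
  have hk : ∀ t, kz 1 t = ((Real.cos (ecc 1 t) - 1 : ℝ) : ℂ) := by
    intro t
    apply Complex.ext
    · rw [Complex.ofReal_re]
      rfl
    · rw [Complex.ofReal_im]
      simp [kz]
  refine wind_zero_of_re_pos (c := (starRingEnd ℂ) (R - 1)) hc (fun t => dif_add_two_pi h11 t)
    (fun t => ?_)
  have h5 := h 1 (right_mem_Icc.mpr he1) t
  set a := 1 - Real.cos (ecc 1 t) with ha
  set b := 1 - Real.cos (ecc 1 (t + σ)) with hb
  have ha0 : 0 ≤ a := by linarith [Real.cos_le_one (ecc 1 t)]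
  have hb0 : 0 ≤ b := by linarith [Real.cos_le_one (ecc 1 (t + σ))]
  have hd : dif R σ 1 t = -(a : ℂ) + R * b := by
    unfold dif
    rw [hk, hk, ha, hb]
    push_cast
    ring
  have hab : 0 < a + b := by
    rcases (add_nonneg ha0 hb0).lt_or_eq with h6 | h6
    · exact h6
    · exfalso
      apply h5
      have h7 : a = 0 := by linarith
      have h8 : b = 0 := by linarith
      rw [hd, h7, h8]
      simp
  have hn : R.re ^ 2 + R.im ^ 2 = 1 := by
    have h4 : ‖R‖ ^ 2 = R.re ^ 2 + R.im ^ 2 := by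
      rw [← Complex.normSq_eq_norm_sq, Complex.normSq_apply]
      ring
    rw [← h4, hR]
    norm_num
  have : ((starRingEnd ℂ) (R - 1) * dif R σ 1 t).re = (a + b) * (1 - R.re) := by
    rw [hd]
    simp
    linear_combination b * hn
  rw [this]
  exact mul_pos hab (by linarith)

theorem wind_kz {e : ℝ} (he : |e| < 1) : Wind (kz e) 1 := by
  have key : ∀ a b : ℝ, a ≤ b → |a| < 1 → |b| < 1 → (Wind (kz a) 1 ↔ Wind (kz b) 1) := by
    intro a b hab ha hb
    refine Wind.homotopy (H := kz) (n := 1) hab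
      (kz_continuousOn.mono (Set.prod_mono_left (Icc_subset_Icc (abs_lt.mp ha).1.le (abs_lt.mp hb).2.le)))
      (fun s hs t => kz_add_two_pi ?_ t) (fun s hs t h0 => ?_)
    · exact abs_le.mpr ⟨by linarith [hs.1, (abs_lt.mp ha).1], by linarith [hs.2, (abs_lt.mp hb).2]⟩
    · have h1 : |s| < 1 := abs_lt.mpr ⟨by linarith [hs.1, (abs_lt.mp ha).1], by
        linarith [hs.2, (abs_lt.mp hb).2]⟩
      have h2 := norm_kz_ge h1.le t
      rw [h0, norm_zero] at h2
      linarith
  have h0 : Wind (kz 0) 1 := by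
    have h2 : kz 0 = (fun t : ℝ => Complex.exp ((((1 : ℤ) * t : ℝ) : ℂ) * Complex.I)) := by
      funext t
      rw [kz_zero_ecc]
      simp
    rw [h2]
    exact wind_exp 1
  rcases le_total 0 e with h | h
  · exact (key 0 e h (by simp) he).mp h0
  · exact (key e 0 h he (by simp)).mpr h0

end Pool.Agent.Helper43.Kep
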