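import Pool.Agent.Helper43.Kep.XPair

/-!
KEP XTHR: at which eccentricity do the planets `z(t)` and `R z(t + σ)`, `R = e^{2iα}`, `σ = 2x`, collide?
The collision happens at `t = -x` or `t = π - x` (mod `2π`), and it is described by the functions
`dd x α e`, `dd (π - x) (π - α) e`, which are strictly decreasing in `e`.
-/

set_option autoImplicit false

namespace Pool.Agent.Helper43.Kep

open Real Set Filter Topology

/-- the collision function: the planets `z(t)` and `e^{2iα} z(t + 2x)` collide at `t = -x` iff it vanishes -/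
noncomputable def dd (x α e : ℝ) : ℝ :=
  Real.sqrt (1 - e) * Real.cos (ecc e x / 2) * Real.cos (α / 2) -
    Real.sqrt (1 + e) * Real.sin (ecc e x / 2) * Real.sin (α / 2)

/-- the positive factor -/
noncomputable def pp (x α e : ℝ) : ℝ :=
  Real.sqrt (1 - e) * Real.cos (ecc e x / 2) * Real.sin (α / 2) +
    Real.sqrt (1 + e) * Real.sin (ecc e x / 2) * Real.cos (α / 2)

theorem dd_im {x α e : ℝ} (he : |e| ≤ 1) :
    (Complex.exp ((α : ℂ) * Complex.I) * kz e x).im = 2 * dd x α e * pp x α e := by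
  have he' := abs_le.mp he
  have hp : Real.sqrt (1 - e) ^ 2 = 1 - e := Real.sq_sqrt (by linarith)
  have hq : Real.sqrt (1 + e) ^ 2 = 1 + e := Real.sq_sqrt (by linarith)
  have hpq : Real.sqrt (1 - e ^ 2) = Real.sqrt (1 - e) * Real.sqrt (1 + e) := by
    rw [← Real.sqrt_mul (by linarith)]
    congr 1
    ring
  have hc : Real.cos (ecc e x) = Real.cos (ecc e x / 2) ^ 2 - Real.sin (ecc e x / 2) ^ 2 := by
    rw [← Real.cos_two_mul', mul_div_cancel₀]
    norm_num
  have hs : Real.sin (ecc e x) = 2 * Real.sin (ecc e x / 2) * Real.cos (ecc e x / 2) := by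
    rw [← Real.sin_two_mul, mul_div_cancel₀]
    norm_num
  have hca : Real.cos α = Real.cos (α / 2) ^ 2 - Real.sin (α / 2) ^ 2 := by
    rw [← Real.cos_two_mul', mul_div_cancel₀]
    norm_num
  have hsa : Real.sin α = 2 * Real.sin (α / 2) * Real.cos (α / 2) := by
    rw [← Real.sin_two_mul, mul_div_cancel₀]
    norm_num
  have h1 := Real.sin_sq_add_cos_sq (ecc e x / 2)
  rw [Complex.mul_im, Complex.exp_ofReal_mul_I_re, Complex.exp_ofReal_mul_I_im]
  simp only [kz, dd, pp]
  rw [hpq, hc, hs, hca, hsa]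
  set c := Real.cos (ecc e x / 2)
  set s := Real.sin (ecc e x / 2)
  set C := Real.cos (α / 2)
  set S := Real.sin (α / 2)
  set p := Real.sqrt (1 - e)
  set q := Real.sqrt (1 + e)
  linear_combination (-2 * S * C * c ^ 2) * hp + (2 * S * C * s ^ 2) * hq + (2 * S * C * e) * h1

theorem ecc_mem {e x : ℝ} (he : |e| ≤ 1) (hx : x ∈ Ioo 0 π) : ecc e x ∈ Ioo 0 π := by
  constructor
  · rw [← ecc_zero he]
    exact ecc_strictMono he hx.1
  · conv_rhs => rw [← ecc_pi he]
    exact ecc_strictMono he hx.2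

theorem ecc_lt_ecc {e e' x : ℝ} (he : |e| ≤ 1) (he' : |e'| ≤ 1) (h : e < e') (hx : x ∈ Ioo 0 π) :
    ecc e x < ecc e' x := by
  have h1 := ecc_spec he' x
  have h2 : ecc e (ecc e' x - e * Real.sin (ecc e' x)) = ecc e' x := ecc_eq he rfl
  have h3 := ecc_mem he' hx
  have h4 := Real.sin_pos_of_pos_of_lt_pi h3.1 h3.2
  rw [← h2]
  apply ecc_strictMono he
  nlinarith

theorem half_pos' {y : ℝ} (h : y ∈ Ioo 0 π) : 0 < Real.sin (y / 2) ∧ 0 < Real.cos (y / 2) := by
  constructor
  · exact Real.sin_pos_of_pos_of_lt_pi (by linarith [h.1]) (by linarith [h.2, Real.pi_pos])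
  · exact Real.cos_pos_of_mem_Ioo ⟨by linarith [h.1, Real.pi_pos], by linarith [h.2]⟩

theorem half_nonneg' {y : ℝ} (h : y ∈ Icc 0 π) : 0 ≤ Real.sin (y / 2) ∧ 0 ≤ Real.cos (y / 2) := by
  constructor
  · exact Real.sin_nonneg_of_nonneg_of_le_pi (by linarith [h.1]) (by linarith [h.2, Real.pi_pos])
  · exact Real.cos_nonneg_of_mem_Icc ⟨by linarith [h.1, Real.pi_pos], by linarith [h.2]⟩

theorem pp_pos {x α e : ℝ} (he : |e| < 1) (hx : x ∈ Ioo 0 π) (hα : α ∈ Icc 0 π) : 0 < pp x α e := by
  have he' := abs_lt.mp he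
  have hp : 0 < Real.sqrt (1 - e) := Real.sqrt_pos.mpr (by linarith)
  have hq : 0 < Real.sqrt (1 + e) := Real.sqrt_pos.mpr (by linarith)
  obtain ⟨hs, hc⟩ := half_pos' (ecc_mem he.le hx)
  obtain ⟨hS, hC⟩ := half_nonneg' hα
  have h1 := Real.sin_sq_add_cos_sq (α / 2)
  unfold pp
  rcases hS.lt_or_eq with h | h
  · have h2 := mul_pos (mul_pos hp hc) h
    have h3 := mul_nonneg (mul_pos hq hs).le hC
    linarith
  · rw [← h] at h1 ⊢
    have h2 : 0 < Real.cos (α / 2) := by
      rcases hC.lt_or_eq with h3 | h3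
      · exact h3
      · rw [← h3] at h1
        norm_num at h1
    have h3 := mul_pos (mul_pos hq hs) h2
    linarith

theorem dd_continuousOn (x α : ℝ) : ContinuousOn (dd x α) (Icc (-1) 1) := by
  have hE : ContinuousOn (fun e => ecc e x) (Icc (-1 : ℝ) 1) := by
    have h1 : ContinuousOn (fun e : ℝ => (e, x)) (Icc (-1 : ℝ) 1) := by fun_prop
    have hm : MapsTo (fun e : ℝ => (e, x)) (Icc (-1 : ℝ) 1) (Icc (-1 : ℝ) 1 ×ˢ univ) := by
      intro p hp
      rw [Set.mem_prod]
      exact ⟨hp, mem_univ _⟩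
    exact ecc_continuousOn.comp h1 hm
  have hp : Continuous fun e : ℝ => Real.sqrt (1 - e) := by fun_prop
  have hq : Continuous fun e : ℝ => Real.sqrt (1 + e) := by fun_prop
  have h2 : ContinuousOn (fun e => Real.cos (ecc e x / 2)) (Icc (-1 : ℝ) 1) :=
    Real.continuous_cos.comp_continuousOn (hE.div_const 2)
  have h3 : ContinuousOn (fun e => Real.sin (ecc e x / 2)) (Icc (-1 : ℝ) 1) :=
    Real.continuous_sin.comp_continuousOn (hE.div_const 2)
  exact ((hp.continuousOn.mul h2).mul continuousOn_const).sub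
    ((hq.continuousOn.mul h3).mul continuousOn_const)

theorem dd_strictAntiOn {x α : ℝ} (hx : x ∈ Ioo 0 π) (hα : α ∈ Icc 0 π) :
    StrictAntiOn (dd x α) (Icc (-1) 1) := by
  intro e he e' he' hlt
  have ha : |e| ≤ 1 := abs_le.mpr ⟨he.1, he.2⟩
  have ha' : |e'| ≤ 1 := abs_le.mpr ⟨he'.1, he'.2⟩
  have hE := ecc_lt_ecc ha ha' hlt hx
  have h1 := ecc_mem ha hx
  have h2 := ecc_mem ha' hx
  obtain ⟨hs, hc⟩ := half_pos' h1
  obtain ⟨hs', hc'⟩ := half_pos' h2
  obtain ⟨hS, hC⟩ := half_nonneg' hα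
  have hcc : Real.cos (ecc e' x / 2) < Real.cos (ecc e x / 2) :=
    Real.cos_lt_cos_of_nonneg_of_le_pi (by linarith [h1.1]) (by linarith [h2.2, Real.pi_pos]) (by linarith)
  have hss : Real.sin (ecc e x / 2) < Real.sin (ecc e' x / 2) :=
    Real.sin_lt_sin_of_lt_of_le_pi_div_two (by linarith [h1.1, Real.pi_pos]) (by linarith [h2.2])
      (by linarith)
  have hp : Real.sqrt (1 - e') < Real.sqrt (1 - e) :=
    Real.sqrt_lt_sqrt (by linarith [he'.2]) (by linarith)
  have hq : Real.sqrt (1 + e) < Real.sqrt (1 + e') :=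
    Real.sqrt_lt_sqrt (by linarith [he.1]) (by linarith)
  have hp0 := Real.sqrt_nonneg (1 - e')
  have hq0 := Real.sqrt_nonneg (1 + e)
  have k1 : Real.sqrt (1 - e') * Real.cos (ecc e' x / 2) < Real.sqrt (1 - e) * Real.cos (ecc e x / 2) := by
    nlinarith [mul_pos (sub_pos.mpr hp) hc, mul_nonneg hp0 (sub_pos.mpr hcc).le]
  have k2 : Real.sqrt (1 + e) * Real.sin (ecc e x / 2) < Real.sqrt (1 + e') * Real.sin (ecc e' x / 2) := by
    nlinarith [mul_pos (sub_pos.mpr hq) hs', mul_nonneg hq0 (sub_pos.mpr hss).le]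
  have h1 := Real.sin_sq_add_cos_sq (α / 2)
  unfold dd
  rcases hS.lt_or_eq with h | h
  · nlinarith [mul_pos (sub_pos.mpr k2) h, mul_nonneg (sub_pos.mpr k1).le hC]
  · have hC' : 0 < Real.cos (α / 2) := by
      rcases hC.lt_or_eq with h3 | h3
      · exact h3
      · rw [← h, ← h3] at h1
        norm_num at h1
    nlinarith [mul_pos (sub_pos.mpr k1) hC', mul_nonneg (sub_pos.mpr k2).le hS]

theorem dd_zero (x α : ℝ) : dd x α 0 = Real.cos ((x + α) / 2) := by
  have h : ecc 0 x = x := ecc_eq (by simp) (by simp)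
  unfold dd
  rw [h, show (x + α) / 2 = x / 2 + α / 2 by ring, Real.cos_add]
  simp

theorem dd_zero' (x α : ℝ) : dd (π - x) (π - α) 0 = -Real.cos ((x + α) / 2) := by
  rw [dd_zero, show (π - x + (π - α)) / 2 = π - (x + α) / 2 by ring, Real.cos_pi_sub]

theorem dd_one_neg {x α : ℝ} (hx : x ∈ Ioo 0 π) (hα : α ∈ Ioc 0 π) : dd x α 1 < 0 := by
  obtain ⟨hs, hc⟩ := half_pos' (ecc_mem (e := 1) (by simp) hx)
  have hS : 0 < Real.sin (α / 2) :=
    Real.sin_pos_of_pos_of_lt_pi (by linarith [hα.1]) (by linarith [hα.2, Real.pi_pos])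
  unfold dd
  have hq : 0 < Real.sqrt (1 + 1) := Real.sqrt_pos.mpr (by norm_num)
  have := mul_pos (mul_pos hq hs) hS
  simp only [sub_self, Real.sqrt_zero, zero_mul]
  linarith

theorem dd_anti_x {e : ℝ} (he : |e| < 1) {x y : ℝ} (hx : 0 < x) (hxy : x < y) (hy : y < π) :
    dd y y e < dd x x e := by
  have he' := abs_lt.mp he
  have hp : 0 < Real.sqrt (1 - e) := Real.sqrt_pos.mpr (by linarith)
  have hq : 0 < Real.sqrt (1 + e) := Real.sqrt_pos.mpr (by linarith)
  have hxm : x ∈ Ioo 0 π := ⟨hx, hxy.trans hy⟩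
  have hym : y ∈ Ioo 0 π := ⟨hx.trans hxy, hy⟩
  have hE := ecc_strictMono he.le hxy
  have h1 := ecc_mem he.le hxm
  have h2 := ecc_mem he.le hym
  obtain ⟨hs, hc⟩ := half_pos' h1
  obtain ⟨hs', hc'⟩ := half_pos' h2
  obtain ⟨hS, hC⟩ := half_pos' hxm
  obtain ⟨hS', hC'⟩ := half_pos' hym
  have hcc : Real.cos (ecc e y / 2) < Real.cos (ecc e x / 2) :=
    Real.cos_lt_cos_of_nonneg_of_le_pi (by linarith [h1.1]) (by linarith [h2.2, Real.pi_pos]) (by linarith)
  have hss : Real.sin (ecc e x / 2) < Real.sin (ecc e y / 2) :=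
    Real.sin_lt_sin_of_lt_of_le_pi_div_two (by linarith [h1.1, Real.pi_pos]) (by linarith [h2.2])
      (by linarith)
  have hCC : Real.cos (y / 2) < Real.cos (x / 2) :=
    Real.cos_lt_cos_of_nonneg_of_le_pi (by linarith) (by linarith [Real.pi_pos]) (by linarith)
  have hSS : Real.sin (x / 2) < Real.sin (y / 2) :=
    Real.sin_lt_sin_of_lt_of_le_pi_div_two (by linarith [Real.pi_pos]) (by linarith)
      (by linarith)
  have k1 : Real.cos (ecc e y / 2) * Real.cos (y / 2) < Real.cos (ecc e x / 2) * Real.cos (x / 2) :=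
    mul_lt_mul'' hcc hCC hc'.le hC'.le
  have k2 : Real.sin (ecc e x / 2) * Real.sin (x / 2) < Real.sin (ecc e y / 2) * Real.sin (y / 2) :=
    mul_lt_mul'' hss hSS hs.le hS.le
  unfold dd
  nlinarith [mul_pos hp (sub_pos.mpr k1), mul_pos hq (sub_pos.mpr k2)]

theorem kz_ne_zero_of_mem {e x : ℝ} (he : |e| ≤ 1) (hx : x ∈ Ioo 0 π) : kz e x ≠ 0 := by
  intro h
  have h1 := norm_kz he x
  rw [h, norm_zero] at h1
  have h2 := ecc_mem he hx
  have h3 : |Real.cos (ecc e x)| < 1 := by
    have h4 := Real.sin_pos_of_pos_of_lt_pi h2.1 h2.2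
    have h5 := Real.sin_sq_add_cos_sq (ecc e x)
    rw [abs_lt]
    constructor <;> nlinarith
  have h4 : |e * Real.cos (ecc e x)| < 1 := by
    rw [abs_mul]
    calc |e| * |Real.cos (ecc e x)| ≤ 1 * |Real.cos (ecc e x)| :=
          mul_le_mul_of_nonneg_right he (abs_nonneg _)
      _ < 1 := by rwa [one_mul]
  have := (abs_lt.mp h4).2
  linarith

private theorem conj_exp (α : ℝ) : (starRingEnd ℂ) (Complex.exp ((α : ℂ) * Complex.I)) =
    Complex.exp (-((α : ℂ) * Complex.I)) := by
  rw [← Complex.exp_conj]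
  simp

/-- if `dd x α e = 0` then the planets collide at time `-x` -/
theorem coll_of_dd {x α e : ℝ} (he : |e| ≤ 1) (h : dd x α e = 0) :
    kz e (-x) = Complex.exp (((2 * α : ℝ) : ℂ) * Complex.I) * kz e (-x + 2 * x) := by
  have h1 := dd_im (x := x) (α := α) he
  rw [h, mul_zero, zero_mul] at h1
  have h2 : (starRingEnd ℂ) (Complex.exp ((α : ℂ) * Complex.I) * kz e x) =
      Complex.exp ((α : ℂ) * Complex.I) * kz e x := Complex.conj_eq_iff_im.mpr h1
  rw [map_mul, conj_exp] at h2
  rw [kz_neg he, show -x + 2 * x = x by ring]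
  have h3 : Complex.exp ((α : ℂ) * Complex.I) * Complex.exp (-((α : ℂ) * Complex.I)) = 1 := by
    rw [← Complex.exp_add]
    simp
  have h4 : Complex.exp (((2 * α : ℝ) : ℂ) * Complex.I) =
      Complex.exp ((α : ℂ) * Complex.I) * Complex.exp ((α : ℂ) * Complex.I) := by
    rw [← Complex.exp_add]
    congr 1
    push_cast
    ring
  calc (starRingEnd ℂ) (kz e x) = Complex.exp ((α : ℂ) * Complex.I) *
        (Complex.exp (-((α : ℂ) * Complex.I)) * (starRingEnd ℂ) (kz e x)) := by
        rw [← mul_assoc, h3, one_mul]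
    _ = _ := by
        rw [h2, h4]
        ring

/-- the collision times, `0 < e < 1` -/
theorem dd_of_coll {x α e t : ℝ} (he : 0 < e) (he1 : e < 1) (hx : x ∈ Ioo 0 π) (hα : α ∈ Icc 0 π)
    (h : kz e t = Complex.exp (((2 * α : ℝ) : ℂ) * Complex.I) * kz e (t + 2 * x)) :
    dd x α e = 0 ∨ dd (π - x) (π - α) e = 0 := by
  have ha : |e| < 1 := by
    rw [abs_of_pos he]
    exact he1
  have hn : ‖kz e t‖ = ‖kz e (t + 2 * x)‖ := by
    rw [h, norm_mul, Complex.norm_exp_ofReal_mul_I, one_mul]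
  rw [norm_kz ha.le, norm_kz ha.le] at hn
  have hc : Real.cos (ecc e t) = Real.cos (ecc e (t + 2 * x)) := by
    have : e * Real.cos (ecc e t) = e * Real.cos (ecc e (t + 2 * x)) := by linarith
    exact mul_left_cancel₀ he.ne' this
  have s1 := ecc_spec ha.le t
  have s2 := ecc_spec ha.le (t + 2 * x)
  have hper : Function.Periodic (kz e) (2 * π) := kz_add_two_pi ha.le
  rw [Real.cos_eq_cos_iff] at hc
  obtain ⟨k, hk | hk⟩ := hc
  · exfalso
    rw [hk] at s2
    rw [show 2 * (k : ℝ) * π + ecc e t = ecc e t + k * (2 * π) by ring,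
      Real.sin_add_int_mul_two_pi] at s2
    have h2 : x = k * π := by linarith
    have h3 := hx.1
    have h4 := hx.2
    rw [h2] at h3 h4
    have h5 : (0 : ℝ) < k := by
      by_contra hh
      push Not at hh
      nlinarith [mul_nonneg (neg_nonneg.mpr hh) Real.pi_pos.le]
    have h6 : (k : ℝ) < 1 := by nlinarith [Real.pi_pos]
    have h7 : (0 : ℤ) < k := by exact_mod_cast h5
    have h8 : k < (1 : ℤ) := by exact_mod_cast h6
    omega
  · have ht : t = k * π - x := by
      rw [hk] at s2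
      rw [show 2 * (k : ℝ) * π - ecc e t = -ecc e t + k * (2 * π) by ring,
        Real.sin_add_int_mul_two_pi, Real.sin_neg] at s2
      linarith
    rcases Int.even_or_odd k with ⟨l, hl⟩ | ⟨l, hl⟩
    · left
      have h1 : kz e t = (starRingEnd ℂ) (kz e x) := by
        rw [ht, hl, ← kz_neg ha.le]
        have := hper.int_mul l (-x)
        rw [← this]
        congr 1
        push_cast
        ring
      have h2 : kz e (t + 2 * x) = kz e x := by
        rw [ht, hl]
        have := hper.int_mul l x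
        rw [← this]
        congr 1
        push_cast
        ring
      rw [h1, h2] at h
      have h3 : (starRingEnd ℂ) (Complex.exp ((α : ℂ) * Complex.I) * kz e x) =
          Complex.exp ((α : ℂ) * Complex.I) * kz e x := by
        rw [map_mul, conj_exp, h, ← mul_assoc, ← Complex.exp_add]
        congr 2
        push_cast
        ring
      have h4 := Complex.conj_eq_iff_im.mp h3
      rw [dd_im ha.le] at h4
      have h5 := pp_pos ha hx hα
      rcases mul_eq_zero.mp h4 with h6 | h6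
      · linarith
      · exact absurd h6 h5.ne'
    · right
      have hx' : π - x ∈ Ioo 0 π := ⟨by linarith [hx.2], by linarith [hx.1]⟩
      have hα' : π - α ∈ Icc 0 π := ⟨by linarith [hα.2], by linarith [hα.1]⟩
      have h1 : kz e t = kz e (π - x) := by
        rw [ht, hl]
        have := hper.int_mul l (π - x)
        rw [← this]
        congr 1
        push_cast
        ring
      have h2 : kz e (t + 2 * x) = (starRingEnd ℂ) (kz e (π - x)) := by
        rw [ht, hl, ← kz_neg ha.le]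
        have := hper.int_mul (l + 1) (-(π - x))
        rw [← this]
        congr 1
        push_cast
        ring
      rw [h1, h2] at h
      have h3 : (starRingEnd ℂ) (Complex.exp (((π - α : ℝ) : ℂ) * Complex.I) * kz e (π - x)) =
          Complex.exp (((π - α : ℝ) : ℂ) * Complex.I) * kz e (π - x) := by
        conv_rhs => rw [h]
        rw [map_mul, conj_exp, ← mul_assoc, ← Complex.exp_add]
        congr 1
        rw [Complex.exp_eq_exp_iff_exists_int]
        refine ⟨-1, ?_⟩
        push_cast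
        ring
      have h4 := Complex.conj_eq_iff_im.mp h3
      rw [dd_im ha.le] at h4
      have h5 := pp_pos ha hx' hα'
      rcases mul_eq_zero.mp h4 with h6 | h6
      · linarith
      · exact absurd h6 h5.ne'

end Pool.Agent.Helper43.Kep
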