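import Pool.Agent.Helper43.Kep.Defs

/-!
KEP XWIND: winding numbers of nonvanishing `2π`-periodic loops, homotopy invariance.
-/

set_option autoImplicit false

namespace Pool.Agent.Helper43.Kep

open Real Set Filter Topology

/-- the nonvanishing loop `f` (period `2π`) has winding number `n` around `0`: it has a continuous polar angle
`θ` with `θ(t + 2π) = θ(t) + 2πn`. -/
def Wind (f : ℝ → ℂ) (n : ℤ) : Prop :=
  (∀ t, f t ≠ 0) ∧ ∃ θ : ℝ → ℝ, Continuous θ ∧
    (∀ t, f t = (‖f t‖ : ℂ) * Complex.exp ((θ t : ℂ) * Complex.I)) ∧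
    ∀ t, θ (t + 2 * π) = θ t + 2 * π * n

theorem Wind.unique {f : ℝ → ℂ} {n m : ℤ} (h : Wind f n) (h' : Wind f m) : n = m := by
  obtain ⟨h0, θ, hθ, he, hp⟩ := h
  obtain ⟨-, φ, hφ, he', hp'⟩ := h'
  have hI : ∀ t, ∃ k : ℤ, (θ t - φ t) / (2 * π) = (k : ℝ) := by
    intro t
    have hn : (‖f t‖ : ℂ) ≠ 0 := by
      simpa using h0 t
    have h1 : Complex.exp ((θ t : ℂ) * Complex.I) = Complex.exp ((φ t : ℂ) * Complex.I) :=
      mul_left_cancel₀ hn ((he t).symm.trans (he' t))
    rw [Complex.exp_eq_exp_iff_exists_int] at h1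
    obtain ⟨k, hk⟩ := h1
    refine ⟨k, ?_⟩
    have h2 : (θ t : ℂ) = φ t + k * (2 * π) := by
      have : ((θ t : ℂ) - (φ t + k * (2 * π))) * Complex.I = 0 := by
        linear_combination hk
      rcases mul_eq_zero.mp this with h | h
      · linear_combination h
      · exact absurd h Complex.I_ne_zero
    have h3 : θ t = φ t + k * (2 * π) := by exact_mod_cast h2
    rw [h3]
    field_simp
    ring
  have hc : Continuous fun t => (θ t - φ t) / (2 * π) := (hθ.sub hφ).div_const _
  have hD : IsDiscrete (range ((↑) : ℤ → ℝ)) := by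
    exact Int.isClosedEmbedding_coe_real.isInducing.isDiscrete_range
  have key := isPreconnected_univ.constant_of_mapsTo (S := (univ : Set ℝ)) hD hc.continuousOn
    (fun t _ => by
      obtain ⟨k, hk⟩ := hI t
      exact ⟨k, hk.symm⟩) (mem_univ (0 + 2 * π)) (mem_univ 0)
  have h1 := hp 0
  have h2 := hp' 0
  rw [h1, h2] at key
  have hπ := Real.pi_pos
  field_simp at key
  have : (n : ℝ) = m := by
    nlinarith
  exact_mod_cast this

theorem Wind.near {f g : ℝ → ℂ} {n : ℤ} (h : Wind f n) (hf : Continuous f) (hg : Continuous g)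
    (hfp : ∀ t, f (t + 2 * π) = f t) (hgp : ∀ t, g (t + 2 * π) = g t)
    (hd : ∀ t, ‖g t - f t‖ < ‖f t‖) : Wind g n := by
  obtain ⟨h0, θ, hθ, he, hp⟩ := h
  have hs : ∀ t, g t / f t ∈ Complex.slitPlane := by
    intro t
    left
    have h1 : ‖g t / f t - 1‖ < 1 := by
      rw [div_sub_one (h0 t), norm_div, div_lt_one (norm_pos_iff.mpr (h0 t))]
      exact hd t
    have h2 : |(g t / f t - 1).re| < 1 := lt_of_le_of_lt (Complex.abs_re_le_norm _) h1
    rw [Complex.sub_re, Complex.one_re, abs_lt] at h2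
    linarith [h2.1]
  have hg0 : ∀ t, g t ≠ 0 := by
    intro t ht
    have := hd t
    rw [ht, zero_sub, norm_neg] at this
    exact lt_irrefl _ this
  refine ⟨hg0, fun t => θ t + Complex.arg (g t / f t), ?_, ?_, ?_⟩
  · refine hθ.add ?_
    rw [continuous_iff_continuousAt]
    intro t
    exact ContinuousAt.comp (f := fun t => g t / f t) (Complex.continuousAt_arg (hs t))
      ((hg.div hf h0).continuousAt)
  · intro t
    have h1 : g t = f t * (g t / f t) := by
      rw [mul_div_cancel₀ _ (h0 t)]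
    have h2 := Complex.norm_mul_exp_arg_mul_I (g t / f t)
    have h3 : (‖g t‖ : ℂ) = ‖f t‖ * ‖g t / f t‖ := by
      rw [norm_div]
      have := norm_ne_zero_iff.mpr (h0 t)
      push_cast
      rw [mul_div_cancel₀]
      exact_mod_cast this
    calc g t = f t * (g t / f t) := h1
      _ = ((‖f t‖ : ℂ) * Complex.exp ((θ t : ℂ) * Complex.I)) *
          ((‖g t / f t‖ : ℂ) * Complex.exp ((Complex.arg (g t / f t) : ℂ) * Complex.I)) := by
          rw [h2, ← he t]
      _ = _ := by
          rw [h3]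
          push_cast
          rw [add_mul, Complex.exp_add]
          ring
  · intro t
    simp only
    rw [hp, hfp, hgp]
    ring

theorem Wind.homotopy {H : ℝ → ℝ → ℂ} {a b : ℝ} (hab : a ≤ b)
    (hc : ContinuousOn (fun p : ℝ × ℝ => H p.1 p.2) (Icc a b ×ˢ univ))
    (hp : ∀ s ∈ Icc a b, ∀ t, H s (t + 2 * π) = H s t) (h0 : ∀ s ∈ Icc a b, ∀ t, H s t ≠ 0)
    {n : ℤ} : Wind (H a) n ↔ Wind (H b) n := by
  have hcs : ∀ s ∈ Icc a b, Continuous (H s) := by
    intro s hs
    rw [← continuousOn_univ]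
    exact hc.comp (continuousOn_const.prodMk continuousOn_id) (fun t _ => Set.mk_mem_prod hs (mem_univ _))
  have hKc : IsCompact (Icc a b ×ˢ Icc (0 : ℝ) (2 * π)) := isCompact_Icc.prod isCompact_Icc
  have hcK : ContinuousOn (fun p : ℝ × ℝ => H p.1 p.2) (Icc a b ×ˢ Icc (0 : ℝ) (2 * π)) :=
    hc.mono (Set.prod_mono_right (subset_univ _))
  have huc := hKc.uniformContinuousOn_of_continuous hcK
  rw [Metric.uniformContinuousOn_iff] at huc
  have hper : ∀ s ∈ Icc a b, ∀ t, ∃ u ∈ Icc (0 : ℝ) (2 * π), ∀ s' ∈ Icc a b, H s' t = H s' u := by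
    intro s _ t
    have hπ : (0 : ℝ) < 2 * π := by positivity
    refine ⟨toIcoMod hπ 0 t, ?_, ?_⟩
    · have := toIcoMod_mem_Ico hπ 0 t
      rw [zero_add] at this
      exact ⟨this.1, this.2.le⟩
    · intro s' hs'
      have hper' : Function.Periodic (H s') (2 * π) := hp s' hs'
      have h1 : toIcoMod hπ 0 t = t - toIcoDiv hπ 0 t • (2 * π) := rfl
      rw [h1, hper'.sub_zsmul_eq]
  have hloc : ∀ s ∈ Icc a b, ∀ᶠ s' in 𝓝[Icc a b] s, (Wind (H s) n ↔ Wind (H s') n) := by
    intro s hs
    obtain ⟨t0, ht0, hmin⟩ := (isCompact_Icc (a := (0:ℝ)) (b := 2 * π)).exists_isMinOn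
      (nonempty_Icc.mpr (by positivity)) (hcs s hs).norm.continuousOn
    have hδ : 0 < ‖H s t0‖ := norm_pos_iff.mpr (h0 s hs t0)
    obtain ⟨r, hr, hr'⟩ := huc (‖H s t0‖ / 2) (by positivity)
    have : ∀ᶠ s' in 𝓝[Icc a b] s, dist s' s < r ∧ s' ∈ Icc a b := by
      refine Filter.Eventually.and ?_ self_mem_nhdsWithin
      exact nhdsWithin_le_nhds (Metric.ball_mem_nhds s hr)
    filter_upwards [this] with s' hs'
    have hcl : ∀ t, ‖H s' t - H s t‖ < ‖H s t0‖ / 2 := by
      intro t
      obtain ⟨u, hu, hu'⟩ := hper s hs t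
      rw [hu' s hs, hu' s' hs'.2, ← dist_eq_norm]
      have := hr' (s', u) ⟨hs'.2, hu⟩ (s, u) ⟨hs, hu⟩ (by
        rw [Prod.dist_eq]
        simp only [dist_self]
        exact max_lt hs'.1 hr)
      exact this
    have hge : ∀ t, ‖H s t0‖ ≤ ‖H s t‖ := by
      intro t
      obtain ⟨u, hu, hu'⟩ := hper s hs t
      rw [hu' s hs]
      exact hmin hu
    constructor
    · intro hw
      exact hw.near (hcs s hs) (hcs s' hs'.2) (hp s hs) (hp s' hs'.2)
        (fun t => (hcl t).trans_le ((half_le_self hδ.le).trans (hge t)))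
    · intro hw
      refine hw.near (hcs s' hs'.2) (hcs s hs) (hp s' hs'.2) (hp s hs) (fun t => ?_)
      rw [norm_sub_rev]
      have h1 := hcl t
      have h2 := hge t
      have h3 : ‖H s t‖ ≤ ‖H s' t‖ + ‖H s' t - H s t‖ := by
        have := norm_sub_le (H s' t) (H s' t - H s t)
        simpa using this
      linarith
  have := isPreconnected_Icc.induction₂ (fun x y => (Wind (H x) n ↔ Wind (H y) n)) hloc
    (fun x y z _ _ _ h1 h2 => h1.trans h2) (fun x y _ _ h => h.symm)
    (left_mem_Icc.mpr hab) (right_mem_Icc.mpr hab)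
  exact this

theorem wind_exp (n : ℤ) : Wind (fun t => Complex.exp (((n * t : ℝ) : ℂ) * Complex.I)) n := by
  refine ⟨fun t => Complex.exp_ne_zero _, fun t => n * t, by fun_prop, fun t => ?_, fun t => by ring⟩
  rw [Complex.norm_exp_ofReal_mul_I]
  simp

theorem wind_const {c : ℂ} (hc : c ≠ 0) : Wind (fun _ => c) 0 := by
  refine ⟨fun _ => hc, fun _ => Complex.arg c, continuous_const, fun t => ?_, fun t => by simp⟩
  rw [Complex.norm_mul_exp_arg_mul_I]

theorem Wind.smul {f : ℝ → ℂ} {n : ℤ} (h : Wind f n) {c : ℂ} (hc : c ≠ 0) (σ : ℝ) :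
    Wind (fun t => c * f (t + σ)) n := by
  obtain ⟨h0, θ, hθ, he, hp⟩ := h
  refine ⟨fun t => mul_ne_zero hc (h0 _), fun t => θ (t + σ) + Complex.arg c, by fun_prop, fun t => ?_,
    fun t => ?_⟩
  · have h2 := Complex.norm_mul_exp_arg_mul_I c
    calc c * f (t + σ) = ((‖c‖ : ℂ) * Complex.exp ((Complex.arg c : ℂ) * Complex.I)) *
          ((‖f (t + σ)‖ : ℂ) * Complex.exp ((θ (t + σ) : ℂ) * Complex.I)) := by
          rw [h2, ← he]
      _ = _ := by
          rw [norm_mul]
          push_cast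
          rw [add_mul, Complex.exp_add]
          ring
  · simp only
    rw [show t + 2 * π + σ = t + σ + 2 * π by ring, hp]
    ring

/-- a loop in the right half plane (after multiplication by a constant) has winding number `0` -/
theorem wind_zero_of_re_pos {f : ℝ → ℂ} (hf : Continuous f) (hp : ∀ t, f (t + 2 * π) = f t)
    {c : ℂ} (h : ∀ t, 0 < (c * f t).re) : Wind f 0 := by
  have hc : c ≠ 0 := by
    rintro rfl
    simpa using h 0
  have h1 : Wind (fun t => c * f t) 0 := by
    refine ⟨fun t ht => ?_, fun t => Complex.arg (c * f t), ?_, fun t => ?_, fun t => ?_⟩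
    · have := h t
      simp only at ht
      rw [ht] at this
      simp at this
    · rw [continuous_iff_continuousAt]
      intro t
      exact ContinuousAt.comp (f := fun t => c * f t) (Complex.continuousAt_arg (Or.inl (h t)))
        ((continuous_const.mul hf).continuousAt)
    · rw [Complex.norm_mul_exp_arg_mul_I]
    · simp only
      rw [hp]
      simp
  have h2 := h1.smul (inv_ne_zero hc) 0
  have h3 : (fun t => c⁻¹ * (c * f (t + 0))) = f := by
    funext t
    rw [add_zero, ← mul_assoc, inv_mul_cancel₀ hc, one_mul]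
  rwa [h3] at h2

/-- the linking number of the bodies `a`, `b` is `n` -/
def Lk {B : Type} (x : ℝ → B → ℂ) (a b : B) (n : ℤ) : Prop := Wind (fun t => x t b - x t a) n

/-- linking numbers are invariants of the braid type -/
theorem SameBraid.lk {B : Type} {x y : ℝ → B → ℂ} (h : SameBraid (2 * π) x y) {a b : B} (hab : a ≠ b)
    {n : ℤ} : Lk x a b n ↔ Lk y a b n := by
  obtain ⟨H, hc, h0, hp, hx, hy⟩ := h
  have key := Wind.homotopy (H := fun s t => H s t b - H s t a) (n := n) zero_le_one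
    ((hc b).sub (hc a)) (fun s hs t => by simp only [hp s hs]) (fun s hs t => sub_ne_zero.mpr (h0 s hs t b a hab.symm))
  simp only [hx, hy] at key
  exact key

end Pool.Agent.Helper43.Kep
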